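import Pool.Agent.Lib.RV5.Blue

/-! The averaged dilogarithm on the upper half-plane and its boundary value at `1`. -/

open Complex MeasureTheory Filter Topology Set
open scoped Real

namespace RV5

namespace Bnd2

noncomputable def mu1 : Measure (Fin 3 → ℝ) := volume.restrict (Icc 0 1)

noncomputable def mu2 : Measure ℝ := volume.restrict (Ioc 0 1)

instance : IsFiniteMeasure mu1 := ⟨by simpa [mu1] using isCompact_Icc.measure_lt_top⟩

instance : IsFiniteMeasure mu2 := ⟨by simp [mu2]⟩

noncomputable def G (z : ℂ) (x : (Fin 3 → ℝ) × ℝ) : ℂ :=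
  -Complex.log (1 - ((x.2 * sN x.1 : ℝ) : ℂ) * z) / (x.2 : ℂ)

lemma cont_sN : Continuous sN := by
  have := RV6.continuous_ee
  unfold sN
  fun_prop

lemma sN_nonneg (t : Fin 3 → ℝ) : 0 ≤ sN t := sq_nonneg _

lemma sN_le (t : Fin 3 → ℝ) : sN t ≤ 16 := by
  have h : ‖1 + ∑ j, RV6.ee (t j)‖ ≤ 4 := by
    refine (norm_add_le _ _).trans ?_
    have := norm_sum_le Finset.univ fun j => RV6.ee (t j)
    simp only [RV6.norm_ee] at this
    simp at this ⊢
    linarith
  unfold sN
  nlinarith [norm_nonneg (1 + ∑ j, RV6.ee (t j))]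

lemma meas_G (z : ℂ) : Measurable (G z) := by
  have := cont_sN.measurable
  unfold G
  fun_prop

lemma ae_mem : ∀ᵐ x ∂mu1.prod mu2, x.2 ∈ Ioc (0 : ℝ) 1 :=
  Measure.quasiMeasurePreserving_snd.ae (ae_restrict_mem measurableSet_Ioc)

lemma slit {a : ℝ} (ha : 0 ≤ a) {z : ℂ} (hz : 0 < z.im) : 1 - (a : ℂ) * z ∈ slitPlane := by
  rcases ha.eq_or_lt with rfl | ha
  · simp
  · right
    simp [ha.ne', hz.ne']

lemma norm_ge (a : ℝ) {z : ℂ} (hz : 0 < z.im) : z.im / ‖z‖ ≤ ‖1 - (a : ℂ) * z‖ := by
  have h0 : z ≠ 0 := fun h => by simp [h] at hz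
  rw [div_le_iff₀ (norm_pos_iff.mpr h0), ← Complex.norm_conj, ← norm_mul]
  refine le_trans (le_of_eq ?_) ((le_abs_self _).trans (Complex.abs_im_le_norm _))
  simp
  ring

lemma norm_div_le {a : ℝ} {z : ℂ} (hz : 0 < z.im) (w : ℂ) :
    ‖w / (1 - (a : ℂ) * z)‖ ≤ ‖w‖ * (‖z‖ / z.im) := by
  have h0 : 0 < ‖z‖ := norm_pos_iff.mpr fun h => by simp [h] at hz
  rw [norm_div, div_eq_mul_inv, ← inv_div]
  gcongr
  exact norm_ge a hz

lemma log_le {a : ℝ} (ha : 0 ≤ a) {z : ℂ} (hz : 0 < z.im) :
    ‖Complex.log (1 - (a : ℂ) * z)‖ ≤ ‖z‖ * (‖z‖ / z.im) * a := by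
  have h := norm_image_sub_le_of_norm_deriv_le_segment' (a := 0) (b := a)
    (f := fun u : ℝ => Complex.log (1 - (u : ℂ) * z)) (f' := fun u => -z / (1 - (u : ℂ) * z))
    (C := ‖z‖ * (‖z‖ / z.im)) (fun u hu => ?_) (fun u _ => ?_) a ⟨ha, le_rfl⟩
  · simpa using h
  · have := ((((hasDerivAt_id (u : ℂ)).mul_const z).const_sub 1).clog (slit hu.1 hz)).comp_ofReal
    simpa using this.hasDerivWithinAt
  · simpa using norm_div_le hz (-z)

lemma int_G {z : ℂ} (hz : 0 < z.im) : Integrable (G z) (mu1.prod mu2) := by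
  refine Integrable.of_bound (meas_G z).aestronglyMeasurable (‖z‖ * (‖z‖ / z.im) * 16)
    (ae_mem.mono fun x hx => ?_)
  rw [G, norm_div, norm_neg, Complex.norm_real, Real.norm_of_nonneg hx.1.le, div_le_iff₀ hx.1]
  refine (log_le (mul_nonneg hx.1.le (sN_nonneg _)) hz).trans ?_
  rw [mul_assoc _ 16, mul_comm 16]
  have := sN_le x.1
  have := hx.1
  gcongr

lemma diff_F {z : ℂ} (hz : 0 < z.im) :
    DifferentiableAt ℂ (fun z => ∫ x, G z x ∂mu1.prod mu2) z := by
  have hm := cont_sN.measurable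
  have hb : ∀ w ∈ Metric.ball z (z.im / 2), z.im / 2 ≤ w.im ∧ ‖w‖ ≤ ‖z‖ + z.im / 2 := fun w hw => by
    rw [mem_ball_iff_norm] at hw
    have h1 := Complex.abs_im_le_norm (w - z)
    have h2 := norm_add_le z (w - z)
    rw [Complex.sub_im, abs_le] at h1
    rw [add_sub_cancel] at h2
    constructor <;> linarith [h1.1]
  refine (hasDerivAt_integral_of_dominated_loc_of_deriv_le (μ := mu1.prod mu2)
    (Metric.ball_mem_nhds z (half_pos hz)) (.of_forall fun w => (meas_G w).aestronglyMeasurable)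
    (int_G hz) (F' := fun w x => (sN x.1 : ℂ) / (1 - ((x.2 * sN x.1 : ℝ) : ℂ) * w))
    (Measurable.aestronglyMeasurable (by fun_prop))
    (bound := fun _ => 16 * ((‖z‖ + z.im / 2) / (z.im / 2))) (.of_forall fun x w hw => ?_)
    (integrable_const _) (ae_mem.mono fun x hx w hw => ?_)).2.differentiableAt
  · obtain ⟨h1, h2⟩ := hb w hw
    refine (norm_div_le (by linarith) _).trans ?_
    rw [Complex.norm_real, Real.norm_of_nonneg (sN_nonneg _)]
    have := sN_le x.1
    have : 0 < w.im := by linarith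
    gcongr
  · have h0 : (x.2 : ℂ) ≠ 0 := by exact_mod_cast hx.1.ne'
    have hs := slit (mul_nonneg hx.1.le (sN_nonneg x.1)) (z := w) (by linarith [(hb w hw).1])
    have := ((((hasDerivAt_id w).const_mul ((x.2 * sN x.1 : ℝ) : ℂ)).const_sub 1).clog hs).neg.div_const
      (x.2 : ℂ)
    refine this.congr_deriv ?_
    simp only [id]
    push_cast
    field_simp

lemma int_pow (n : ℕ) : ∫ r, r ^ n ∂mu2 = 1 / (n + 1) := by
  rw [mu2, ← intervalIntegral.integral_of_le zero_le_one, integral_pow]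
  simp

lemma series {z : ℂ} (hz : ‖z‖ < 1 / 16) :
    HasSum (fun n : ℕ => (mom n : ℂ) / (n : ℂ) ^ 2 * z ^ n) (∫ x, G z x ∂mu1.prod mu2) := by
  have hm := cont_sN.measurable
  have hb : ∀ n : ℕ, ∀ᵐ x ∂mu1.prod mu2,
      ‖z ^ (n + 1) / (n + 1) * ((sN x.1 ^ (n + 1) * x.2 ^ n : ℝ) : ℂ)‖ ≤ (16 * ‖z‖) ^ (n + 1) :=
    fun n => ae_mem.mono fun x hx => by
      have h1 := sN_nonneg x.1
      have h2 := sN_le x.1
      have h3 := hx.1
      rw [norm_mul, norm_div, norm_pow, Complex.norm_real, Real.norm_of_nonneg (by positivity),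
        ← Nat.cast_succ, Complex.norm_natCast, mul_pow, mul_comm (16 ^ _)]
      refine mul_le_mul (div_le_self (by positivity) (by simp)) ?_ (by positivity) (by positivity)
      exact (mul_le_of_le_one_right (by positivity) (pow_le_one₀ h3.le hx.2)).trans (by gcongr)
  have hi : ∀ n : ℕ, Integrable (fun x : (Fin 3 → ℝ) × ℝ =>
      z ^ (n + 1) / (n + 1) * ((sN x.1 ^ (n + 1) * x.2 ^ n : ℝ) : ℂ)) (mu1.prod mu2) := fun n =>
    Integrable.of_bound (Measurable.aestronglyMeasurable (by fun_prop)) _ (hb n)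
  have hs := hasSum_integral_of_summable_integral_norm hi (Summable.of_nonneg_of_le
    (fun n => integral_nonneg fun _ => norm_nonneg _)
    (fun n => integral_mono_ae (hi n).norm (integrable_const _) (hb n)) (by
      simp only [integral_const, smul_eq_mul]
      exact ((summable_nat_add_iff 1).mpr (summable_geometric_of_lt_one (by positivity)
        (by linarith))).mul_left _))
  rw [← hasSum_nat_add_iff' 1]
  simp only [Finset.range_one, Finset.sum_singleton, Nat.cast_zero, ne_eq, OfNat.ofNat_ne_zero,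
    not_false_eq_true, zero_pow, div_zero, zero_mul, sub_zero]
  convert hs using 1
  · funext n
    have : (n : ℂ) + 1 ≠ 0 := by exact_mod_cast n.succ_ne_zero
    rw [integral_const_mul, integral_complex_ofReal,
      integral_prod_mul (fun t => sN t ^ (n + 1)) (fun r : ℝ => r ^ n), int_pow, mom, mu1]
    push_cast
    field_simp
  · refine integral_congr_ae (ae_mem.mono fun x hx => ?_)
    have h0 : (x.2 : ℂ) ≠ 0 := by exact_mod_cast hx.1.ne'
    have h1 := sN_nonneg x.1
    have h2 := sN_le x.1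
    have h3 := hx.1
    have h4 : x.2 * sN x.1 ≤ 16 := (mul_le_of_le_one_left h1 hx.2).trans h2
    have := (Complex.hasSum_taylorSeries_neg_log' (z := ((x.2 * sN x.1 : ℝ) : ℂ) * z) (by
      rw [norm_mul, Complex.norm_real, Real.norm_of_nonneg (by positivity)]
      nlinarith [norm_nonneg z])).div_const (x.2 : ℂ)
    refine (HasSum.tsum_eq (this.congr_fun fun n => ?_)).symm
    push_cast
    field_simp
    ring

noncomputable def lim (x : (Fin 3 → ℝ) × ℝ) : ℝ := if 1 < x.2 * sN x.1 then π / x.2 else 0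

lemma inner {s : ℝ} (hs : 0 ≤ s) :
    ∫ r, (if 1 < r * s then π / r else 0) ∂mu2 = π * Real.posLog s := by
  by_cases h : s ≤ 1
  · rw [(Real.posLog_eq_zero_iff s).mpr (by rwa [abs_of_nonneg hs]), mul_zero, mu2]
    refine setIntegral_eq_zero_of_forall_eq_zero fun r hr => if_neg ?_
    exact not_lt.mpr (mul_le_one₀ hr.2 hs h)
  · push Not at h
    have h0 : 0 < s := by linarith
    have e : (fun r : ℝ => if 1 < r * s then π / r else 0) =
        (Ioi (1 / s)).indicator fun r => π * r⁻¹ := by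
      funext r
      simp only [indicator_apply, mem_Ioi, div_lt_iff₀ h0, div_eq_mul_inv π]
    have h1 : 1 / s ≤ 1 := (div_le_one h0).mpr h.le
    rw [e, mu2, setIntegral_indicator measurableSet_Ioi, Ioc_inter_Ioi,
      max_eq_right (by positivity), ← intervalIntegral.integral_of_le h1,
      intervalIntegral.integral_const_mul, integral_inv_of_pos (by positivity) one_pos,
      Real.posLog_eq_log (by rw [abs_of_pos h0]; exact h.le), one_div_one_div]

lemma int_lim : ∫ x, lim x ∂mu1.prod mu2 = π * mP := by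
  have hm := cont_sN.measurable
  rw [integral_prod lim (Integrable.of_bound (Measurable.aestronglyMeasurable
    (Measurable.ite (measurableSet_lt measurable_const (by fun_prop)) (by fun_prop)
      measurable_const)) (16 * π) (ae_mem.mono fun x hx => ?_))]
  · simp only [lim, inner (sN_nonneg _)]
    rw [integral_const_mul, mP, mu1]
  · have := Real.pi_pos
    unfold lim
    split_ifs with h
    · rw [Real.norm_of_nonneg (div_pos this hx.1).le, div_le_iff₀ hx.1]
      have h2 := sN_le x.1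
      have h3 : 1 ≤ x.2 * 16 := h.le.trans (mul_le_mul_of_nonneg_left h2 hx.1.le)
      nlinarith
    · simp; positivity

lemma ae_ne : ∀ᵐ x ∂mu1.prod mu2, x.2 * sN x.1 ≠ 1 := by
  have hm := cont_sN.measurable
  refine (Measure.ae_prod_mem_iff_ae_ae_mem (s := {x | x.2 * sN x.1 ≠ 1})
    (measurableSet_eq_fun (by fun_prop) measurable_const).compl).mpr (.of_forall fun t => ?_)
  refine ae_restrict_of_ae ((RV6.ae_ne (sN t)⁻¹).mono fun r hr h => hr ?_)
  exact eq_inv_of_mul_eq_one_left h

lemma G_im (z : ℂ) (x : (Fin 3 → ℝ) × ℝ) :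
    (G z x).im = -arg (1 - ((x.2 * sN x.1 : ℝ) : ℂ) * z) / x.2 := by
  rw [G, Complex.div_ofReal_im, Complex.neg_im, Complex.log_im]

lemma limit : Tendsto (fun z => (∫ x, G z x ∂mu1.prod mu2).im) (𝓝[{z : ℂ | 0 < z.im}] 1)
    (𝓝 (π * mP)) := by
  have hp := Real.pi_gt_three
  rw [← int_lim]
  refine (tendsto_integral_filter_of_dominated_convergence (F := fun z x => (G z x).im)
    (fun _ => 64 * π) (.of_forall fun z => (Complex.measurable_im.comp
      (meas_G z)).aestronglyMeasurable) ?_ (integrable_const _) ?_).congr' ?_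
  · filter_upwards [nhdsWithin_le_nhds (Metric.ball_mem_nhds (1 : ℂ) one_pos)] with z hz
    refine ae_mem.mono fun x hx => ?_
    have h1 := sN_nonneg x.1
    have h2 := sN_le x.1
    have h3 := hx.1
    by_cases h : 1 / 64 ≤ x.2
    · rw [G_im, Real.norm_eq_abs, abs_div, abs_neg, abs_of_pos h3, div_le_iff₀ h3]
      refine (Complex.abs_arg_le_pi _).trans ?_
      nlinarith
    · have hz2 : ‖z‖ ≤ 2 := by
        have := norm_add_le (z - 1) 1
        rw [mem_ball_iff_norm] at hz
        rw [sub_add_cancel, norm_one] at this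
        linarith
      have hw : ‖-(((x.2 * sN x.1 : ℝ) : ℂ) * z)‖ ≤ x.2 * 32 := by
        rw [norm_neg, norm_mul, Complex.norm_real, Real.norm_of_nonneg (by positivity), mul_assoc]
        gcongr
        nlinarith [norm_nonneg z]
      have := Complex.norm_log_one_add_half_le_self (hw.trans (by linarith))
      refine (Complex.abs_im_le_norm _).trans ?_
      rw [G, norm_div, norm_neg, Complex.norm_real, Real.norm_of_nonneg h3.le, div_le_iff₀ h3,
        sub_eq_add_neg]
      nlinarith
  · filter_upwards [ae_mem, ae_ne] with x hx hn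
    simp only [G_im, lim]
    generalize hs : x.2 * sN x.1 = a at hn
    have hc : Tendsto (fun z : ℂ => 1 - (a : ℂ) * z) (𝓝[{z : ℂ | 0 < z.im}] 1) (𝓝 (1 - a)) :=
      ((show Continuous fun z : ℂ => 1 - (a : ℂ) * z by fun_prop).tendsto' 1 _ (by simp)).mono_left
        nhdsWithin_le_nhds
    split_ifs with h
    · have := (Complex.tendsto_arg_nhdsWithin_im_neg_of_re_neg_of_im_zero (z := 1 - a)
        (by simpa using h) (by simp)).comp (tendsto_nhdsWithin_iff.mpr ⟨hc, by
          filter_upwards [self_mem_nhdsWithin] with z hz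
          have : 0 < a * z.im := mul_pos (by linarith) hz
          simpa using this⟩)
      simpa using this.neg.div_const x.2
    · have h1 : a < 1 := lt_of_le_of_ne (not_lt.mp h) hn
      have := (Complex.continuousAt_arg (x := 1 - a) (.inl (by simpa using h1))).tendsto.comp hc
      rw [show (1 - a : ℂ) = ((1 - a : ℝ) : ℂ) by push_cast; rfl,
        Complex.arg_ofReal_of_nonneg (by linarith)] at this
      simpa using this.neg.div_const x.2
  · filter_upwards [self_mem_nhdsWithin] with z hz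
    exact Complex.imCLM.integral_comp_comm (int_G hz)

end Bnd2

theorem bnd2 : BND :=
  ⟨_, fun _ hz => (Bnd2.diff_F hz).differentiableWithinAt, fun _ _ hz => Bnd2.series hz,
    Bnd2.limit⟩

end RV5
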