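import Pool.Agent.Lib.RV5.Blue

/-! Block BOUND: majorants for the summands of the double Eisenstein-Kronecker sums. -/

open Complex
open scoped Real ComplexConjugate

namespace RV5.Bound

lemma sq_mul_le {p r : ℝ} (hp : 0 ≤ p) (hr : 0 ≤ r) : p ^ 2 * r ≤ p ^ 3 + r ^ 3 := by
  rcases le_total p r with h | h
  · have : p ^ 2 ≤ r ^ 2 := by gcongr
    nlinarith [pow_nonneg hp 3]
  · nlinarith [pow_nonneg hr 3, sq_nonneg p]

lemma MM_eq (a b : ℂ) : MM a b = (‖a‖⁻¹ * ‖b‖⁻¹) ^ 3 + (‖b‖⁻¹ * ‖a + b‖⁻¹) ^ 3 +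
    (‖a + b‖⁻¹ * ‖a‖⁻¹) ^ 3 := by
  simp only [MM, one_div, ← mul_inv, inv_pow]

lemma abs_re_one_div (b : ℂ) (k : ℕ) : |(1 / b ^ k).re| ≤ 1 / ‖b‖ ^ k := by
  have := Complex.abs_re_le_norm (1 / b ^ k)
  rwa [norm_div, norm_one, norm_pow] at this

lemma hA_eq (b : ℂ) : hA b = 1 / ‖b‖ ^ 2 := by rw [hA, Complex.normSq_eq_norm_sq]

lemma hA_le (b : ℂ) : |hA b| ≤ 1 / ‖b‖ ^ 2 := by
  rw [hA_eq, abs_of_nonneg (by positivity)]

lemma hR_le (b : ℂ) : |hR b| ≤ 1 / ‖b‖ ^ 2 := abs_re_one_div b 2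

lemma k3_le (b : ℂ) : |k3 b| ≤ 1 / ‖b‖ ^ 3 := abs_re_one_div b 3

lemma k4_le (b : ℂ) : |k4 b| ≤ 1 / ‖b‖ ^ 4 := abs_re_one_div b 4

lemma bb_le (b : ℂ) : |bb b| ≤ 3 / ‖b‖ ^ 4 := by
  have h := abs_le.mp (abs_re_one_div b 2)
  have h0 : 0 ≤ 1 / ‖b‖ ^ 2 := by positivity
  rw [bb, Complex.normSq_eq_norm_sq, abs_div, abs_of_nonneg (sq_nonneg ‖b‖)]
  calc _ ≤ (3 * (1 / ‖b‖ ^ 2)) / ‖b‖ ^ 2 := by
        gcongr
        exact abs_le.mpr ⟨by linarith [h.1], by linarith [h.2]⟩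
    _ = _ := by ring

lemma cc_le (b : ℂ) : |cc b| ≤ 2 / ‖b‖ ^ 3 := by
  have h := abs_re_one_div b 1
  rw [pow_one, pow_one] at h
  rw [cc, Complex.normSq_eq_norm_sq, abs_div, abs_of_nonneg (sq_nonneg ‖b‖), abs_mul, abs_two]
  calc _ ≤ (2 * (1 / ‖b‖)) / ‖b‖ ^ 2 := by gcongr
    _ = _ := by ring

lemma chi_norm (b : ℂ) : ‖chi b‖ = 1 / ‖b‖ ^ 6 := by
  rw [chi, norm_div, norm_one, norm_mul, norm_pow, norm_pow, Complex.norm_conj]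
  ring

lemma ef_le (a b : ℂ) : |ef a b| ≤ 6 * (‖a‖⁻¹ ^ 2 * ‖b‖⁻¹ ^ 4) := by
  rw [ef]
  calc _ ≤ |3 * (hA a * k4 b)| + |hR a * bb b| := abs_sub _ _
    _ = 3 * (|hA a| * |k4 b|) + |hR a| * |bb b| := by
        rw [abs_mul, abs_mul, abs_mul, abs_of_pos (by norm_num : (0 : ℝ) < 3)]
    _ ≤ 3 * (1 / ‖a‖ ^ 2 * (1 / ‖b‖ ^ 4)) + 1 / ‖a‖ ^ 2 * (3 / ‖b‖ ^ 4) := by
        gcongr
        exacts [hA_le a, k4_le b, hR_le a, bb_le b]
    _ = _ := by ring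

lemma ef_self (b : ℂ) : |ef b b| ≤ 6 / ‖b‖ ^ 6 := (ef_le b b).trans_eq (by ring)

lemma cube_le {x z : ℝ} (hx : 0 ≤ x) (hz : 0 ≤ z) : x * z * (x + z) ≤ x ^ 3 + z ^ 3 := by
  nlinarith [mul_nonneg (add_nonneg hx hz) (sq_nonneg (x - z))]

lemma two (a b : ℂ) (ha : a ≠ 0) (hc : a + b ≠ 0) :
    |hA a - hA (a + b)| ≤ ‖b‖ * (1 / ‖a‖ ^ 3 + 1 / ‖a + b‖ ^ 3) ∧
    |hR a - hR (a + b)| ≤ ‖b‖ * (1 / ‖a‖ ^ 3 + 1 / ‖a + b‖ ^ 3) := by
  have ha' : 0 < ‖a‖ := norm_pos_iff.mpr ha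
  have hc' : 0 < ‖a + b‖ := norm_pos_iff.mpr hc
  have key : ‖b‖ * ((‖a‖ + ‖a + b‖) / (‖a‖ ^ 2 * ‖a + b‖ ^ 2)) ≤
      ‖b‖ * (1 / ‖a‖ ^ 3 + 1 / ‖a + b‖ ^ 3) := by
    refine mul_le_mul_of_nonneg_left ?_ (norm_nonneg b)
    have := cube_le (x := ‖a‖⁻¹) (z := ‖a + b‖⁻¹) (by positivity) (by positivity)
    calc _ = ‖a‖⁻¹ * ‖a + b‖⁻¹ * (‖a‖⁻¹ + ‖a + b‖⁻¹) := by field_simp; ring
      _ ≤ _ := this
      _ = _ := by ring
  refine ⟨le_trans ?_ key, le_trans ?_ key⟩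
  · have h1 : |‖a + b‖ - ‖a‖| ≤ ‖b‖ := by simpa using abs_norm_sub_norm_le (a + b) a
    have h2 : hA a - hA (a + b) =
        (‖a + b‖ - ‖a‖) * ((‖a‖ + ‖a + b‖) / (‖a‖ ^ 2 * ‖a + b‖ ^ 2)) := by
      rw [hA_eq, hA_eq]; field_simp; ring
    rw [h2, abs_mul, abs_of_nonneg (a := (‖a‖ + ‖a + b‖) / _) (by positivity)]
    gcongr
  · have h2 : 1 / a ^ 2 - 1 / (a + b) ^ 2 = b * ((a + (a + b)) / (a ^ 2 * (a + b) ^ 2)) := by
      field_simp; ring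
    rw [hR, hR, ← Complex.sub_re, h2]
    refine (Complex.abs_re_le_norm _).trans ?_
    rw [norm_mul, norm_div, norm_mul, norm_pow, norm_pow]
    gcongr
    exact norm_add_le _ _

lemma ef_zero_left (b : ℂ) : ef 0 b = 0 := by simp [ef, hA, hR]

lemma ef_zero_right (a : ℂ) : ef a 0 = 0 := by simp [ef, k4, bb]

lemma ef_neg_left (a b : ℂ) : ef (-a) b = ef a b := by simp [ef, hA, hR]

lemma ef_neg_right (a b : ℂ) : ef a (-b) = ef a b := by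
  simp [ef, k4, bb, show (-b) ^ 4 = b ^ 4 by ring]

lemma ef_diff (a b : ℂ) : |ef a b - ef (a + b) b| ≤ 6 * MM a b := by
  have hM := MM_nonneg a b
  by_cases hb : b = 0
  · subst hb
    rw [ef_zero_right, ef_zero_right, sub_zero, abs_zero]; positivity
  by_cases ha : a = 0
  · subst ha
    rw [ef_zero_left, zero_sub, abs_neg, zero_add]
    refine (ef_le b b).trans_eq ?_
    rw [MM_eq]; simp only [norm_zero, inv_zero, zero_add]; ring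
  by_cases hc : a + b = 0
  · have : a = -b := eq_neg_of_add_eq_zero_left hc
    rw [MM_eq, hc, ef_zero_left, sub_zero, this, ef_neg_left]
    refine (ef_le b b).trans_eq ?_
    simp only [norm_zero, inv_zero, norm_neg]; ring
  obtain ⟨h1, h2⟩ := two a b ha hc
  have hb' : 0 < ‖b‖ := norm_pos_iff.mpr hb
  have h3 : ef a b - ef (a + b) b =
      3 * ((hA a - hA (a + b)) * k4 b) - (hR a - hR (a + b)) * bb b := by
    rw [ef, ef]; ring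
  rw [h3]
  calc _ ≤ |3 * ((hA a - hA (a + b)) * k4 b)| + |(hR a - hR (a + b)) * bb b| := abs_sub _ _
    _ = 3 * (|hA a - hA (a + b)| * |k4 b|) + |hR a - hR (a + b)| * |bb b| := by
        rw [abs_mul, abs_mul, abs_mul, abs_of_pos (by norm_num : (0 : ℝ) < 3)]
    _ ≤ 3 * (‖b‖ * (1 / ‖a‖ ^ 3 + 1 / ‖a + b‖ ^ 3) * (1 / ‖b‖ ^ 4)) +
          ‖b‖ * (1 / ‖a‖ ^ 3 + 1 / ‖a + b‖ ^ 3) * (3 / ‖b‖ ^ 4) := by
        gcongr
        exacts [k4_le b, bb_le b]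
    _ = 6 * ((‖a‖⁻¹ * ‖b‖⁻¹) ^ 3 + (‖b‖⁻¹ * ‖a + b‖⁻¹) ^ 3) := by field_simp; ring
    _ ≤ _ := by
        rw [MM_eq]
        have : 0 ≤ (‖a + b‖⁻¹ * ‖a‖⁻¹) ^ 3 := by positivity
        linarith

lemma mf_le (a b : ℂ) : |mf b (a + b)| ≤ 8 * MM a b := by
  rw [mf]
  calc _ ≤ |2 * (cc b * k3 (a + b))| + |2 * (cc (a + b) * k3 b)| := abs_sub _ _
    _ = 2 * (|cc b| * |k3 (a + b)|) + 2 * (|cc (a + b)| * |k3 b|) := by
        rw [abs_mul, abs_mul, abs_mul, abs_mul, abs_two]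
    _ ≤ 2 * (2 / ‖b‖ ^ 3 * (1 / ‖a + b‖ ^ 3)) + 2 * (2 / ‖a + b‖ ^ 3 * (1 / ‖b‖ ^ 3)) := by
        gcongr
        exacts [cc_le b, k3_le _, cc_le _, k3_le b]
    _ = 8 * (‖b‖⁻¹ * ‖a + b‖⁻¹) ^ 3 := by ring
    _ ≤ _ := by
        rw [MM_eq]
        have : 0 ≤ (‖a + b‖⁻¹ * ‖a‖⁻¹) ^ 3 := by positivity
        have : 0 ≤ (‖a‖⁻¹ * ‖b‖⁻¹) ^ 3 := by positivity
        linarith

lemma dd_le (a b : ℂ) : |dd a b| ≤ 20 * MM a b := by
  have hM := MM_nonneg a b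
  rw [dd]
  split_ifs with h
  · have h1 := abs_le.mp (ef_diff a b)
    have h2 := abs_le.mp (ef_diff b (-(a + b)))
    have h3 := abs_le.mp (mf_le a b)
    have h4 : MM b (-(a + b)) = MM a b := by
      rw [MM_eq, MM_eq, show b + -(a + b) = -a by ring, norm_neg, norm_neg]; ring
    rw [h4, show b + -(a + b) = -a by ring, ef_neg_left, ef_neg_right, ef_neg_right] at h2
    exact abs_le.mpr ⟨by linarith [h1.1, h2.1, h3.1], by linarith [h1.2, h2.2, h3.2]⟩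
  · rw [abs_zero]; positivity

lemma mono (a b : ℂ) :
    ‖a‖⁻¹ ^ 3 * ‖b‖⁻¹ ^ 2 * ‖a + b‖⁻¹ ≤ MM a b ∧ ‖a‖⁻¹ ^ 2 * ‖b‖⁻¹ ^ 3 * ‖a + b‖⁻¹ ≤ MM a b ∧
    ‖a‖⁻¹ * ‖b‖⁻¹ ^ 3 * ‖a + b‖⁻¹ ^ 2 ≤ MM a b ∧ ‖a‖⁻¹ * ‖b‖⁻¹ ^ 2 * ‖a + b‖⁻¹ ^ 3 ≤ MM a b := by
  rw [MM_eq]
  generalize hx : ‖a‖⁻¹ = x
  generalize hy : ‖b‖⁻¹ = y
  generalize hz : ‖a + b‖⁻¹ = z
  have x0 : 0 ≤ x := by rw [← hx]; positivity
  have y0 : 0 ≤ y := by rw [← hy]; positivity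
  have z0 : 0 ≤ z := by rw [← hz]; positivity
  have p0 := mul_nonneg x0 y0
  have r0 := mul_nonneg y0 z0
  have s0 := mul_nonneg z0 x0
  refine ⟨?_, ?_, ?_, ?_⟩
  · nlinarith [sq_mul_le p0 s0, pow_nonneg r0 3]
  · nlinarith [sq_mul_le p0 r0, pow_nonneg s0 3]
  · nlinarith [sq_mul_le r0 p0, pow_nonneg s0 3]
  · nlinarith [sq_mul_le r0 s0, pow_nonneg p0 3]

lemma conj_ne {a : ℂ} (ha : a ≠ 0) : conj a ≠ 0 := by simpa using ha

lemma om_le (a b : ℂ) : |(om a b).im| ≤ 2 * MM a b := by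
  have hM := MM_nonneg a b
  by_cases ha : a = 0
  · subst ha; simp only [om, zero_mul, div_zero, zero_im, abs_zero]; positivity
  by_cases hb : b = 0
  · subst hb
    simp only [om, ne_eq, OfNat.ofNat_ne_zero, not_false_eq_true, zero_pow, mul_zero, div_zero,
      zero_mul, zero_im, abs_zero]
    positivity
  by_cases hc : a + b = 0
  · have : -a - b = 0 := by linear_combination -hc
    simp only [om, this, mul_zero, div_zero, ne_eq, OfNat.ofNat_ne_zero, not_false_eq_true,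
      zero_pow, add_zero, map_zero, zero_im, abs_zero]
    positivity
  have hA := conj_ne ha
  have hB := conj_ne hb
  have hC : conj a + conj b ≠ 0 := by rw [← map_add]; exact conj_ne hc
  have hc' : -a - b ≠ 0 := fun h => hc (by linear_combination -h)
  have hC' : -conj a - conj b ≠ 0 := fun h => hC (by linear_combination -h)
  set r : ℝ := 1 / (normSq b ^ 2 * normSq (a + b)) with hr
  have h1 : om a b = -(r : ℂ) + -((conj a)⁻¹ * (b⁻¹ * (conj b)⁻¹ ^ 2) *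
      ((a + b)⁻¹ * (conj (a + b))⁻¹) * (conj a * a⁻¹) * (conj b * b⁻¹) * (b * (conj b)⁻¹) +
      a⁻¹ * (b⁻¹ ^ 2 * (conj b)⁻¹) * (conj (a + b))⁻¹ ^ 2) := by
    rw [hr]
    push_cast
    rw [← Complex.mul_conj, ← Complex.mul_conj]
    simp only [om, map_add, map_div₀, map_mul, map_pow, map_neg, map_sub, map_one]
    field_simp
    ring
  rw [h1, Complex.add_im, Complex.neg_im, Complex.ofReal_im, neg_zero, zero_add]
  refine (Complex.abs_im_le_norm _).trans ?_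
  rw [norm_neg]
  refine (norm_add_le _ _).trans ?_
  have ha' : 0 < ‖a‖ := norm_pos_iff.mpr ha
  have hb' : 0 < ‖b‖ := norm_pos_iff.mpr hb
  simp only [norm_mul, norm_pow, norm_inv, Complex.norm_conj, mul_inv_cancel₀ ha'.ne',
    mul_inv_cancel₀ hb'.ne', mul_one]
  nlinarith [(mono a b).2.2.1]

lemma ct_le (q : ℂ × ℂ × ℂ) (a b : ℂ) :
    ‖ct q a b‖ ≤ 8 * (‖q.1‖ + ‖q.2.1‖ + ‖q.2.2‖) * MM a b := by
  have hM := MM_nonneg a b
  by_cases ha : a = 0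
  · subst ha
    have : ct q 0 b = 0 := by simp [ct, ww]
    rw [this, norm_zero]; positivity
  by_cases hb : b = 0
  · subst hb
    have : ct q a 0 = 0 := by simp [ct, ww]
    rw [this, norm_zero]; positivity
  by_cases hc : a + b = 0
  · have h : -a - b = 0 := by linear_combination -hc
    have : ct q a b = 0 := by simp [ct, ww, h]
    rw [this, norm_zero]; positivity
  obtain ⟨q1, q2, q3⟩ := q
  have hA := conj_ne ha
  have hB := conj_ne hb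
  have hC : conj a + conj b ≠ 0 := by rw [← map_add]; exact conj_ne hc
  have hc' : -a - b ≠ 0 := fun h => hc (by linear_combination -h)
  have hC' : -conj a - conj b ≠ 0 := fun h => hC (by linear_combination -h)
  have h1 : ct (q1, q2, q3) a b = 2 * (
      -q1 * (a⁻¹ ^ 3 * (b⁻¹ * (conj b)⁻¹) * (conj (a + b))⁻¹) +
      -q2 * (a⁻¹ ^ 2 * (b⁻¹ ^ 2 * (conj b)⁻¹) * (conj (a + b))⁻¹) +
      q3 * ((conj a)⁻¹ * b⁻¹ ^ 3 * ((a + b)⁻¹ * (conj (a + b))⁻¹)) +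
      -q3 * (a⁻¹ * (b⁻¹ ^ 2 * (conj b)⁻¹) * ((a + b)⁻¹ * (conj (a + b))⁻¹)) +
      (q2 + q3) * ((conj a)⁻¹ * (b⁻¹ ^ 2 * (conj b)⁻¹) * (a + b)⁻¹ ^ 2) +
      (q1 + 2 * q2 + q3) * ((conj a)⁻¹ * (b⁻¹ * (conj b)⁻¹) * (a + b)⁻¹ ^ 3)) := by
    simp only [ct, ww, map_add, map_mul, map_neg, map_sub]
    field_simp
    ring
  obtain ⟨m1, m2, m3, m4⟩ := mono a b
  have n1 : ‖q2 + q3‖ ≤ ‖q2‖ + ‖q3‖ := norm_add_le _ _
  have n2 : ‖q1 + 2 * q2 + q3‖ ≤ ‖q1‖ + 2 * ‖q2‖ + ‖q3‖ := by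
    refine (norm_add₃_le).trans ?_
    rw [norm_mul, Complex.norm_two]
  have t : ∀ {c m : ℂ} {k : ℝ}, ‖c‖ ≤ k → ‖m‖ ≤ MM a b → ‖c * m‖ ≤ k * MM a b :=
    fun h1 h2 => by
      rw [norm_mul]
      exact mul_le_mul h1 h2 (norm_nonneg _) ((norm_nonneg _).trans h1)
  rw [h1, norm_mul, Complex.norm_two]
  calc _ ≤ 2 * (‖q1‖ * MM a b + ‖q2‖ * MM a b + ‖q3‖ * MM a b + ‖q3‖ * MM a b +
        (‖q2‖ + ‖q3‖) * MM a b + (‖q1‖ + 2 * ‖q2‖ + ‖q3‖) * MM a b) := by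
        refine mul_le_mul_of_nonneg_left ?_ (by norm_num)
        refine norm_add_le_of_le (norm_add_le_of_le (norm_add_le_of_le (norm_add_le_of_le
          (norm_add_le_of_le (t (norm_neg _).le ?_) (t (norm_neg _).le ?_)) (t le_rfl ?_))
          (t (norm_neg _).le ?_)) (t n1 ?_)) (t n2 ?_) <;>
        simp only [norm_mul, norm_pow, norm_inv, Complex.norm_conj] <;> nlinarith
    _ ≤ _ := by
        have := mul_nonneg (norm_nonneg q1) hM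
        simp only
        nlinarith

end RV5.Bound

namespace RV5

open _root_.RV5.Bound in
theorem bound : BOUND := by
  refine ⟨⟨20, by norm_num, fun q a b => (ct_le q a b).trans ?_, fun a b => (om_le a b).trans ?_,
    dd_le, fun a b => (ef_diff a b).trans ?_⟩, two, fun b => ⟨hA_le b, hR_le b, k3_le b, k4_le b,
    bb_le b, cc_le b, chi_norm b, ef_self b⟩⟩
  all_goals
    have := MM_nonneg a b
    gcongr
    norm_num

end RV5
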