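import Pool.Agent.Lib.RV5.Blue

/-! Block CM: `exp (4 ℓ(τ₀)) = 1` from the transformation laws of the discriminant. -/

open Complex
open scoped Real

namespace RV5.Cm

open RV6 (poch)

lemma sum_inv_div (n : ℕ) (hn : n ≠ 0) :
    ∑ x ∈ n.divisorsAntidiagonal, (1 : ℂ) / (x.1 : ℂ) = (ArithmeticFunction.sigma 1 n : ℂ) / n := by
  rw [Nat.sum_divisorsAntidiagonal' (fun x _ => (1 : ℂ) / (x : ℂ)), ArithmeticFunction.sigma_one_apply,
    Nat.cast_sum, Finset.sum_div]
  refine Finset.sum_congr rfl fun d hd => ?_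
  have hdn := Nat.dvd_of_mem_divisors hd
  have hd0 : (d : ℂ) ≠ 0 := by exact_mod_cast (Nat.pos_of_mem_divisors hd).ne'
  have hn0 : (n : ℂ) ≠ 0 := by exact_mod_cast hn
  rw [Nat.cast_div hdn hd0]
  field_simp

lemma poch_R {q : ℂ} (hq : ‖q‖ < 1) : poch q q = exp (-R 1 q) := by
  obtain ⟨T, hT, h⟩ := RV6.poch_exp hq hq
  rw [h]
  congr 2
  set f : ℕ+ × ℕ+ → ℂ := fun c => q ^ ((c.1 : ℕ) * (c.2 : ℕ)) / ((c.1 : ℕ) : ℂ) with hf
  have hs : Summable f := by
    refine Summable.of_norm_bounded (summable_prod_mul_pow 0 hq).norm fun c => ?_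
    have a1 : (1 : ℝ) ≤ (c.1 : ℕ) := by exact_mod_cast c.1.pos
    simp only [hf, pow_zero, one_mul, norm_div, Complex.norm_natCast]
    exact div_le_self (norm_nonneg _) a1
  have h1 : HasSum (fun k : ℕ+ => q ^ (k : ℕ) / ((k : ℕ) * (1 - q ^ (k : ℕ)))) (∑' c, f c) := by
    refine hs.hasSum.prod_fiberwise fun k => ?_
    have hk := RV6.norm_pow_lt hq k.ne_zero
    have g := ((hasSum_geometric_of_norm_lt_one hk).mul_left (q ^ (k : ℕ) / ((k : ℕ) : ℂ)))
    rw [← Equiv.pnatEquivNat.symm.hasSum_iff, div_mul_eq_div_div, div_eq_mul_inv _ (1 - _)]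
    refine g.congr_fun fun m => ?_
    simp only [hf, Function.comp, Equiv.pnatEquivNat_symm_apply, Nat.succPNat_coe,
      Nat.succ_eq_add_one]
    ring
  have h2 : HasSum (fun n : ℕ+ => (ArithmeticFunction.sigma 1 n : ℂ) / (n : ℕ) * q ^ (n : ℕ))
      (∑' c, f c) := by
    have g := sigmaAntidiagonalEquivProd.hasSum_iff.mpr hs.hasSum
    refine g.sigma fun n => ?_
    convert hasSum_fintype _ using 1
    rw [← sum_inv_div n n.ne_zero, Finset.sum_mul, Finset.univ_eq_attach,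
      ← Finset.sum_attach]
    refine Finset.sum_congr rfl fun x _ => ?_
    have := (Nat.mem_divisorsAntidiagonal.mp x.2).1
    simp only [hf, Function.comp, sigmaAntidiagonalEquivProd, Equiv.coe_fn_mk,
      divisorsAntidiagonalFactors, PNat.mk_coe, this]
    ring
  have h3 := (hasSum_nat_add_iff' 1).mpr (hasSum_R 1 hq)
  rw [← Equiv.pnatEquivNat.symm.hasSum_iff] at h2
  rw [hT.unique h1]
  refine h2.unique ?_
  simpa [Function.comp_def] using h3

/-- the discriminant as a function on the complex plane -/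
noncomputable def Dl (t : ℂ) : ℂ := e t * poch (e t) (e t) ^ 24

lemma Dl_eta (t : ℂ) : Dl t = ModularForm.eta t ^ 24 := by
  have := RV6.eta_eq 1 t
  simp only [Nat.cast_one, one_mul, pow_one] at this
  rw [this, mul_pow, ← Complex.exp_nat_mul, Dl, e]
  congr 2
  push_cast
  ring

lemma Dl_ne {t : ℂ} (h : 0 < t.im) : Dl t ≠ 0 :=
  mul_ne_zero (e_ne t) (pow_ne_zero _ (RV6.poch_ne_zero' (norm_e_lt h) (norm_e_lt h)))

lemma Dl_add (t : ℂ) (k : ℕ) : Dl (t + k) = Dl t := by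
  have : e (t + k) = e t := by
    rw [e, e, mul_add, Complex.exp_add, show 2 * π * I * (k : ℂ) = k * (2 * π * I) by ring,
      Complex.exp_nat_mul_two_pi_mul_I, mul_one]
  rw [Dl, Dl, this]

lemma sqrt_pow (z : ℂ) : sqrt z ^ 24 = z ^ 12 := by
  have : sqrt z ^ 2 = z := Complex.cpow_ofNat_inv_pow z 2
  rw [show 24 = 2 * 12 from rfl, pow_mul, this]

lemma Dl_S {t u : ℂ} (h : 0 < t.im) (hu : u * t = -1) : Dl u = t ^ 12 * Dl t := by
  have ht : t ≠ 0 := fun h0 => by simp [h0] at h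
  have : u = -1 / t := by rw [eq_div_iff ht, hu]
  have he : ModularForm.eta (-1 / t) = (sqrt I)⁻¹ * (sqrt t * ModularForm.eta t) := by
    simpa using ModularForm.eta_comp_eq_csqrt_I_inv h
  rw [this, Dl_eta, Dl_eta, he, mul_pow, mul_pow, inv_pow, sqrt_pow, sqrt_pow,
    show 12 = 4 * 3 from rfl, pow_mul I, I_pow_four, one_pow, inv_one, one_mul]

lemma poch_dup {q : ℂ} (hq : ‖q‖ < 1) :
    poch q q * poch (-q) (-q) * poch (q ^ 4) (q ^ 4) = poch (q ^ 2) (q ^ 2) ^ 3 := by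
  have h2 := RV6.norm_pow_lt hq two_ne_zero
  have a := RV6.poch_two hq q
  have b := RV6.poch_two (p := -q) (by rwa [norm_neg]) (-q)
  have c := RV6.poch_neg h2 q
  have d := RV6.poch_two h2 (q ^ 2)
  rw [neg_sq, neg_mul_neg, ← sq] at b
  rw [← sq] at a
  rw [show (q ^ 2) ^ 2 = q ^ 4 by ring] at c d
  rw [show q ^ 2 * q ^ 2 = q ^ 4 by ring] at d
  rw [a, b]
  linear_combination poch (q ^ 2) (q ^ 2) ^ 2 * poch (q ^ 4) (q ^ 4) * c -
    poch (q ^ 2) (q ^ 2) ^ 2 * d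

lemma Dl_dup {t : ℂ} (h : 0 < t.im) : Dl t * Dl (t + 1 / 2) * Dl (4 * t) = -Dl (2 * t) ^ 3 := by
  have a : e (t + 1 / 2) = -e t := by
    rw [e, e, mul_add, Complex.exp_add, show 2 * π * I * (1 / 2 : ℂ) = π * I by ring,
      Complex.exp_pi_mul_I, mul_neg_one]
  have b : e (4 * t) = e t ^ 4 := by simpa using e_mul 4 t
  have c : e (2 * t) = e t ^ 2 := by simpa using e_mul 2 t
  have d := congrArg (· ^ 24) (poch_dup (norm_e_lt h))
  simp only [Dl, a, b, c] at d ⊢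
  linear_combination (-e t ^ 6) * d

lemma exp_ell_mul {t : ℂ} (h : 0 < t.im) :
    exp (4 * ell t) * (Dl t * Dl (3 * t)) = Dl (2 * t) * Dl (6 * t) := by
  have hq := norm_e_lt h
  have b : e (3 * t) = e t ^ 3 := by simpa using e_mul 3 t
  have c : e (2 * t) = e t ^ 2 := by simpa using e_mul 2 t
  have d : e (6 * t) = e t ^ 6 := by simpa using e_mul 6 t
  have a : exp (4 * ell t) = e t ^ 4 * exp (4 * l0 (e t)) := by
    rw [ell, mul_add, Complex.exp_add, e, ← Complex.exp_nat_mul]; rfl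
  have k : exp (4 * l0 (e t)) * (exp (-R 1 (e t)) ^ 24 * exp (-R 1 (e t ^ 3)) ^ 24) =
      exp (-R 1 (e t ^ 2)) ^ 24 * exp (-R 1 (e t ^ 6)) ^ 24 := by
    simp only [← Complex.exp_nat_mul, ← Complex.exp_add, l0]
    congr 1
    push_cast
    ring
  simp only [Dl, a, b, c, d, poch_R hq, poch_R (norm_pow_lt hq two_ne_zero),
    poch_R (norm_pow_lt hq three_ne_zero), poch_R (norm_pow_lt hq (d := 6) (by norm_num))]
  linear_combination e t ^ 8 * k

lemma tau0_eq : 24 * tau0 ^ 2 + 6 * tau0 + 1 = 0 := by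
  rw [tau0]
  linear_combination (I ^ 2 / 24) * sqrt15_sq + (15 / 24) * Complex.I_sq

lemma main {t : ℂ} (h : 0 < t.im) (ht : 24 * t ^ 2 + 6 * t + 1 = 0) : exp (4 * ell t) = 1 := by
  have i2 : 0 < (2 * t).im := by simpa using h
  have i3 : 0 < (3 * t).im := by simpa using h
  have i6 : 0 < (6 * t).im := by simpa using h
  have ir : 0 < (t + 1 / 2).im := by simpa using h
  have im : 0 < (6 * t + 1 / 2).im := by simpa using h
  have il : 0 < (3 * t + 1 / 2).im := by simpa using h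
  have a := exp_ell_mul h
  have b := Dl_dup h
  have c := Dl_dup i3
  rw [show 4 * (3 * t) = 12 * t by ring, show 2 * (3 * t) = 6 * t by ring] at c
  have s1 := Dl_S (u := 4 * t + (1 : ℕ)) i6 (by push_cast; linear_combination ht)
  have s2 := Dl_S (u := 6 * t - 3 / 2) ir (by linear_combination (1 / 4) * ht)
  have s3 := Dl_S (u := 6 * t + (1 : ℕ)) im (by push_cast; linear_combination (3 / 2) * ht)
  have s4 := Dl_S (u := 12 * t + (3 : ℕ)) i2 (by push_cast; linear_combination ht)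
  have s5 := Dl_S (u := 12 * t + (1 : ℕ)) il (by push_cast; linear_combination (3 / 2) * ht)
  rw [Dl_add] at s1 s3 s4 s5
  rw [← Dl_add _ 2, show 6 * t - 3 / 2 + (2 : ℕ) = 6 * t + 1 / 2 by push_cast; ring] at s2
  have k : 6 * t * (2 * t) ^ 2 = -((t + 1 / 2) * (6 * t + 1 / 2) * (3 * t + 1 / 2)) := by
    linear_combination (7 / 4 * t + 1 / 8) * ht
  have k12 : (6 * t) ^ 12 * ((2 * t) ^ 12) ^ 2 =
      (t + 1 / 2) ^ 12 * (6 * t + 1 / 2) ^ 12 * (3 * t + 1 / 2) ^ 12 := by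
    rw [← mul_pow, ← mul_pow,
      ← Even.neg_pow (by norm_num : Even 12) ((t + 1 / 2) * (6 * t + 1 / 2) * (3 * t + 1 / 2)), ← k]
    ring
  have n2 := Dl_ne i2
  have n6 := Dl_ne i6
  have nz : ∀ {z : ℂ}, 0 < z.im → z ^ 12 ≠ 0 := fun hz =>
    pow_ne_zero _ fun h0 => by simp [h0] at hz
  have zr := nz ir
  have zm := nz im
  have zl := nz il
  generalize exp (4 * ell t) = X at *
  generalize Dl t = D1 at *
  generalize Dl (2 * t) = D2 at *
  generalize Dl (3 * t) = D3 at *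
  generalize Dl (4 * t) = D4 at *
  generalize Dl (6 * t) = D6 at *
  generalize Dl (12 * t) = D12 at *
  generalize Dl (t + 1 / 2) = Dr at *
  generalize Dl (6 * t + 1 / 2) = Dm at *
  generalize Dl (3 * t + 1 / 2) = DL at *
  generalize (6 * t) ^ 12 = s at *
  generalize (2 * t) ^ 12 = n at *
  generalize (t + 1 / 2) ^ 12 = r at *
  generalize (6 * t + 1 / 2) ^ 12 = m at *
  generalize (3 * t + 1 / 2) ^ 12 = l at *
  have e1 : X * (D2 ^ 3 * D6 ^ 3) = D2 * D6 * (Dr * D4 * DL * D12) := by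
    linear_combination (Dr * D4 * DL * D12) * a - X * (D3 * DL * D12) * b + X * D2 ^ 3 * c
  have e2 : r * m * l * (Dr * D4 * DL * D12) = r * m * l * (D2 ^ 2 * D6 ^ 2) := by
    have u1 : r * m * Dr = D6 := by rw [s3, s2]; ring
    have u2 : l * DL = n * D2 := by rw [← s5, s4]
    rw [s4, s1]
    linear_combination (s * D6 * n * D2 * l * DL) * u1 + (s * D6 ^ 2 * n * D2) * u2 +
      (D2 ^ 2 * D6 ^ 2) * k12
  have e3 := mul_left_cancel₀ (mul_ne_zero (mul_ne_zero zr zm) zl) e2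
  rw [e3] at e1
  refine mul_right_cancel₀ (mul_ne_zero (pow_ne_zero 3 n2) (pow_ne_zero 3 n6)) ?_
  linear_combination e1

end RV5.Cm

theorem RV5.cm : RV5.CM := RV5.Cm.main RV5.tau0_im_pos RV5.Cm.tau0_eq
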