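import Pool.Agent.Lib.RV5.CtD

/-! The certificate: a 3-chain of ideal tetrahedra for `ℚ(√-15)` with Hecke relations. -/

namespace RV5.Ct

def atoms : List L4 := [
  ⟨(⟨1,1⟩,⟨0,0⟩),(⟨0,3⟩,⟨0,0⟩),(⟨0,0⟩,⟨1,4⟩),(⟨0,0⟩,⟨0,6⟩)⟩,
  ⟨(⟨1,1⟩,⟨0,0⟩),(⟨0,3⟩,⟨0,0⟩),(⟨0,0⟩,⟨3,0⟩),(⟨0,0⟩,⟨0,6⟩)⟩,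
  ⟨(⟨1,1⟩,⟨0,3⟩),(⟨0,3⟩,⟨0,3⟩),(⟨0,0⟩,⟨3,0⟩),(⟨0,0⟩,⟨0,6⟩)⟩,
  ⟨(⟨1,0⟩,⟨0,0⟩),(⟨0,1⟩,⟨0,0⟩),(⟨0,0⟩,⟨1,0⟩),(⟨0,0⟩,⟨0,2⟩)⟩,
  ⟨(⟨1,0⟩,⟨0,3⟩),(⟨0,1⟩,⟨0,3⟩),(⟨0,0⟩,⟨2,2⟩),(⟨0,0⟩,⟨0,6⟩)⟩,
  ⟨(⟨1,1⟩,⟨1,1⟩),(⟨0,3⟩,⟨0,0⟩),(⟨0,0⟩,⟨6,0⟩),(⟨0,0⟩,⟨0,6⟩)⟩,
  ⟨(⟨1,1⟩,⟨2,2⟩),(⟨0,6⟩,⟨0,0⟩),(⟨0,0⟩,⟨6,0⟩),(⟨0,0⟩,⟨0,3⟩)⟩,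
  ⟨(⟨1,0⟩,⟨0,1⟩),(⟨0,1⟩,⟨0,5⟩),(⟨0,0⟩,⟨2,2⟩),(⟨0,0⟩,⟨0,6⟩)⟩,
  ⟨(⟨1,0⟩,⟨0,0⟩),(⟨0,1⟩,⟨0,0⟩),(⟨0,0⟩,⟨2,0⟩),(⟨0,0⟩,⟨0,1⟩)⟩,
  ⟨(⟨1,0⟩,⟨0,0⟩),(⟨0,1⟩,⟨0,0⟩),(⟨0,0⟩,⟨1,0⟩),(⟨0,0⟩,⟨0,1⟩)⟩,
  ⟨(⟨1,1⟩,⟨0,0⟩),(⟨0,3⟩,⟨0,0⟩),(⟨0,0⟩,⟨1,1⟩),(⟨0,0⟩,⟨0,3⟩)⟩,
  ⟨(⟨1,1⟩,⟨0,0⟩),(⟨0,3⟩,⟨0,0⟩),(⟨0,0⟩,⟨1,1⟩),(⟨0,0⟩,⟨0,6⟩)⟩,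
  ⟨(⟨1,1⟩,⟨0,0⟩),(⟨0,2⟩,⟨0,1⟩),(⟨0,0⟩,⟨2,2⟩),(⟨0,0⟩,⟨0,3⟩)⟩,
  ⟨(⟨1,1⟩,⟨0,0⟩),(⟨0,3⟩,⟨0,0⟩),(⟨0,0⟩,⟨3,0⟩),(⟨0,0⟩,⟨0,3⟩)⟩,
  ⟨(⟨1,1⟩,⟨0,0⟩),(⟨0,3⟩,⟨0,0⟩),(⟨0,0⟩,⟨2,2⟩),(⟨0,0⟩,⟨0,3⟩)⟩,
  ⟨(⟨1,0⟩,⟨0,3⟩),(⟨0,1⟩,⟨0,3⟩),(⟨0,0⟩,⟨1,1⟩),(⟨0,0⟩,⟨0,6⟩)⟩,
  ⟨(⟨1,0⟩,⟨0,0⟩),(⟨0,1⟩,⟨0,0⟩),(⟨0,0⟩,⟨1,1⟩),(⟨0,0⟩,⟨0,6⟩)⟩,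
  ⟨(⟨1,0⟩,⟨0,0⟩),(⟨0,1⟩,⟨0,0⟩),(⟨0,0⟩,⟨1,1⟩),(⟨0,0⟩,⟨0,3⟩)⟩,
  ⟨(⟨1,0⟩,⟨0,1⟩),(⟨0,1⟩,⟨0,1⟩),(⟨0,0⟩,⟨2,0⟩),(⟨0,0⟩,⟨0,2⟩)⟩,
  ⟨(⟨1,0⟩,⟨0,1⟩),(⟨0,1⟩,⟨0,2⟩),(⟨0,0⟩,⟨2,2⟩),(⟨0,0⟩,⟨0,3⟩)⟩,
  ⟨(⟨1,1⟩,⟨0,0⟩),(⟨0,3⟩,⟨0,0⟩),(⟨0,0⟩,⟨3,3⟩),(⟨0,0⟩,⟨0,6⟩)⟩,
  ⟨(⟨1,0⟩,⟨0,5⟩),(⟨0,1⟩,⟨0,1⟩),(⟨0,0⟩,⟨2,2⟩),(⟨0,0⟩,⟨0,6⟩)⟩,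
  ⟨(⟨1,0⟩,⟨0,2⟩),(⟨0,1⟩,⟨0,4⟩),(⟨0,0⟩,⟨2,2⟩),(⟨0,0⟩,⟨0,6⟩)⟩,
  ⟨(⟨1,0⟩,⟨0,2⟩),(⟨0,1⟩,⟨0,1⟩),(⟨0,0⟩,⟨2,2⟩),(⟨0,0⟩,⟨0,3⟩)⟩,
  ⟨(⟨1,1⟩,⟨1,1⟩),(⟨0,3⟩,⟨0,0⟩),(⟨0,0⟩,⟨6,0⟩),(⟨0,0⟩,⟨0,3⟩)⟩,
  ⟨(⟨1,1⟩,⟨0,0⟩),(⟨0,3⟩,⟨0,3⟩),(⟨0,0⟩,⟨2,2⟩),(⟨0,0⟩,⟨0,6⟩)⟩,
  ⟨(⟨1,1⟩,⟨0,0⟩),(⟨0,3⟩,⟨0,0⟩),(⟨0,0⟩,⟨6,0⟩),(⟨0,0⟩,⟨0,6⟩)⟩,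
  ⟨(⟨1,1⟩,⟨1,1⟩),(⟨0,3⟩,⟨0,3⟩),(⟨0,0⟩,⟨6,0⟩),(⟨0,0⟩,⟨0,6⟩)⟩,
  ⟨(⟨1,0⟩,⟨0,2⟩),(⟨0,1⟩,⟨0,1⟩),(⟨0,0⟩,⟨1,1⟩),(⟨0,0⟩,⟨0,3⟩)⟩,
  ⟨(⟨1,1⟩,⟨0,0⟩),(⟨0,3⟩,⟨0,3⟩),(⟨0,0⟩,⟨6,0⟩),(⟨0,0⟩,⟨0,6⟩)⟩,
  ⟨(⟨1,1⟩,⟨2,2⟩),(⟨0,3⟩,⟨0,3⟩),(⟨0,0⟩,⟨6,0⟩),(⟨0,0⟩,⟨0,6⟩)⟩,
  ⟨(⟨1,0⟩,⟨0,0⟩),(⟨0,1⟩,⟨0,0⟩),(⟨0,0⟩,⟨2,0⟩),(⟨0,0⟩,⟨0,2⟩)⟩,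
  ⟨(⟨1,0⟩,⟨0,0⟩),(⟨0,1⟩,⟨0,0⟩),(⟨0,0⟩,⟨1,1⟩),(⟨0,0⟩,⟨0,2⟩)⟩,
  ⟨(⟨1,1⟩,⟨2,2⟩),(⟨0,3⟩,⟨0,0⟩),(⟨0,0⟩,⟨6,0⟩),(⟨0,0⟩,⟨0,3⟩)⟩,
  ⟨(⟨1,0⟩,⟨0,2⟩),(⟨0,1⟩,⟨0,4⟩),(⟨0,0⟩,⟨1,1⟩),(⟨0,0⟩,⟨0,6⟩)⟩,
  ⟨(⟨1,1⟩,⟨1,1⟩),(⟨0,3⟩,⟨0,0⟩),(⟨0,0⟩,⟨3,3⟩),(⟨0,0⟩,⟨0,6⟩)⟩,
  ⟨(⟨1,1⟩,⟨0,0⟩),(⟨0,3⟩,⟨0,0⟩),(⟨0,0⟩,⟨6,0⟩),(⟨0,0⟩,⟨0,3⟩)⟩,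
  ⟨(⟨1,1⟩,⟨0,0⟩),(⟨0,3⟩,⟨0,3⟩),(⟨0,0⟩,⟨3,3⟩),(⟨0,0⟩,⟨0,6⟩)⟩,
  ⟨(⟨1,0⟩,⟨0,4⟩),(⟨0,1⟩,⟨0,2⟩),(⟨0,0⟩,⟨2,2⟩),(⟨0,0⟩,⟨0,6⟩)⟩,
  ⟨(⟨1,0⟩,⟨0,0⟩),(⟨0,1⟩,⟨0,0⟩),(⟨0,0⟩,⟨2,2⟩),(⟨0,0⟩,⟨0,6⟩)⟩,
  ⟨(⟨1,1⟩,⟨2,2⟩),(⟨0,3⟩,⟨0,0⟩),(⟨0,0⟩,⟨6,0⟩),(⟨0,0⟩,⟨0,6⟩)⟩,
  ⟨(⟨1,1⟩,⟨0,0⟩),(⟨0,3⟩,⟨0,0⟩),(⟨0,0⟩,⟨2,2⟩),(⟨0,0⟩,⟨0,6⟩)⟩,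
  ⟨(⟨1,0⟩,⟨0,0⟩),(⟨0,1⟩,⟨0,0⟩),(⟨0,0⟩,⟨2,2⟩),(⟨0,0⟩,⟨0,3⟩)⟩]

def atm (j : ℕ) : L4 := atoms.getD j ⟨0, 0, 0, 0⟩

def tg1 : TC := ⟨0,0,⟨1,1⟩,⟨(-3,1,0,0),(1,0,0,0),(0,0,-3,2),(0,0,2,-1)⟩,⟨(0,1,0,0),(1,3,0,0),(0,0,1,2),(0,0,2,3)⟩⟩

def tg2 : TC := ⟨1,0,⟨1,1⟩,⟨(-3,1,0,0),(1,0,0,0),(0,0,-1,0),(0,0,2,1)⟩,⟨(0,1,0,0),(1,3,0,0),(0,0,-1,0),(0,0,2,1)⟩⟩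

def tg3 : TC := ⟨2,4,⟨1,1⟩,⟨(3,-1,0,-1),(-2,0,0,1),(3,-1,-1,-1),(-3,0,1,2)⟩,⟨(-1,-2,1,1),(-2,-3,1,1),(1,0,-1,0),(-2,-3,2,2)⟩⟩

def tg4 : TC := ⟨3,0,⟨1/3,1/3⟩,⟨(-1,0,0,0),(1,1,0,0),(0,0,-1,0),(0,0,2,1)⟩,⟨(-1,0,0,0),(1,1,0,0),(0,0,-1,0),(0,0,2,1)⟩⟩

def rt0 : RT :=
  ⟨⟨1,-1⟩,
    ⟨(⟨1,0⟩,⟨1,1⟩),(⟨0,1⟩,⟨0,0⟩),(⟨0,0⟩,⟨2,2⟩),(⟨0,0⟩,⟨0,6⟩)⟩,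
    (⟨-3661/936,-14347/936⟩,⟨11069/936,-10801/936⟩,⟨-737/936,469/936⟩),
    ⟨4,2,⟨1/2,0⟩,⟨(-1,0,-1,1),(-2,0,0,1),(-1,-1,-2,2),(0,-3,-6,4)⟩,⟨(0,-2,3,-1),(2,-2,2,-1),(-1,-1,3,-1),(0,-3,6,-2)⟩⟩,
    ⟨5,1,⟨1/2,1/2⟩,⟨(-1,1,0,0),(-2,1,0,0),(-3,2,1,0),(-12,6,4,1)⟩,⟨(1,-1,0,0),(2,-1,0,0),(-1,-1,1,0),(4,-2,-4,1)⟩⟩,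
    ⟨6,5,⟨1,-1/2⟩,⟨(-1,0,0,1),(4,-1,-2,-2),(0,0,-1,0),(0,0,-2,-1)⟩,⟨(-1,0,2,-1),(-4,-1,6,-2),(0,0,-1,0),(0,0,2,-1)⟩⟩,
    ⟨7,5,⟨1,0⟩,⟨(1,0,-1,0),(0,1,0,-1),(0,0,-1,0),(0,0,0,-1)⟩,⟨(1,0,-1,0),(0,1,0,-1),(0,0,-1,0),(0,0,0,-1)⟩⟩,
    ⟨⟨(1,0,0,0),(0,1,0,0),(0,0,-3,1),(0,0,-1,0)⟩,⟨(1,0,0,0),(0,1,0,0),(0,0,0,-1),(0,0,1,-3)⟩,true,⟨0,-2⟩,⟨-2,2⟩⟩,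
    ⟨⟨(1,0,0,0),(0,0,0,1),(2,-1,-1,0),(2,0,-1,0)⟩,⟨(1,0,0,0),(0,0,-1,1),(2,0,0,-1),(0,1,0,0)⟩,true,⟨-4/3,-1/3⟩,⟨2/3,-1/3⟩⟩,
    ⟨⟨(1,0,0,0),(0,1,0,0),(-1,-1,1,0),(4,-2,-4,1)⟩,⟨(1,0,0,0),(0,1,0,0),(1,1,1,0),(0,6,4,1)⟩,false,⟨-5,1⟩,⟨1,1⟩⟩,
    ⟨⟨(1,0,0,0),(-1,0,1,0),(3,0,-3,1),(1,1,-3,1)⟩,⟨(1,0,0,0),(2,0,-1,1),(1,1,0,0),(0,3,1,0)⟩,true,⟨1,0⟩,⟨-1,1⟩⟩⟩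

def rt1 : RT :=
  ⟨⟨2/3,-1/3⟩,
    ⟨(⟨1,1⟩,⟨0,0⟩),(⟨0,3⟩,⟨0,0⟩),(⟨0,0⟩,⟨2,2⟩),(⟨0,0⟩,⟨0,3⟩)⟩,
    (⟨3057/26,5541/26⟩,⟨-2130/13,-1275/13⟩,⟨285/13,-570/13⟩),
    ⟨11,2,⟨1/2,1/2⟩,⟨(-1,0,0,0),(0,-1,0,0),(3,-2,-5,1),(6,-3,-6,1)⟩,⟨(-1,0,0,0),(0,-1,0,0),(-3,1,1,-1),(-12,3,6,-5)⟩⟩,
    ⟨12,5,⟨1,0⟩,⟨(1,-1,-1,1),(4,-3,-2,2),(0,0,-1,0),(0,0,0,-1)⟩,⟨(-3,1,1,-1),(-4,1,2,-2),(0,0,-1,0),(0,0,0,-1)⟩⟩,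
    ⟨13,0,⟨1/2,1/2⟩,⟨(1,0,0,0),(0,1,0,0),(0,0,-1,1),(0,0,-2,1)⟩,⟨(1,0,0,0),(0,1,0,0),(0,0,1,-1),(0,0,2,-1)⟩⟩,
    ⟨14,0,⟨1,0⟩,⟨(1,0,0,0),(0,1,0,0),(0,0,1,0),(0,0,0,1)⟩,⟨(1,0,0,0),(0,1,0,0),(0,0,1,0),(0,0,0,1)⟩⟩,
    ⟨⟨(1,0,0,0),(0,1,0,0),(0,0,1,-1),(0,0,2,-1)⟩,⟨(1,0,0,0),(0,1,0,0),(0,0,-1,1),(0,0,-2,1)⟩,false,⟨2,0⟩,⟨0,-1⟩⟩,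
    ⟨⟨(0,0,1,0),(0,0,0,1),(-3,1,0,0),(-1,0,0,0)⟩,⟨(0,0,0,-1),(0,0,1,-3),(1,0,0,0),(0,1,0,0)⟩,true,⟨1/3,1/3⟩,⟨-1,0⟩⟩,
    ⟨⟨(1,0,0,0),(0,1,0,0),(2,-1,-1,1),(4,-1,-2,1)⟩,⟨(1,0,0,0),(0,1,0,0),(2,0,1,-1),(0,1,2,-1)⟩,false,⟨0,-1⟩,⟨-2,1⟩⟩,
    ⟨⟨(1,0,0,0),(-2,1,0,0),(3,-1,-1,1),(0,1,-2,1)⟩,⟨(1,0,0,0),(2,1,0,0),(1,2,1,-1),(0,3,2,-1)⟩,false,⟨3,0⟩,⟨-2,1⟩⟩⟩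

def rt2 : RT :=
  ⟨⟨2/3,-1/3⟩,
    ⟨(⟨1,1⟩,⟨0,0⟩),(⟨0,3⟩,⟨0,0⟩),(⟨0,0⟩,⟨1,1⟩),(⟨0,0⟩,⟨0,3⟩)⟩,
    (⟨-77091/260,-11013/260⟩,⟨19979/130,2047/130⟩,⟨19237/780,7591/780⟩),
    ⟨18,4,⟨1,0⟩,⟨(-2,0,1,1),(-4,-1,2,3),(-1,-1,1,1),(0,-3,2,2)⟩,⟨(1,0,-3,1),(2,0,-4,1),(3,-1,-2,1),(0,1,-4,1)⟩⟩,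
    ⟨15,4,⟨1,0⟩,⟨(-2,0,1,1),(-4,-1,0,3),(-1,-1,1,1),(0,-3,0,2)⟩,⟨(7,-2,-7,3),(8,-2,-8,3),(3,-1,-2,1),(12,-3,-12,5)⟩⟩,
    ⟨19,2,⟨1,0⟩,⟨(-2,0,1,0),(-4,-1,2,1),(-1,-1,0,1),(0,-3,0,2)⟩,⟨(-2,1,-1,0),(-4,2,0,-1),(-3,2,-2,0),(-6,3,0,-1)⟩⟩,
    ⟨10,0,⟨1,0⟩,⟨(1,0,0,0),(0,1,0,0),(0,0,1,0),(0,0,0,1)⟩,⟨(1,0,0,0),(0,1,0,0),(0,0,1,0),(0,0,0,1)⟩⟩,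
    ⟨⟨(1,0,0,0),(0,1,0,0),(0,0,3,-1),(0,0,1,0)⟩,⟨(1,0,0,0),(0,1,0,0),(0,0,0,1),(0,0,-1,3)⟩,true,⟨1/3,1/3⟩,⟨2/3,-1/3⟩⟩,
    ⟨⟨(0,0,1,0),(0,0,0,1),(-3,1,0,0),(-1,0,0,0)⟩,⟨(0,0,0,-1),(0,0,1,-3),(1,0,0,0),(0,1,0,0)⟩,true,⟨1/3,1/3⟩,⟨-1,0⟩⟩,
    ⟨⟨(1,0,0,0),(0,1,0,0),(3,-1,-3,1),(1,0,-1,0)⟩,⟨(1,0,0,0),(0,1,0,0),(1,0,0,-1),(0,1,1,-3)⟩,true,⟨2/3,-1/3⟩,⟨-1,0⟩⟩,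
    ⟨⟨(0,0,1,0),(-1,1,-2,0),(3,-1,-2,1),(0,1,-4,1)⟩,⟨(2,2,1,-1),(4,3,1,-1),(1,0,0,0),(0,-3,-1,2)⟩,false,⟨3,0⟩,⟨-2,1⟩⟩⟩

def rt3 : RT :=
  ⟨⟨-1,0⟩,
    ⟨(⟨1,1⟩,⟨0,0⟩),(⟨0,3⟩,⟨0,0⟩),(⟨0,0⟩,⟨3,0⟩),(⟨0,0⟩,⟨0,3⟩)⟩,
    (⟨-73255320291/1541596160,163877453823/1541596160⟩,⟨-7749/208,7749/208⟩,⟨77955016947/1541596160,-80356536399/1541596160⟩),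
    ⟨26,2,⟨1,0⟩,⟨(1,0,0,0),(0,1,0,0),(-3,1,1,0),(0,-1,0,1)⟩,⟨(1,0,0,0),(0,1,0,0),(3,-1,1,0),(0,1,0,1)⟩⟩,
    ⟨27,1,⟨1,0⟩,⟨(1,0,0,0),(0,1,0,0),(3,-1,-1,0),(0,1,0,-1)⟩,⟨(1,0,0,0),(0,1,0,0),(3,-1,-1,0),(0,1,0,-1)⟩⟩,
    ⟨13,0,⟨1,0⟩,⟨(-1,0,0,0),(0,-1,0,0),(0,0,1,0),(0,0,0,1)⟩,⟨(-1,0,0,0),(0,-1,0,0),(0,0,1,0),(0,0,0,1)⟩⟩,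
    ⟨13,0,⟨1,0⟩,⟨(1,0,0,0),(0,1,0,0),(0,0,1,0),(0,0,0,1)⟩,⟨(1,0,0,0),(0,1,0,0),(0,0,1,0),(0,0,0,1)⟩⟩,
    ⟨⟨(1,0,0,0),(0,1,0,0),(0,0,1,0),(0,0,0,1)⟩,⟨(1,0,0,0),(0,1,0,0),(0,0,1,0),(0,0,0,1)⟩,false,⟨6,0⟩,⟨-3,0⟩⟩,
    ⟨⟨(0,0,1,0),(0,0,0,1),(-3,1,0,0),(-1,0,0,0)⟩,⟨(0,0,0,-1),(0,0,1,-3),(1,0,0,0),(0,1,0,0)⟩,true,⟨2,0⟩,⟨-1,0⟩⟩,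
    ⟨⟨(1,0,0,0),(0,1,0,0),(-3,1,1,0),(0,-1,0,1)⟩,⟨(1,0,0,0),(0,1,0,0),(3,-1,1,0),(0,1,0,1)⟩,false,⟨3,0⟩,⟨3,0⟩⟩,
    ⟨⟨(1,0,0,0),(0,1,0,0),(3,-1,1,0),(0,1,0,1)⟩,⟨(1,0,0,0),(0,1,0,0),(-3,1,1,0),(0,-1,0,1)⟩,false,⟨3,0⟩,⟨3,0⟩⟩⟩

def rt4 : RT :=
  ⟨⟨-1,0⟩,
    ⟨(⟨1,0⟩,⟨0,5⟩),(⟨0,1⟩,⟨0,1⟩),(⟨0,0⟩,⟨1,1⟩),(⟨0,0⟩,⟨0,6⟩)⟩,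
    (⟨-3266250809/1734295680,766848253/1734295680⟩,⟨-39550925887/4624788480,8304019739/4624788480⟩,⟨1692468257/44469120,-2286645739/192699520⟩),
    ⟨33,3,⟨1,-1/2⟩,⟨(-11,3,7,9),(-4,1,2,3),(-3,1,2,2),(-12,3,8,10)⟩,⟨(2,-2,-1,-1),(4,-2,0,-3),(-1,-1,1,1),(2,-1,-2,-1)⟩⟩,
    ⟨33,3,⟨1,-1/2⟩,⟨(11,-3,-4,-7),(4,-1,-2,-3),(3,-1,-1,-2),(12,-3,-4,-8)⟩,⟨(1,-1,-2,0),(0,0,-4,1),(-1,-1,1,1),(2,-1,-2,-1)⟩⟩,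
    ⟨16,1,⟨1,0⟩,⟨(0,5,1,-1),(0,1,0,0),(1,1,-1,0),(0,6,0,-1)⟩,⟨(1,0,1,-1),(0,1,0,0),(1,1,0,-1),(0,6,0,-1)⟩⟩,
    ⟨34,1,⟨1,0⟩,⟨(0,5,-1,-4),(0,1,0,-1),(1,1,-1,-1),(0,6,0,-5)⟩,⟨(-1,-2,1,1),(0,-5,0,1),(-1,-1,0,1),(0,-6,0,1)⟩⟩,
    ⟨⟨(1,0,0,0),(0,1,0,0),(0,0,1,0),(0,0,-4,1)⟩,⟨(1,0,0,0),(0,1,0,0),(0,0,1,0),(0,0,4,1)⟩,false,⟨2,2⟩,⟨-1,-1⟩⟩,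
    ⟨⟨(0,0,1,0),(0,1,0,0),(-1,-1,0,1),(4,-2,0,-3)⟩,⟨(0,5,3,1),(0,1,0,0),(1,0,0,0),(0,6,4,1)⟩,false,⟨2,2⟩,⟨-1,-1⟩⟩,
    ⟨⟨(1,0,0,0),(0,1,0,0),(-3,0,3,2),(-1,-1,1,1)⟩,⟨(1,0,0,0),(0,1,0,0),(1,-2,1,-2),(0,3,-1,3)⟩,true,⟨1,0⟩,⟨1,0⟩⟩,
    ⟨⟨(1,0,0,0),(1,0,1,0),(1,0,1,-1),(0,1,0,0)⟩,⟨(1,0,0,0),(0,0,0,1),(-1,1,0,0),(0,1,-1,0)⟩,false,⟨1,0⟩,⟨1,0⟩⟩⟩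

def rt5 : RT :=
  ⟨⟨-1,0⟩,
    ⟨(⟨1,0⟩,⟨0,3⟩),(⟨0,1⟩,⟨0,3⟩),(⟨0,0⟩,⟨1,1⟩),(⟨0,0⟩,⟨0,6⟩)⟩,
    (⟨124219/2340,-3503/2340⟩,⟨82099/4680,-17543/4680⟩,⟨-18,-6⟩),
    ⟨36,2,⟨1,-1/2⟩,⟨(-5,1,2,1),(-4,1,2,1),(-3,1,1,0),(-12,3,4,2)⟩,⟨(-1,1,0,0),(-4,2,0,1),(1,1,1,-1),(-2,1,-2,1)⟩⟩,
    ⟨24,1,⟨1,-1/2⟩,⟨(7,-2,-2,-3),(8,-2,-2,-3),(3,-1,-1,-1),(12,-3,-4,-5)⟩,⟨(-1,1,0,0),(-2,1,-2,1),(1,1,-1,-1),(-2,1,2,0)⟩⟩,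
    ⟨15,0,⟨1,0⟩,⟨(-1,0,0,1),(0,-1,0,1),(0,0,1,0),(0,0,0,1)⟩,⟨(-1,0,0,1),(0,-1,0,1),(0,0,1,0),(0,0,0,1)⟩⟩,
    ⟨15,0,⟨1,0⟩,⟨(1,0,0,0),(0,1,0,0),(0,0,1,0),(0,0,0,1)⟩,⟨(1,0,0,0),(0,1,0,0),(0,0,1,0),(0,0,0,1)⟩⟩,
    ⟨⟨(1,0,0,0),(0,1,0,0),(0,0,1,0),(0,0,-4,1)⟩,⟨(1,0,0,0),(0,1,0,0),(0,0,1,0),(0,0,4,1)⟩,false,⟨2,2⟩,⟨-1,-1⟩⟩,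
    ⟨⟨(0,0,1,0),(0,1,0,0),(-1,-1,0,1),(1,-1,0,0)⟩,⟨(0,1,0,1),(0,1,0,0),(1,0,0,0),(0,2,1,1)⟩,true,⟨2/3,2/3⟩,⟨-1/3,-1/3⟩⟩,
    ⟨⟨(1,0,0,0),(-1,0,1,0),(-3,0,3,1),(-1,-1,1,1)⟩,⟨(1,0,0,0),(0,-2,1,-1),(1,1,0,0),(0,-3,1,0)⟩,true,⟨1,0⟩,⟨1,0⟩⟩,
    ⟨⟨(1,0,0,0),(0,1,0,0),(3,0,3,-2),(1,1,1,-1)⟩,⟨(1,0,0,0),(0,1,0,0),(-1,2,1,-2),(0,3,1,-3)⟩,true,⟨1,0⟩,⟨1,0⟩⟩⟩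

def rt6 : RT :=
  ⟨⟨2/3,-1/3⟩,
    ⟨(⟨1,0⟩,⟨0,0⟩),(⟨0,1⟩,⟨0,0⟩),(⟨0,0⟩,⟨1,0⟩),(⟨0,0⟩,⟨0,1⟩)⟩,
    (⟨22729/4680,3247/4680⟩,⟨-4882/1755,23/3510⟩,⟨-22567/21060,-11731/21060⟩),
    ⟨25,4,⟨3,0⟩,⟨(-2,1,1,-1),(-4,1,2,-1),(-3,1,1,-1),(0,-1,2,0)⟩,⟨(1,0,-1,0),(2,2,-4,-1),(1,1,-2,0),(0,3,-4,-1)⟩⟩,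
    ⟨37,4,⟨3,0⟩,⟨(-2,1,1,-1),(-4,1,0,0),(-3,1,1,-1),(0,-1,0,1)⟩,⟨(1,0,-1,0),(4,1,-4,0),(3,0,-2,1),(4,1,-4,1)⟩⟩,
    ⟨33,2,⟨3,0⟩,⟨(-2,1,1,1),(-4,1,2,3),(-3,1,1,2),(0,-1,0,0)⟩,⟨(-1,1,-1,-1),(0,0,0,-1),(1,1,-2,0),(-2,1,0,-1)⟩⟩,
    ⟨9,0,⟨1,0⟩,⟨(1,0,0,0),(0,1,0,0),(0,0,1,0),(0,0,0,1)⟩,⟨(1,0,0,0),(0,1,0,0),(0,0,1,0),(0,0,0,1)⟩⟩,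
    ⟨⟨(1,0,0,0),(0,1,0,0),(0,0,1,0),(0,0,0,1)⟩,⟨(1,0,0,0),(0,1,0,0),(0,0,1,0),(0,0,0,1)⟩,false,⟨1/3,1/3⟩,⟨2/3,-1/3⟩⟩,
    ⟨⟨(0,0,1,0),(0,0,0,1),(-1,0,0,0),(0,-1,0,0)⟩,⟨(0,0,-1,0),(0,0,0,-1),(1,0,0,0),(0,1,0,0)⟩,false,⟨1/3,1/3⟩,⟨-1,0⟩⟩,
    ⟨⟨(1,0,0,0),(0,1,0,0),(1,0,-1,0),(0,1,0,-1)⟩,⟨(1,0,0,0),(0,1,0,0),(1,0,-1,0),(0,1,0,-1)⟩,false,⟨2/3,-1/3⟩,⟨-1,0⟩⟩,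
    ⟨⟨(-1,0,1,0),(-2,1,0,0),(3,0,-2,1),(1,1,-2,0)⟩,⟨(2,-1,0,1),(4,-1,0,2),(3,-1,0,1),(0,1,1,-1)⟩,true,⟨1,0⟩,⟨-2/3,1/3⟩⟩⟩

def rt7 : RT :=
  ⟨⟨-1,0⟩,
    ⟨(⟨1,0⟩,⟨0,2⟩),(⟨0,1⟩,⟨0,1⟩),(⟨0,0⟩,⟨1,1⟩),(⟨0,0⟩,⟨0,3⟩)⟩,
    (⟨-1967/104,107/13⟩,⟨1967/208,-107/26⟩,⟨-1295/52,1479/104⟩),
    ⟨38,3,⟨1,0⟩,⟨(-1,-2,0,2),(0,-2,0,1),(-1,-1,1,1),(0,-3,0,2)⟩,⟨(-1,-2,0,2),(0,-2,0,1),(-1,-1,1,1),(0,-3,0,2)⟩⟩,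
    ⟨38,3,⟨1,0⟩,⟨(1,2,-1,-1),(0,2,0,-1),(1,1,0,-1),(0,3,0,-1)⟩,⟨(0,-2,1,1),(0,-1,0,1),(-1,-1,1,1),(0,-3,0,2)⟩⟩,
    ⟨17,1,⟨1,0⟩,⟨(0,2,1,-1),(0,1,0,0),(1,1,-1,0),(0,3,0,-1)⟩,⟨(1,0,1,-1),(0,1,0,0),(1,1,0,-1),(0,3,0,-1)⟩⟩,
    ⟨28,0,⟨1,0⟩,⟨(1,0,0,0),(0,1,0,0),(0,0,1,0),(0,0,0,1)⟩,⟨(1,0,0,0),(0,1,0,0),(0,0,1,0),(0,0,0,1)⟩⟩,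
    ⟨⟨(1,0,0,0),(0,1,0,0),(0,0,3,-1),(0,0,1,0)⟩,⟨(1,0,0,0),(0,1,0,0),(0,0,0,1),(0,0,-1,3)⟩,true,⟨2,0⟩,⟨-1,0⟩⟩,
    ⟨⟨(0,0,1,0),(0,1,0,0),(-3,0,0,2),(-1,-1,0,1)⟩,⟨(0,2,-1,2),(0,1,0,0),(1,0,0,0),(0,3,-1,3)⟩,true,⟨2,0⟩,⟨-1,0⟩⟩,
    ⟨⟨(1,0,0,0),(-1,0,1,0),(-3,0,3,1),(-1,-1,1,1)⟩,⟨(1,0,0,0),(0,-2,1,-1),(1,1,0,0),(0,-3,1,0)⟩,true,⟨1,0⟩,⟨1,0⟩⟩,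
    ⟨⟨(1,0,0,0),(1,0,1,0),(1,0,1,-1),(0,1,0,0)⟩,⟨(1,0,0,0),(0,0,0,1),(-1,1,0,0),(0,1,-1,0)⟩,false,⟨1,0⟩,⟨1,0⟩⟩⟩

def rt8 : RT :=
  ⟨⟨-1,0⟩,
    ⟨(⟨1,0⟩,⟨0,0⟩),(⟨0,1⟩,⟨0,0⟩),(⟨0,0⟩,⟨1,1⟩),(⟨0,0⟩,⟨0,3⟩)⟩,
    (⟨-27409/17784,36161/88920⟩,⟨21/13,-21/13⟩,⟨0,0⟩),
    ⟨39,2,⟨1,0⟩,⟨(1,0,0,0),(0,1,0,0),(-1,-1,1,0),(0,-3,0,1)⟩,⟨(1,0,0,0),(0,1,0,0),(1,1,1,0),(0,3,0,1)⟩⟩,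
    ⟨22,2,⟨1,0⟩,⟨(1,0,-1,0),(0,1,0,-1),(-1,-1,0,1),(0,-3,0,2)⟩,⟨(0,-1,-1,0),(0,-2,0,-1),(-1,-1,-1,0),(0,-3,0,-1)⟩⟩,
    ⟨17,0,⟨1,0⟩,⟨(-1,0,0,0),(0,-1,0,0),(0,0,1,0),(0,0,0,1)⟩,⟨(-1,0,0,0),(0,-1,0,0),(0,0,1,0),(0,0,0,1)⟩⟩,
    ⟨17,0,⟨1,0⟩,⟨(1,0,0,0),(0,1,0,0),(0,0,1,0),(0,0,0,1)⟩,⟨(1,0,0,0),(0,1,0,0),(0,0,1,0),(0,0,0,1)⟩⟩,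
    ⟨⟨(1,0,0,0),(0,1,0,0),(0,0,3,-1),(0,0,1,0)⟩,⟨(1,0,0,0),(0,1,0,0),(0,0,0,1),(0,0,-1,3)⟩,true,⟨2,0⟩,⟨-1,0⟩⟩,
    ⟨⟨(0,0,1,0),(0,0,0,1),(-1,0,0,0),(0,-1,0,0)⟩,⟨(0,0,-1,0),(0,0,0,-1),(1,0,0,0),(0,1,0,0)⟩,false,⟨2,0⟩,⟨-1,0⟩⟩,
    ⟨⟨(1,0,0,0),(0,1,0,0),(-3,0,3,-1),(-1,-1,1,0)⟩,⟨(1,0,0,0),(0,1,0,0),(1,1,0,1),(0,3,-1,3)⟩,true,⟨1,0⟩,⟨1,0⟩⟩,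
    ⟨⟨(1,0,0,0),(0,1,0,0),(3,0,3,-1),(1,1,1,0)⟩,⟨(1,0,0,0),(0,1,0,0),(-1,-1,0,1),(0,-3,-1,3)⟩,true,⟨1,0⟩,⟨1,0⟩⟩⟩

def rt9 : RT :=
  ⟨⟨-1,0⟩,
    ⟨(⟨1,1⟩,⟨1,1⟩),(⟨0,3⟩,⟨0,3⟩),(⟨0,0⟩,⟨3,3⟩),(⟨0,0⟩,⟨0,6⟩)⟩,
    (⟨248403/260,-46311/260⟩,⟨0,0⟩,⟨0,0⟩),
    ⟨19,3,⟨1/3,-1/6⟩,⟨(-2,0,1,0),(-4,-1,2,1),(-3,0,3,-1),(-4,-1,4,0)⟩,⟨(1,-1,-1,1),(8,-4,-4,3),(3,-2,-2,2),(6,-3,-4,3)⟩⟩,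
    ⟨19,3,⟨1/3,-1/6⟩,⟨(2,0,-1,0),(4,1,-2,-1),(3,0,0,-1),(4,1,0,-2)⟩,⟨(2,-1,-1,1),(4,-2,-4,3),(3,-2,-2,2),(6,-3,-4,3)⟩⟩,
    ⟨20,1,⟨1,0⟩,⟨(1,0,0,0),(0,1,0,0),(3,0,-1,0),(0,2,0,-1)⟩,⟨(1,0,0,0),(0,1,0,0),(3,0,-1,0),(0,2,0,-1)⟩⟩,
    ⟨35,1,⟨1,0⟩,⟨(1,0,-1,0),(0,1,0,-1),(3,0,-2,0),(0,2,0,-1)⟩,⟨(-2,0,1,0),(0,-1,0,1),(-3,0,1,0),(0,-2,0,1)⟩⟩,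
    ⟨⟨(1,0,0,0),(0,1,0,0),(0,0,1,0),(0,0,-1,1)⟩,⟨(1,0,0,0),(0,1,0,0),(0,0,1,0),(0,0,1,1)⟩,true,⟨2,2⟩,⟨-1,-1⟩⟩,
    ⟨⟨(1,0,0,0),(0,1,0,0),(-3,0,1,0),(3,-2,-1,1)⟩,⟨(1,0,0,0),(0,1,0,0),(3,0,1,0),(0,2,1,1)⟩,true,⟨2,2⟩,⟨-1,-1⟩⟩,
    ⟨⟨(-1,0,1,0),(0,1,0,0),(-3,1,2,-1),(0,-1,0,1)⟩,⟨(2,0,-1,-1),(0,1,0,0),(3,0,-1,-1),(0,1,0,1)⟩,false,⟨3,0⟩,⟨3,0⟩⟩,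
    ⟨⟨(0,0,1,0),(0,0,0,1),(3,-1,0,0),(1,0,0,0)⟩,⟨(0,0,0,1),(0,0,-1,3),(1,0,0,0),(0,1,0,0)⟩,true,⟨1,0⟩,⟨1,0⟩⟩⟩

def rt10 : RT :=
  ⟨⟨-1,0⟩,
    ⟨(⟨1,1⟩,⟨0,0⟩),(⟨0,3⟩,⟨0,3⟩),(⟨0,0⟩,⟨3,3⟩),(⟨0,0⟩,⟨0,6⟩)⟩,
    (⟨0,0⟩,⟨-37419/65,3693/65⟩,⟨0,0⟩),
    ⟨42,2,⟨1/3,-1/6⟩,⟨(1,0,0,0),(0,0,2,-1),(-3,0,3,-2),(-4,-1,4,-2)⟩,⟨(1,0,0,0),(-4,2,0,-1),(-3,2,-1,0),(-6,3,-2,0)⟩⟩,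
    ⟨23,2,⟨1/3,-1/6⟩,⟨(1,0,-1,0),(0,0,-2,1),(-3,0,0,2),(-4,-1,0,3)⟩,⟨(4,-2,1,0),(2,-1,2,-1),(3,-2,1,0),(6,-3,2,0)⟩⟩,
    ⟨37,0,⟨1,0⟩,⟨(-1,0,0,0),(0,-1,0,1),(0,0,1,0),(0,0,0,1)⟩,⟨(-1,0,0,0),(0,-1,0,1),(0,0,1,0),(0,0,0,1)⟩⟩,
    ⟨37,0,⟨1,0⟩,⟨(1,0,0,0),(0,1,0,0),(0,0,1,0),(0,0,0,1)⟩,⟨(1,0,0,0),(0,1,0,0),(0,0,1,0),(0,0,0,1)⟩⟩,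
    ⟨⟨(1,0,0,0),(0,1,0,0),(0,0,1,0),(0,0,-1,1)⟩,⟨(1,0,0,0),(0,1,0,0),(0,0,1,0),(0,0,1,1)⟩,true,⟨2,2⟩,⟨-1,-1⟩⟩,
    ⟨⟨(0,0,1,0),(0,1,0,0),(-1,0,0,0),(4,-2,0,1)⟩,⟨(0,0,-1,0),(0,1,0,0),(1,0,0,0),(0,2,4,1)⟩,false,⟨2,2⟩,⟨-1,-1⟩⟩,
    ⟨⟨(1,0,0,0),(0,1,0,0),(-3,1,1,-1),(0,-1,0,1)⟩,⟨(1,0,0,0),(0,1,0,0),(3,0,1,1),(0,1,0,1)⟩,false,⟨3,0⟩,⟨3,0⟩⟩,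
    ⟨⟨(1,0,0,0),(0,0,0,1),(3,-1,1,0),(0,1,0,0)⟩,⟨(1,0,0,0),(0,0,0,1),(-3,0,1,1),(0,1,0,0)⟩,false,⟨3,0⟩,⟨3,0⟩⟩⟩

def rt11 : RT :=
  ⟨⟨1,-1⟩,
    ⟨(⟨1,1⟩,⟨3,3⟩),(⟨0,3⟩,⟨0,0⟩),(⟨0,0⟩,⟨6,0⟩),(⟨0,0⟩,⟨0,6⟩)⟩,
    (⟨-10185/104,2613/8⟩,⟨-4299/8,-213/104⟩,⟨154275/104,-98175/104⟩),
    ⟨29,2,⟨1/2,0⟩,⟨(-4,1,-1,0),(-6,2,0,-1),(-3,1,0,0),(0,-1,-2,1)⟩,⟨(2,-1,-1,-1),(6,-3,-2,-3),(-3,1,2,1),(0,-1,2,0)⟩⟩,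
    ⟨21,3,⟨1/6,1/6⟩,⟨(-2,2,1,1),(-2,1,2,1),(1,1,0,-1),(-4,2,0,3)⟩,⟨(-10,5,7,4),(-2,1,2,1),(-3,2,2,1),(-12,6,8,5)⟩⟩,
    ⟨12,5,⟨1/3,-1/6⟩,⟨(1,-1,-2,2),(4,-3,-2,3),(0,0,-1,1),(0,0,-2,1)⟩,⟨(-3,1,2,1),(-4,1,4,1),(0,0,1,-1),(0,0,2,-1)⟩⟩,
    ⟨30,5,⟨1,0⟩,⟨(1,0,-1,-1),(0,1,0,-1),(0,0,-1,0),(0,0,0,-1)⟩,⟨(1,0,-1,-1),(0,1,0,-1),(0,0,-1,0),(0,0,0,-1)⟩⟩,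
    ⟨⟨(1,0,0,0),(0,1,0,0),(0,0,-1,0),(0,0,0,-1)⟩,⟨(1,0,0,0),(0,1,0,0),(0,0,-1,0),(0,0,0,-1)⟩,false,⟨0,-6⟩,⟨-6,6⟩⟩,
    ⟨⟨(1,0,0,0),(-2,0,1,0),(2,-1,-1,-1),(4,-1,-2,-2)⟩,⟨(1,0,0,0),(0,0,-2,1),(2,1,0,0),(0,-1,1,-1)⟩,false,⟨-4,-1⟩,⟨2,-1⟩⟩,
    ⟨⟨(-1,0,1,0),(0,1,0,0),(-3,0,2,2),(3,-2,-2,-1)⟩,⟨(2,4,1,2),(0,1,0,0),(3,4,1,2),(0,2,1,1)⟩,true,⟨-5,1⟩,⟨1,1⟩⟩,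
    ⟨⟨(1,0,-1,0),(-3,0,4,0),(3,-1,-2,-1),(0,1,-2,0)⟩,⟨(4,1,0,0),(6,2,0,1),(3,1,0,0),(0,-1,-1,-1)⟩,false,⟨3,0⟩,⟨-3,3⟩⟩⟩

def rt12 : RT :=
  ⟨⟨2/3,-1/3⟩,
    ⟨(⟨1,0⟩,⟨0,0⟩),(⟨0,1⟩,⟨0,0⟩),(⟨0,0⟩,⟨2,0⟩),(⟨0,0⟩,⟨0,1⟩)⟩,
    (⟨-353/234,-1019/234⟩,⟨350/117,20/9⟩,⟨-10/39,20/39⟩),
    ⟨32,2,⟨1/2,1/2⟩,⟨(-1,0,0,0),(0,-1,0,0),(-1,-1,-1,1),(2,-1,-2,1)⟩,⟨(-1,0,0,0),(0,-1,0,0),(-3,0,1,-1),(-4,-1,2,-1)⟩⟩,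
    ⟨6,5,⟨3,0⟩,⟨(-1,0,0,1),(4,-1,-2,-3),(0,0,-1,0),(0,0,0,-1)⟩,⟨(-1,0,0,-1),(-4,-1,2,-1),(0,0,-1,0),(0,0,0,-1)⟩⟩,
    ⟨17,0,⟨1/2,1/2⟩,⟨(1,0,0,0),(0,1,0,0),(0,0,1,0),(0,0,-2,1)⟩,⟨(1,0,0,0),(0,1,0,0),(0,0,1,0),(0,0,2,1)⟩⟩,
    ⟨8,0,⟨1,0⟩,⟨(1,0,0,0),(0,1,0,0),(0,0,1,0),(0,0,0,1)⟩,⟨(1,0,0,0),(0,1,0,0),(0,0,1,0),(0,0,0,1)⟩⟩,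
    ⟨⟨(1,0,0,0),(0,1,0,0),(0,0,1,-1),(0,0,1,0)⟩,⟨(1,0,0,0),(0,1,0,0),(0,0,0,1),(0,0,-1,1)⟩,true,⟨2/3,0⟩,⟨0,-1/3⟩⟩,
    ⟨⟨(0,0,1,0),(0,0,0,1),(-1,0,0,0),(0,-1,0,0)⟩,⟨(0,0,-1,0),(0,0,0,-1),(1,0,0,0),(0,1,0,0)⟩,false,⟨1/3,1/3⟩,⟨-1,0⟩⟩,
    ⟨⟨(1,0,0,0),(0,1,0,0),(2,-1,-1,1),(2,0,-1,0)⟩,⟨(1,0,0,0),(0,1,0,0),(2,0,0,-1),(0,1,1,-1)⟩,true,⟨0,-1/3⟩,⟨-2/3,1/3⟩⟩,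
    ⟨⟨(1,0,0,0),(-2,1,0,0),(3,0,-1,1),(1,1,-1,0)⟩,⟨(1,0,0,0),(2,1,0,0),(3,1,0,-1),(0,1,1,-1)⟩,true,⟨1,0⟩,⟨-2/3,1/3⟩⟩⟩

def rt : List RT := [rt0, rt1, rt2, rt3, rt4, rt5, rt6, rt7, rt8, rt9, rt10, rt11, rt12]

def r2_0 : R2 :=
  ⟨⟨(⟨1,0⟩,⟨0,0⟩),(⟨0,0⟩,⟨1,0⟩),(⟨0,1⟩,⟨0,0⟩),(⟨0,0⟩,⟨0,1⟩)⟩,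
    (⟨443214587/15403284,-177891001/15403284⟩,⟨120585359/3850821,-80440313/7701642⟩,⟨-780329845/15403284,247988591/15403284⟩),
    (1,0,0,0),
    (0,0,1,0),
    ⟨8,2,⟨1,0⟩,⟨(-2,0,1,0),(-1,0,0,0),(0,-1,0,1),(0,-1,0,0)⟩,⟨(0,-1,0,0),(0,0,0,-1),(1,-2,0,0),(0,0,1,-1)⟩⟩,
    ⟨8,0,⟨1,0⟩,⟨(1,0,0,0),(0,0,1,0),(0,1,0,0),(0,0,0,1)⟩,⟨(1,0,0,0),(0,0,1,0),(0,1,0,0),(0,0,0,1)⟩⟩,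
    ⟨8,1,⟨1,0⟩,⟨(1,0,-1,0),(2,0,-1,0),(0,0,0,-1),(0,1,0,-1)⟩,⟨(-1,1,0,0),(0,0,-1,1),(-2,1,0,0),(0,0,-1,0)⟩⟩,
    ⟨9,0,⟨1,0⟩,⟨(1,0,0,0),(0,0,1,0),(0,1,0,0),(0,0,0,1)⟩,⟨(1,0,0,0),(0,0,1,0),(0,1,0,0),(0,0,0,1)⟩⟩,
    ⟨10,0,⟨1/2,1/2⟩,⟨(1,0,0,0),(0,0,1,0),(-2,1,0,0),(0,0,-2,1)⟩,⟨(1,0,0,0),(2,0,1,0),(0,1,0,0),(0,2,0,1)⟩⟩⟩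

def r2_1 : R2 :=
  ⟨⟨(⟨0,1⟩,⟨0,0⟩),(⟨0,0⟩,⟨0,3⟩),(⟨1,1⟩,⟨0,0⟩),(⟨0,0⟩,⟨1,1⟩)⟩,
    (⟨-234701/7410,67177/7410⟩,⟨234701/7410,-67177/7410⟩,⟨-934769/14820,429253/14820⟩),
    (-1,1,0,0),
    (0,0,-1/3,1/3),
    ⟨15,4,⟨1,0⟩,⟨(0,-2,0,1),(0,-3,0,2),(-1,-1,0,1),(-1,-1,1,1)⟩,⟨(-1,1,-1,0),(-2,1,0,0),(0,0,-1,1),(-3,2,0,0)⟩⟩,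
    ⟨16,0,⟨1,0⟩,⟨(0,1,0,0),(0,0,0,1),(1,1,0,0),(0,0,1,0)⟩,⟨(-1,0,1,0),(1,0,0,0),(0,0,0,1),(0,1,0,0)⟩⟩,
    ⟨15,0,⟨1,0⟩,⟨(0,1,0,0),(0,0,0,1),(1,1,0,-1),(0,0,1,0)⟩,⟨(-1,1,1,0),(1,0,0,0),(0,0,0,1),(0,1,0,0)⟩⟩,
    ⟨17,0,⟨1,0⟩,⟨(0,1,0,0),(0,0,0,1),(1,1,0,0),(0,0,1,0)⟩,⟨(-1,0,1,0),(1,0,0,0),(0,0,0,1),(0,1,0,0)⟩⟩,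
    ⟨13,0,⟨1,-1/2⟩,⟨(4,-1,0,0),(0,0,4,1),(3,-1,0,0),(0,0,1,0)⟩,⟨(1,0,-1,0),(3,0,-4,0),(0,0,0,1),(0,1,0,-4)⟩⟩⟩

def r2_2 : R2 :=
  ⟨⟨(⟨0,1⟩,⟨0,1⟩),(⟨0,0⟩,⟨0,3⟩),(⟨1,1⟩,⟨0,6⟩),(⟨0,0⟩,⟨2,2⟩)⟩,
    (⟨25328/3705,205168/11115⟩,⟨-25328/3705,-205168/11115⟩,⟨-54818/2223,72322/11115⟩),
    (-1,1,0,0),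
    (-5/3,-1/3,-1/3,1/3),
    ⟨21,4,⟨1,0⟩,⟨(0,-4,0,1),(0,-3,0,1),(-1,-7,0,3),(-2,-2,1,2)⟩,⟨(-2,5,-1,0),(-1,1,0,0),(0,4,-2,1),(-3,4,0,0)⟩⟩,
    ⟨21,0,⟨1,0⟩,⟨(0,1,0,0),(0,0,0,1),(1,1,0,0),(0,0,1,0)⟩,⟨(-1,0,1,0),(1,0,0,0),(0,0,0,1),(0,1,0,0)⟩⟩,
    ⟨22,0,⟨1,0⟩,⟨(0,1,0,0),(0,0,0,1),(1,1,0,0),(0,0,1,0)⟩,⟨(-1,0,1,0),(1,0,0,0),(0,0,0,1),(0,1,0,0)⟩⟩,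
    ⟨23,0,⟨1,0⟩,⟨(0,1,0,0),(0,0,0,1),(1,1,0,1),(0,0,1,0)⟩,⟨(-1,-1,1,0),(1,0,0,0),(0,0,0,1),(0,1,0,0)⟩⟩,
    ⟨24,2,⟨1,-1/2⟩,⟨(-8,2,2,3),(-12,3,2,4),(-15,4,3,5),(-6,2,1,2)⟩,⟨(1,0,-1,1),(0,-1,0,2),(0,-2,2,-1),(3,2,-4,2)⟩⟩⟩

def r2_3 : R2 :=
  ⟨⟨(⟨1,0⟩,⟨0,0⟩),(⟨0,0⟩,⟨1,1⟩),(⟨0,1⟩,⟨0,0⟩),(⟨0,0⟩,⟨0,2⟩)⟩,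
    (⟨-92988905387/1951082640,27401858839/1951082640⟩,⟨564434415697/15608661120,-170843365829/15608661120⟩,⟨-136427873489/7804330560,9120216601/600333120⟩),
    (1,0,0,0),
    (0,0,1,0),
    ⟨18,2,⟨1,0⟩,⟨(-2,0,1,1),(-1,-1,0,1),(0,-1,0,1),(0,-2,0,1)⟩,⟨(0,-1,1,0),(0,0,1,-1),(1,-2,0,1),(0,0,2,-1)⟩⟩,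
    ⟨31,0,⟨1,0⟩,⟨(1,0,0,0),(0,0,1,1),(0,1,0,0),(0,0,0,1)⟩,⟨(1,0,0,0),(0,0,1,0),(0,1,0,-1),(0,0,0,1)⟩⟩,
    ⟨18,5,⟨1,0⟩,⟨(1,0,-1,-1),(0,0,-1,-1),(0,1,0,-1),(0,0,0,-1)⟩,⟨(1,-1,0,0),(0,0,1,-1),(0,-1,0,1),(0,0,0,-1)⟩⟩,
    ⟨32,0,⟨1,0⟩,⟨(1,0,0,0),(0,0,1,0),(0,1,0,0),(0,0,0,1)⟩,⟨(1,0,0,0),(0,0,1,0),(0,1,0,0),(0,0,0,1)⟩⟩,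
    ⟨11,0,⟨1/2,1/2⟩,⟨(1,0,0,0),(0,0,-3,1),(-2,1,0,0),(0,0,-4,1)⟩,⟨(1,0,0,0),(2,0,1,0),(0,1,0,-1),(0,4,0,-3)⟩⟩⟩

def r2_4 : R2 :=
  ⟨⟨(⟨0,3⟩,⟨0,0⟩),(⟨0,0⟩,⟨0,3⟩),(⟨1,1⟩,⟨1,1⟩),(⟨0,0⟩,⟨6,0⟩)⟩,
    (⟨79788/247,1539108/1235⟩,⟨0,0⟩,⟨-307752/1235,105432/1235⟩),
    (-1/3,1/3,0,0),
    (-1/3,0,0,1/3),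
    ⟨5,3,⟨1,0⟩,⟨(0,0,0,1),(0,1,0,0),(1,0,0,0),(6,-2,-1,-1)⟩,⟨(0,0,1,0),(0,1,0,0),(-1,-2,6,-1),(1,0,0,0)⟩⟩,
    ⟨5,0,⟨1,0⟩,⟨(0,1,0,0),(0,0,0,1),(1,0,0,0),(0,0,1,0)⟩,⟨(0,0,1,0),(1,0,0,0),(0,0,0,1),(0,1,0,0)⟩⟩,
    ⟨27,0,⟨1,0⟩,⟨(0,1,0,0),(0,0,0,1),(1,0,0,0),(0,0,1,0)⟩,⟨(0,0,1,0),(1,0,0,0),(0,0,0,1),(0,1,0,0)⟩⟩,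
    ⟨24,0,⟨1,0⟩,⟨(0,1,0,0),(0,0,0,1),(1,0,0,0),(0,0,1,0)⟩,⟨(0,0,1,0),(1,0,0,0),(0,0,0,1),(0,1,0,0)⟩⟩,
    ⟨23,1,⟨1/3,-1/6⟩,⟨(0,0,-2,1),(4,1,-2,-2),(1,0,-1,0),(2,-1,-1,0)⟩,⟨(-2,-1,7,-1),(-2,-1,8,-2),(-2,-1,6,-1),(-3,-2,12,-2)⟩⟩⟩

def r2_5 : R2 :=
  ⟨⟨(⟨1,1⟩,⟨1,1⟩),(⟨0,0⟩,⟨3,3⟩),(⟨0,3⟩,⟨0,0⟩),(⟨0,0⟩,⟨0,6⟩)⟩,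
    (⟨2094782421/2408744,-597419817/2408744⟩,⟨-2094782421/2408744,597419817/2408744⟩,⟨-611940939/463220,5005610859/6021860⟩),
    (1,0,0,0),
    (-1/3,0,1/3,0),
    ⟨5,4,⟨1,0⟩,⟨(-4,0,1,1),(-3,0,1,1),(0,-1,0,0),(0,-2,0,1)⟩,⟨(-1,1,0,0),(0,0,-1,0),(-3,4,2,-1),(0,0,-2,1)⟩⟩,
    ⟨5,0,⟨1,0⟩,⟨(1,0,0,0),(0,0,1,1),(0,1,0,0),(0,0,0,1)⟩,⟨(1,0,0,0),(0,0,1,0),(0,1,0,-1),(0,0,0,1)⟩⟩,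
    ⟨27,2,⟨1,0⟩,⟨(-5,0,1,1),(-6,0,1,1),(0,-1,0,1),(0,-2,0,1)⟩,⟨(1,-1,0,0),(0,0,1,-1),(6,-5,-2,1),(0,0,2,-1)⟩⟩,
    ⟨35,0,⟨1,0⟩,⟨(1,0,0,0),(0,0,1,0),(0,1,0,0),(0,0,0,1)⟩,⟨(1,0,0,0),(0,0,1,0),(0,1,0,0),(0,0,0,1)⟩⟩,
    ⟨34,0,⟨1/6,1/6⟩,⟨(-1,1,-1,0),(0,0,-3,1),(-2,1,0,0),(0,0,-4,1)⟩,⟨(1,1,-1,-1),(2,2,-1,-2),(0,1,0,-1),(0,4,0,-3)⟩⟩⟩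

def r2_6 : R2 :=
  ⟨⟨(⟨0,0⟩,⟨-1,1/2⟩),(⟨0,0⟩,⟨3,0⟩),(⟨-1,1/2⟩,⟨0,0⟩),(⟨1,0⟩,⟨0,0⟩)⟩,
    (⟨0,0⟩,⟨0,0⟩,⟨-6,0⟩),
    (0,0,0,2),
    (0,0,1/3,2/3),
    ⟨20,0,⟨1,1⟩,⟨(0,0,-2,1),(0,0,1,0),(-3,1,0,0),(1,0,0,0)⟩,⟨(0,0,0,1),(0,0,1,3),(0,1,0,0),(1,2,0,0)⟩⟩,
    ⟨1,0,⟨1,1⟩,⟨(0,0,-1,0),(0,0,2,1),(-3,1,0,0),(1,0,0,0)⟩,⟨(0,0,0,1),(0,0,1,3),(-1,0,0,0),(2,1,0,0)⟩⟩,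
    ⟨36,0,⟨1,1⟩,⟨(0,0,0,1),(0,0,1,2),(-3,1,0,0),(1,0,0,0)⟩,⟨(0,0,0,1),(0,0,1,3),(-2,1,0,0),(1,0,0,0)⟩⟩,
    ⟨13,0,⟨1,1⟩,⟨(0,0,-1,0),(0,0,1,1),(-3,1,0,0),(1,0,0,0)⟩,⟨(0,0,0,1),(0,0,1,3),(-1,0,0,0),(1,1,0,0)⟩⟩,
    ⟨26,0,⟨1,1⟩,⟨(0,0,-1,0),(0,0,1,1),(-3,1,0,0),(1,0,0,0)⟩,⟨(0,0,0,1),(0,0,1,3),(-1,0,0,0),(1,1,0,0)⟩⟩⟩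

def r2_7 : R2 :=
  ⟨⟨(⟨0,3⟩,⟨0,0⟩),(⟨0,0⟩,⟨0,3⟩),(⟨1,1⟩,⟨0,0⟩),(⟨0,0⟩,⟨3,3⟩)⟩,
    (⟨66663/1235,300564/1235⟩,⟨3638241/9880,-2649897/9880⟩,⟨-269694/1235,-111717/1235⟩),
    (-1/3,1/3,0,0),
    (0,0,-1/3,1/3),
    ⟨37,4,⟨1,0⟩,⟨(0,-2,0,1),(0,-1,0,1),(-1,0,0,0),(-3,0,1,0)⟩,⟨(0,0,-1,0),(-1,1,0,0),(0,0,-3,1),(-1,2,0,0)⟩⟩,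
    ⟨20,0,⟨1,0⟩,⟨(0,1,0,0),(0,0,0,1),(1,0,0,0),(0,0,1,0)⟩,⟨(0,0,1,0),(1,0,0,0),(0,0,0,1),(0,1,0,0)⟩⟩,
    ⟨37,0,⟨1,0⟩,⟨(0,1,0,0),(0,0,0,1),(1,0,0,0),(0,0,1,0)⟩,⟨(0,0,1,0),(1,0,0,0),(0,0,0,1),(0,1,0,0)⟩⟩,
    ⟨13,0,⟨1,0⟩,⟨(0,1,0,0),(0,0,0,1),(1,0,0,0),(0,0,1,1)⟩,⟨(0,0,1,0),(1,0,0,0),(0,-1,0,1),(0,1,0,0)⟩⟩,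
    ⟨17,0,⟨1/3,-1/6⟩,⟨(4,1,0,0),(0,0,4,-1),(1,0,0,0),(0,0,3,-1)⟩,⟨(0,0,1,0),(1,0,-4,0),(0,1,0,-1),(0,3,0,-4)⟩⟩⟩

def r2_8 : R2 :=
  ⟨⟨(⟨-1,1/2⟩,⟨0,0⟩),(⟨1,0⟩,⟨0,0⟩),(⟨0,0⟩,⟨-1,1/2⟩),(⟨0,0⟩,⟨3,0⟩)⟩,
    (⟨0,0⟩,⟨0,0⟩,⟨6,0⟩),
    (0,2,0,0),
    (1,2,0,0),
    ⟨37,4,⟨1,1⟩,⟨(6,-2,0,1),(-1,0,0,0),(3,-1,-1,1),(-3,0,1,0)⟩,⟨(0,-1,0,0),(-1,-6,1,1),(0,-3,0,1),(-1,-6,2,2)⟩⟩,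
    ⟨2,4,⟨1,1⟩,⟨(3,-1,0,-1),(-2,0,0,1),(3,-1,-1,-1),(-3,0,1,2)⟩,⟨(-1,-2,1,1),(-2,-3,1,1),(1,0,-1,0),(-2,-3,2,2)⟩⟩,
    ⟨33,2,⟨1,1⟩,⟨(2,-1,-1,-1),(-2,0,1,2),(3,-1,-1,-2),(-3,0,1,2)⟩,⟨(0,1,0,-1),(0,0,-1,-1),(-2,1,2,0),(1,1,-1,-1)⟩⟩,
    ⟨13,0,⟨1,1⟩,⟨(-3,1,0,0),(1,0,0,0),(0,0,-1,0),(0,0,1,1)⟩,⟨(0,1,0,0),(1,3,0,0),(0,0,-1,0),(0,0,1,1)⟩⟩,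
    ⟨40,2,⟨1,1⟩,⟨(6,-2,-3,-2),(-2,0,1,1),(3,-1,-1,-1),(-3,0,1,1)⟩,⟨(0,1,0,-1),(0,0,-1,-1),(-1,0,2,0),(1,3,-2,-2)⟩⟩⟩

def r2_9 : R2 :=
  ⟨⟨(⟨1,1⟩,⟨0,0⟩),(⟨0,0⟩,⟨3,3⟩),(⟨0,3⟩,⟨0,3⟩),(⟨0,0⟩,⟨0,6⟩)⟩,
    (⟨-3995484/1235,696288/1235⟩,⟨1472772/1235,701796/1235⟩,⟨2401302/1235,-2330034/1235⟩),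
    (1,0,0,0),
    (0,0,1/3,0),
    ⟨6,2,⟨1,0⟩,⟨(-2,0,1,2),(-3,0,1,2),(0,-1,0,1),(0,-1,0,0)⟩,⟨(1,-1,0,0),(0,0,0,-1),(3,-2,-2,2),(0,0,1,-1)⟩⟩,
    ⟨29,0,⟨1,0⟩,⟨(1,0,0,0),(0,0,1,1),(0,1,0,0),(0,0,0,1)⟩,⟨(1,0,0,0),(0,0,1,0),(0,1,0,-1),(0,0,0,1)⟩⟩,
    ⟨40,5,⟨1,0⟩,⟨(1,0,-1,-1),(0,0,-1,-1),(0,1,0,-1),(0,0,0,-1)⟩,⟨(1,-1,0,0),(0,0,1,-1),(0,-1,0,1),(0,0,0,-1)⟩⟩,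
    ⟨37,0,⟨1,0⟩,⟨(1,0,0,0),(0,0,1,0),(0,1,0,0),(0,0,0,1)⟩,⟨(1,0,0,0),(0,0,1,0),(0,1,0,0),(0,0,0,1)⟩⟩,
    ⟨15,0,⟨1/6,1/6⟩,⟨(-1,1,0,0),(0,0,-3,1),(-2,1,-2,1),(0,0,-4,1)⟩,⟨(1,2,-1,-1),(2,2,-1,-1),(0,1,0,-1),(0,4,0,-3)⟩⟩⟩

def r2_10 : R2 :=
  ⟨⟨(⟨1,1⟩,⟨0,0⟩),(⟨0,0⟩,⟨1,1⟩),(⟨0,3⟩,⟨0,0⟩),(⟨0,0⟩,⟨0,6⟩)⟩,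
    (⟨-1885113457/3803280,1148410229/3803280⟩,⟨369776911193/578098560,-205574464621/578098560⟩,⟨19855972493/96349760,-28703502641/96349760⟩),
    (1,0,0,0),
    (0,0,1,0),
    ⟨25,2,⟨1,0⟩,⟨(-2,0,1,0),(-1,0,0,0),(0,-1,0,1),(0,-2,0,1)⟩,⟨(0,-1,0,0),(0,0,1,-1),(1,-2,0,0),(0,0,2,-1)⟩⟩,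
    ⟨41,0,⟨1,0⟩,⟨(1,0,0,0),(0,0,1,0),(0,1,0,0),(0,0,0,1)⟩,⟨(1,0,0,0),(0,0,1,0),(0,1,0,0),(0,0,0,1)⟩⟩,
    ⟨25,5,⟨1,0⟩,⟨(1,0,-1,0),(0,0,-1,0),(0,1,0,-1),(0,0,0,-1)⟩,⟨(1,-1,0,0),(0,0,1,-1),(0,-1,0,0),(0,0,0,-1)⟩⟩,
    ⟨11,0,⟨1,0⟩,⟨(1,0,0,0),(0,0,1,0),(0,1,0,0),(0,0,0,1)⟩,⟨(1,0,0,0),(0,0,1,0),(0,1,0,0),(0,0,0,1)⟩⟩,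
    ⟨32,0,⟨1/6,1/6⟩,⟨(-1,1,0,0),(0,0,-1,1),(-2,1,0,0),(0,0,-4,3)⟩,⟨(1,0,-1,0),(2,0,-1,0),(0,3,0,-1),(0,4,0,-1)⟩⟩⟩

def r2_11 : R2 :=
  ⟨⟨(⟨0,0⟩,⟨-1,1/2⟩),(⟨0,0⟩,⟨1,0⟩),(⟨-1,1/2⟩,⟨0,0⟩),(⟨1,0⟩,⟨0,0⟩)⟩,
    (⟨0,0⟩,⟨0,0⟩,⟨2,0⟩),
    (0,0,0,2),
    (0,0,1,2),
    ⟨11,0,⟨1,1⟩,⟨(0,0,-6,1),(0,0,1,0),(-3,1,0,0),(1,0,0,0)⟩,⟨(0,0,0,1),(0,0,1,3),(0,1,0,0),(1,6,0,0)⟩⟩,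
    ⟨0,0,⟨1,1⟩,⟨(0,0,-3,2),(0,0,2,-1),(-3,1,0,0),(1,0,0,0)⟩,⟨(0,0,0,1),(0,0,1,3),(1,2,0,0),(2,3,0,0)⟩⟩,
    ⟨14,0,⟨1,1⟩,⟨(0,0,-1,1),(0,0,1,0),(-3,1,0,0),(1,0,0,0)⟩,⟨(0,0,0,1),(0,0,1,3),(0,1,0,0),(1,1,0,0)⟩⟩,
    ⟨10,0,⟨1,1⟩,⟨(0,0,-3,1),(0,0,1,0),(-3,1,0,0),(1,0,0,0)⟩,⟨(0,0,0,1),(0,0,1,3),(0,1,0,0),(1,3,0,0)⟩⟩,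
    ⟨41,0,⟨1,1⟩,⟨(0,0,-3,1),(0,0,1,0),(-3,1,0,0),(1,0,0,0)⟩,⟨(0,0,0,1),(0,0,1,3),(0,1,0,0),(1,3,0,0)⟩⟩⟩

def r2_12 : R2 :=
  ⟨⟨(⟨0,1⟩,⟨0,2⟩),(⟨0,0⟩,⟨0,3⟩),(⟨1,1⟩,⟨0,6⟩),(⟨0,0⟩,⟨2,2⟩)⟩,
    (⟨1694006/11115,303818/11115⟩,⟨-599623/11115,-503029/11115⟩,⟨-673438/11115,563726/11115⟩),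
    (-1,1,0,0),
    (-4/3,-2/3,-1/3,1/3),
    ⟨12,0,⟨1,0⟩,⟨(0,1,0,1),(0,0,0,1),(1,0,0,2),(0,0,1,0)⟩,⟨(0,-2,1,0),(1,-1,0,0),(0,0,0,1),(0,1,0,0)⟩⟩,
    ⟨38,0,⟨1,0⟩,⟨(0,1,0,0),(0,0,0,1),(1,1,0,0),(0,0,1,0)⟩,⟨(-1,0,1,0),(1,0,0,0),(0,0,0,1),(0,1,0,0)⟩⟩,
    ⟨7,0,⟨1,0⟩,⟨(0,1,0,0),(0,0,0,1),(1,1,0,0),(0,0,1,0)⟩,⟨(-1,0,1,0),(1,0,0,0),(0,0,0,1),(0,1,0,0)⟩⟩,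
    ⟨19,0,⟨1,0⟩,⟨(0,1,0,0),(0,0,0,1),(1,1,0,1),(0,0,1,0)⟩,⟨(-1,-1,1,0),(1,0,0,0),(0,0,0,1),(0,1,0,0)⟩⟩,
    ⟨33,0,⟨1,-1/2⟩,⟨(4,-1,0,-2),(0,0,2,1),(3,-1,1,-1),(0,0,1,0)⟩,⟨(1,1,-1,-1),(3,2,-4,0),(0,0,0,1),(0,1,0,-2)⟩⟩⟩

def r2_13 : R2 :=
  ⟨⟨(⟨0,3⟩,⟨0,0⟩),(⟨0,0⟩,⟨0,3⟩),(⟨1,1⟩,⟨0,0⟩),(⟨0,0⟩,⟨2,2⟩)⟩,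
    (⟨162062553/1505465,-1049400983/4516395⟩,⟨1438055039/9032790,-3184885723/9032790⟩,⟨-45514990/301093,80668270/301093⟩),
    (-1/3,1/3,0,0),
    (0,0,-1/3,1/3),
    ⟨25,4,⟨1,0⟩,⟨(0,-2,0,1),(0,-1,0,1),(-1,0,0,0),(-2,0,1,0)⟩,⟨(0,0,-1,0),(-1,1,0,0),(0,0,-2,1),(-1,2,0,0)⟩⟩,
    ⟨41,0,⟨1,0⟩,⟨(0,1,0,0),(0,0,0,1),(1,0,0,0),(0,0,1,0)⟩,⟨(0,0,1,0),(1,0,0,0),(0,0,0,1),(0,1,0,0)⟩⟩,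
    ⟨25,0,⟨1,0⟩,⟨(0,1,0,0),(0,0,0,1),(1,0,0,0),(0,0,1,0)⟩,⟨(0,0,1,0),(1,0,0,0),(0,0,0,1),(0,1,0,0)⟩⟩,
    ⟨14,0,⟨1,0⟩,⟨(0,1,0,0),(0,0,0,1),(1,0,0,0),(0,0,1,0)⟩,⟨(0,0,1,0),(1,0,0,0),(0,0,0,1),(0,1,0,0)⟩⟩,
    ⟨8,0,⟨1/3,-1/6⟩,⟨(4,1,0,0),(0,0,2,1),(1,0,0,0),(0,0,1,0)⟩,⟨(0,0,1,0),(1,0,-4,0),(0,0,0,1),(0,1,0,-2)⟩⟩⟩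

def r2_14 : R2 :=
  ⟨⟨(⟨0,1⟩,⟨0,0⟩),(⟨0,0⟩,⟨0,1⟩),(⟨1,1⟩,⟨0,0⟩),(⟨0,0⟩,⟨2,0⟩)⟩,
    (⟨2494869781/121942665,-165266749/9380205⟩,⟨-288116519/243885330,2508382363/243885330⟩,⟨23895754/2709837,-52243966/8129511⟩),
    (-1,1,0,0),
    (0,0,0,1),
    ⟨18,4,⟨1,0⟩,⟨(0,-2,0,1),(0,-1,0,1),(-1,-1,0,1),(-2,0,1,1)⟩,⟨(0,1,-1,0),(-1,1,0,0),(1,0,-2,1),(-1,2,0,0)⟩⟩,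
    ⟨31,0,⟨1,0⟩,⟨(0,1,0,0),(0,0,0,1),(1,1,0,0),(0,0,1,0)⟩,⟨(-1,0,1,0),(1,0,0,0),(0,0,0,1),(0,1,0,0)⟩⟩,
    ⟨18,0,⟨1,0⟩,⟨(0,1,0,0),(0,0,0,1),(1,1,0,-1),(0,0,1,0)⟩,⟨(-1,1,1,0),(1,0,0,0),(0,0,0,1),(0,1,0,0)⟩⟩,
    ⟨8,0,⟨1,0⟩,⟨(0,1,0,0),(0,0,0,1),(1,1,0,0),(0,0,1,0)⟩,⟨(-1,0,1,0),(1,0,0,0),(0,0,0,1),(0,1,0,0)⟩⟩,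
    ⟨14,0,⟨1,-1/2⟩,⟨(4,-1,0,0),(0,0,2,-1),(3,-1,0,0),(0,0,1,-1)⟩,⟨(1,0,-1,0),(3,0,-4,0),(0,1,0,-1),(0,1,0,-2)⟩⟩⟩

def r2_15 : R2 :=
  ⟨⟨(⟨0,0⟩,⟨-1,1/2⟩),(⟨0,0⟩,⟨3,0⟩),(⟨-1,1/2⟩,⟨0,0⟩),(⟨3,0⟩,⟨0,0⟩)⟩,
    (⟨0,0⟩,⟨0,0⟩,⟨36,0⟩),
    (0,0,0,2),
    (0,0,1/3,2/3),
    ⟨32,0,⟨1/3,1/3⟩,⟨(0,0,-2,1),(0,0,1,0),(-1,0,0,0),(1,1,0,0)⟩,⟨(0,0,-1,0),(0,0,1,1),(0,1,0,0),(1,2,0,0)⟩⟩,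
    ⟨3,0,⟨1/3,1/3⟩,⟨(0,0,-1,0),(0,0,2,1),(-1,0,0,0),(1,1,0,0)⟩,⟨(0,0,-1,0),(0,0,1,1),(-1,0,0,0),(2,1,0,0)⟩⟩,
    ⟨8,0,⟨1/3,1/3⟩,⟨(0,0,0,1),(0,0,1,2),(-1,0,0,0),(1,1,0,0)⟩,⟨(0,0,-1,0),(0,0,1,1),(-2,1,0,0),(1,0,0,0)⟩⟩,
    ⟨9,0,⟨1/3,1/3⟩,⟨(0,0,-1,0),(0,0,1,1),(-1,0,0,0),(1,1,0,0)⟩,⟨(0,0,-1,0),(0,0,1,1),(-1,0,0,0),(1,1,0,0)⟩⟩,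
    ⟨31,0,⟨1/3,1/3⟩,⟨(0,0,-1,0),(0,0,1,1),(-1,0,0,0),(1,1,0,0)⟩,⟨(0,0,-1,0),(0,0,1,1),(-1,0,0,0),(1,1,0,0)⟩⟩⟩

def r2_16 : R2 :=
  ⟨⟨(⟨1,0⟩,⟨0,0⟩),(⟨0,0⟩,⟨1,1⟩),(⟨0,1⟩,⟨0,0⟩),(⟨0,0⟩,⟨0,6⟩)⟩,
    (⟨500309/11115,-118273/11115⟩,⟨-500309/11115,118273/11115⟩,⟨0,0⟩),
    (1,0,0,0),
    (0,0,1,0),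
    ⟨7,2,⟨1,0⟩,⟨(-2,0,1,0),(-1,-1,0,1),(0,-1,0,1),(0,-6,0,5)⟩,⟨(0,-1,1,0),(0,0,5,-1),(1,-2,2,0),(0,0,6,-1)⟩⟩,
    ⟨39,0,⟨1,0⟩,⟨(1,0,0,0),(0,0,1,0),(0,1,0,0),(0,0,0,1)⟩,⟨(1,0,0,0),(0,0,1,0),(0,1,0,0),(0,0,0,1)⟩⟩,
    ⟨7,5,⟨1,0⟩,⟨(1,0,-1,0),(0,0,-1,0),(0,1,0,-1),(0,0,0,-1)⟩,⟨(1,-1,0,0),(0,0,1,-1),(0,-1,0,0),(0,0,0,-1)⟩⟩,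
    ⟨16,0,⟨1,0⟩,⟨(1,0,0,0),(0,0,1,0),(0,1,0,0),(0,0,0,1)⟩,⟨(1,0,0,0),(0,0,1,0),(0,1,0,0),(0,0,0,1)⟩⟩,
    ⟨20,0,⟨1/2,1/2⟩,⟨(1,0,0,0),(0,0,-1,1),(-2,1,0,0),(0,0,-4,3)⟩,⟨(1,0,0,0),(2,0,1,0),(0,3,0,-1),(0,4,0,-1)⟩⟩⟩

def r2_17 : R2 :=
  ⟨⟨(⟨0,3⟩,⟨0,0⟩),(⟨0,0⟩,⟨0,3⟩),(⟨1,1⟩,⟨2,2⟩),(⟨0,0⟩,⟨6,0⟩)⟩,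
    (⟨-3259329/1235,-39867/1235⟩,⟨185997/1235,938631/1235⟩,⟨1351362/1235,-230154/1235⟩),
    (-1/3,1/3,0,0),
    (-2/3,0,0,1/3),
    ⟨6,0,⟨1,0⟩,⟨(0,1,0,0),(0,0,0,1),(1,0,0,0),(0,0,1,0)⟩,⟨(0,0,1,0),(1,0,0,0),(0,0,0,1),(0,1,0,0)⟩⟩,
    ⟨40,0,⟨1,0⟩,⟨(0,1,0,0),(0,0,0,1),(1,0,0,0),(0,0,1,0)⟩,⟨(0,0,1,0),(1,0,0,0),(0,0,0,1),(0,1,0,0)⟩⟩,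
    ⟨30,0,⟨1,0⟩,⟨(0,1,0,0),(0,0,0,1),(1,0,0,0),(0,0,1,0)⟩,⟨(0,0,1,0),(1,0,0,0),(0,0,0,1),(0,1,0,0)⟩⟩,
    ⟨33,0,⟨1,0⟩,⟨(0,1,0,0),(0,0,0,1),(1,0,0,0),(0,0,1,0)⟩,⟨(0,0,1,0),(1,0,0,0),(0,0,0,1),(0,1,0,0)⟩⟩,
    ⟨19,0,⟨1/3,-1/6⟩,⟨(4,1,0,-2),(0,0,2,-1),(1,0,1,-1),(0,0,1,-1)⟩,⟨(0,0,1,-1),(1,2,-4,0),(0,1,0,-1),(0,1,0,-2)⟩⟩⟩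

def r2_18 : R2 :=
  ⟨⟨(⟨1,0⟩,⟨0,3⟩),(⟨0,0⟩,⟨1,1⟩),(⟨0,0⟩,⟨0,6⟩),(⟨0,1⟩,⟨0,3⟩)⟩,
    (⟨75436/855,19468/855⟩,⟨-561718/11115,-333454/11115⟩,⟨1876/39,-308/39⟩),
    (1,0,0,0),
    (0,0,1,0),
    ⟨12,2,⟨1,0⟩,⟨(-2,-2,1,0),(-1,0,0,0),(0,-3,0,1),(0,-2,0,1)⟩,⟨(0,-1,0,0),(0,0,-1,1),(1,-2,-2,2),(0,0,-2,3)⟩⟩,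
    ⟨4,0,⟨1,0⟩,⟨(1,0,0,0),(0,0,1,0),(0,0,0,1),(0,1,0,0)⟩,⟨(1,0,0,0),(0,0,0,1),(0,1,0,0),(0,0,1,0)⟩⟩,
    ⟨38,5,⟨1,0⟩,⟨(1,0,-1,-1),(0,0,-1,0),(0,0,0,-1),(0,1,0,-1)⟩,⟨(1,-1,-1,0),(0,0,-1,1),(0,-1,0,0),(0,0,-1,0)⟩⟩,
    ⟨15,0,⟨1,0⟩,⟨(1,0,0,0),(0,0,1,0),(0,0,0,1),(0,1,0,0)⟩,⟨(1,0,0,0),(0,0,0,1),(0,1,0,0),(0,0,1,0)⟩⟩,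
    ⟨37,0,⟨1/2,1/2⟩,⟨(1,0,-4,3),(0,0,-1,1),(0,0,-4,3),(-2,1,-2,1)⟩,⟨(1,0,-1,0),(2,2,-3,1),(0,3,-1,0),(0,4,-1,0)⟩⟩⟩

def r2_ : List R2 := [r2_0, r2_1, r2_2, r2_3, r2_4, r2_5, r2_6, r2_7, r2_8, r2_9, r2_10, r2_11, r2_12, r2_13, r2_14, r2_15, r2_16, r2_17, r2_18]

def r3_0 : R3 :=
  ⟨⟨(⟨0,1⟩,⟨0,1⟩),(⟨0,0⟩,⟨0,2⟩),(⟨1,1⟩,⟨0,0⟩),(⟨0,0⟩,⟨2,2⟩)⟩,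
    (⟨-577701/9880,-328883/9880⟩,⟨687593/11115,408793/22230⟩,⟨-871/18,991/117⟩),
    (-1,1,0,0),
    (1/2,-1/2,-1/2,1/2),
    ⟨12,4,⟨1,0⟩,⟨(0,-3,0,2),(0,-1,0,1),(-1,0,0,0),(-2,0,1,0)⟩,⟨(0,0,-1,0),(-1,2,0,0),(0,0,-2,1),(-1,3,0,0)⟩⟩,
    ⟨21,0,⟨1,0⟩,⟨(0,1,0,0),(0,0,0,1),(1,1,0,-1),(0,0,1,0)⟩,⟨(-1,1,1,0),(1,0,0,0),(0,0,0,1),(0,1,0,0)⟩⟩,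
    ⟨4,0,⟨1,0⟩,⟨(0,1,0,0),(0,0,0,1),(1,1,0,-1),(0,0,1,0)⟩,⟨(-1,1,1,0),(1,0,0,0),(0,0,0,1),(0,1,0,0)⟩⟩,
    ⟨7,0,⟨1,0⟩,⟨(0,1,0,-1),(0,0,0,1),(1,1,0,-1),(0,0,1,0)⟩,⟨(-1,0,1,0),(1,1,0,0),(0,0,0,1),(0,1,0,0)⟩⟩,
    ⟨18,0,⟨1,0⟩,⟨(0,1,0,0),(0,0,0,1),(1,1,0,-1),(0,0,1,1)⟩,⟨(-1,1,1,0),(1,0,0,0),(0,-1,0,1),(0,1,0,0)⟩⟩,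
    ⟨25,0,⟨1,0⟩,⟨(0,1,0,0),(0,0,0,1),(1,0,0,0),(0,0,1,0)⟩,⟨(0,0,1,0),(1,0,0,0),(0,0,0,1),(0,1,0,0)⟩⟩⟩

def r3_1 : R3 :=
  ⟨⟨(⟨1,1⟩,⟨0,0⟩),(⟨0,0⟩,⟨2,2⟩),(⟨0,3⟩,⟨0,3⟩),(⟨0,0⟩,⟨0,6⟩)⟩,
    (⟨27042207/9880,-2908119/9880⟩,⟨-970602/1235,-1075557/2470⟩,⟨-3470229/2470,76743/95⟩),
    (1,0,0,0),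
    (0,0,1/2,0),
    ⟨6,4,⟨1,0⟩,⟨(-3,0,1,2),(-2,0,1,2),(0,-1,0,1),(0,-1,0,2)⟩,⟨(-1,1,0,0),(0,0,-2,1),(-2,3,2,-2),(0,0,-1,1)⟩⟩,
    ⟨29,0,⟨1,0⟩,⟨(1,0,0,0),(0,0,1,1),(0,1,0,0),(0,0,0,1)⟩,⟨(1,0,0,0),(0,0,1,0),(0,1,0,-1),(0,0,0,1)⟩⟩,
    ⟨30,0,⟨1,0⟩,⟨(1,0,0,0),(0,0,1,1),(0,1,0,0),(0,0,0,1)⟩,⟨(1,0,0,0),(0,0,1,0),(0,1,0,-1),(0,0,0,1)⟩⟩,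
    ⟨5,5,⟨1,0⟩,⟨(1,0,0,0),(0,0,-1,-1),(0,1,0,-1),(0,0,0,-1)⟩,⟨(1,0,0,0),(0,0,1,-1),(0,-1,0,1),(0,0,0,-1)⟩⟩,
    ⟨25,0,⟨1,0⟩,⟨(1,0,0,0),(0,0,1,0),(0,1,0,0),(0,0,0,1)⟩,⟨(1,0,0,0),(0,0,1,0),(0,1,0,0),(0,0,0,1)⟩⟩,
    ⟨18,0,⟨1/3,0⟩,⟨(1,1,0,-1),(0,0,1,1),(0,1,0,0),(0,0,0,1)⟩,⟨(1,0,-1,1),(0,0,1,0),(0,1,0,-1),(0,0,0,1)⟩⟩⟩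

def r3_2 : R3 :=
  ⟨⟨(⟨1,1⟩,⟨0,0⟩),(⟨0,0⟩,⟨2,2⟩),(⟨0,3⟩,⟨0,0⟩),(⟨0,0⟩,⟨0,6⟩)⟩,
    (⟨-7472714601/24087440,1958926221/24087440⟩,⟨135386885427/192699520,-137788404879/192699520⟩,⟨46914272013/96349760,-44512752561/96349760⟩),
    (1,0,0,0),
    (0,0,1/2,0),
    ⟨40,4,⟨1,0⟩,⟨(-3,0,1,1),(-2,0,1,1),(0,-1,0,0),(0,-2,0,1)⟩,⟨(-1,1,0,0),(0,0,-1,0),(-2,3,2,-1),(0,0,-2,1)⟩⟩,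
    ⟨26,0,⟨1,0⟩,⟨(1,0,0,0),(0,0,1,1),(0,1,0,0),(0,0,0,1)⟩,⟨(1,0,0,0),(0,0,1,0),(0,1,0,-1),(0,0,0,1)⟩⟩,
    ⟨40,0,⟨1,0⟩,⟨(1,0,0,0),(0,0,1,1),(0,1,0,0),(0,0,0,1)⟩,⟨(1,0,0,0),(0,0,1,0),(0,1,0,-1),(0,0,0,1)⟩⟩,
    ⟨27,2,⟨1,0⟩,⟨(1,0,0,0),(-6,0,1,1),(0,-1,0,1),(0,-2,0,1)⟩,⟨(1,0,0,0),(0,0,1,-1),(6,1,-2,1),(0,0,2,-1)⟩⟩,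
    ⟨41,0,⟨1,0⟩,⟨(1,0,0,0),(0,0,1,0),(0,1,0,0),(0,0,0,1)⟩,⟨(1,0,0,0),(0,0,1,0),(0,1,0,0),(0,0,0,1)⟩⟩,
    ⟨31,0,⟨1/3,0⟩,⟨(1,1,0,0),(0,0,1,1),(0,1,0,0),(0,0,0,1)⟩,⟨(1,0,-1,0),(0,0,1,0),(0,1,0,-1),(0,0,0,1)⟩⟩⟩

def r3_3 : R3 :=
  ⟨⟨(⟨1,1⟩,⟨0,0⟩),(⟨0,0⟩,⟨1,1⟩),(⟨0,3⟩,⟨0,0⟩),(⟨0,0⟩,⟨0,6⟩)⟩,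
    (⟨2094782421/2408744,-597419817/2408744⟩,⟨-2094782421/2408744,597419817/2408744⟩,⟨-550492581/1505465,983250447/1505465⟩),
    (1,0,0,0),
    (0,0,1,0),
    ⟨37,2,⟨1,0⟩,⟨(-3,0,1,0),(-1,0,0,0),(0,-1,0,1),(0,-2,0,1)⟩,⟨(0,-1,0,0),(0,0,1,-1),(1,-3,0,0),(0,0,2,-1)⟩⟩,
    ⟨20,0,⟨1,0⟩,⟨(1,0,0,0),(0,0,1,0),(0,1,0,0),(0,0,0,1)⟩,⟨(1,0,0,0),(0,0,1,0),(0,1,0,0),(0,0,0,1)⟩⟩,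
    ⟨35,0,⟨1,0⟩,⟨(1,0,0,0),(0,0,1,0),(0,1,0,0),(0,0,0,1)⟩,⟨(1,0,0,0),(0,0,1,0),(0,1,0,0),(0,0,0,1)⟩⟩,
    ⟨37,5,⟨1,0⟩,⟨(1,0,0,0),(0,0,-1,0),(0,1,0,-1),(0,0,0,-1)⟩,⟨(1,0,0,0),(0,0,1,-1),(0,-1,0,0),(0,0,0,-1)⟩⟩,
    ⟨11,0,⟨1,0⟩,⟨(1,0,0,0),(0,0,1,0),(0,1,0,0),(0,0,0,1)⟩,⟨(1,0,0,0),(0,0,1,0),(0,1,0,0),(0,0,0,1)⟩⟩,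
    ⟨32,0,⟨1/3,0⟩,⟨(1,1,0,0),(0,0,1,0),(0,1,0,0),(0,0,0,1)⟩,⟨(1,0,-1,0),(0,0,1,0),(0,1,0,0),(0,0,0,1)⟩⟩⟩

def r3_4 : R3 :=
  ⟨⟨(⟨0,1⟩,⟨0,0⟩),(⟨0,0⟩,⟨0,1⟩),(⟨1,1⟩,⟨0,0⟩),(⟨0,0⟩,⟨2,-1⟩)⟩,
    (⟨2462/585,5621/585⟩,⟨-2462/585,-5621/585⟩,⟨0,0⟩),
    (-1,1,0,0),
    (0,0,1/2,1),
    ⟨19,4,⟨1,0⟩,⟨(0,-3,0,2),(0,-1,0,1),(-1,-1,0,1),(-2,1,1,-1)⟩,⟨(0,1,-1,0),(-1,2,0,0),(0,3,-2,1),(-1,3,0,0)⟩⟩,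
    ⟨42,0,⟨1,0⟩,⟨(0,1,0,0),(0,0,0,1),(1,1,0,0),(0,0,1,-1)⟩,⟨(-1,0,1,0),(1,0,0,0),(0,1,0,1),(0,1,0,0)⟩⟩,
    ⟨23,0,⟨1,0⟩,⟨(0,1,0,0),(0,0,0,1),(1,1,0,-1),(0,0,1,-1)⟩,⟨(-1,1,1,0),(1,0,0,0),(0,1,0,1),(0,1,0,0)⟩⟩,
    ⟨19,0,⟨1,0⟩,⟨(0,1,0,-1),(0,0,0,1),(1,1,0,-1),(0,0,1,-1)⟩,⟨(-1,0,1,0),(1,1,0,0),(0,1,0,1),(0,1,0,0)⟩⟩,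
    ⟨8,0,⟨1,0⟩,⟨(0,1,0,0),(0,0,0,1),(1,1,0,0),(0,0,1,-1)⟩,⟨(-1,0,1,0),(1,0,0,0),(0,1,0,1),(0,1,0,0)⟩⟩,
    ⟨14,0,⟨1,0⟩,⟨(0,1,0,0),(0,0,0,1),(1,0,0,0),(0,0,1,-1)⟩,⟨(0,0,1,0),(1,0,0,0),(0,1,0,1),(0,1,0,0)⟩⟩⟩

def r3_5 : R3 :=
  ⟨⟨(⟨0,1⟩,⟨0,0⟩),(⟨0,0⟩,⟨0,2⟩),(⟨1,1⟩,⟨0,0⟩),(⟨0,0⟩,⟨1,1⟩)⟩,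
    (⟨66989251513/1734295680,-1045938737/133407360⟩,⟨-417261234443/13874365440,83865569431/13874365440⟩,⟨67948807307/6937182720,-96767699479/6937182720⟩),
    (-1,1,0,0),
    (0,0,-1/2,1/2),
    ⟨15,2,⟨1,0⟩,⟨(0,-3,0,2),(0,-2,0,1),(-1,-1,1,1),(-1,-1,0,1)⟩,⟨(1,-1,0,-1),(1,-2,0,0),(0,0,1,-1),(2,-3,0,0)⟩⟩,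
    ⟨16,0,⟨1,0⟩,⟨(0,1,0,0),(0,0,0,1),(1,1,0,0),(0,0,1,0)⟩,⟨(-1,0,1,0),(1,0,0,0),(0,0,0,1),(0,1,0,0)⟩⟩,
    ⟨15,5,⟨1,0⟩,⟨(0,1,0,-1),(0,0,0,-1),(1,1,-1,-1),(0,0,-1,0)⟩,⟨(-1,0,1,-1),(1,-1,0,0),(0,0,0,-1),(0,-1,0,0)⟩⟩,
    ⟨34,0,⟨1,0⟩,⟨(0,1,0,-1),(0,0,0,1),(1,1,0,-1),(0,0,1,0)⟩,⟨(-1,0,1,0),(1,1,0,0),(0,0,0,1),(0,1,0,0)⟩⟩,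
    ⟨32,0,⟨1,0⟩,⟨(0,1,0,0),(0,0,0,1),(1,1,0,0),(0,0,1,0)⟩,⟨(-1,0,1,0),(1,0,0,0),(0,0,0,1),(0,1,0,0)⟩⟩,
    ⟨11,0,⟨1,0⟩,⟨(0,1,0,0),(0,0,0,1),(1,0,0,0),(0,0,1,0)⟩,⟨(0,0,1,0),(1,0,0,0),(0,0,0,1),(0,1,0,0)⟩⟩⟩

def r3_6 : R3 :=
  ⟨⟨(⟨0,1⟩,⟨0,0⟩),(⟨0,0⟩,⟨0,2⟩),(⟨1,1⟩,⟨0,0⟩),(⟨0,0⟩,⟨2,2⟩)⟩,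
    (⟨-576293/22230,-1931/494⟩,⟨356669/11115,25367/11115⟩,⟨0,0⟩),
    (-1,1,0,0),
    (0,0,-1/2,1/2),
    ⟨38,4,⟨1,0⟩,⟨(0,-3,0,1),(0,-2,0,1),(-1,-1,0,1),(-2,-2,1,2)⟩,⟨(-1,2,-1,0),(-1,1,0,0),(0,0,-2,1),(-2,3,0,0)⟩⟩,
    ⟨39,0,⟨1,0⟩,⟨(0,1,0,0),(0,0,0,1),(1,1,0,0),(0,0,1,0)⟩,⟨(-1,0,1,0),(1,0,0,0),(0,0,0,1),(0,1,0,0)⟩⟩,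
    ⟨38,0,⟨1,0⟩,⟨(0,1,0,0),(0,0,0,1),(1,1,0,-1),(0,0,1,0)⟩,⟨(-1,1,1,0),(1,0,0,0),(0,0,0,1),(0,1,0,0)⟩⟩,
    ⟨22,0,⟨1,0⟩,⟨(0,1,0,-1),(0,0,0,1),(1,1,0,-1),(0,0,1,0)⟩,⟨(-1,0,1,0),(1,1,0,0),(0,0,0,1),(0,1,0,0)⟩⟩,
    ⟨31,0,⟨1,0⟩,⟨(0,1,0,0),(0,0,0,1),(1,1,0,0),(0,0,1,1)⟩,⟨(-1,0,1,0),(1,0,0,0),(0,-1,0,1),(0,1,0,0)⟩⟩,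
    ⟨41,0,⟨1,0⟩,⟨(0,1,0,0),(0,0,0,1),(1,0,0,0),(0,0,1,0)⟩,⟨(0,0,1,0),(1,0,0,0),(0,0,0,1),(0,1,0,0)⟩⟩⟩

def r3_7 : R3 :=
  ⟨⟨(⟨1,1⟩,⟨0,0⟩),(⟨0,0⟩,⟨2,2⟩),(⟨0,3⟩,⟨0,0⟩),(⟨0,0⟩,⟨0,3⟩)⟩,
    (⟨0,0⟩,⟨-31611/260,132657/260⟩,⟨0,0⟩),
    (1,0,0,0),
    (0,0,1/2,0),
    ⟨33,4,⟨1,0⟩,⟨(-3,0,1,2),(-2,0,1,2),(0,-1,0,0),(0,-1,0,1)⟩,⟨(-1,1,0,0),(0,0,-1,0),(-2,3,2,-2),(0,0,-1,1)⟩⟩,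
    ⟨36,0,⟨1,0⟩,⟨(1,0,0,0),(0,0,1,2),(0,1,0,0),(0,0,0,1)⟩,⟨(1,0,0,0),(0,0,1,0),(0,1,0,-2),(0,0,0,1)⟩⟩,
    ⟨33,0,⟨1,0⟩,⟨(1,0,0,0),(0,0,1,2),(0,1,0,0),(0,0,0,1)⟩,⟨(1,0,0,0),(0,0,1,0),(0,1,0,-2),(0,0,0,1)⟩⟩,
    ⟨24,2,⟨1,0⟩,⟨(1,0,0,0),(-6,0,1,2),(0,-1,0,1),(0,-1,0,0)⟩,⟨(1,0,0,0),(0,0,0,-1),(6,1,-2,2),(0,0,1,-1)⟩⟩,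
    ⟨14,0,⟨1,0⟩,⟨(1,0,0,0),(0,0,1,0),(0,1,0,0),(0,0,0,1)⟩,⟨(1,0,0,0),(0,0,1,0),(0,1,0,0),(0,0,0,1)⟩⟩,
    ⟨8,0,⟨1/3,0⟩,⟨(1,1,0,0),(0,0,1,2),(0,1,0,0),(0,0,0,1)⟩,⟨(1,0,-1,0),(0,0,1,0),(0,1,0,-2),(0,0,0,1)⟩⟩⟩

def r3_ : List R3 := [r3_0, r3_1, r3_2, r3_3, r3_4, r3_5, r3_6, r3_7]

def rs0 : RS :=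
  ⟨⟨(⟨1,1⟩,⟨0,0⟩),(⟨0,3⟩,⟨0,0⟩),(⟨0,0⟩,⟨3,3⟩),(⟨0,0⟩,⟨0,6⟩)⟩,
    (⟨-43911/208,2583/208⟩,⟨0,0⟩,⟨-64615041/126776,16700049/126776⟩),
    ⟨20,0,⟨1,0⟩,⟨(1,0,0,0),(0,1,0,0),(0,0,1,0),(0,0,0,1)⟩,⟨(1,0,0,0),(0,1,0,0),(0,0,1,0),(0,0,0,1)⟩⟩,
    ⟨20,4,⟨1,0⟩,⟨(-1,0,0,0),(0,-1,0,0),(-3,0,1,0),(0,-2,0,1)⟩,⟨(-1,0,0,0),(0,-1,0,0),(-3,0,1,0),(0,-2,0,1)⟩⟩⟩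

def rs1 : RS :=
  ⟨⟨(⟨1,1⟩,⟨0,0⟩),(⟨0,3⟩,⟨0,0⟩),(⟨0,0⟩,⟨1,1⟩),(⟨0,0⟩,⟨0,3⟩)⟩,
    (⟨-5424375803/22819680,1249483951/22819680⟩,⟨1078234771/11409840,692757343/11409840⟩,⟨0,0⟩),
    ⟨10,0,⟨1,0⟩,⟨(1,0,0,0),(0,1,0,0),(0,0,1,0),(0,0,0,1)⟩,⟨(1,0,0,0),(0,1,0,0),(0,0,1,0),(0,0,0,1)⟩⟩,
    ⟨10,3,⟨1,0⟩,⟨(0,0,1,0),(0,0,0,1),(1,0,0,0),(0,1,0,0)⟩,⟨(0,0,1,0),(0,0,0,1),(1,0,0,0),(0,1,0,0)⟩⟩⟩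

def rs2 : RS :=
  ⟨⟨(⟨1,0⟩,⟨0,2⟩),(⟨0,1⟩,⟨0,1⟩),(⟨0,0⟩,⟨1,1⟩),(⟨0,0⟩,⟨0,3⟩)⟩,
    (⟨-1967/208,107/26⟩,⟨-3213/416,1051/208⟩,⟨0,0⟩),
    ⟨28,0,⟨1,0⟩,⟨(1,0,0,0),(0,1,0,0),(0,0,1,0),(0,0,0,1)⟩,⟨(1,0,0,0),(0,1,0,0),(0,0,1,0),(0,0,0,1)⟩⟩,
    ⟨28,5,⟨1,0⟩,⟨(1,0,-1,-1),(0,1,0,-1),(0,0,-1,0),(0,0,0,-1)⟩,⟨(1,0,-1,-1),(0,1,0,-1),(0,0,-1,0),(0,0,0,-1)⟩⟩⟩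

def rs3 : RS :=
  ⟨⟨(⟨1,0⟩,⟨0,0⟩),(⟨0,1⟩,⟨0,0⟩),(⟨0,0⟩,⟨1,0⟩),(⟨0,0⟩,⟨0,1⟩)⟩,
    (⟨9575156431/308065680,-3279838427/308065680⟩,⟨0,0⟩,⟨-549366373/19254105,200974616/19254105⟩),
    ⟨9,0,⟨1,0⟩,⟨(1,0,0,0),(0,1,0,0),(0,0,1,0),(0,0,0,1)⟩,⟨(1,0,0,0),(0,1,0,0),(0,0,1,0),(0,0,0,1)⟩⟩,
    ⟨9,4,⟨1,0⟩,⟨(-1,0,0,0),(0,-1,0,0),(-1,0,1,0),(0,-1,0,1)⟩,⟨(-1,0,0,0),(0,-1,0,0),(-1,0,1,0),(0,-1,0,1)⟩⟩⟩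

def rs : List RS := [rs0, rs1, rs2, rs3]

lemma ok_rt : ∀ r ∈ rt, r.ok atm := by decide +kernel

lemma ok_r2 : ∀ r ∈ r2_, r.ok atm := by decide +kernel

lemma ok_r3 : ∀ r ∈ r3_, r.ok atm := by decide +kernel

lemma ok_rs : ∀ r ∈ rs, r.ok atm := by decide +kernel

lemma ok_n : ∀ e ∈ allEnts tg1 tg2 tg3 tg4 rt r2_ r3_ rs, e.1 < 43 := by decide +kernel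

lemma ok_c : ∀ j < 43, collect j (allEnts tg1 tg2 tg3 tg4 rt r2_ r3_ rs) = 0 := by
  decide +kernel

end RV5.Ct

theorem RV5.ct_of (hB : RV5.BOUND) : RV5.CT :=
  RV5.Ct.ct_of_cert hB _ _ _ _ _ _ _ _ _ _ (by decide +kernel) (by decide +kernel)
    (by decide +kernel) (by decide +kernel) RV5.Ct.ok_rt RV5.Ct.ok_r2 RV5.Ct.ok_r3 RV5.Ct.ok_rs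
    RV5.Ct.ok_n RV5.Ct.ok_c (by decide +kernel) (by decide +kernel)
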