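import Pool.Agent.Lib.RV5.Blue

/-! Block CZ: the Eisenstein-Kronecker sum at the CM point. -/

open Complex
open scoped Real ComplexConjugate

namespace RV5

lemma cz_chi_mul (a b : ℂ) : chi (a * b) = chi a * chi b := by
  simp only [chi, map_mul, mul_pow, one_div, mul_inv]; ring

lemma cz_norm_chi (a : ℂ) : ‖chi a‖ = 1 / ‖a‖ ^ 6 := by
  simp only [chi, norm_div, norm_one, norm_mul, norm_pow, Complex.norm_conj]; ring

lemma cz_summable : Summable fun p : ℤ × ℤ => chi (pt tau0 p) :=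
  Summable.of_norm (by simp only [cz_norm_chi]; exact summable_pt tau0_im_pos (by norm_num))

lemma cz_sub (φ : ℤ × ℤ → ℤ × ℤ) (hφ : Function.Injective φ) (P : ℤ × ℤ → Prop)
    [DecidablePred P] (hP : ∀ q, P q ↔ ∃ p, φ p = q) (t : ℂ) (w : ℤ × ℤ → ℂ)
    (hw : ∀ p, pt tau0 (φ p) = t * w p) :
    HasSum (fun q => (if P q then 1 else 0 : ℂ) * chi (pt tau0 q)) (chi t * ∑' p, chi (w p)) := by
  have h1 : Summable fun q => (if P q then 1 else 0 : ℂ) * chi (pt tau0 q) := by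
    refine Summable.of_norm_bounded cz_summable.norm fun q => ?_
    split_ifs <;> simp
  have h2 := hφ.tsum_eq (f := fun q => (if P q then 1 else 0 : ℂ) * chi (pt tau0 q)) (by
    intro q hq
    by_contra hn
    have : ¬ P q := fun h => hn ((hP q).mp h)
    simp [this] at hq)
  rw [← tsum_mul_left]
  convert h1.hasSum using 1
  rw [← h2]
  refine tsum_congr fun p => ?_
  rw [if_pos ((hP _).mpr ⟨p, rfl⟩), one_mul, hw, cz_chi_mul]

lemma cz_pt (m n : ℤ) : pt tau0 (m, n) = m * ((th - 2) / 2) + n := by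
  rw [pt_eq, six_tau0]

lemma cz_chi_of (t c : ℂ) (h : c * (t ^ 4 * conj t ^ 2) = 1) : chi t = c := by
  rw [chi]
  exact (eq_one_div_of_mul_eq_one_left h).symm

lemma cz_chi1 : chi 1 = 1 := by simp [chi]

lemma cz_chi2 : chi (th / 2) = (1 - th) / 4 - 1 := by
  refine cz_chi_of _ _ ?_
  rw [map_div₀, conj_th, map_ofNat]
  linear_combination (-1 / 4 - 1 / 16 * th + 3 / 64 * th ^ 2 + 7 / 256 * th ^ 3 -
    1 / 128 * th ^ 4 - 1 / 256 * th ^ 5) * th_sq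

lemma cz_chi3 : chi (th - 2) = -(1 - th) / 432 := by
  refine cz_chi_of _ _ ?_
  rw [map_sub, conj_th, map_ofNat]
  linear_combination (-7 / 27 - 1 / 18 * th + 7 / 108 * th ^ 2 + 5 / 432 * th ^ 3 -
    1 / 72 * th ^ 4 + 1 / 432 * th ^ 5) * th_sq

lemma cz_chi4 : chi ((2 - th) / 3) = -27 * (1 - th) / 16 := by
  refine cz_chi_of _ _ ?_
  rw [map_div₀, map_sub, conj_th, map_ofNat, map_ofNat]
  linear_combination (-7 / 27 - 1 / 18 * th + 7 / 108 * th ^ 2 + 5 / 432 * th ^ 3 -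
    1 / 72 * th ^ 4 + 1 / 432 * th ^ 5) * th_sq

lemma cz_inj (a b c d : ℤ) (h : a * d - b * c ≠ 0) :
    Function.Injective fun p : ℤ × ℤ => (a * p.1 + b * p.2, c * p.1 + d * p.2) := by
  intro p q hpq
  obtain ⟨e1, e2⟩ := Prod.mk.inj hpq
  ext
  · exact mul_left_cancel₀ h (by linear_combination d * e1 - b * e2)
  · exact mul_left_cancel₀ h (by linear_combination a * e2 - c * e1)

lemma cz_L1 : HasSum (fun q : ℤ × ℤ => (if 2 ∣ q.1 ∧ 2 ∣ q.2 then 1 else 0 : ℂ) * chi (pt tau0 q))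
    (chi ((2 - th) / 3) * Z1) := by
  refine cz_sub _ (cz_inj (-2) 0 0 2 (by norm_num)) _ (fun q => ?_) _ _ fun p => ?_
  · constructor
    · rintro ⟨h1, h2⟩
      exact ⟨(-(q.1 / 2), q.2 / 2), Prod.ext (by simp only; omega) (by simp only; omega)⟩
    · rintro ⟨p, rfl⟩
      simp only; omega
  · rw [cz_pt]; push_cast
    linear_combination (p.2 / 3 : ℂ) * th_sq

lemma cz_L2 : HasSum (fun q : ℤ × ℤ => (if 2 ∣ q.1 then 1 else 0 : ℂ) * chi (pt tau0 q))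
    (chi 1 * Z0) := by
  refine cz_sub _ (cz_inj 0 2 1 2 (by norm_num)) _ (fun q => ?_) _ _ fun p => ?_
  · constructor
    · intro h1
      exact ⟨(q.2 - q.1, q.1 / 2), Prod.ext (by simp only; omega) (by simp only; omega)⟩
    · rintro ⟨p, rfl⟩
      simp only; omega
  · rw [cz_pt]; push_cast; ring

lemma cz_L3 : HasSum (fun q : ℤ × ℤ => (if 2 ∣ q.1 - q.2 then 1 else 0 : ℂ) * chi (pt tau0 q))
    (chi (th / 2) * Z0) := by
  refine cz_sub _ (cz_inj 1 1 1 (-1) (by norm_num)) _ (fun q => ?_) _ _ fun p => ?_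
  · constructor
    · intro h1
      exact ⟨((q.1 + q.2) / 2, (q.1 - q.2) / 2),
        Prod.ext (by simp only; omega) (by simp only; omega)⟩
    · rintro ⟨p, rfl⟩
      simp only; omega
  · rw [cz_pt]; push_cast
    linear_combination (-p.2 / 2 : ℂ) * th_sq

lemma cz_L4 : HasSum (fun q : ℤ × ℤ => (if 2 ∣ q.1 ∧ 6 ∣ q.2 then 1 else 0 : ℂ) * chi (pt tau0 q))
    (chi (th - 2) * Z0) := by
  refine cz_sub _ (cz_inj 2 (-2) 0 (-6) (by norm_num)) _ (fun q => ?_) _ _ fun p => ?_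
  · constructor
    · rintro ⟨h1, h2⟩
      exact ⟨(q.1 / 2 - q.2 / 6, -(q.2 / 6)), Prod.ext (by simp only; omega) (by simp only; omega)⟩
    · rintro ⟨p, rfl⟩
      simp only; omega
  · rw [cz_pt]; push_cast
    linear_combination (-p.2 : ℂ) * th_sq

lemma cz_L5 : HasSum (fun q : ℤ × ℤ => (if 2 ∣ q.1 ∧ 3 ∣ q.2 then 1 else 0 : ℂ) * chi (pt tau0 q))
    (chi 1 * Z1) := by
  refine cz_sub _ (cz_inj 0 2 3 3 (by norm_num)) _ (fun q => ?_) _ _ fun p => ?_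
  · constructor
    · rintro ⟨h1, h2⟩
      exact ⟨(q.2 / 3 - q.1 / 2, q.1 / 2), Prod.ext (by simp only; omega) (by simp only; omega)⟩
    · rintro ⟨p, rfl⟩
      simp only; omega
  · rw [cz_pt]; push_cast; ring

lemma cz_L6 : HasSum
    (fun q : ℤ × ℤ => (if 2 ∣ q.1 - q.2 ∧ 3 ∣ q.2 then 1 else 0 : ℂ) * chi (pt tau0 q))
    (chi (th / 2) * Z1) := by
  refine cz_sub _ (cz_inj 3 2 3 0 (by norm_num)) _ (fun q => ?_) _ _ fun p => ?_
  · constructor
    · rintro ⟨h1, h2⟩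
      exact ⟨(q.2 / 3, (q.1 - q.2) / 2),
        Prod.ext (by simp only; omega) (by simp only; omega)⟩
    · rintro ⟨p, rfl⟩
      simp only; omega
  · rw [cz_pt]; push_cast
    linear_combination (-p.2 / 2 : ℂ) * th_sq

lemma cz_phi (m n : ℤ) : (phiE n : ℂ) =
    -2 * (if 2 ∣ m ∧ 2 ∣ n then 1 else 0) + (if 2 ∣ m then 1 else 0) +
      (if 2 ∣ m - n then 1 else 0) + 18 * (if 2 ∣ m ∧ 6 ∣ n then 1 else 0) -
      9 * (if 2 ∣ m ∧ 3 ∣ n then 1 else 0) - 9 * (if 2 ∣ m - n ∧ 3 ∣ n then 1 else 0) := by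
  have e6 : 6 ∣ n ↔ 2 ∣ n ∧ 3 ∣ n := by omega
  have e2 : 2 ∣ m - n ↔ (2 ∣ m ↔ 2 ∣ n) := by omega
  simp only [phiE, ind, e6, e2]
  by_cases h1 : 2 ∣ m <;> by_cases h2 : 2 ∣ n <;> by_cases h3 : 3 ∣ n <;>
    simp [h1, h2, h3] <;> norm_num

theorem cz : CZ := by
  have h := (((((cz_L1.mul_left (-2)).add cz_L2).add cz_L3).add (cz_L4.mul_left 18)).sub
    (cz_L5.mul_left 9)).sub (cz_L6.mul_left 9)
  have h2 : ZE = _ := (h.congr_fun (g := fun p : ℤ × ℤ => (phiE p.2 : ℂ) * chi (pt tau0 p))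
    fun p => by rw [cz_phi p.1 p.2]; ring).tsum_eq
  unfold CZ
  rw [h2, cz_chi1, cz_chi2, cz_chi3, cz_chi4, conj_th]
  ring

end RV5
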