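import Pool.Agent.Lib.RV5.Blue

/-! Block DER: derivatives of the cocycle along a horizontal line. -/

open Complex
open scoped Real ComplexConjugate

namespace RV5

lemma der_inv (z α : ℂ) (hz : z ≠ 0) :
    HasDerivAt (fun t : ℝ => (z + (t : ℂ) * α)⁻¹) (-α * z⁻¹ ^ 2) 0 := by
  have h : HasDerivAt (fun s : ℂ => (z + s * α)⁻¹) (-α * z⁻¹ ^ 2) ((0 : ℝ) : ℂ) := by
    have h1 : HasDerivAt (fun s : ℂ => z + s * α) α ((0 : ℝ) : ℂ) := by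
      simpa using ((hasDerivAt_id ((0 : ℝ) : ℂ)).mul_const α).const_add z
    refine (h1.fun_inv (by simpa using hz)).congr_deriv ?_
    simp [div_eq_mul_inv]
  exact h.comp_ofReal

/-- the cocycle as a polynomial in inverse variables -/
def derF (u v w U V W : ℂ) : ℂ :=
  2 * u * v ^ 3 * V * W - 2 * v ^ 3 * w * U * V + 2 * v ^ 2 * w ^ 2 * U * V -
    2 * v * w ^ 3 * U * V + 2 * u * v ^ 2 * V ^ 2 * W - 2 * u * v ^ 2 * V * W ^ 2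

/-- its derivative -/
def derD (u v w U V W u' v' w' U' V' W' : ℂ) : ℂ :=
  (2 * v ^ 3 * V * W + 2 * v ^ 2 * V ^ 2 * W - 2 * v ^ 2 * V * W ^ 2) * u' +
  (6 * u * v ^ 2 * V * W - 6 * v ^ 2 * w * U * V + 4 * v * w ^ 2 * U * V - 2 * w ^ 3 * U * V +
    4 * u * v * V ^ 2 * W - 4 * u * v * V * W ^ 2) * v' +
  (-2 * v ^ 3 * U * V + 4 * v ^ 2 * w * U * V - 6 * v * w ^ 2 * U * V) * w' +
  (-2 * v ^ 3 * w * V + 2 * v ^ 2 * w ^ 2 * V - 2 * v * w ^ 3 * V) * U' +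
  (2 * u * v ^ 3 * W - 2 * v ^ 3 * w * U + 2 * v ^ 2 * w ^ 2 * U - 2 * v * w ^ 3 * U +
    4 * u * v ^ 2 * V * W - 2 * u * v ^ 2 * W ^ 2) * V' +
  (2 * u * v ^ 3 * V + 2 * u * v ^ 2 * V ^ 2 - 4 * u * v ^ 2 * V * W) * W'

lemma der_F {u v w U V W : ℝ → ℂ} {u' v' w' U' V' W' : ℂ} (hu : HasDerivAt u u' 0)
    (hv : HasDerivAt v v' 0) (hw : HasDerivAt w w' 0) (hU : HasDerivAt U U' 0)
    (hV : HasDerivAt V V' 0) (hW : HasDerivAt W W' 0) :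
    HasDerivAt (fun t => derF (u t) (v t) (w t) (U t) (V t) (W t))
      (derD (u 0) (v 0) (w 0) (U 0) (V 0) (W 0) u' v' w' U' V' W') 0 := by
  have h1 := (((hu.const_mul 2).fun_mul (hv.fun_pow 3)).fun_mul hV).fun_mul hW
  have h2 := ((((hv.fun_pow 3).const_mul 2).fun_mul hw).fun_mul hU).fun_mul hV
  have h3 := ((((hv.fun_pow 2).const_mul 2).fun_mul (hw.fun_pow 2)).fun_mul hU).fun_mul hV
  have h4 := (((hv.const_mul 2).fun_mul (hw.fun_pow 3)).fun_mul hU).fun_mul hV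
  have h5 := (((hu.const_mul 2).fun_mul (hv.fun_pow 2)).fun_mul (hV.fun_pow 2)).fun_mul hW
  have h6 := (((hu.const_mul 2).fun_mul (hv.fun_pow 2)).fun_mul hV).fun_mul (hW.fun_pow 2)
  refine (((((h1.fun_sub h2).fun_add h3).fun_sub h4).fun_add h5).fun_sub h6).congr_deriv ?_
  simp only [derD, Nat.cast_ofNat, Nat.add_one_sub_one]
  ring

lemma der_g (a b : ℂ) : g a b =
    (derF a⁻¹ b⁻¹ (-a - b)⁻¹ (conj a)⁻¹ (conj b)⁻¹ (-conj a - conj b)⁻¹).im := by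
  have : derF a⁻¹ b⁻¹ (-a - b)⁻¹ (conj a)⁻¹ (conj b)⁻¹ (-conj a - conj b)⁻¹ =
      ct (0, 0, 1) a b + 2 * om a b := by
    simp only [derF, ct, ww, om, map_mul, map_add, map_sub, map_neg, map_one, map_pow,
      div_eq_mul_inv, mul_inv, map_inv₀, ← inv_pow]
    ring
  rw [this, g]
  simp

lemma der_im {f : ℝ → ℂ} {f' : ℂ} (h : HasDerivAt f f' 0) :
    HasDerivAt (fun t => (f t).im) f'.im 0 :=
  Complex.imCLM.hasFDerivAt.comp_hasDerivAt 0 h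

lemma der_hA (a : ℂ) : (hA a : ℂ) = a⁻¹ * (conj a)⁻¹ := by
  rw [hA, ← mul_inv, Complex.mul_conj]
  push_cast
  rw [one_div]

lemma der_hR (a : ℂ) : (hR a : ℂ) = (a⁻¹ ^ 2 + (conj a)⁻¹ ^ 2) / 2 := by
  rw [hR, Complex.re_eq_add_conj]
  simp

lemma der_k3 (a : ℂ) : (k3 a : ℂ) = (a⁻¹ ^ 3 + (conj a)⁻¹ ^ 3) / 2 := by
  rw [k3, Complex.re_eq_add_conj]
  simp

lemma der_k4 (a : ℂ) : (k4 a : ℂ) = (a⁻¹ ^ 4 + (conj a)⁻¹ ^ 4) / 2 := by
  rw [k4, Complex.re_eq_add_conj]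
  simp

lemma der_bb (a : ℂ) : (bb a : ℂ) =
    (a⁻¹ ^ 2 + (conj a)⁻¹ ^ 2 + a⁻¹ * (conj a)⁻¹) * (a⁻¹ * (conj a)⁻¹) := by
  have e : bb a = (2 * hR a + hA a) * hA a := by
    rw [bb, hR, hA]; ring
  rw [e]
  push_cast
  rw [der_hA, der_hR]
  ring

lemma der_cc (a : ℂ) : (cc a : ℂ) = (a⁻¹ + (conj a)⁻¹) * (a⁻¹ * (conj a)⁻¹) := by
  have e : cc a = 2 * (1 / a).re * hA a := by
    rw [cc, hA]; ring
  rw [e]
  push_cast
  rw [der_hA, Complex.re_eq_add_conj]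
  simp only [one_div, map_inv₀]
  ring

lemma der_alg (a b A B α β : ℂ) (ha : a ≠ 0) (hb : b ≠ 0) (hc : a + b ≠ 0) (hA : A ≠ 0)
    (hB : B ≠ 0) (hC : A + B ≠ 0) (h1 : α = (a - A) / (2 * I)) (h2 : β = (b - B) / (2 * I))
    (ef mf : ℂ → ℂ → ℂ → ℂ → ℂ)
    (hef : ∀ x X y Y, ef x X y Y = 3 * (x⁻¹ * X⁻¹ * ((y⁻¹ ^ 4 + Y⁻¹ ^ 4) / 2)) -
      (x⁻¹ ^ 2 + X⁻¹ ^ 2) / 2 * ((y⁻¹ ^ 2 + Y⁻¹ ^ 2 + y⁻¹ * Y⁻¹) * (y⁻¹ * Y⁻¹)))
    (hmf : ∀ x X y Y, mf x X y Y = 2 * ((x⁻¹ + X⁻¹) * (x⁻¹ * X⁻¹) * ((y⁻¹ ^ 3 + Y⁻¹ ^ 3) / 2)) -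
      2 * ((y⁻¹ + Y⁻¹) * (y⁻¹ * Y⁻¹) * ((x⁻¹ ^ 3 + X⁻¹ ^ 3) / 2))) :
    (derD a⁻¹ b⁻¹ (-a - b)⁻¹ A⁻¹ B⁻¹ (-A - B)⁻¹ (-α * a⁻¹ ^ 2) (-β * b⁻¹ ^ 2)
        (-(-α - β) * (-a - b)⁻¹ ^ 2) (-α * A⁻¹ ^ 2) (-β * B⁻¹ ^ 2) (-(-α - β) * (-A - B)⁻¹ ^ 2) -
      derD A⁻¹ B⁻¹ (-A - B)⁻¹ a⁻¹ b⁻¹ (-a - b)⁻¹ (-α * A⁻¹ ^ 2) (-β * B⁻¹ ^ 2)
        (-(-α - β) * (-A - B)⁻¹ ^ 2) (-α * a⁻¹ ^ 2) (-β * b⁻¹ ^ 2) (-(-α - β) * (-a - b)⁻¹ ^ 2)) /
      (2 * I) =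
    -(ef a A b B - ef (a + b) (A + B) b B + ef b B (a + b) (A + B) - ef a A (a + b) (A + B) +
      mf b B (a + b) (A + B)) := by
  have e1 : (-a - b)⁻¹ = -(a + b)⁻¹ := by rw [← inv_neg]; congr 1; ring
  have e2 : (-A - B)⁻¹ = -(A + B)⁻¹ := by rw [← inv_neg]; congr 1; ring
  have e3 : α = -I / 2 * (a - A) := by rw [h1]; field_simp; linear_combination (a - A) * I_sq
  have e4 : β = -I / 2 * (b - B) := by rw [h2]; field_simp; linear_combination (b - B) * I_sq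
  have key : derD a⁻¹ b⁻¹ (-(a + b)⁻¹) A⁻¹ B⁻¹ (-(A + B)⁻¹) (-(a - A) * a⁻¹ ^ 2)
        (-(b - B) * b⁻¹ ^ 2) (-(-(a - A) - (b - B)) * (-(a + b)⁻¹) ^ 2) (-(a - A) * A⁻¹ ^ 2)
        (-(b - B) * B⁻¹ ^ 2) (-(-(a - A) - (b - B)) * (-(A + B)⁻¹) ^ 2) -
      derD A⁻¹ B⁻¹ (-(A + B)⁻¹) a⁻¹ b⁻¹ (-(a + b)⁻¹) (-(a - A) * A⁻¹ ^ 2) (-(b - B) * B⁻¹ ^ 2)
        (-(-(a - A) - (b - B)) * (-(A + B)⁻¹) ^ 2) (-(a - A) * a⁻¹ ^ 2) (-(b - B) * b⁻¹ ^ 2)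
        (-(-(a - A) - (b - B)) * (-(a + b)⁻¹) ^ 2) =
      4 * (ef a A b B - ef (a + b) (A + B) b B + ef b B (a + b) (A + B) - ef a A (a + b) (A + B) +
      mf b B (a + b) (A + B)) := by
    simp only [derD, hef, hmf]
    field_simp
    ring
  rw [e1, e2, e3, e4, div_eq_iff (by simp)]
  simp only [derD] at key ⊢
  linear_combination (-I / 2) * key

lemma der_conj (u v w U V W u' v' w' U' V' W' : ℂ) :
    conj (derD u v w U V W u' v' w' U' V' W') = derD (conj u) (conj v) (conj w) (conj U) (conj V)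
      (conj W) (conj u') (conj v') (conj w') (conj U') (conj V') (conj W') := by
  simp only [derD, map_add, map_mul, map_sub, map_pow, map_ofNat, map_neg]

theorem der : DER := by
  refine ⟨fun a b => ?_, fun a => ?_⟩
  · have hcj : ∀ (z : ℂ) (t : ℝ), conj (z + (t : ℂ) * (z.im : ℂ)) = conj z + (t : ℂ) * (z.im : ℂ) :=
      fun z t => by simp
    have hs : ∀ (x y : ℂ) (t : ℝ), -(x + (t : ℂ) * (a.im : ℂ)) - (y + (t : ℂ) * (b.im : ℂ)) =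
        (-x - y) + (t : ℂ) * (-(a.im : ℂ) - (b.im : ℂ)) := fun x y t => by ring
    simp only [der_g, hcj, hs]
    by_cases h : a ≠ 0 ∧ b ≠ 0 ∧ a + b ≠ 0
    · obtain ⟨ha, hb, hc⟩ := h
      have hA' : conj a ≠ 0 := by simpa using ha
      have hB' : conj b ≠ 0 := by simpa using hb
      have hC' : conj a + conj b ≠ 0 := by rw [← map_add]; exact (map_ne_zero _).2 hc
      have hc1 : -a - b ≠ 0 := fun h => hc (by linear_combination -h)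
      have hc2 : -conj a - conj b ≠ 0 := fun h => hC' (by linear_combination -h)
      refine (der_im (der_F (der_inv a a.im ha) (der_inv b b.im hb)
        (der_inv _ (-(a.im : ℂ) - (b.im : ℂ)) hc1) (der_inv _ a.im hA') (der_inv _ b.im hB')
        (der_inv _ (-(a.im : ℂ) - (b.im : ℂ)) hc2))).congr_deriv ?_
      apply Complex.ofReal_injective
      rw [Complex.im_eq_sub_conj, der_conj]
      simp only [ofReal_zero, zero_mul, add_zero, map_mul, map_neg, map_pow, map_inv₀, map_sub,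
        conj_conj, conj_ofReal]
      rw [der_alg a b (conj a) (conj b) a.im b.im ha hb hc hA' hB' hC' (im_eq_sub_conj a)
        (im_eq_sub_conj b) _ _ (fun _ _ _ _ => rfl) (fun _ _ _ _ => rfl)]
      rw [dd, if_pos ⟨ha, hb, hc⟩]
      simp only [ef, mf]
      push_cast
      simp only [der_hA, der_hR, der_k3, der_k4, der_bb, der_cc, map_add]
    · rw [dd, if_neg h, neg_zero]
      have h0 : ∀ t : ℝ, (derF (a + (t : ℂ) * (a.im : ℂ))⁻¹ (b + (t : ℂ) * (b.im : ℂ))⁻¹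
          ((-a - b) + (t : ℂ) * (-(a.im : ℂ) - (b.im : ℂ)))⁻¹ (conj a + (t : ℂ) * (a.im : ℂ))⁻¹
          (conj b + (t : ℂ) * (b.im : ℂ))⁻¹
          ((-conj a - conj b) + (t : ℂ) * (-(a.im : ℂ) - (b.im : ℂ)))⁻¹).im = 0 := by
        intro t
        by_cases ha : a = 0
        · simp [ha, derF]
        by_cases hb : b = 0
        · simp [hb, derF]
        have hc : a = -b := by
          by_contra hc
          exact h ⟨ha, hb, fun e => hc (by linear_combination e)⟩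
        simp [hc, derF]
      simp only [h0]
      exact hasDerivAt_const _ _
  · have e : ∀ t : ℝ, chi (a + (t : ℂ) * (a.im : ℂ)) =
        (a + (t : ℂ) * (a.im : ℂ))⁻¹ ^ 4 * (conj a + (t : ℂ) * (a.im : ℂ))⁻¹ ^ 2 := fun t => by
      simp [chi, mul_comm]
    simp only [e]
    by_cases ha : a = 0
    · subst ha
      simpa [ef, hA, hR] using hasDerivAt_const (0 : ℝ) (0 : ℝ)
    have hA' : conj a ≠ 0 := by simpa using ha
    refine (der_im (((der_inv a a.im ha).fun_pow 4).fun_mul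
      ((der_inv _ a.im hA').fun_pow 2))).congr_deriv ?_
    apply Complex.ofReal_injective
    rw [Complex.im_eq_sub_conj]
    simp only [ofReal_zero, zero_mul, add_zero, map_mul, map_neg, map_pow, map_inv₀, map_add,
      conj_conj, conj_ofReal, Nat.cast_ofNat, map_ofNat, ef]
    push_cast
    rw [der_hA, der_hR, der_k4, der_bb, im_eq_sub_conj]
    field_simp
    ring_nf
    simp only [I_sq]
    ring

end RV5
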