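import Pool.Agent.Lib.RV5.Blue

/-! Block FOUR1: Fourier expansions of the weight two lattice sums. -/

open Complex Filter Topology
open scoped Real ComplexConjugate

namespace RV5

namespace Four1

/-- Lambert series: regrouping a double series by the product of the indices -/
lemma lambert (f g : ℕ → ℂ) (hb : ∀ a b : ℕ, 0 < a → 0 < b → ‖f a * g b‖ ≤ b) {q : ℂ}
    (hq : ‖q‖ < 1) (c : ℕ → ℂ) (hc0 : c 0 = 0)
    (hc : ∀ n, 0 < n → ∑ x ∈ n.divisorsAntidiagonal, f x.1 * g x.2 = c n) {s : ℂ}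
    (hs : HasSum (fun n => c n * q ^ n) s) (T : ℕ → ℂ)
    (hT : ∀ a : ℕ, 0 < a → HasSum (fun b : ℕ => g (b + 1) * (q ^ a) ^ (b + 1)) (T a)) :
    HasSum (fun a : ℕ => f (a + 1) * T (a + 1)) s := by
  have h1 : Summable fun p : ℕ+ × ℕ+ => f p.1 * g p.2 * q ^ ((p.1 : ℕ) * (p.2 : ℕ)) := by
    refine Summable.of_norm_bounded
      (summable_prod_mul_pow 1 (r := ‖q‖) (by rwa [norm_norm])) fun p => ?_
    rw [norm_mul, norm_pow, pow_one]
    exact mul_le_mul_of_nonneg_right (hb _ _ p.1.2 p.2.2) (by positivity)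
  have h2 := (sigmaAntidiagonalEquivProd.hasSum_iff.mpr h1.hasSum).sigma
    (g := fun n : ℕ+ => c n * q ^ (n : ℕ)) fun n => by
      convert hasSum_fintype _ using 1
      rw [← hc n n.2, Finset.sum_mul, ← Finset.sum_coe_sort]
      refine Finset.sum_congr rfl fun x _ => ?_
      change _ = f x.1.1 * g x.1.2 * q ^ (x.1.1 * x.1.2)
      rw [(Nat.mem_divisorsAntidiagonal.mp x.2).1]
  have h3 : HasSum (fun n : ℕ+ => c n * q ^ (n : ℕ)) s :=
    (hasSum_pnat_iff (f := fun n => c n * q ^ n)).mpr (by simpa [hc0] using hs)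
  have h4 := h1.hasSum.prod_fiberwise (g := fun a : ℕ+ => f a * T a) fun a => by
    have := (hasSum_pnat_iff_hasSum_succ (f := fun b => g b * (q ^ (a : ℕ)) ^ b)).mpr (hT a a.2)
    refine (this.mul_left (f a)).congr_fun fun b => ?_
    rw [pow_mul, mul_assoc]
  rw [h2.unique h3] at h4
  exact (hasSum_pnat_iff_hasSum_succ (f := fun a => f a * T a)).mp h4

noncomputable def U0 (x : ℂ) : ℂ := x / (1 - x)

noncomputable def U1 (x : ℂ) : ℂ := x / (1 - x) ^ 2

lemma hasSum_U0 {x : ℂ} (hx : ‖x‖ < 1) : HasSum (fun b : ℕ => x ^ (b + 1)) (U0 x) := by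
  rw [U0, div_eq_mul_inv]
  exact ((hasSum_geometric_of_norm_lt_one hx).mul_left x).congr_fun fun b => by rw [pow_succ']

lemma hasSum_U1 {x : ℂ} (hx : ‖x‖ < 1) :
    HasSum (fun b : ℕ => ((b + 1 : ℕ) : ℂ) * x ^ (b + 1)) (U1 x) :=
  (hasSum_nat_add_iff (f := fun b : ℕ => (b : ℂ) * x ^ b) 1).mpr
    (by simpa [U1] using hasSum_coe_mul_geometric_of_norm_lt_one hx)

lemma sigma_cast (n : ℕ) :
    ∑ x ∈ n.divisorsAntidiagonal, (x.2 : ℂ) = (ArithmeticFunction.sigma 1 n : ℂ) := by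
  rw [Nat.sum_divisorsAntidiagonal' fun _ y => (y : ℂ), ArithmeticFunction.sigma_one_apply]
  push_cast
  rfl

lemma lam0 {q : ℂ} (hq : ‖q‖ < 1) :
    HasSum (fun a : ℕ => 1 / ((a : ℂ) + 1) * U0 (q ^ (a + 1))) (R 1 q) := by
  have := lambert (fun a => 1 / (a : ℂ)) (fun _ => 1) (fun a b ha hb => by
      rw [mul_one, norm_div, norm_one, Complex.norm_natCast]
      have h1 : (1 : ℝ) ≤ a := by exact_mod_cast ha
      have h2 : (1 : ℝ) ≤ b := by exact_mod_cast hb
      exact (div_le_self zero_le_one h1).trans h2) hq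
    (fun n => (ArithmeticFunction.sigma 1 n : ℂ) / n) (by simp) (fun n hn => by
      rw [← sigma_cast, Finset.sum_div]
      refine Finset.sum_congr rfl fun x hx => ?_
      obtain ⟨h1, h2⟩ := Nat.mem_divisorsAntidiagonal.mp hx
      rw [← h1] at h2 ⊢
      have h3 : (x.1 : ℂ) ≠ 0 := by exact_mod_cast left_ne_zero_of_mul h2
      have h4 : (x.2 : ℂ) ≠ 0 := by exact_mod_cast right_ne_zero_of_mul h2
      push_cast
      field_simp) (hasSum_R 1 hq) (fun a => U0 (q ^ a)) fun a ha => by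
      simpa using hasSum_U0 (norm_pow_lt hq ha.ne')
  simpa using this

lemma lam1 {q : ℂ} (hq : ‖q‖ < 1) : HasSum (fun a : ℕ => U1 (q ^ (a + 1))) (S 1 q) := by
  have := lambert (fun _ => 1) (fun b => (b : ℂ)) (fun a b _ _ => by simp) hq
    (fun n => (ArithmeticFunction.sigma 1 n : ℂ)) (by simp) (fun n _ => by
      rw [← sigma_cast]; simp) (hasSum_S 1 hq) (fun a => U1 (q ^ a)) fun a ha =>
      hasSum_U1 (norm_pow_lt hq ha.ne')
  simpa using this

lemma summable_sq (w : ℂ) : Summable fun n : ℤ => 1 / (w + n) ^ 2 := by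
  refine (EisensteinSeries.linear_right_summable w 1 (k := 2) le_rfl).congr fun n => ?_
  simp [zpow_ofNat]

lemma hA_eq (z : ℂ) : hA z = ‖1 / z ^ 2‖ := by
  rw [hA, norm_div, norm_one, norm_pow, Complex.normSq_eq_norm_sq]

lemma summable_hA (w : ℂ) : Summable fun n : ℤ => hA (w + n) := by
  simp only [hA_eq]
  exact (summable_sq w).norm

lemma im_inv (z : ℂ) : (1 / z).im = -z.im * hA z := by
  rw [one_div, Complex.inv_im, hA]; ring

lemma sumA {w : ℂ} (hw : 0 < w.im) :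
    HasSum (fun n : ℤ => hA (w + n)) (π / w.im * (1 + 2 * (U0 (e w)).re)) := by
  have hz : w ∈ Complex.integerComplement := by
    rw [Complex.mem_integerComplement_iff]
    rintro ⟨n, rfl⟩
    simp at hw
  have hs := summable_hA w
  have h1 : Summable fun n : ℕ => hA (w + ((n + 1 : ℤ) : ℂ)) :=
    hs.comp_injective (i := fun n : ℕ => (n + 1 : ℤ)) fun a b h => by simpa using h
  have h2 : Summable fun n : ℕ => hA (w + ((-(n + 1) : ℤ) : ℂ)) :=
    hs.comp_injective (i := fun n : ℕ => (-(n + 1) : ℤ)) fun a b h => by simpa using h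
  have h3 := HasSum.of_add_one_of_neg_add_one (f := fun n : ℤ => hA (w + n)) h1.hasSum h2.hasSum
  have h4 := Complex.hasSum_im (summable_cotTerm hz).hasSum
  have h5 := ((h1.hasSum.add h2.hasSum).mul_left (-w.im)).unique (h4.congr_fun fun n => by
    simp only [cotTerm, Complex.add_im, im_inv]
    push_cast
    simp only [sub_eq_add_neg, Complex.add_im, Complex.neg_im, Complex.natCast_im, Complex.one_im]
    ring)
  have h6 := cot_series_rep' hz
  have h7 : ∑' n : ℕ, cotTerm w n = ∑' n : ℕ, (1 / (w - (n + 1)) + 1 / (w + (n + 1))) := rfl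
  rw [h7, ← h6, Complex.sub_im, im_inv, Complex.cot_pi_eq_exp_ratio] at h5
  have h8 : (1 : ℂ) - e w ≠ 0 := by
    intro h
    have := norm_e_lt hw
    rw [← sub_eq_zero.mp h, norm_one] at this
    exact lt_irrefl _ this
  have h9 : (π : ℂ) * ((Complex.exp (2 * π * I * w) + 1) /
      (I * (1 - Complex.exp (2 * π * I * w)))) = -(π : ℂ) * I * (1 + 2 * U0 (e w)) := by
    change (π : ℂ) * ((e w + 1) / (I * (1 - e w))) = _
    rw [U0]
    field_simp
    linear_combination (e w + 1) * Complex.I_sq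
  rw [h9] at h5
  convert h3 using 1
  simp only [Complex.mul_im, Complex.mul_re, Complex.neg_re, Complex.neg_im, Complex.ofReal_re,
    Complex.ofReal_im, Complex.I_re, Complex.I_im, Complex.add_re, Complex.add_im, Complex.one_re,
    Complex.one_im, Complex.re_ofNat, Complex.im_ofNat] at h5
  rw [Int.cast_zero, add_zero w]
  field_simp
  linarith

lemma sumR {w : ℂ} (hw : 0 < w.im) :
    HasSum (fun n : ℤ => hR (w + n)) (-(4 * π ^ 2) * (U1 (e w)).re) := by
  have h1 := EisensteinSeries.qExpansion_identity (k := 1) le_rfl ⟨w, hw⟩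
  have h2 := (hasSum_coe_mul_geometric_of_norm_lt_one (norm_e_lt hw)).tsum_eq
  have h3 := Complex.hasSum_re (summable_sq w).hasSum
  have h4 : ∑' n : ℤ, 1 / (w + n) ^ 2 = ((-(4 * π ^ 2) : ℝ) : ℂ) * U1 (e w) := by
    rw [U1, ← h2]
    refine h1.trans ?_
    simp only [pow_one, Nat.factorial_one, Nat.cast_one, div_one, e]
    congr 1
    push_cast
    linear_combination (4 * (π : ℂ) ^ 2) * Complex.I_sq
  rw [h4, Complex.re_ofReal_mul] at h3
  exact h3

lemma sum0 : HasSum (fun n : ℤ => 1 / (n : ℝ) ^ 2) (π ^ 2 / 3) := by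
  have h1 : HasSum (fun n : ℕ => 1 / ((n : ℝ) + 1) ^ 2) (π ^ 2 / 6) := by
    have := (hasSum_nat_add_iff' (f := fun n : ℕ => 1 / (n : ℝ) ^ 2) 1).mpr hasSum_zeta_two
    simpa using this
  have h2 := HasSum.of_add_one_of_neg_add_one (f := fun n : ℤ => 1 / (n : ℝ) ^ 2)
    (h1.congr_fun fun n => by push_cast; rfl) (h1.congr_fun fun n => by push_cast; ring)
  convert h2 using 1
  simp only [Int.cast_zero]
  ring

lemma hA_mul (d : ℝ) (z : ℂ) : hA (d * z) = hA z / d ^ 2 := by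
  rw [hA, hA, map_mul, Complex.normSq_ofReal]
  rw [div_div, mul_comm, sq]

lemma hR_mul (d : ℝ) (z : ℂ) : hR (d * z) = hR z / d ^ 2 := by
  have : 1 / ((d : ℂ) * z) ^ 2 = ((1 / d ^ 2 : ℝ) : ℂ) * (1 / z ^ 2) := by
    push_cast
    rw [mul_pow, one_div_mul_one_div]
  rw [hR, hR, this, Complex.re_ofReal_mul]
  ring

lemma ind_sum (h : ℂ → ℝ) (hm : ∀ (d : ℝ) (z : ℂ), h (d * z) = h z / d ^ 2) (d : ℤ) (hd : d ≠ 0)
    (w : ℂ) {s : ℝ} (hs : HasSum (fun n : ℤ => h (w + n)) s) :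
    HasSum (fun n : ℤ => ind d n * h (d * w + n)) (s / (d : ℝ) ^ 2) := by
  have hi : Function.Injective fun k : ℤ => d * k := mul_right_injective₀ hd
  rw [← hi.hasSum_iff]
  · refine (hs.div_const _).congr_fun fun k => ?_
    simp only [Function.comp, ind, dvd_mul_right, if_true, one_mul]
    rw [← hm]
    congr 1
    push_cast
    ring
  · intro n hn
    rw [ind, if_neg, zero_mul]
    rintro ⟨k, rfl⟩
    exact hn ⟨k, rfl⟩

lemma inner (h : ℂ → ℝ) (hm : ∀ (d : ℝ) (z : ℂ), h (d * z) = h z / d ^ 2) (τ : ℂ) (m : ℤ)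
    {s1 s2 s3 s6 : ℝ} (h1 : HasSum (fun n : ℤ => h (m * τ + n)) s1)
    (h2 : HasSum (fun n : ℤ => h (2 * (m * τ) + n)) s2)
    (h3 : HasSum (fun n : ℤ => h (3 * (m * τ) + n)) s3)
    (h6 : HasSum (fun n : ℤ => h (6 * (m * τ) + n)) s6) :
    ∑' n : ℤ, phiL n * h (pt τ (m, n)) = s1 / 6 - s2 / 3 + s3 / 2 - s6 := by
  have k1 := (ind_sum h hm 6 (by norm_num) _ h1).mul_left 6
  have k2 := (ind_sum h hm 3 (by norm_num) _ h2).mul_left 3
  have k3 := (ind_sum h hm 2 (by norm_num) _ h3).mul_left 2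
  have e1 : ((6 : ℤ) : ℂ) * (m * τ) = 6 * (m * τ) := by norm_num
  have e2 : ((3 : ℤ) : ℂ) * (2 * (m * τ)) = 6 * (m * τ) := by push_cast; ring
  have e3 : ((2 : ℤ) : ℂ) * (3 * (m * τ)) = 6 * (m * τ) := by push_cast; ring
  rw [e1] at k1
  rw [e2] at k2
  rw [e3] at k3
  have k := ((k1.sub k2).add k3).sub h6
  refine (HasSum.tsum_eq (k.congr_fun fun n => ?_)).trans ?_
  · rw [phiL, pt, mul_assoc (6 : ℂ)]
    ring
  · push_cast
    ring

lemma inner_neg (h : ℂ → ℝ) (hm : ∀ (d : ℝ) (z : ℂ), h (d * z) = h z / d ^ 2) (τ : ℂ) (m : ℤ) :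
    ∑' n : ℤ, phiL n * h (pt τ (-m, n)) = ∑' n : ℤ, phiL n * h (pt τ (m, n)) := by
  rw [← (Equiv.neg ℤ).tsum_eq]
  refine tsum_congr fun n => ?_
  have h1 : pt τ (-m, -n) = ((-1 : ℝ) : ℂ) * pt τ (m, n) := by
    simp only [pt]
    push_cast
    ring
  simp only [Equiv.neg_apply, phiL, ind_neg]
  rw [h1, hm]
  ring

lemma outer (h : ℂ → ℝ) (hm : ∀ (d : ℝ) (z : ℂ), h (d * z) = h z / d ^ 2) (h1 : h 1 = 1) (τ : ℂ)
    {s : ℝ} (hs : HasSum (fun m : ℕ => ∑' n : ℤ, phiL n * h (pt τ ((m : ℤ) + 1, n))) s) :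
    ∑' m : ℤ, ∑' n : ℤ, phiL n * h (pt τ (m, n)) = 2 * s - 2 * π ^ 2 / 9 := by
  have h0 : ∀ c : ℂ, c = 0 → HasSum (fun n : ℤ => h (c + n)) (π ^ 2 / 3) := fun c hc =>
    sum0.congr_fun fun n => by
      rw [← h1, ← hm, hc]
      simp
  have h2 := inner h hm τ 0 (h0 _ (by simp)) (h0 _ (by simp)) (h0 _ (by simp)) (h0 _ (by simp))
  have h3 := HasSum.of_add_one_of_neg_add_one
    (f := fun m : ℤ => ∑' n : ℤ, phiL n * h (pt τ (m, n))) hs
    (hs.congr_fun fun m => inner_neg h hm τ _)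
  rw [h3.tsum_eq, h2]
  ring

lemma im_mul {τ : ℂ} (j m : ℕ) :
    ((j : ℂ) * ((((m : ℤ) + 1 : ℤ) : ℂ) * τ)).im = j * (((m : ℝ) + 1) * τ.im) := by
  simp

lemma e_mul' (τ : ℂ) (j m : ℕ) :
    e ((j : ℂ) * ((((m : ℤ) + 1 : ℤ) : ℂ) * τ)) = (e τ ^ j) ^ (m + 1) := by
  rw [← pow_mul, ← e_mul]
  congr 1
  push_cast
  ring

lemma rowA {τ : ℂ} (hτ : 0 < τ.im) (j : ℕ) (hj : 0 < j) (m : ℕ) :
    HasSum (fun n : ℤ => hA ((j : ℂ) * ((((m : ℤ) + 1 : ℤ) : ℂ) * τ) + n))
      (π / (j * τ.im) * (1 / ((m : ℝ) + 1) +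
        2 * (1 / ((m : ℂ) + 1) * U0 ((e τ ^ j) ^ (m + 1))).re)) := by
  have h := sumA (w := (j : ℂ) * ((((m : ℤ) + 1 : ℤ) : ℂ) * τ)) (by rw [im_mul]; positivity)
  rw [im_mul, e_mul'] at h
  convert h using 1
  have : 1 / ((m : ℂ) + 1) = ((1 / ((m : ℝ) + 1) : ℝ) : ℂ) := by push_cast; rfl
  rw [this, Complex.re_ofReal_mul]
  field_simp

lemma rowR {τ : ℂ} (hτ : 0 < τ.im) (j : ℕ) (hj : 0 < j) (m : ℕ) :
    HasSum (fun n : ℤ => hR ((j : ℂ) * ((((m : ℤ) + 1 : ℤ) : ℂ) * τ) + n))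
      (-(4 * π ^ 2) * (U1 ((e τ ^ j) ^ (m + 1))).re) := by
  have h := sumR (w := (j : ℂ) * ((((m : ℤ) + 1 : ℤ) : ℂ) * τ)) (by rw [im_mul]; positivity)
  rwa [e_mul'] at h

end Four1

open Four1 in
theorem four1 : FOUR1 := by
  intro τ hτ
  have hq := norm_e_lt hτ
  have hq2 := norm_pow_lt hq two_ne_zero
  have hq3 := norm_pow_lt hq three_ne_zero
  have hq6 := norm_pow_lt hq (d := 6) (by norm_num)
  constructor
  · have l1 := Complex.hasSum_re (lam0 hq)
    have l2 := Complex.hasSum_re (lam0 hq2)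
    have l3 := Complex.hasSum_re (lam0 hq3)
    have l6 := Complex.hasSum_re (lam0 hq6)
    have k := (((l1.sub l2).add l3).sub l6).mul_left (π / (3 * τ.im))
    have := outer hA hA_mul (by simp [hA]) τ (k.congr_fun fun m => by
      have r1 := rowA hτ 1 one_pos m
      have r2 := rowA hτ 2 two_pos m
      have r3 := rowA hτ 3 three_pos m
      have r6 := rowA hτ 6 (by norm_num) m
      simp only [Nat.cast_one, one_mul, pow_one, Nat.cast_ofNat] at r1 r2 r3 r6
      rw [inner hA hA_mul τ _ r1 r2 r3 r6]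
      field_simp
      ring)
    rw [Va, this, ell, l0]
    simp only [Complex.add_re, Complex.sub_re, Complex.mul_re, Complex.mul_im, Complex.re_ofNat,
      Complex.im_ofNat, Complex.ofReal_re, Complex.ofReal_im, Complex.I_re, Complex.I_im]
    field_simp
    ring
  · have l1 := Complex.hasSum_re (lam1 hq)
    have l2 := Complex.hasSum_re (lam1 hq2)
    have l3 := Complex.hasSum_re (lam1 hq3)
    have l6 := Complex.hasSum_re (lam1 hq6)
    have k := (((l1.sub (l2.mul_left 2)).add (l3.mul_left 3)).sub (l6.mul_left 6)).mul_left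
      (-(4 * π ^ 2) / 6)
    have := outer hR hR_mul (by simp [hR]) τ (k.congr_fun fun m => by
      have r1 := rowR hτ 1 one_pos m
      have r2 := rowR hτ 2 two_pos m
      have r3 := rowR hτ 3 three_pos m
      have r6 := rowR hτ 6 (by norm_num) m
      simp only [Nat.cast_one, one_mul, pow_one, Nat.cast_ofNat] at r1 r2 r3 r6
      rw [inner hR hR_mul τ _ r1 r2 r3 r6]
      ring)
    rw [Vr, this, eL]
    simp only [Complex.add_re, Complex.sub_re, Complex.mul_re, Complex.re_ofNat,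
      Complex.im_ofNat, Complex.one_re]
    ring

end RV5
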