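import Pool.Agent.Lib.RV5.Blue

/-! Block FOUR2: Fourier expansions of the weight four lattice sums. -/

open Complex Filter Topology
open scoped Real ComplexConjugate

namespace RV5

namespace Four2

lemma tsum_pnat_S (c : ℕ → ℂ) (hc : PB c) (h0 : c 0 = 0) {q : ℂ} (hq : ‖q‖ < 1) :
    ∑' n : ℕ+, c n * q ^ (n : ℕ) = ∑' n : ℕ, c n * q ^ n := by
  rw [← tsum_zero_pnat_eq_tsum_nat (hc.hasSum hq).summable]
  simp [h0]

lemma summable_lam {q : ℂ} (hq : ‖q‖ < 1) :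
    Summable fun c : ℕ+ × ℕ+ => ((c.2 : ℕ) : ℂ) ^ 2 / (c.1 : ℕ) * q ^ (c.1 * c.2 : ℕ) := by
  refine Summable.of_norm_bounded (summable_prod_mul_pow 2 hq).norm fun c => ?_
  rw [norm_mul, norm_mul, norm_div]
  gcongr
  refine div_le_self (norm_nonneg _) ?_
  rw [Complex.norm_natCast]
  exact_mod_cast c.1.2

lemma lam {q : ℂ} (hq : ‖q‖ < 1) :
    ∑' m : ℕ+, ∑' c : ℕ+, ((c : ℕ) : ℂ) ^ 2 / (m : ℕ) * q ^ (m * c : ℕ) = R 3 q := by
  rw [← (summable_lam hq).tsum_prod, R, ← tsum_pnat_S _ (pb_R 3) (by simp) hq,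
    ← sigmaAntidiagonalEquivProd.tsum_eq]
  refine (Summable.tsum_sigma
    (sigmaAntidiagonalEquivProd.summable_iff.mpr (summable_lam hq))).trans
      (tsum_congr fun n => ?_)
  rw [tsum_fintype]
  have h := (n : ℕ).divisorsAntidiagonal.sum_attach
    fun x : ℕ × ℕ => (x.2 : ℂ) ^ 2 / x.1 * q ^ (x.1 * x.2)
  refine Eq.trans h ?_
  rw [Nat.sum_divisorsAntidiagonal' fun x y : ℕ => (y : ℂ) ^ 2 / x * q ^ (x * y),
    ArithmeticFunction.sigma_apply, Nat.cast_sum, Finset.sum_div, Finset.sum_mul]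
  refine Finset.sum_congr rfl fun i hi => ?_
  obtain ⟨k, hk⟩ := Nat.dvd_of_mem_divisors hi
  have hn : (n : ℕ) ≠ 0 := n.2.ne'
  have hi0 : i ≠ 0 := fun h => hn (by rw [hk, h, zero_mul])
  have hk0 : k ≠ 0 := fun h => hn (by rw [hk, h, mul_zero])
  have h1 : (i : ℂ) ≠ 0 := by exact_mod_cast hi0
  have h2 : (k : ℂ) ≠ 0 := by exact_mod_cast hk0
  rw [hk, Nat.mul_div_cancel_left _ (Nat.pos_of_ne_zero hi0), mul_comm k i]
  push_cast
  field_simp

lemma hasSum_G4 {w : ℂ} (hw : 0 < w.im) :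
    HasSum (fun p : ℤ × ℤ => 1 / ((p.1 : ℂ) * w + p.2) ^ 4) (π ^ 4 / 45 * Q (e w)) := by
  have h1 := tsum_eisSummand_eq_tsum_sigma_mul_cexp_pow (k := 4) (by norm_num) (by decide) ⟨w, hw⟩
  have h2 := (summable_prod_eisSummand (k := 4) (by norm_num) ⟨w, hw⟩).hasSum
  rw [← (finTwoArrowEquiv ℤ).symm.tsum_eq] at h1
  have h3 := tsum_pnat_S _ (pb_S 3) (by simp) (norm_e_lt hw)
  have h4 : ∑' p : ℤ × ℤ, EisensteinSeries.eisSummand ((4 : ℕ) : ℤ) ![p.1, p.2] ⟨w, hw⟩ =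
      π ^ 4 / 45 * Q (e w) := by
    refine Eq.trans h1 ?_
    rw [Nat.cast_ofNat, riemannZeta_four, Q, S, ← h3]
    simp only [e, Nat.factorial]
    push_cast
    have : I ^ 4 = 1 := Complex.I_pow_four
    linear_combination (2 * (16 * π ^ 4 / 6) *
      ∑' n : ℕ+, (ArithmeticFunction.sigma 3 n : ℂ) * cexp (2 * π * I * w) ^ (n : ℕ)) * this
  rw [h4] at h2
  refine h2.congr_fun fun p => ?_
  simp only [EisensteinSeries.eisSummand, Matrix.cons_val_zero, Matrix.cons_val_one, zpow_neg,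
    zpow_natCast, one_div]

lemma hasSum_k4 {w : ℂ} (hw : 0 < w.im) :
    HasSum (fun p : ℤ × ℤ => k4 ((p.1 : ℂ) * w + p.2)) (π ^ 4 / 45 * (Q (e w)).re) := by
  have h := Complex.hasSum_re (hasSum_G4 hw)
  have h2 : ((π : ℂ) ^ 4 / 45 * Q (e w)).re = π ^ 4 / 45 * (Q (e w)).re := by
    rw [← Complex.re_ofReal_mul]; push_cast; rfl
  rwa [h2] at h

lemma bb_eq {b : ℂ} (hb : b.im ≠ 0) : bb b = -(1 / b ^ 3).im / b.im := by
  have h0 : b ≠ 0 := fun h => hb (by simp [h])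
  have h1 : normSq b ≠ 0 := by simpa using h0
  have h2 : normSq b = b.re * b.re + b.im * b.im := normSq_apply b
  rw [bb, one_div (b ^ 2), one_div (b ^ 3), ← inv_pow, ← inv_pow]
  simp only [pow_succ, pow_zero, one_mul, mul_re, mul_im, inv_re, inv_im]
  field_simp
  rw [h2]
  ring

lemma bb_neg (b : ℂ) : bb (-b) = bb b := by
  simp only [bb, normSq_neg, neg_sq]

lemma bb_int (n : ℤ) : bb n = 3 / (n : ℝ) ^ 4 := by
  have h1 : (1 / (n : ℂ) ^ 2).re = 1 / (n : ℝ) ^ 2 := by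
    rw [← Complex.ofReal_re (1 / (n : ℝ) ^ 2)]; push_cast; rfl
  rw [bb, h1, normSq_intCast]
  rcases eq_or_ne (n : ℝ) 0 with h | h
  · simp [h]
  · field_simp
    ring

lemma tsum_bb_zero : ∑' n : ℤ, bb n = π ^ 4 / 15 := by
  have h := two_mul_riemannZeta_eq_tsum_int_inv_pow_of_even (k := 4) (by norm_num) (by decide)
  rw [Nat.cast_ofNat, riemannZeta_four] at h
  have h2 : ((∑' n : ℤ, bb n : ℝ) : ℂ) = 3 * ∑' n : ℤ, ((n : ℂ) ^ 4)⁻¹ := by
    rw [Complex.ofReal_tsum, ← tsum_mul_left]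
    refine tsum_congr fun n => ?_
    rw [bb_int]
    push_cast
    rw [div_eq_mul_inv]
  rw [← h] at h2
  have h3 : ((∑' n : ℤ, bb n : ℝ) : ℂ) = ((π ^ 4 / 15 : ℝ) : ℂ) := by
    rw [h2]; push_cast; ring
  exact_mod_cast h3

lemma tsum_bb_row {z : ℂ} (hz : 0 < z.im) :
    ∑' n : ℤ, bb (z + n) =
      -(4 * π ^ 3 / z.im) * (∑' c : ℕ+, ((c : ℕ) : ℂ) ^ 2 * e z ^ (c : ℕ)).re := by
  have h1 := EisensteinSeries.qExpansion_identity_pnat (k := 2) (by norm_num) ⟨z, hz⟩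
  have h2 : Summable fun n : ℤ => 1 / (z + n) ^ 3 := by
    have := ((summable_lat hz (le_refl 3)).prod_factor 1)
    refine Summable.of_norm (this.congr fun n => ?_)
    simp
  have h3 : ∑' n : ℤ, 1 / (z + n) ^ 3 =
      ((4 * π ^ 3 : ℝ) : ℂ) * (I * ∑' c : ℕ+, ((c : ℕ) : ℂ) ^ 2 * e z ^ (c : ℕ)) := by
    refine Eq.trans h1 ?_
    simp only [e, Nat.factorial]
    push_cast
    have : I ^ 2 = -1 := Complex.I_sq
    linear_combination (-4 * π ^ 3 * I *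
      ∑' c : ℕ+, ((c : ℕ) : ℂ) ^ 2 * cexp (2 * π * I * z) ^ (c : ℕ)) * this
  have h4 := ((Complex.hasSum_im h2.hasSum).neg.div_const z.im).tsum_eq
  rw [h3, Complex.im_ofReal_mul, Complex.I_mul_im] at h4
  refine Eq.trans (tsum_congr fun n => ?_) (h4.trans (by ring))
  rw [bb_eq (by simpa using hz.ne')]
  simp

lemma hasSum_bb (hB : BOUND) {w : ℂ} (hw : 0 < w.im) :
    HasSum (fun p : ℤ × ℤ => bb ((p.1 : ℂ) * w + p.2))
      (π ^ 4 / 15 - 8 * π ^ 3 / w.im * (R 3 (e w)).re) := by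
  have hs : Summable fun p : ℤ × ℤ => bb ((p.1 : ℂ) * w + p.2) := by
    refine Summable.of_norm_bounded ((summable_lat hw (k := 4) (by norm_num)).mul_left 3)
      fun p => ?_
    rw [mul_one_div]
    exact (hB.2.2 _).2.2.2.2.1
  have hq := norm_e_lt hw
  have key : ∑' p : ℤ × ℤ, bb ((p.1 : ℂ) * w + p.2) =
      π ^ 4 / 15 - 8 * π ^ 3 / w.im * (R 3 (e w)).re := by
    rw [hs.tsum_prod, tsum_int_eq_zero_add_two_mul_tsum_pnat ?_ hs.prod]
    swap
    · intro n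
      dsimp only
      nth_rewrite 1 [← tsum_comp_neg]
      refine tsum_congr fun y => ?_
      rw [← bb_neg]
      congr 1
      push_cast
      ring
    have h0 : ∑' c : ℤ, bb (((0 : ℤ) : ℂ) * w + c) = π ^ 4 / 15 := by
      simpa using tsum_bb_zero
    have h1 : ∀ m : ℕ+, ∑' c : ℤ, bb ((((m : ℕ) : ℤ) : ℂ) * w + c) = -(4 * π ^ 3 / w.im) *
        (∑' c : ℕ+, ((c : ℕ) : ℂ) ^ 2 / (m : ℕ) * e w ^ (m * c : ℕ)).re := fun m => by
      have hm : (0 : ℝ) < (m : ℕ) := by exact_mod_cast m.2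
      have h2 : ∑' c : ℕ+, ((c : ℕ) : ℂ) ^ 2 / (m : ℕ) * e w ^ (m * c : ℕ) =
          ((1 / (m : ℕ) : ℝ) : ℂ) * ∑' c : ℕ+, ((c : ℕ) : ℂ) ^ 2 * e ((m : ℕ) * w) ^ (c : ℕ) := by
        rw [← tsum_mul_left]
        refine tsum_congr fun c => ?_
        rw [e_mul, pow_mul]
        push_cast
        ring
      rw [Int.cast_natCast, tsum_bb_row (by simpa using mul_pos hm hw), h2, Complex.re_ofReal_mul,
        ← Complex.ofReal_natCast, Complex.im_ofReal_mul]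
      field_simp
    simp only [h0, h1]
    rw [tsum_mul_left, ← Complex.re_tsum (summable_lam hq).prod, lam hq, nsmul_eq_mul]
    push_cast
    ring
  exact key ▸ hs.hasSum

lemma split {f : ℂ → ℝ} (hf : ∀ (d : ℕ) (b : ℂ), f (d * b) = f b / (d : ℝ) ^ 4) (τ : ℂ)
    {d d' : ℕ} (hd : d * d' = 6) {s : ℝ}
    (hs : HasSum (fun p : ℤ × ℤ => f ((p.1 : ℂ) * (d' * τ) + p.2)) s) :
    HasSum (fun p : ℤ × ℤ => ind d p.2 * f (pt τ p)) (s / (d : ℝ) ^ 4) := by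
  have hd0 : (d : ℤ) ≠ 0 := by
    rintro h
    have : d = 0 := by exact_mod_cast h
    simp [this] at hd
  have hi : Function.Injective fun p : ℤ × ℤ => (p.1, (d : ℤ) * p.2) := fun x y h => by
    obtain ⟨e1, e2⟩ := Prod.mk.inj h
    exact Prod.ext e1 (mul_left_cancel₀ hd0 e2)
  rw [← hi.hasSum_iff]
  · refine (hs.div_const _).congr_fun fun p => ?_
    have h6 : (d : ℂ) * d' = 6 := by exact_mod_cast hd
    have : pt τ (p.1, (d : ℤ) * p.2) = d * ((p.1 : ℂ) * (d' * τ) + p.2) := by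
      rw [pt, ← h6]; push_cast; ring
    simp only [Function.comp, this, hf, ind, dvd_mul_right, if_true, one_mul]
  · intro x hx
    rw [ind, if_neg, zero_mul]
    rintro ⟨k, hk⟩
    exact hx ⟨(x.1, k), Prod.ext rfl hk.symm⟩

lemma comb {f : ℂ → ℝ} (hf : ∀ (d : ℕ) (b : ℂ), f (d * b) = f b / (d : ℝ) ^ 4) (τ : ℂ)
    {s : ℕ → ℝ} (hs : ∀ d : ℕ, 0 < d →
      HasSum (fun p : ℤ × ℤ => f ((p.1 : ℂ) * (d * τ) + p.2)) (s d)) :
    ∑' p : ℤ × ℤ, phiE p.2 * f (pt τ p) = s 6 - s 3 / 16 - s 2 / 9 + s 1 / 144 := by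
  have h1 := split hf τ (d := 1) (d' := 6) rfl (hs 6 (by norm_num))
  have h2 := split hf τ (d := 2) (d' := 3) rfl (hs 3 (by norm_num))
  have h3 := split hf τ (d := 3) (d' := 2) rfl (hs 2 (by norm_num))
  have h6 := split hf τ (d := 6) (d' := 1) rfl (hs 1 (by norm_num))
  have h := ((h1.sub h2).sub (h3.mul_left 9)).add (h6.mul_left 9)
  refine Eq.trans (tsum_congr fun p => ?_) (h.tsum_eq.trans ?_)
  · have : ind ((1 : ℕ) : ℤ) p.2 = 1 := by simp [ind]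
    rw [this, phiE]
    push_cast
    ring
  · push_cast
    ring

lemma k4_mul (d : ℕ) (b : ℂ) : k4 (d * b) = k4 b / (d : ℝ) ^ 4 := by
  rw [k4, k4, ← Complex.div_ofReal_re]
  congr 1
  push_cast
  rw [mul_pow, div_div, mul_comm]

lemma bb_mul (d : ℕ) (b : ℂ) : bb (d * b) = bb b / (d : ℝ) ^ 4 := by
  have h : (1 / ((d : ℂ) * b) ^ 2).re = (1 / b ^ 2).re / (d : ℝ) ^ 2 := by
    rw [← Complex.div_ofReal_re]
    congr 1
    push_cast
    rw [mul_pow, div_div, mul_comm]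
  rw [bb, bb, h, map_mul, normSq_natCast]
  simp only [div_eq_mul_inv, mul_inv]
  ring

end Four2

open Four2 in
theorem four2_of : BOUND → FOUR2 := fun hB τ h => by
  have hd : ∀ d : ℕ, 0 < d → 0 < ((d : ℂ) * τ).im := fun d hd => by
    have : (0 : ℝ) < d := by exact_mod_cast hd
    simpa using mul_pos this h
  constructor
  · rw [K4, comb k4_mul τ fun d h0 => hasSum_k4 (hd d h0)]
    simp only [e_mul, pow_one, Q, eS]
    simp
    ring
  · rw [Kb, comb bb_mul τ fun d h0 => hasSum_bb hB (hd d h0)]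
    simp only [e_mul, pow_one, cA, A0]
    simp
    field_simp
    ring

end RV5
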