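import Pool.Agent.Lib.RV5.Blue

/-! Block HEC: the two Hecke lattice sums as binary theta series. -/

open Complex
open scoped Real ComplexConjugate

namespace RV5

namespace Hec

noncomputable def G (u v : ℝ) (M N : ℤ) : ℝ :=
  (M : ℝ) * N / ((u * (M : ℝ) ^ 2 + v * (N : ℝ) ^ 2) / 8) ^ 4

lemma G_neg (u v : ℝ) (M N : ℤ) : G u v (-M) N = -G u v M N := by
  simp only [G]; push_cast; ring

lemma G_neg2 (u v : ℝ) (M N : ℤ) : G u v (-M) (-N) = G u v M N := by
  simp only [G]; push_cast; ring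

lemma G_th (u v : ℝ) (p : ℤ × ℤ) : G u v (4 * p.1 + 1) (4 * p.2 + 1) = thT u v p := by
  simp only [G, thT]; push_cast; ring

lemma tsum_anti {ι : Type*} {f : ι → ℝ} (σ : ι ≃ ι) (h : ∀ p, f (σ p) = -f p) :
    ∑' p, f p = 0 := by
  have h1 := σ.tsum_eq f
  simp only [h, tsum_neg] at h1
  linarith

def spl : (ℤ × ℤ) ⊕ (ℤ × ℤ) ⊕ (ℤ × ℤ) → ℤ × ℤ
  | .inl p => (2 * p.1, p.2)
  | .inr (.inl p) => (4 * p.2 + 1, p.1 - p.2)
  | .inr (.inr p) => (-(4 * p.2 + 1), p.2 - p.1)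

lemma spl_bij : Function.Bijective spl := by
  constructor
  · rintro (⟨a, b⟩ | ⟨a, b⟩ | ⟨a, b⟩) (⟨c, d⟩ | ⟨c, d⟩ | ⟨c, d⟩) h <;>
      simp only [spl, Prod.mk.injEq] at h <;>
      first
        | omega
        | (have h1 : a = c := by omega
           have h2 : b = d := by omega
           rw [h1, h2])
  · rintro ⟨n, k⟩
    have h : n % 2 = 0 ∨ n % 4 = 1 ∨ n % 4 = 3 := by omega
    rcases h with h | h | h
    · exact ⟨.inl (n / 2, k), by simp only [spl, Prod.mk.injEq, and_true]; omega⟩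
    · exact ⟨.inr (.inl (k + n / 4, n / 4)), by simp only [spl, Prod.mk.injEq]; omega⟩
    · exact ⟨.inr (.inr (-n / 4 - k, -n / 4)), by simp only [spl, Prod.mk.injEq]; omega⟩

def flipE : ℤ × ℤ ≃ ℤ × ℤ where
  toFun p := (p.1, -p.1 - p.2)
  invFun p := (p.1, -p.1 - p.2)
  left_inv p := by ext <;> simp
  right_inv p := by ext <;> simp

lemma gen (u v : ℝ) (hs : Summable fun p : ℤ × ℤ => G u v (p.1 + 4 * p.2) p.1) :
    ∑' p : ℤ × ℤ, G u v (p.1 + 4 * p.2) p.1 = 2 * ∑' p, thT u v p := by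
  set f : ℤ × ℤ → ℝ := fun p => G u v (p.1 + 4 * p.2) p.1 with hf
  have h0 : Summable (f ∘ spl) := hs.comp_injective spl_bij.1
  have h1 := h0.comp_injective (Sum.inl_injective)
  have h2 := h0.comp_injective (Sum.inr_injective)
  have h3 := h2.comp_injective (Sum.inl_injective)
  have h4 := h2.comp_injective (Sum.inr_injective)
  have e0 : ∑' p, f p = ∑' x, f (spl x) := ((Equiv.ofBijective spl spl_bij).tsum_eq f).symm
  have e1 := Summable.tsum_sum (f := f ∘ spl) h1 h2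
  have e2 := Summable.tsum_sum (f := (f ∘ spl) ∘ Sum.inr) h3 h4
  have e3 : ∑' p, f (spl (.inl p)) = 0 := by
    refine tsum_anti flipE fun p => ?_
    simp only [hf, spl, flipE, Equiv.coe_fn_mk]
    rw [← G_neg]; congr 1; ring
  have e4 : ∀ p, f (spl (.inr (.inl p))) = thT u v p := fun p => by
    simp only [hf, spl]
    rw [← G_th]; congr 1; ring
  have e5 : ∀ p, f (spl (.inr (.inr p))) = thT u v p := fun p => by
    simp only [hf, spl]
    rw [← G_th, ← G_neg2 u v (4 * p.1 + 1)]; congr 1; ring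
  simp only [Function.comp] at e1 e2
  rw [e0, e1, e2, e3]
  simp only [e4, e5]
  ring

def conjE : ℤ × ℤ ≃ ℤ × ℤ where
  toFun p := (p.1 + p.2, -p.2)
  invFun p := (p.1 + p.2, -p.2)
  left_inv p := by ext <;> simp
  right_inv p := by ext <;> simp

lemma key {h : ℤ × ℤ → ℂ} {A B : ℤ × ℤ → ℝ} {c : ℂ} (hc : c.im ≠ 0) (hs : Summable h)
    (hB : ∀ p, B (conjE p) = -B p) (hh : ∀ p, h p = A p + c * B p) :
    Summable A ∧ ∑' p, h p = ((∑' p, A p : ℝ) : ℂ) := by
  have b1 : Summable B := by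
    refine ((Complex.imCLM.summable hs).mul_left c.im⁻¹).congr fun p => ?_
    simp only [hh, Complex.imCLM_apply, Complex.add_im, Complex.ofReal_im, Complex.mul_im,
      Complex.ofReal_re]
    field_simp
    ring
  have b2 : Summable fun p => c * (B p : ℂ) := (Complex.summable_ofReal.mpr b1).mul_left c
  have a1 : Summable fun p => (A p : ℂ) := (hs.sub b2).congr fun p => by rw [hh]; ring
  refine ⟨Complex.summable_ofReal.mp a1, ?_⟩
  simp only [hh]
  rw [a1.tsum_add b2, tsum_mul_left, ← Complex.ofReal_tsum, ← Complex.ofReal_tsum,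
    tsum_anti conjE hB]
  simp

lemma chi_eq (t : ℂ) : chi t = conj t ^ 2 / (normSq t : ℂ) ^ 4 := by
  rw [chi, Complex.normSq_eq_conj_mul_self]
  rcases eq_or_ne t 0 with rfl | ht
  · simp
  · have : conj t ≠ 0 := by simpa using ht
    field_simp

lemma norm_chi (t : ℂ) : ‖chi t‖ = 1 / ‖t‖ ^ 6 := by
  rw [chi, norm_div, norm_mul, norm_pow, norm_pow, Complex.norm_conj, norm_one]
  ring

lemma summable_chi {z : ℂ} (hz : 0 < z.im) (k : ℂ) :
    Summable fun p : ℤ × ℤ => chi (k * (p.1 + p.2 * z)) := by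
  have h := ((summable_lat hz (k := 6) (by norm_num)).comp_injective
    Prod.swap_injective).mul_left (1 / ‖k‖ ^ 6)
  refine Summable.of_norm (h.congr fun p => ?_)
  simp only [Function.comp, Prod.fst_swap, Prod.snd_swap, norm_chi, norm_mul, mul_pow,
    one_div_mul_one_div, add_comm]

lemma sq15 : (√15 : ℝ) ^ 2 = 15 := Real.sq_sqrt (by norm_num)

lemma th_pos : 0 < th.im := by rw [th_im]; positivity

lemma nsq0 (x y : ℤ) : normSq ((x : ℂ) + y * th) = (x : ℝ) ^ 2 + x * y + 4 * (y : ℝ) ^ 2 := by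
  rw [Complex.normSq_apply]
  simp only [Complex.add_re, Complex.add_im, Complex.mul_re, Complex.mul_im, Complex.intCast_re,
    Complex.intCast_im, th_re, th_im]
  linear_combination ((y : ℝ) ^ 2 / 4) * sq15

lemma nsq1 (x y : ℤ) : normSq (3 * (x : ℂ) + y * (th + 1)) =
    3 * (3 * (x : ℝ) ^ 2 + 3 * x * y + 2 * (y : ℝ) ^ 2) := by
  rw [show 3 * (x : ℂ) + y * (th + 1) = ((3 * x + y : ℤ) : ℂ) + y * th by push_cast; ring, nsq0]
  push_cast
  ring

def e0 : ℤ × ℤ ≃ ℤ × ℤ where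
  toFun p := (p.1 + 2 * p.2, -p.2)
  invFun p := (p.1 + 2 * p.2, -p.2)
  left_inv p := by ext <;> simp
  right_inv p := by ext <;> simp

lemma z0 : Z0 = ((2 * ∑' p, thT 3 5 p : ℝ) : ℂ) := by
  have hs : Summable fun p : ℤ × ℤ => chi (p.1 + p.2 * th) := by
    simpa using summable_chi th_pos 1
  obtain ⟨k1, k2⟩ := key (A := fun p => G 3 5 ((e0 p).1 + 4 * (e0 p).2) (e0 p).1)
    (B := fun p => (p.2 : ℝ) * (2 * p.1 + p.2) / ((p.1 : ℝ) ^ 2 + p.1 * p.2 + 4 * (p.2 : ℝ) ^ 2) ^ 4)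
    (c := 1 - th) (by simpa using th_pos.ne') hs
    (fun p => by simp only [conjE, Equiv.coe_fn_mk]; push_cast; ring)
    (fun p => by
      rw [chi_eq, nsq0]
      simp only [e0, Equiv.coe_fn_mk, G, map_add, map_mul, map_intCast, conj_th]
      push_cast
      rw [show (3 * ((p.1 : ℂ) + 2 * p.2 + 4 * -p.2) ^ 2 + 5 * ((p.1 : ℂ) + 2 * p.2) ^ 2) / 8 =
        (p.1 : ℂ) ^ 2 + p.1 * p.2 + 4 * (p.2 : ℂ) ^ 2 by ring, ← mul_div_assoc, ← add_div]
      congr 1
      linear_combination (p.2 : ℂ) ^ 2 * th_sq)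
  rw [Z0, k2, e0.tsum_eq fun p => G 3 5 (p.1 + 4 * p.2) p.1,
    gen 3 5 (e0.summable_iff.mp k1)]

lemma z1 : -27 * Z1 = ((2 * ∑' p, thT 1 15 p : ℝ) : ℂ) := by
  have hs : Summable fun p : ℤ × ℤ => -27 * chi (3 * p.1 + p.2 * (th + 1)) := by
    refine ((summable_chi (z := (th + 1) / 3) (by simpa using th_pos) 3).congr
      fun p => ?_).mul_left _
    congr 1; ring
  obtain ⟨k1, k2⟩ := key (A := fun p => G 1 15 ((flipE p).1 + 4 * (flipE p).2) (flipE p).1)
    (B := fun p => (p.2 : ℝ) * (2 * p.1 + p.2) /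
      (3 * (p.1 : ℝ) ^ 2 + 3 * p.1 * p.2 + 2 * (p.2 : ℝ) ^ 2) ^ 4)
    (c := th) th_pos.ne' hs
    (fun p => by simp only [conjE, Equiv.coe_fn_mk]; push_cast; ring)
    (fun p => by
      rw [chi_eq, nsq1]
      simp only [flipE, Equiv.coe_fn_mk, G, map_add, map_mul, map_intCast, conj_th, map_ofNat,
        map_one]
      push_cast
      rw [show (1 * ((p.1 : ℂ) + 4 * (-p.1 - p.2)) ^ 2 + 15 * (p.1 : ℂ) ^ 2) / 8 =
        3 * (p.1 : ℂ) ^ 2 + 3 * p.1 * p.2 + 2 * (p.2 : ℂ) ^ 2 by ring, ← mul_div_assoc th,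
        ← add_div, mul_pow, ← div_div, ← mul_div_assoc]
      congr 1
      linear_combination (-(p.2 : ℂ) ^ 2 / 3) * th_sq)
  rw [Z1, ← tsum_mul_left, k2, flipE.tsum_eq fun p => G 1 15 (p.1 + 4 * p.2) p.1,
    gen 1 15 (flipE.summable_iff.mp k1)]

end Hec

theorem hec : HEC := by
  have h0 := Hec.z0
  have h1 := Hec.z1
  unfold HEC ThL
  push_cast at h0 h1 ⊢
  linear_combination h0 + h1

end RV5
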