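import Pool.Agent.Lib.RV5.Blue

/-! Jacobi's identity for the cube of the eta function, through the triple product. -/

open Complex Filter Topology
open scoped Real

namespace RV5

namespace Jac

lemma prod_bound {x : ℂ} (hx : ‖x‖ < 1) (k m : ℕ) :
    ‖∏ i ∈ Finset.range m, (1 - x ^ (k + i + 1))‖ ≤ Real.exp (1 - ‖x‖)⁻¹ := by
  have h0 := norm_nonneg x
  calc _ ≤ ∏ i ∈ Finset.range m, (1 + ‖x‖ ^ i) := by
        rw [norm_prod]
        refine Finset.prod_le_prod (fun _ _ => norm_nonneg _) fun i _ => ?_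
        refine (norm_sub_le _ _).trans ?_
        rw [norm_one, norm_pow]
        exact add_le_add le_rfl (pow_le_pow_of_le_one h0 hx.le (by omega))
    _ ≤ Real.exp (∑ i ∈ Finset.range m, ‖x‖ ^ i) :=
        Real.prod_one_add_le_exp_sum _ fun i => by positivity
    _ ≤ _ := by
        rw [Real.exp_le_exp]
        exact sum_le_hasSum _ (fun i _ => by positivity) (hasSum_geometric_of_lt_one h0 hx)

lemma term_bound {x : ℂ} (hx : ‖x‖ < 1) (k n : ℕ) :
    ‖x ^ ((k + 1) * n) * ∏ i ∈ Finset.range (n + 1), (1 - x ^ (k + i + 1))‖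
      ≤ Real.exp (1 - ‖x‖)⁻¹ * ‖x‖ ^ n := by
  rw [norm_mul, norm_pow, mul_comm]
  exact mul_le_mul (prod_bound hx k _)
    (pow_le_pow_of_le_one (norm_nonneg x) hx.le (by nlinarith)) (by positivity) (by positivity)

lemma pent {x : ℂ} (hx : ‖x‖ < 1)
    (hs : Summable fun k : ℕ => (-1) ^ k * (x ^ pentagonal (-k) - x ^ pentagonal (k + 1))) :
    RV6.poch x x = ∑' k : ℕ, (-1) ^ k * (x ^ pentagonal (-k) - x ^ pentagonal (k + 1)) := by
  have h0 := norm_nonneg x
  have hg := (hasSum_geometric_of_lt_one h0 hx).mul_left (Real.exp (1 - ‖x‖)⁻¹)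
  rw [RV6.poch_self]
  refine Pentagonal.tprod_one_sub_pow (tendsto_pow_atTop_nhds_zero_of_norm_lt_one hx)
    (fun k => Summable.of_norm_bounded hg.summable (term_bound hx k)) (fun k => ?_) hs ?_
  · refine (RV6.poch_multipliable hx (x ^ (k + 1))).congr fun n => ?_
    ring
  · have ht := (tendsto_pow_atTop_nhds_zero_of_lt_one h0 hx).mul_const
      (Real.exp (1 - ‖x‖)⁻¹ * (1 - ‖x‖)⁻¹)
    rw [zero_mul] at ht
    refine squeeze_zero_norm (fun k => ?_) ht
    rw [norm_mul, norm_mul, norm_pow, norm_pow, norm_neg, norm_one, one_pow, one_mul]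
    refine mul_le_mul (pow_le_pow_of_le_one h0 hx.le ?_)
      (tsum_of_norm_bounded hg (term_bound hx k)) (norm_nonneg _) (by positivity)
    rw [Nat.le_div_iff_mul_le two_pos]
    nlinarith

lemma term_eq (n : ℤ) (z c τ : ℂ) :
    jacobiTheta₂_term n (z + c) τ = e z ^ n * jacobiTheta₂_term n c τ := by
  rw [jacobiTheta₂_term, jacobiTheta₂_term, e, ← Complex.exp_int_mul, ← Complex.exp_add]
  congr 1
  ring

lemma theta_congr {z z' : ℂ} (h : e z = e z') (c τ : ℂ) :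
    jacobiTheta₂ (z + c) τ = jacobiTheta₂ (z' + c) τ :=
  tsum_congr fun n => by rw [term_eq, term_eq, h]

lemma e_log {w : ℂ} (hw : w ≠ 0) : e (log w / (2 * π * I)) = w := by
  have : (2 * π * I : ℂ) ≠ 0 := Complex.two_pi_I_ne_zero
  rw [e, mul_div_cancel₀ _ this, Complex.exp_log hw]

lemma e_add (a b : ℂ) : e (a + b) = e a * e b := by rw [e, e, e, mul_add, Complex.exp_add]

/-- the theta series as a function of `w = e z` -/
noncomputable def F (τ w : ℂ) : ℂ := jacobiTheta₂ (log w / (2 * π * I) + (1 / 2 - τ / 2)) τ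

lemma F_e (τ z : ℂ) : F τ (e z) = jacobiTheta₂ (z + (1 / 2 - τ / 2)) τ :=
  theta_congr (e_log (e_ne z)) _ _

lemma F_diff {τ : ℂ} (hτ : 0 < τ.im) : DifferentiableOn ℂ (F τ) {0}ᶜ := by
  intro w hw
  have hw0 : w ≠ 0 := hw
  apply DifferentiableAt.differentiableWithinAt
  have h1 : DifferentiableAt ℂ (fun v : ℂ => log w / (2 * π * I) + log (v / w) / (2 * π * I)
      + (1 / 2 - τ / 2)) w := by
    refine (DifferentiableAt.const_add _ (DifferentiableAt.div_const ?_ _)).add_const _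
    refine (differentiableAt_id.div_const w).clog ?_
    simp [div_self hw0]
  refine ((differentiableAt_jacobiTheta₂_fst _ hτ).comp w h1).congr_of_eventuallyEq ?_
  filter_upwards [isOpen_ne.mem_nhds hw0] with v hv
  refine theta_congr ?_ _ _
  rw [e_add, e_log hv, e_log hw0, e_log (div_ne_zero hv hw0)]
  field_simp

lemma F_mul (τ : ℂ) {w : ℂ} (hw : w ≠ 0) : F τ (e τ * w) = -w⁻¹ * F τ w := by
  obtain ⟨z, rfl⟩ : ∃ z, w = e z := ⟨_, (e_log hw).symm⟩
  rw [← e_add, F_e, F_e, show τ + z + (1 / 2 - τ / 2) = z + (1 / 2 - τ / 2) + τ by ring,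
    jacobiTheta₂_add_left']
  congr 1
  rw [e, ← Complex.exp_neg, show -π * I * (τ + 2 * (z + (1 / 2 - τ / 2)))
    = -(2 * π * I * z) - π * I by ring, Complex.exp_sub, Complex.exp_pi_mul_I]
  ring

lemma theta_zero (τ : ℂ) : jacobiTheta₂ (1 / 2 - τ / 2) τ = 0 := by
  have h1 := F_mul τ one_ne_zero
  have h2 : e 0 = 1 := by simp [e]
  rw [mul_one, F_e, ← h2, F_e, h2, zero_add, ← jacobiTheta₂_neg_left, ← jacobiTheta₂_add_left,
    show -(τ + (1 / 2 - τ / 2)) + 1 = 1 / 2 - τ / 2 by ring] at h1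
  linear_combination h1 / 2

lemma triple0 {τ : ℂ} (hτ : 0 < τ.im) : ∃ c, ∀ w, w ≠ 0 → F τ w = c * RV6.th (e τ) w := by
  have hp := norm_e_lt hτ
  have hp0 := e_ne τ
  refine RV6.theta_div hp hp0 (m := fun w => -w⁻¹) (F_diff hτ) (RV6.differentiableOn_th hp)
    (fun w hw => neg_ne_zero.mpr (inv_ne_zero hw)) (fun w hw => F_mul τ hw)
    (fun w hw => RV6.th_mul hp hp0 hw) fun w hw h0 => ⟨?_, RV6.deriv_th_ne hp hp0 hw h0⟩
  obtain ⟨n, rfl⟩ := RV6.th_eq_zero hp hp0 hw h0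
  have := RV6.zpow_induct hp0 (Q := fun w => F τ w = 0) (a := 1)
    (fun w hw => by simp [F_mul τ hw, hw]) one_ne_zero (by
      have h2 : e 0 = 1 := by simp [e]
      rw [← h2, F_e, zero_add, theta_zero]) n
  simpa using this

lemma term_half (n : ℤ) (a τ : ℂ) : jacobiTheta₂_term n (1 / 2 + a) τ
    = (-1) ^ n * cexp (2 * π * I * n * a + π * I * n ^ 2 * τ) := by
  rw [term_eq, jacobiTheta₂_term, e, show 2 * π * I * (1 / 2 : ℂ) = π * I by ring,
    Complex.exp_pi_mul_I]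

lemma term_pent (n : ℤ) (τ : ℂ) : jacobiTheta₂_term n (τ / 3 + (1 / 2 - τ / 2)) τ
    = (-1) ^ n * e (τ / 3) ^ pentagonal n := by
  rw [show τ / 3 + (1 / 2 - τ / 2) = 1 / 2 + -(τ / 6) by ring, term_half, ← e_mul, e]
  have h : (2 : ℂ) * (pentagonal n : ℂ) = n * (3 * n - 1) := by
    exact_mod_cast two_mul_natCast_pentagonal n
  congr 2
  linear_combination (-π * I * τ / 3) * h

lemma triple {τ : ℂ} (hτ : 0 < τ.im) (z : ℂ) : jacobiTheta₂ (z + (1 / 2 - τ / 2)) τ
    = RV6.poch (e τ) (e τ) * RV6.th (e τ) (e z) := by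
  obtain ⟨c, hc⟩ := triple0 hτ
  rw [← F_e, hc _ (e_ne z)]
  congr 1
  have hq : ‖e (τ / 3)‖ < 1 := norm_e_lt (by simp; linarith)
  have h3 : e (τ / 3) ^ 3 = e τ := by
    rw [← e_mul]; congr 1; push_cast; ring
  have h1 := hc _ (e_ne (τ / 3))
  rw [F_e] at h1
  have s1 := hasSum_jacobiTheta₂_term (τ / 3 + (1 / 2 - τ / 2)) hτ
  rw [← (Equiv.neg ℤ).hasSum_iff] at s1
  have s2 : HasSum (fun k : ℕ => (-1) ^ k *
      (e (τ / 3) ^ pentagonal (-k) - e (τ / 3) ^ pentagonal (k + 1)))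
      (jacobiTheta₂ (τ / 3 + (1 / 2 - τ / 2)) τ) := by
    refine s1.nat_add_neg_add_one.congr_fun fun k => ?_
    simp only [Function.comp, Equiv.neg_apply, neg_neg, term_pent]
    rw [zpow_neg, zpow_add_one₀ (by norm_num), zpow_natCast, ← inv_pow, inv_neg, inv_one]
    ring
  have h2 := pent hq s2.summable
  rw [s2.tsum_eq, h1, RV6.poch_three hq, RV6.th, h3] at h2
  have hq0 := e_ne (τ / 3)
  rw [show e τ / e (τ / 3) = e (τ / 3) * e (τ / 3) by rw [← h3]; field_simp,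
    show e (τ / 3) * e (τ / 3) ^ 2 = e τ by rw [← h3]; ring] at h2
  have n1 := RV6.poch_ne_zero' (norm_e_lt hτ) hq
  have n2 := RV6.poch_ne_zero' (x := e (τ / 3) * e (τ / 3)) (norm_e_lt hτ)
    (by rw [← sq]; exact RV6.norm_pow_lt hq two_ne_zero)
  exact mul_right_cancel₀ (mul_ne_zero n1 n2) (by linear_combination -h2)

lemma theta_deriv {τ : ℂ} (hτ : 0 < τ.im) :
    jacobiTheta₂' (1 / 2 - τ / 2) τ = -(2 * π * I) * RV6.poch (e τ) (e τ) ^ 3 := by
  have h2 : e 0 = 1 := by simp [e]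
  have d1 : HasDerivAt (fun z => jacobiTheta₂ (z + (1 / 2 - τ / 2)) τ)
      (jacobiTheta₂' (1 / 2 - τ / 2) τ) 0 := by
    have := hasDerivAt_jacobiTheta₂_fst (0 + (1 / 2 - τ / 2)) hτ
    simpa using this.comp_add_const 0 (1 / 2 - τ / 2)
  have d2 := RV6.hasDerivAt_th_one (norm_e_lt hτ)
  have d3 := (hasDerivAt_comp_e (τ := 0) (F := RV6.th (e τ))
    (by rw [h2]; exact d2.differentiableAt)).const_mul (RV6.poch (e τ) (e τ))
  rw [h2, d2.deriv] at d3
  simp only [triple hτ] at d1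
  rw [d1.unique d3]
  ring

theorem split_sum {g f : ℤ → ℂ} {S : ℂ} (hg : HasSum g S) (e1 : ∀ n : ℤ, g (-2 * n) = f n)
    (e2 : ∀ n : ℤ, g (2 * n + 1) = f n) : HasSum f (S / 2) := by
  have i1 : Function.Injective fun n : ℤ => -2 * n := fun a b h => by
    simp only at h; omega
  have i2 : Function.Injective fun n : ℤ => 2 * n + 1 := fun a b h => by
    simp only at h; omega
  have s3 : Summable f := (hg.summable.comp_injective i1).congr e1
  have b1 : HasSum (g ∘ fun n : ℤ => -2 * n) (∑' n, f n) := s3.hasSum.congr_fun e1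
  have b2 : HasSum (g ∘ fun n : ℤ => 2 * n + 1) (∑' n, f n) := s3.hasSum.congr_fun e2
  have a1 := i1.hasSum_range_iff.mpr b1
  have a2 := i2.hasSum_range_iff.mpr b2
  have hc : IsCompl (Set.range fun n : ℤ => -2 * n) (Set.range fun n : ℤ => 2 * n + 1) := by
    refine ⟨Set.disjoint_left.mpr ?_, codisjoint_iff.mpr (Set.eq_univ_of_forall fun m => ?_)⟩
    · rintro _ ⟨a, rfl⟩ ⟨b, hb⟩
      simp only at hb
      omega
    · rcases Int.emod_two_eq_zero_or_one m with h | h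
      · exact Or.inl ⟨-(m / 2), by simp only; omega⟩
      · exact Or.inr ⟨m / 2, by simp only; omega⟩
  have a3 := HasSum.add_isCompl (f := g) hc a1 a2
  have := a3.unique hg
  rw [show S / 2 = ∑' n, f n by linear_combination -this / 2]
  exact s3.hasSum

end Jac

open Jac in
theorem jac : JAC := by
  intro τ hτ
  have hI : (2 * π * I : ℂ) ≠ 0 := Complex.two_pi_I_ne_zero
  have s0 := hasSum_jacobiTheta₂_term (1 / 2 - τ / 2) hτ
  have s1 := hasSum_jacobiTheta₂'_term (1 / 2 - τ / 2) hτ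
  rw [theta_zero] at s0
  rw [theta_deriv hτ] at s1
  have s2 : HasSum (fun m : ℤ => e (τ / 8) * ((1 - 2 * m) * jacobiTheta₂_term m (1 / 2 - τ / 2) τ))
      (2 * ModularForm.eta τ ^ 3) := by
    have := (s0.sub (s1.mul_left (2 / (2 * π * I)))).mul_left (e (τ / 8))
    have h1 := RV6.eta_eq 1 τ
    simp only [Nat.cast_one, one_mul, pow_one] at h1
    have h2 : cexp (2 * π * I * τ / 24) ^ 3 = e (τ / 8) := by
      rw [← Complex.exp_nat_mul, e]; congr 1; push_cast; ring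
    have h3 : ∀ a b c : ℂ, c ≠ 0 → 2 * (a * b) = a * (0 - 2 / c * (-c * b)) := by
      intro a b c hc; field_simp; ring
    rw [h1, mul_pow, h2, h3 _ _ _ hI]
    refine this.congr_fun fun m => ?_
    have h4 : ∀ a b c d : ℂ, c ≠ 0 → a * ((1 - 2 * d) * b) = a * (b - 2 / c * (c * d * b)) := by
      intro a b c d hc; field_simp
    rw [jacobiTheta₂'_term, h4 _ _ _ _ hI]
  have e1 : ∀ n : ℤ, e (τ / 8) * ((1 - 2 * ((-2 * n : ℤ) : ℂ))
      * jacobiTheta₂_term (-2 * n) (1 / 2 - τ / 2) τ)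
      = (4 * n + 1 : ℂ) * e (τ * (4 * n + 1) ^ 2 / 8) := by
    intro n
    rw [sub_eq_add_neg (1 / 2 : ℂ), term_half, zpow_mul, mul_left_comm, mul_left_comm (e (τ / 8)),
      e, e, ← Complex.exp_add]
    push_cast
    norm_num
    congr 1
    · ring
    · congr 1; ring
  have e2 : ∀ n : ℤ, e (τ / 8) * ((1 - 2 * ((2 * n + 1 : ℤ) : ℂ))
      * jacobiTheta₂_term (2 * n + 1) (1 / 2 - τ / 2) τ)
      = (4 * n + 1 : ℂ) * e (τ * (4 * n + 1) ^ 2 / 8) := by
    intro n
    rw [sub_eq_add_neg (1 / 2 : ℂ), term_half, zpow_add_one₀ (by norm_num), zpow_mul,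
      mul_left_comm, mul_left_comm (e (τ / 8)), e, e, ← Complex.exp_add, ← mul_assoc]
    push_cast
    norm_num
    congr 1
    · ring
    · congr 1; ring
  have := split_sum s2 e1 e2
  rw [mul_div_cancel_left₀ _ (two_ne_zero)] at this
  exact this

end RV5
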