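import Pool.Agent.Lib.RV5.Blue

/-! Block MOM: the even moments of the four-step random walk are the Domb numbers. -/

open Complex MeasureTheory Filter Topology
open scoped Real ComplexConjugate

namespace RV5

namespace Mom

open RV6 (ee nu)

lemma orth (a b : ℕ) : ∫ t, ee t ^ a * (ee t)⁻¹ ^ b ∂nu = if a = b then 1 else 0 := by
  split_ifs with h
  · subst h
    have : ∀ t, ee t ^ a * (ee t)⁻¹ ^ a = 1 := fun t => by
      rw [← mul_pow, mul_inv_cancel₀ (RV6.ee_ne t), one_pow]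
    simp only [this]
    simp
  · have hc : (2 * π * I * ((a : ℂ) - b)) ≠ 0 := by
      refine mul_ne_zero Complex.two_pi_I_ne_zero (sub_ne_zero.mpr ?_)
      exact_mod_cast h
    have : ∀ t : ℝ, ee t ^ a * (ee t)⁻¹ ^ b = Complex.exp ((2 * π * I * ((a : ℂ) - b)) * t) := by
      intro t
      rw [← RV6.ee_neg, RV6.ee_pow, RV6.ee_pow, ← RV6.ee_add, ee]
      congr 1; push_cast; ring
    simp only [this]
    rw [nu, integral_Icc_eq_integral_Ioc, ← intervalIntegral.integral_of_le zero_le_one,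
      integral_exp_mul_complex hc]
    have e1 : Complex.exp (2 * π * I * ((a : ℂ) - b) * (1 : ℝ)) = 1 := by
      have := Complex.exp_int_mul_two_pi_mul_I ((a : ℤ) - b)
      rw [← this]; congr 1; push_cast; ring
    rw [e1]; simp

lemma int_mono (c : ℂ) (a b : ℕ) : Integrable (fun t => c * (ee t ^ a * (ee t)⁻¹ ^ b)) nu := by
  have := RV6.measurable_ee
  refine Integrable.of_bound (Measurable.aestronglyMeasurable (by fun_prop)) ‖c‖ ?_
  filter_upwards with t
  simp [RV6.norm_ee]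

lemma circ (A : ℂ) (n : ℕ) : ∫ t, (‖A + ee t‖ ^ 2) ^ n ∂nu =
    ∑ k ∈ Finset.range (n + 1), (n.choose k : ℝ) ^ 2 * (‖A‖ ^ 2) ^ k := by
  have h : ∀ t, (((‖A + ee t‖ ^ 2) ^ n : ℝ) : ℂ) =
      ∑ k ∈ Finset.range (n + 1), ∑ l ∈ Finset.range (n + 1),
        (A ^ k * conj A ^ l * n.choose k * n.choose l) *
          (ee t ^ (n - k) * (ee t)⁻¹ ^ (n - l)) := by
    intro t
    rw [Complex.ofReal_pow, Complex.ofReal_pow, ← Complex.mul_conj', mul_pow, map_add,
      RV6.conj_ee, add_pow, add_pow, Finset.sum_mul_sum]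
    refine Finset.sum_congr rfl fun k _ => Finset.sum_congr rfl fun l _ => by ring
  apply Complex.ofReal_injective
  rw [← integral_complex_ofReal]
  simp only [h]
  rw [integral_finsetSum _ fun k _ => integrable_finsetSum _ fun l _ => int_mono _ _ _]
  push_cast
  refine Finset.sum_congr rfl fun k hk => ?_
  rw [integral_finsetSum _ fun l _ => int_mono _ _ _, Finset.sum_eq_single k]
  · rw [integral_const_mul, orth, if_pos rfl, ← Complex.mul_conj', mul_pow]; ring
  · intro l hl hlk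
    rw [integral_const_mul, orth, if_neg, mul_zero]
    have := Finset.mem_range.mp hk
    have := Finset.mem_range.mp hl
    omega
  · intro h; exact absurd hk h

noncomputable def M (j n : ℕ) : ℝ :=
  ∫ x : Fin j → ℝ, (‖1 + ∑ i, ee (x i)‖ ^ 2) ^ n ∂Measure.pi (fun _ => nu)

lemma norm_le (j : ℕ) (x : Fin j → ℝ) : ‖1 + ∑ i, ee (x i)‖ ≤ 1 + j := by
  refine (norm_add_le _ _).trans ?_
  have := norm_sum_le Finset.univ fun i => ee (x i)
  simp only [RV6.norm_ee] at this
  simpa using this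

lemma int_M (j n : ℕ) :
    Integrable (fun x : Fin j → ℝ => (‖1 + ∑ i, ee (x i)‖ ^ 2) ^ n) (Measure.pi fun _ => nu) := by
  have := RV6.measurable_ee
  refine Integrable.of_bound (Measurable.aestronglyMeasurable (by fun_prop))
    (((1 + j : ℝ) ^ 2) ^ n) ?_
  filter_upwards with x
  rw [Real.norm_of_nonneg (by positivity)]
  have := norm_le j x
  gcongr

lemma M_zero (n : ℕ) : M 0 n = 1 := by simp [M]

lemma M_succ (j n : ℕ) :
    M (j + 1) n = ∑ k ∈ Finset.range (n + 1), (n.choose k : ℝ) ^ 2 * M j k := by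
  have hee := RV6.measurable_ee
  have mp := measurePreserving_piFinSuccAbove (fun _ : Fin (j + 1) => nu) 0
  have hi : Integrable (fun z : ℝ × (Fin j → ℝ) => (‖(1 + ∑ i, ee (z.2 i)) + ee z.1‖ ^ 2) ^ n)
      (nu.prod (Measure.pi fun _ => nu)) := by
    refine Integrable.of_bound (Measurable.aestronglyMeasurable (by fun_prop))
      (((1 + j + 1 : ℝ) ^ 2) ^ n) ?_
    filter_upwards with z
    rw [Real.norm_of_nonneg (by positivity)]
    have h1 := norm_le j z.2
    have h2 : ‖(1 + ∑ i, ee (z.2 i)) + ee z.1‖ ≤ 1 + j + 1 :=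
      (norm_add_le _ _).trans (by rw [RV6.norm_ee]; linarith)
    gcongr
  have e1 : M (j + 1) n = ∫ z : ℝ × (Fin j → ℝ), (‖(1 + ∑ i, ee (z.2 i)) + ee z.1‖ ^ 2) ^ n
      ∂(nu.prod (Measure.pi fun _ => nu)) := by
    rw [← mp.integral_comp' (fun z : ℝ × (Fin j → ℝ) =>
      (‖(1 + ∑ i, ee (z.2 i)) + ee z.1‖ ^ 2) ^ n), M]
    refine integral_congr_ae (Eventually.of_forall fun x => ?_)
    simp [Fin.sum_univ_succ, add_left_comm, add_comm, Fin.tail]
  rw [e1, integral_prod_symm _ hi]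
  simp only [circ]
  rw [integral_finsetSum _ fun k _ => (int_M j k).const_mul _]
  simp only [integral_const_mul, M]

lemma mom_eq (n : ℕ) : mom n = M 3 n := by
  have e : (volume : Measure (Fin 3 → ℝ)).restrict (Set.Icc 0 1) = Measure.pi fun _ => nu := by
    rw [← Set.pi_univ_Icc, volume_pi, Measure.restrict_pi_pi]; rfl
  rw [mom, e]; rfl

open PowerSeries

noncomputable def U (j : ℕ) : ℝ⟦X⟧ := PowerSeries.mk fun n => M j n / (n.factorial : ℝ) ^ 2

lemma U_succ (j : ℕ) : U (j + 1) = U j * U 0 := by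
  ext n
  rw [coeff_mul, Finset.Nat.sum_antidiagonal_eq_sum_range_succ_mk]
  simp only [U, coeff_mk, M_succ, M_zero, Finset.sum_div]
  refine Finset.sum_congr rfl fun k hk => ?_
  have hk' : k ≤ n := Nat.lt_succ_iff.mp (Finset.mem_range.mp hk)
  rw [Nat.cast_choose ℝ hk']
  have := (Nat.cast_ne_zero (R := ℝ)).mpr n.factorial_ne_zero
  field_simp

lemma U_three : U 3 = U 0 ^ 4 := by
  rw [U_succ, U_succ, U_succ]; ring

noncomputable def T : Derivation ℝ ℝ⟦X⟧ ℝ⟦X⟧ := (X : ℝ⟦X⟧) • PowerSeries.derivative ℝ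

lemma coeff_T (f : ℝ⟦X⟧) (n : ℕ) : coeff n (T f) = n * coeff n f := by
  have : T f = X * PowerSeries.derivative ℝ f := rfl
  rw [this]
  cases n with
  | zero => simp
  | succ n => rw [coeff_succ_X_mul, coeff_derivative]; push_cast; ring

lemma T_X : T X = X := by
  have : T X = X * PowerSeries.derivative ℝ X := rfl
  rw [this]; simp

lemma T_T : T (T (U 0)) = X * U 0 := by
  ext n
  rw [coeff_T, coeff_T]
  cases n with
  | zero => simp
  | succ n =>
    rw [coeff_succ_X_mul]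
    simp only [U, coeff_mk, M_zero, Nat.factorial_succ]
    have := (Nat.cast_ne_zero (R := ℝ)).mpr n.factorial_ne_zero
    push_cast
    field_simp

lemma alg {A : Type*} [CommRing A] [Algebra ℝ A] (D : Derivation ℝ A A) (y p t : A)
    (hy : D y = p) (hp : D p = t * y) (ht : D t = t) :
    D (D (D (D (D (y ^ 4))))) = t * (20 * D (D (D (y ^ 4))) + 30 * D (D (y ^ 4)) +
      18 * D (y ^ 4) + 4 * y ^ 4) - 64 * (t * (t * (D (y ^ 4) + y ^ 4))) := by
  have mon : ∀ (c a b d : ℕ), D ((c : A) * (t ^ a * y ^ b * p ^ d)) =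
      c * (a * t ^ (a - 1) * t * y ^ b * p ^ d + b * t ^ a * y ^ (b - 1) * p * p ^ d +
        d * t ^ a * y ^ b * p ^ (d - 1) * (t * y)) := by
    intro c a b d
    simp only [Derivation.leibniz, Derivation.leibniz_pow, Derivation.map_natCast, hy, hp, ht,
      smul_eq_mul, nsmul_eq_mul]
    ring
  have h1 : D (y ^ 4) = (4 : ℕ) * (t ^ 0 * y ^ 3 * p ^ 1) := by
    have := mon 1 0 4 0
    simp only [pow_zero, one_mul, mul_one, Nat.cast_one] at this
    rw [this]; push_cast; ring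
  have h2 : D (D (y ^ 4)) = (12 : ℕ) * (t ^ 0 * y ^ 2 * p ^ 2) +
      (4 : ℕ) * (t ^ 1 * y ^ 4 * p ^ 0) := by
    rw [h1, mon]; push_cast; ring
  have h3 : D (D (D (y ^ 4))) = (24 : ℕ) * (t ^ 0 * y ^ 1 * p ^ 3) +
      (40 : ℕ) * (t ^ 1 * y ^ 3 * p ^ 1) + (4 : ℕ) * (t ^ 1 * y ^ 4 * p ^ 0) := by
    rw [h2]; simp only [map_add, mon]; push_cast; ring
  have h4 : D (D (D (D (y ^ 4)))) = (24 : ℕ) * (t ^ 0 * y ^ 0 * p ^ 4) +
      (192 : ℕ) * (t ^ 1 * y ^ 2 * p ^ 2) + (56 : ℕ) * (t ^ 1 * y ^ 3 * p ^ 1) +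
      (40 : ℕ) * (t ^ 2 * y ^ 4 * p ^ 0) + (4 : ℕ) * (t ^ 1 * y ^ 4 * p ^ 0) := by
    rw [h3]; simp only [map_add, mon]; push_cast; ring
  rw [h4, h3, h2, h1]; simp only [map_add, mon]; push_cast; ring

lemma rec_b (n : ℕ) : ((n : ℝ) + 1) ^ 3 * M 3 (n + 1) =
    2 * (2 * n + 1) * (5 * (n : ℝ) ^ 2 + 5 * n + 2) * M 3 n - 64 * (n : ℝ) ^ 3 * M 3 (n - 1) := by
  have h := congrArg (coeff (n + 1)) (alg T (U 0) (T (U 0)) X rfl T_T T_X)
  rw [← U_three] at h
  have c : ∀ (k m : ℕ) [k.AtLeastTwo] (f : ℝ⟦X⟧),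
      coeff m ((OfNat.ofNat k : ℝ⟦X⟧) * f) = OfNat.ofNat k * coeff m f := by
    intro k m _ f
    rw [← map_ofNat (C (R := ℝ)) k, coeff_C_mul]
  simp only [map_sub, map_add, c, coeff_succ_X_mul, coeff_T] at h
  have f0 := (Nat.cast_ne_zero (R := ℝ)).mpr n.factorial_ne_zero
  cases n with
  | zero =>
    simp [U] at h ⊢
    linarith
  | succ n =>
    simp only [map_add, coeff_succ_X_mul, coeff_T, U, coeff_mk, Nat.factorial_succ] at h
    have f1 := (Nat.cast_ne_zero (R := ℝ)).mpr n.factorial_ne_zero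
    rw [Nat.add_sub_cancel]
    push_cast at h ⊢
    field_simp at h
    linear_combination h

end Mom

theorem mom_rec : MOM := by
  refine ⟨⟨?_, fun n => ?_⟩, fun n => ?_⟩
  · simp [Mom.mom_eq, Mom.M]
  · simp only [Mom.mom_eq]
    exact_mod_cast congrArg (fun x : ℝ => (x : ℂ)) (Mom.rec_b n)
  · rw [Complex.norm_real, Mom.mom_eq, Mom.M]
    have := norm_integral_le_of_norm_le_const (μ := Measure.pi fun _ : Fin 3 => RV6.nu)
      (f := fun x : Fin 3 → ℝ => (‖1 + ∑ i, RV6.ee (x i)‖ ^ 2) ^ n) (C := 16 ^ n)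
      (Eventually.of_forall fun x => by
        rw [Real.norm_of_nonneg (by positivity)]
        have h1 := Mom.norm_le 3 x
        have h2 : ‖1 + ∑ i, RV6.ee (x i)‖ ^ 2 ≤ 16 := by
          have := norm_nonneg (1 + ∑ i, RV6.ee (x i))
          push_cast at h1
          nlinarith
        gcongr)
    simpa using this

end RV5
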