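import Pool.Agent.Lib.RV5.Blue

/-! Block NUM: numerical bounds on the ray `Re τ = -1/8`. -/

open Complex Filter Topology
open scoped Real ComplexConjugate

namespace RV5

namespace Num

lemma tail {c : ℕ → ℂ} (hc : PB c) {M : ℝ} (hM : ∀ n, ‖c (n + 5)‖ ≤ M * (3 / 2) ^ n) {q : ℂ}
    (hq : ‖q‖ ≤ 0.368) :
    ‖∑' n, c n * q ^ n - (c 0 + c 1 * q + c 2 * q ^ 2 + c 3 * q ^ 3 + c 4 * q ^ 4)‖ ≤
      M * (125 / 56) * ‖q‖ ^ 5 := by
  have h1 : ‖q‖ < 1 := by linarith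
  have hs := (hc.summable_norm h1).of_norm
  have e1 := hs.sum_add_tsum_nat_add 5
  have hM0 : 0 ≤ M := by simpa using (norm_nonneg _).trans (hM 0)
  have e2 : ∑' n, c n * q ^ n - (c 0 + c 1 * q + c 2 * q ^ 2 + c 3 * q ^ 3 + c 4 * q ^ 4) =
      ∑' n, c (n + 5) * q ^ (n + 5) := by
    rw [← e1]
    simp only [Finset.sum_range_succ, Finset.sum_range_zero]
    ring
  rw [e2]
  have hg := (hasSum_geometric_of_lt_one (r := 0.552) (by norm_num) (by norm_num)).mul_left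
    (M * ‖q‖ ^ 5)
  refine (tsum_of_norm_bounded hg fun n => ?_).trans (le_of_eq (by norm_num; ring))
  rw [norm_mul, norm_pow, pow_add]
  calc _ ≤ M * (3 / 2) ^ n * (0.368 ^ n * ‖q‖ ^ 5) := by
        gcongr
        exact hM n
    _ = _ := by
        rw [show (0.552 : ℝ) = 3 / 2 * 0.368 by norm_num, mul_pow]; ring

lemma sq_le (n : ℕ) : ((n : ℝ) + 5) ^ 2 ≤ 25 * (3 / 2) ^ n := by
  induction n with
  | zero => norm_num
  | succ n ih =>
    have : (0 : ℝ) ≤ n := by positivity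
    rw [pow_succ (3 / 2 : ℝ)]
    push_cast
    nlinarith

lemma lin_le (n : ℕ) : ((n : ℝ) + 5) ≤ 5 * (3 / 2) ^ n := by
  induction n with
  | zero => norm_num
  | succ n ih =>
    have : (0 : ℝ) ≤ n := by positivity
    rw [pow_succ (3 / 2 : ℝ)]
    push_cast
    nlinarith

lemma s1 : ArithmeticFunction.sigma 1 1 = 1 := by simp
lemma s2 : ArithmeticFunction.sigma 1 2 = 3 := by decide
lemma s3 : ArithmeticFunction.sigma 1 3 = 4 := by decide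
lemma s4 : ArithmeticFunction.sigma 1 4 = 7 := by decide

lemma S_tail {q : ℂ} (hq : ‖q‖ ≤ 0.368) :
    ‖S 1 q - (q + 3 * q ^ 2 + 4 * q ^ 3 + 7 * q ^ 4)‖ ≤ 56 * ‖q‖ ^ 5 := by
  have := tail (pb_S 1) (M := 25) (fun n => by
    rw [Complex.norm_natCast]
    refine (sigma_le 1 (n + 5)).trans ?_
    push_cast
    exact sq_le n) hq
  simp only [s1, s2, s3, s4, ArithmeticFunction.map_zero] at this
  push_cast at this
  rw [zero_add, one_mul] at this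
  refine this.trans ?_
  gcongr
  norm_num

lemma R_tail {q : ℂ} (hq : ‖q‖ ≤ 0.368) :
    ‖R 1 q - (q + 3 / 2 * q ^ 2 + 4 / 3 * q ^ 3 + 7 / 4 * q ^ 4)‖ ≤ 11.2 * ‖q‖ ^ 5 := by
  have := tail (pb_R 1) (M := 5) (fun n => by
    rw [norm_div, Complex.norm_natCast, Complex.norm_natCast, div_le_iff₀ (by positivity)]
    refine (sigma_le 1 (n + 5)).trans ?_
    push_cast
    rw [pow_two]
    gcongr
    exact lin_le n) hq
  simp only [s1, s2, s3, s4, ArithmeticFunction.map_zero] at this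
  push_cast at this
  rw [zero_div, zero_add, div_one, one_mul] at this
  refine this.trans ?_
  gcongr
  norm_num

lemma small {F q a b c : ℂ} {K A B C L : ℝ} (hq : ‖q‖ ≤ 0.14)
    (h : ‖F - (q + a * q ^ 2 + b * q ^ 3 + c * q ^ 4)‖ ≤ K * ‖q‖ ^ 5) (hK : 0 ≤ K)
    (ha : ‖a‖ ≤ A) (hb : ‖b‖ ≤ B) (hc : ‖c‖ ≤ C)
    (hL : A + B * 0.14 + C * 0.14 ^ 2 + K * 0.14 ^ 3 ≤ L) : ‖F - q‖ ≤ L * ‖q‖ ^ 2 := by
  have e : F - q = (F - (q + a * q ^ 2 + b * q ^ 3 + c * q ^ 4)) + a * q ^ 2 + b * q ^ 3 +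
      c * q ^ 4 := by ring
  have hB : 0 ≤ B := (norm_nonneg _).trans hb
  have hC : 0 ≤ C := (norm_nonneg _).trans hc
  have h0 := norm_nonneg q
  rw [e]
  calc _ ≤ K * ‖q‖ ^ 5 + ‖a * q ^ 2‖ + ‖b * q ^ 3‖ + ‖c * q ^ 4‖ := by
        refine norm_add_le_of_le (norm_add_le_of_le (norm_add_le_of_le h le_rfl) le_rfl) le_rfl
    _ = (‖a‖ + ‖b‖ * ‖q‖ + ‖c‖ * ‖q‖ ^ 2 + K * ‖q‖ ^ 3) * ‖q‖ ^ 2 := by
        simp only [norm_mul, norm_pow]; ring
    _ ≤ (A + B * 0.14 + C * 0.14 ^ 2 + K * 0.14 ^ 3) * ‖q‖ ^ 2 := by gcongr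
    _ ≤ _ := by gcongr

lemma S_small {q : ℂ} (hq : ‖q‖ ≤ 0.14) : ‖S 1 q - q‖ ≤ 4 * ‖q‖ ^ 2 :=
  small (A := 3) (B := 4) (C := 7) hq (S_tail (by linarith)) (by norm_num) (by simp) (by simp)
    (by simp) (by norm_num)

lemma R_small {q : ℂ} (hq : ‖q‖ ≤ 0.14) : ‖R 1 q - q‖ ≤ 2 * ‖q‖ ^ 2 :=
  small (A := 3 / 2) (B := 4 / 3) (C := 7 / 4) hq (R_tail (by linarith)) (by norm_num) (by simp)
    (by simp) (by simp) (by norm_num)

/-- the point `r e^{-iπ/4}` -/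
noncomputable def qq (r : ℝ) : ℂ := (r * (√2 / 2) : ℝ) - (r * (√2 / 2) : ℝ) * I

lemma ss : (√2 / 2 : ℝ) ^ 2 = 1 / 2 := by
  rw [div_pow, Real.sq_sqrt (by norm_num)]; norm_num

lemma s_lo : (0.7 : ℝ) ≤ √2 / 2 := by
  have : (1.4 : ℝ) ≤ √2 := Real.le_sqrt_of_sq_le (by norm_num)
  linarith

lemma s_hi : (√2 / 2 : ℝ) ≤ 0.71 := by
  have : √2 ≤ (1.42 : ℝ) := Real.sqrt_le_iff.mpr ⟨by norm_num, by norm_num⟩
  linarith

lemma qq_re (r : ℝ) : (qq r).re = r * (√2 / 2) := by simp [qq]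

lemma qq_im (r : ℝ) : (qq r).im = -(r * (√2 / 2)) := by simp [qq]

lemma qq2_re (r : ℝ) : (qq r ^ 2).re = 0 := by
  rw [pow_two, mul_re, qq_re, qq_im]; ring

lemma qq2_im (r : ℝ) : (qq r ^ 2).im = -r ^ 2 := by
  rw [pow_two, mul_im, qq_re, qq_im]; linear_combination (-2 * r ^ 2) * ss

lemma qq3_im (r : ℝ) : (qq r ^ 3).im = -(r ^ 3 * (√2 / 2)) := by
  rw [pow_succ, mul_im, qq2_re, qq2_im, qq_re]; ring

lemma qq4_im (r : ℝ) : (qq r ^ 4).im = 0 := by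
  rw [show qq r ^ 4 = qq r ^ 2 * qq r ^ 2 by ring, mul_im, qq2_re]; ring

lemma e_ray (v : ℝ) : e (-1 / 8 + v * I) = qq (Real.exp (-(2 * π * v))) := by
  have : 2 * π * I * (-1 / 8 + v * I) = ((-(2 * π * v) : ℝ) : ℂ) + ((-(π / 4) : ℝ) : ℂ) * I := by
    push_cast
    linear_combination (2 * π * v : ℂ) * Complex.I_sq
  rw [e, this, Complex.exp_add, Complex.exp_mul_I, ← Complex.ofReal_exp, ← Complex.ofReal_cos,
    ← Complex.ofReal_sin, Real.cos_neg, Real.sin_neg, Real.cos_pi_div_four, Real.sin_pi_div_four,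
    qq]
  push_cast
  ring

lemma norm_qq {r : ℝ} (h : 0 ≤ r) : ‖qq r‖ = r := by
  rw [← sq_eq_sq₀ (norm_nonneg _) h, Complex.sq_norm, Complex.normSq_apply, qq_re, qq_im]
  linear_combination (2 * r ^ 2) * ss

lemma im_le {x y : ℂ} {b : ℝ} (h : ‖x - y‖ ≤ b) : x.im ≤ y.im + b ∧ y.im - b ≤ x.im := by
  have := abs_le.mp ((Complex.abs_im_le_norm _).trans h)
  rw [sub_im] at this
  constructor <;> linarith [this.1, this.2]

lemma pw {r : ℝ} (h0 : 0 ≤ r) (h : r ≤ 0.368) :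
    r ^ 2 ≤ 0.1355 ∧ r ^ 3 ≤ 0.04987 ∧ r ^ 4 ≤ 0.01836 ∧ r ^ 5 ≤ 0.00676 ∧ r ^ 6 ≤ 0.0025 := by
  refine ⟨?_, ?_, ?_, ?_, ?_⟩ <;>
    exact (pow_le_pow_left₀ h0 h _).trans (by norm_num)

lemma eL_neg {r : ℝ} (h0 : 0 < r) (h : r ≤ 0.368) : (eL (qq r)).im < 0 := by
  have hn := norm_qq h0.le
  obtain ⟨p2, p3, p4, p5, p6⟩ := pw h0.le h
  have a1 := (im_le (S_tail (q := qq r) (by rwa [hn]))).1
  have a2 := (im_le (S_small (q := qq r ^ 2) (by rw [norm_pow, hn]; linarith))).2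
  have a3 := (im_le (S_small (q := qq r ^ 3) (by rw [norm_pow, hn]; linarith))).1
  have a6 := (im_le (S_small (q := qq r ^ 6) (by rw [norm_pow, hn]; linarith))).2
  have a7 := (abs_le.mp (Complex.abs_im_le_norm (qq r ^ 6))).1
  simp only [norm_pow, hn, add_im, mul_im, qq_im, qq2_im, qq3_im, qq4_im, re_ofNat, im_ofNat,
    zero_mul, add_zero, mul_zero] at a1 a2 a3 a6 a7
  simp only [eL, add_im, sub_im, mul_im, re_ofNat, im_ofNat, one_im, zero_mul, add_zero, zero_add]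
  have b1 : 0.7 * r ≤ r * (√2 / 2) := by nlinarith [s_lo]
  have b3 : 0.7 * r ^ 3 ≤ r ^ 3 * (√2 / 2) := by nlinarith [s_lo, pow_pos h0 3]
  have c1 : (r ^ 2) ^ 2 ≤ 0.368 * r ^ 3 := by nlinarith [pow_pos h0 3]
  have c2 : (r ^ 3) ^ 2 ≤ 0.04987 * r ^ 3 := by nlinarith [pow_pos h0 3]
  have c3 : r ^ 6 ≤ 0.04987 * r ^ 3 := by nlinarith [pow_pos h0 3]
  have c4 : (r ^ 6) ^ 2 ≤ 0.0025 * r ^ 6 := by nlinarith [pow_pos h0 6]
  have c5 : r ^ 5 ≤ 0.01836 * r := by nlinarith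
  have c6 : r ^ 5 ≤ 0.04987 * r ^ 2 := by nlinarith [pow_pos h0 2]
  have c7 : 0 < r ^ 3 := pow_pos h0 3
  linarith

lemma l0_est {r : ℝ} (h0 : 0 < r) (h : r ≤ 0.368) :
    |(l0 (qq r)).im + 6 * (r * (√2 / 2) + r ^ 2 / 2 + 7 / 3 * (r ^ 3 * (√2 / 2)))| ≤ 0.73 := by
  have hn := norm_qq h0.le
  obtain ⟨p2, p3, p4, p5, p6⟩ := pw h0.le h
  have a1 := im_le (R_tail (q := qq r) (by rwa [hn]))
  have a2 := im_le (R_small (q := qq r ^ 2) (by rw [norm_pow, hn]; linarith))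
  have a3 := im_le (R_small (q := qq r ^ 3) (by rw [norm_pow, hn]; linarith))
  have a6 := im_le (R_small (q := qq r ^ 6) (by rw [norm_pow, hn]; linarith))
  have a7 := abs_le.mp (Complex.abs_im_le_norm (qq r ^ 6))
  simp only [norm_pow, hn, add_im, mul_im, qq_im, qq2_im, qq3_im, qq4_im, div_ofNat_re,
    div_ofNat_im, re_ofNat, im_ofNat, zero_div, zero_mul, add_zero, mul_zero] at a1 a2 a3 a6 a7
  simp only [l0, add_im, sub_im, mul_im, re_ofNat, im_ofNat, zero_mul, add_zero]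
  have c1 : (r ^ 2) ^ 2 = r ^ 4 := by ring
  have c2 : (r ^ 3) ^ 2 = r ^ 6 := by ring
  have c4 : (r ^ 6) ^ 2 ≤ 0.0025 * r ^ 6 := by nlinarith [pow_pos h0 6]
  rw [abs_le]
  constructor <;> linarith [a1.1, a1.2, a2.1, a2.2, a3.1, a3.2, a6.1, a6.2, a7.1, a7.2]

lemma s15 : (3.87 : ℝ) ≤ √15 ∧ √15 ≤ (3.88 : ℝ) :=
  ⟨Real.le_sqrt_of_sq_le (by norm_num), Real.sqrt_le_iff.mpr ⟨by norm_num, by norm_num⟩⟩

lemma r_hi {v : ℝ} (h : √15 / 24 ≤ v) : Real.exp (-(2 * π * v)) ≤ 0.368 := by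
  have h1 : 1 ≤ 2 * π * v := by nlinarith [s15.1, Real.pi_gt_d2]
  calc _ ≤ Real.exp (-1) := Real.exp_le_exp.mpr (by linarith)
    _ ≤ _ := by linarith [Real.exp_neg_one_lt_d9]

lemma r_lo : 0.3 ≤ Real.exp (-(2 * π * (√15 / 24))) := by
  have h1 : 2 * π * (√15 / 24) ≤ 1.1 := by nlinarith [s15.1, s15.2, Real.pi_lt_d2, Real.pi_pos]
  have h2 := Real.add_one_le_exp (-0.1)
  calc _ ≤ Real.exp (-1) * Real.exp (-0.1) := by
        nlinarith [Real.exp_neg_one_gt_d9, Real.exp_pos (-1)]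
    _ ≤ _ := by rw [← Real.exp_add]; exact Real.exp_le_exp.mpr (by linarith)

lemma ell_im (v : ℝ) : (ell (-1 / 8 + v * I)).im =
    -(π / 4) + (l0 (qq (Real.exp (-(2 * π * v))))).im := by
  rw [ell, e_ray, add_im]
  congr 1
  simp
  ring

lemma der {v : ℝ} (h : 0 < v) : HasDerivAt (fun v : ℝ => (ell (-1 / 8 + v * I)).im)
    (-(2 * π) * (eL (qq (Real.exp (-(2 * π * v))))).im) v := by
  have h1 := hasDerivAt_ell (τ := -1 / 8 + v * I) (by simpa using h)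
  have h2 : HasDerivAt (fun z : ℂ => -1 / 8 + z * I) I v := by
    simpa using ((hasDerivAt_id (v : ℂ)).mul_const I).const_add (-1 / 8)
  have h3 := HasDerivAt.comp (h₂ := ell) (h := fun z : ℂ => -1 / 8 + z * I) (v : ℂ) h1 h2
  have h4 := Complex.imCLM.hasFDerivAt.comp_hasDerivAt v h3.comp_ofReal
  refine h4.congr_deriv ?_
  rw [e_ray]
  simp

lemma tau0_eq : tau0 = -1 / 8 + ((√15 / 24 : ℝ) : ℂ) * I := by
  rw [tau0]; push_cast; ring

end Num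

open _root_.RV5.Num in
theorem num : NUM := by
  have hv0 : (0 : ℝ) < √15 / 24 := by positivity
  have hp := Real.pi_gt_d2
  have hp' := Real.pi_lt_d2
  refine ⟨?_, fun v hv => ⟨?_, ?_⟩⟩
  · rw [tau0_eq, ell_im]
    have h1 := r_lo
    have h2 := r_hi le_rfl
    set r := Real.exp (-(2 * π * (√15 / 24)))
    have h0 : 0 < r := by linarith
    have h3 := abs_le.mp (l0_est h0 h2)
    obtain ⟨p2, p3, -⟩ := pw h0.le h2
    have q2 : 0.09 ≤ r ^ 2 := by nlinarith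
    have q3 : 0.027 ≤ r ^ 3 := by nlinarith
    have b1 : 0.21 ≤ r * (√2 / 2) := by nlinarith [s_lo]
    have b2 : r * (√2 / 2) ≤ 0.27 := by nlinarith [s_lo, s_hi]
    have b3 : 0.0189 ≤ r ^ 3 * (√2 / 2) := by nlinarith [s_lo]
    have b4 : r ^ 3 * (√2 / 2) ≤ 0.04 := by nlinarith [s_lo, s_hi]
    constructor <;> linarith [h3.1, h3.2]
  · rw [tau0_eq]
    have hm : StrictMonoOn (fun v : ℝ => (ell (-1 / 8 + v * I)).im) (Set.Ici (√15 / 24)) := by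
      refine strictMonoOn_of_deriv_pos (convex_Ici _)
        (fun x hx => (der (hv0.trans_le hx)).continuousAt.continuousWithinAt) fun x hx => ?_
      have hx' : √15 / 24 ≤ x := interior_subset hx
      rw [(der (hv0.trans_le hx')).deriv]
      exact mul_pos_of_neg_of_neg (by linarith) (eL_neg (Real.exp_pos _) (r_hi hx'))
    exact hm Set.self_mem_Ici hv.le hv
  · rw [ell_im]
    have h2 := r_hi hv.le
    have h0 := Real.exp_pos (-(2 * π * v))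
    set r := Real.exp (-(2 * π * v))
    have h3 := abs_le.mp (l0_est h0 h2)
    have b1 : 0 ≤ r * (√2 / 2) := by positivity
    have b2 : 0 ≤ r ^ 3 * (√2 / 2) := by positivity
    have b3 : 0 ≤ r ^ 2 := by positivity
    linarith [h3.2]

end RV5
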