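import Pool.Agent.Lib.RV5.Blue

/-! Block ODE1: the third-order equation satisfied by the weight-two form. -/

open Complex Filter Topology

namespace RV5

namespace Ode1

/-- `f` is differentiable at `q` and `q f'(q) = a`. -/
def HD (q : ℂ) (f : ℂ → ℂ) (a : ℂ) : Prop := DifferentiableAt ℂ f q ∧ q * deriv f q = a

variable {q a b : ℂ} {f g p e B C : ℂ → ℂ}

lemma HD.congr (h : HD q f a) (e : a = b) : HD q f b := e ▸ h

lemma HD.const (q c : ℂ) : HD q (fun _ => c) 0 := ⟨differentiableAt_const c, by simp⟩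

lemma HD.add (h : HD q f a) (h' : HD q g b) : HD q (fun x => f x + g x) (a + b) :=
  ⟨h.1.add h'.1, by
    rw [(h.1.hasDerivAt.fun_add h'.1.hasDerivAt).deriv]
    linear_combination h.2 + h'.2⟩

lemma HD.sub (h : HD q f a) (h' : HD q g b) : HD q (fun x => f x - g x) (a - b) :=
  ⟨h.1.sub h'.1, by
    rw [(h.1.hasDerivAt.fun_sub h'.1.hasDerivAt).deriv]
    linear_combination h.2 - h'.2⟩

lemma HD.mul (h : HD q f a) (h' : HD q g b) : HD q (fun x => f x * g x) (a * g q + f q * b) :=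
  ⟨h.1.mul h'.1, by
    rw [(h.1.hasDerivAt.fun_mul h'.1.hasDerivAt).deriv]
    linear_combination g q * h.2 + f q * h'.2⟩

lemma HD.pow (h : HD q f a) (n : ℕ) : HD q (fun x => f x ^ n) (n * f q ^ (n - 1) * a) :=
  ⟨h.1.pow n, by
    rw [(h.1.hasDerivAt.fun_pow n).deriv]
    linear_combination n * f q ^ (n - 1) * h.2⟩

lemma HD.div (h : HD q f a) (h' : HD q g b) (hg : g q ≠ 0) :
    HD q (fun x => f x / g x) ((a * g q - f q * b) / g q ^ 2) :=
  ⟨h.1.div h'.1 hg, by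
    rw [(h.1.hasDerivAt.fun_div h'.1.hasDerivAt hg).deriv, ← h.2, ← h'.2]
    ring⟩

noncomputable def N1 (p e B C : ℂ) : ℂ :=
    (2 / 9) * B * C + (-1 / 18) * B ^ 2 + (-4 / 9) * e * C + (1 / 9) * e * B + (2 / 9) * p * C +
    (-1 / 18) * p * B

noncomputable def N2 (p e B C : ℂ) : ℂ :=
    (4 / 27) * B * C ^ 3 + (-2 / 9) * B ^ 2 * C ^ 2 + (1 / 108) * B ^ 3 * C + (1 / 108) * B ^ 4 +
    (4 / 27) * e * B * C ^ 2 + (-5 / 54) * e * B ^ 2 * C + (1 / 72) * e * B ^ 3 +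
    (4 / 27) * p * C ^ 3 + (-2 / 9) * p * B * C ^ 2 + (1 / 108) * p * B ^ 2 * C +
    (1 / 108) * p * B ^ 3 + (1 / 27) * p * e * B * C + (-1 / 108) * p * e * B ^ 2 +
    (1 / 54) * p ^ 2 * e * C + (-1 / 216) * p ^ 2 * e * B

noncomputable def N3 (p e B C : ℂ) : ℂ :=
    (8 / 27) * B * C ^ 5 + (-14 / 27) * B ^ 2 * C ^ 4 + (5 / 18) * B ^ 3 * C ^ 3 +
    (-17 / 216) * B ^ 4 * C ^ 2 + (1 / 36) * B ^ 5 * C + (-1 / 216) * B ^ 6 +
    (1 / 27) * e * B ^ 2 * C ^ 3 + (-2 / 27) * e * B ^ 3 * C ^ 2 + (19 / 432) * e * B ^ 4 * C +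
    (-1 / 144) * e * B ^ 5 + (8 / 27) * p * C ^ 5 + (-14 / 27) * p * B * C ^ 4 +
    (5 / 18) * p * B ^ 2 * C ^ 3 + (-17 / 216) * p * B ^ 3 * C ^ 2 + (1 / 36) * p * B ^ 4 * C +
    (-1 / 216) * p * B ^ 5 + (2 / 27) * p * e * B * C ^ 3 + (-2 / 27) * p * e * B ^ 2 * C ^ 2 +
    (-1 / 216) * p * e * B ^ 3 * C + (1 / 216) * p * e * B ^ 4 + (1 / 27) * p ^ 2 * e * C ^ 3 +
    (-1 / 27) * p ^ 2 * e * B * C ^ 2 + (-1 / 432) * p ^ 2 * e * B ^ 2 * C +
    (1 / 432) * p ^ 2 * e * B ^ 3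

lemma ode_poly {p e B C : ℂ} (hr : e ^ 2 = B * C) :
    (((4 * C - B) / 3) ^ 2 + 20 * ((B - C) / 12) * ((4 * C - B) / 3) + 64 * ((B - C) / 12) ^ 2) *
      N3 p e B C =
    (-30 * ((B - C) / 12) * ((4 * C - B) / 3) - 192 * ((B - C) / 12) ^ 2) * N2 p e B C * e ^ 2 +
    (-18 * ((B - C) / 12) * ((4 * C - B) / 3) - 192 * ((B - C) / 12) ^ 2) * N1 p e B C * e ^ 4 +
    (-4 * ((B - C) / 12) * ((4 * C - B) / 3) - 64 * ((B - C) / 12) ^ 2) * ((4 * C - B) / 3) *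
      e ^ 5 := by
  unfold N1 N2 N3
  linear_combination (
    (-8 / 27) * B * C ^ 5 + (14 / 27) * B ^ 2 * C ^ 4 + (-5 / 18) * B ^ 3 * C ^ 3 +
    (17 / 216) * B ^ 4 * C ^ 2 + (-1 / 36) * B ^ 5 * C + (1 / 216) * B ^ 6 +
    (-1 / 27) * e * B ^ 2 * C ^ 3 + (2 / 27) * e * B ^ 3 * C ^ 2 + (-19 / 432) * e * B ^ 4 * C +
    (1 / 144) * e * B ^ 5 + (-4 / 27) * e ^ 2 * B * C ^ 3 + (7 / 36) * e ^ 2 * B ^ 3 * C +
    (-5 / 108) * e ^ 2 * B ^ 4 + (8 / 27) * e ^ 3 * C ^ 3 + (-4 / 9) * e ^ 3 * B * C ^ 2 +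
    (1 / 6) * e ^ 3 * B ^ 2 * C + (-1 / 54) * e ^ 3 * B ^ 3 + (-8 / 27) * p * C ^ 5 +
    (14 / 27) * p * B * C ^ 4 + (-5 / 18) * p * B ^ 2 * C ^ 3 + (17 / 216) * p * B ^ 3 * C ^ 2 +
    (-1 / 36) * p * B ^ 4 * C + (1 / 216) * p * B ^ 5 + (-2 / 27) * p * e * B * C ^ 3 +
    (2 / 27) * p * e * B ^ 2 * C ^ 2 + (1 / 216) * p * e * B ^ 3 * C +
    (-1 / 216) * p * e * B ^ 4 + (-4 / 27) * p * e ^ 2 * C ^ 3 +
    (7 / 36) * p * e ^ 2 * B ^ 2 * C + (-5 / 108) * p * e ^ 2 * B ^ 3 +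
    (-1 / 27) * p ^ 2 * e * C ^ 3 + (1 / 27) * p ^ 2 * e * B * C ^ 2 +
    (1 / 432) * p ^ 2 * e * B ^ 2 * C + (-1 / 432) * p ^ 2 * e * B ^ 3) * hr

section Der

variable (hr : e q ^ 2 = B q * C q)
  (hB : HD q B (B q ^ 2 / 6 - 4 / 3 * e q * C q + e q * B q + p q * B q / 6))
  (hC : HD q C (B q * C q / 6 - 2 / 3 * e q * C q + e q * B q / 3 + p q * C q / 6))
  (he : HD q e (-2 / 3 * C q ^ 2 + B q * C q / 6 + B q ^ 2 / 6 + e q * B q / 6 + p q * e q / 6))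
  (hp : HD q p (-5 / 12 * B q ^ 2 + 4 / 3 * e q * C q - e q * B q + p q ^ 2 / 12))

include hB hC in
lemma hd_w : HD q (fun x => (4 * C x - B x) / 3) (N1 (p q) (e q) (B q) (C q)) :=
  ((((HD.const q 4).mul hC).sub hB).div (HD.const q 3) (by norm_num)).congr (by
    unfold N1
    ring)

include hB hC in
lemma hd_v : ∃ a, HD q (fun x => (B x - C x) / 12) a ∧
    (4 * C q - B q) / 3 * a - (B q - C q) / 12 * N1 (p q) (e q) (B q) (C q) =
      e q * ((B q - C q) / 12) * ((4 * C q - B q) / 3) :=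
  ⟨_, (hB.sub hC).div (HD.const q 12) (by norm_num), by
    unfold N1
    ring⟩

include hr hB hC he hp in
lemma hd_w1 (h0 : e q ≠ 0) : HD q (fun x => N1 (p x) (e x) (B x) (C x) / e x)
    (e q * (N2 (p q) (e q) (B q) (C q) / e q ^ 3)) := by
  have h1 := ((((((((HD.const q (2 / 9)).mul hB).mul hC).add
      ((HD.const q (-1 / 18)).mul (hB.pow 2))).add
      (((HD.const q (-4 / 9)).mul he).mul hC)).add
      (((HD.const q (1 / 9)).mul he).mul hB)).add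
      (((HD.const q (2 / 9)).mul hp).mul hC)).add
      (((HD.const q (-1 / 18)).mul hp).mul hB))
  refine (h1.div he h0).congr ?_
  rw [div_eq_iff (pow_ne_zero 2 h0), show ∀ t : ℂ, e q * (t / e q ^ 3) * e q ^ 2 = t from
    fun t => by field_simp]
  unfold N2
  push_cast
  linear_combination (
    (-4 / 27) * B q * C q + (1 / 27) * B q ^ 2 + (4 / 27) * e q * C q + (-1 / 27) * e q * B q +
    (-4 / 27) * p q * C q + (1 / 27) * p q * B q) * hr

include hr hB hC he hp in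
lemma hd_w2 (h0 : e q ≠ 0) : HD q (fun x => N2 (p x) (e x) (B x) (C x) / e x ^ 3)
    (e q * (N3 (p q) (e q) (B q) (C q) / e q ^ 5)) := by
  have h1 := (((((((((((((((((HD.const q (4 / 27)).mul hB).mul (hC.pow 3)).add
      (((HD.const q (-2 / 9)).mul (hB.pow 2)).mul (hC.pow 2))).add
      (((HD.const q (1 / 108)).mul (hB.pow 3)).mul hC)).add
      ((HD.const q (1 / 108)).mul (hB.pow 4))).add
      ((((HD.const q (4 / 27)).mul he).mul hB).mul (hC.pow 2))).add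
      ((((HD.const q (-5 / 54)).mul he).mul (hB.pow 2)).mul hC)).add
      (((HD.const q (1 / 72)).mul he).mul (hB.pow 3))).add
      (((HD.const q (4 / 27)).mul hp).mul (hC.pow 3))).add
      ((((HD.const q (-2 / 9)).mul hp).mul hB).mul (hC.pow 2))).add
      ((((HD.const q (1 / 108)).mul hp).mul (hB.pow 2)).mul hC)).add
      (((HD.const q (1 / 108)).mul hp).mul (hB.pow 3))).add
      (((((HD.const q (1 / 27)).mul hp).mul he).mul hB).mul hC)).add
      ((((HD.const q (-1 / 108)).mul hp).mul he).mul (hB.pow 2))).add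
      ((((HD.const q (1 / 54)).mul (hp.pow 2)).mul he).mul hC)).add
      ((((HD.const q (-1 / 216)).mul (hp.pow 2)).mul he).mul hB))
  refine (h1.div (he.pow 3) (pow_ne_zero 3 h0)).congr ?_
  rw [div_eq_iff (pow_ne_zero 2 (pow_ne_zero 3 h0)),
    show ∀ t : ℂ, e q * (t / e q ^ 5) * (e q ^ 3) ^ 2 = e q ^ 2 * t from
    fun t => by field_simp]
  unfold N3
  push_cast
  linear_combination e q ^ 2 * (
    (2 / 9) * B q ^ 2 * C q ^ 2 + (-11 / 54) * B q ^ 3 * C q + (1 / 27) * B q ^ 4 +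
    (-16 / 81) * e q * C q ^ 3 + (20 / 81) * e q * B q * C q ^ 2 +
    (-7 / 54) * e q * B q ^ 2 * C q + (13 / 648) * e q * B q ^ 3 +
    (2 / 9) * p q * B q * C q ^ 2 + (-11 / 54) * p q * B q ^ 2 * C q + (1 / 27) * p q * B q ^ 3 +
    (-1 / 81) * p q * e q * B q * C q + (1 / 324) * p q * e q * B q ^ 2 +
    (-1 / 162) * p q ^ 2 * e q * C q + (1 / 648) * p q ^ 2 * e q * B q) * hr

end Der

lemma diffAt_N3 (hp : DifferentiableAt ℂ p q) (he : DifferentiableAt ℂ e q)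
    (hB : DifferentiableAt ℂ B q) (hC : DifferentiableAt ℂ C q) :
    DifferentiableAt ℂ (fun x => N3 (p x) (e x) (B x) (C x)) q := by
  unfold N3
  fun_prop

lemma diffAt_Bf (hq : ‖q‖ < 1) : DifferentiableAt ℂ Bf q := by
  have h1 := diffAt_P hq
  have h3 := diffAt_pow (fun _ => diffAt_P) hq three_ne_zero
  unfold Bf
  fun_prop

lemma diffAt_Cf (hq : ‖q‖ < 1) : DifferentiableAt ℂ Cf q := by
  have h2 := diffAt_pow (fun _ => diffAt_P) hq two_ne_zero
  have h6 := diffAt_pow (fun _ => diffAt_P) hq (d := 6) (by norm_num)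
  unfold Cf
  fun_prop

lemma Bf_zero : Bf 0 = 1 := by simp [Bf, P, S_zero]; norm_num

lemma Cf_zero : Cf 0 = 1 := by simp [Cf, P, S_zero]; norm_num

lemma hasDerivAt_S : HasDerivAt (S 1) 1 0 := by
  have hb : PB fun n => (ArithmeticFunction.sigma 1 (n + 1) : ℂ) := ⟨1, 2, fun n => by
    rw [Complex.norm_natCast, one_mul]
    exact_mod_cast sigma_le 1 (n + 1)⟩
  have h1 := (hasDerivAt_id (0 : ℂ)).mul (hb.diffAt (q := 0) (by simp)).hasDerivAt
  have h2 : ∑' n : ℕ, (ArithmeticFunction.sigma 1 (n + 1) : ℂ) * (0 : ℂ) ^ n = 1 := by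
    rw [tsum_eq_single 0 fun n hn => by simp [hn]]
    simp
  rw [h2] at h1
  refine (h1.congr_deriv (by simp)).congr_of_eventuallyEq ?_
  filter_upwards [Metric.ball_mem_nhds (0 : ℂ) one_pos] with x hx
  rw [mem_ball_zero_iff] at hx
  have h3 := (hasSum_nat_add_iff' 1).2 (hasSum_S 1 hx)
  simp only [Finset.range_one, Finset.sum_singleton, ArithmeticFunction.map_zero, Nat.cast_zero,
    zero_mul, sub_zero] at h3
  exact h3.unique (((hb.hasSum hx).mul_left x).congr_fun fun n => by ring)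

lemma hasDerivAt_Sp {d : ℕ} (hd : 2 ≤ d) : HasDerivAt (fun x : ℂ => S 1 (x ^ d)) 0 0 := by
  have h1 : HasDerivAt (S 1) 1 ((0 : ℂ) ^ d) := by
    rw [zero_pow (by omega)]
    exact hasDerivAt_S
  refine (h1.comp 0 (hasDerivAt_pow d 0)).congr_deriv ?_
  rw [zero_pow (by omega)]
  simp

lemma hasDerivAt_v : HasDerivAt (fun x => (Bf x - Cf x) / 12) 1 0 := by
  have h := ((hasDerivAt_S.fun_sub (hasDerivAt_Sp (d := 2) le_rfl)).fun_sub
    ((hasDerivAt_Sp (d := 3) (by norm_num)).const_mul 3)).fun_add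
    ((hasDerivAt_Sp (d := 6) (by norm_num)).const_mul 3)
  refine (h.congr_deriv (by ring)).congr_of_eventuallyEq (Eventually.of_forall fun x => ?_)
  simp only [Bf, Cf, P]
  ring

/-- A solution of `q u' = u` with `u'(0) = 1` is the identity. -/
lemma eq_id {u : ℂ → ℂ} {ε : ℝ} (hε : 0 < ε) (h : ∀ q : ℂ, ‖q‖ < ε → HD q u (u q))
    (h1 : deriv u 0 = 1) {q : ℂ} (hq : ‖q‖ < ε) : u q = q := by
  have hd : DifferentiableOn ℂ u (Metric.ball 0 ε) := fun x hx =>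
    (h x (mem_ball_zero_iff.1 hx)).1.differentiableWithinAt
  have hg := (Complex.differentiableOn_dslope (c := 0) (Metric.ball_mem_nhds 0 hε)).2 hd
  have u0 : u 0 = 0 := by simpa using (h 0 (by simpa using hε)).2.symm
  have hu : u = fun x => x * dslope u 0 x := funext fun x => by
    simpa [u0] using (sub_smul_dslope u 0 x).symm
  have hz : ∀ x ∈ Metric.ball (0 : ℂ) ε, x ≠ 0 → deriv (dslope u 0) x = 0 := fun x hx hx0 => by
    have h2 := (hg.differentiableAt (Metric.isOpen_ball.mem_nhds hx)).hasDerivAt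
    have h3 := ((hasDerivAt_id x).fun_mul h2).deriv
    have h4 := (h x (mem_ball_zero_iff.1 hx)).2
    simp only [id] at h3
    rw [← hu] at h3
    rw [h3] at h4
    have h5 := congrFun hu x
    have h6 : x * (x * deriv (dslope u 0) x) = 0 := by linear_combination h4 + h5
    simpa [hx0] using h6
  have hz0 : deriv (dslope u 0) 0 = 0 := by
    have hc := ((hg.deriv Metric.isOpen_ball).differentiableAt
      (Metric.ball_mem_nhds 0 hε)).continuousAt
    refine tendsto_nhds_unique (hc.tendsto.mono_left (nhdsWithin_le_nhds (s := {0}ᶜ))) ?_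
    refine tendsto_const_nhds.congr' ?_
    filter_upwards [self_mem_nhdsWithin, nhdsWithin_le_nhds (Metric.ball_mem_nhds 0 hε)]
      with x hx0 hx using (hz x hx hx0).symm
  have hc := Metric.isOpen_ball.is_const_of_deriv_eq_zero (convex_ball (0 : ℂ) ε).isPreconnected
    hg (fun x hx => by
      by_cases hx0 : x = 0
      · rw [hx0]; exact hz0
      · exact hz x hx hx0) (mem_ball_zero_iff.2 hq) (Metric.mem_ball_self hε)
  rw [congrFun hu q, hc, dslope_same, h1, mul_one]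

end Ode1

open Ode1 in
theorem ode1_of (hR : RING) : ODE1 := by
  obtain ⟨ε₀, hε₀, hε₁, hR⟩ := hR
  have z1 : ‖(0 : ℂ)‖ < 1 := by simp
  have ev : ∀ᶠ q in 𝓝 (0 : ℂ), ‖q‖ < ε₀ ∧ eL q ≠ 0 ∧ (4 * Cf q - Bf q) / 3 ≠ 0 := by
    refine Eventually.and (Filter.mem_of_superset (Metric.ball_mem_nhds 0 hε₀)
      fun x hx => mem_ball_zero_iff.1 hx) (Eventually.and ?_ ?_)
    · exact (diffAt_eL z1).continuousAt.eventually_ne (by simp [eL_zero])
    · have h1 := (diffAt_Bf z1).continuousAt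
      have h2 := (diffAt_Cf z1).continuousAt
      refine ContinuousAt.eventually_ne (by fun_prop) ?_
      rw [Bf_zero, Cf_zero]
      norm_num
  obtain ⟨ε, hε, hev⟩ := Metric.eventually_nhds_iff.1 ev
  simp only [dist_zero_right] at hev
  have hB : ∀ q : ℂ, ‖q‖ < ε₀ → HD q Bf _ := fun q hq =>
    ⟨diffAt_Bf (hq.trans_le hε₁), (hR q hq).2.1⟩
  have hC : ∀ q : ℂ, ‖q‖ < ε₀ → HD q Cf _ := fun q hq =>
    ⟨diffAt_Cf (hq.trans_le hε₁), (hR q hq).2.2.1⟩
  have he : ∀ q : ℂ, ‖q‖ < ε₀ → HD q eL _ := fun q hq =>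
    ⟨diffAt_eL (hq.trans_le hε₁), (hR q hq).2.2.2.1⟩
  have hp : ∀ q : ℂ, ‖q‖ < ε₀ → HD q P _ := fun q hq =>
    ⟨diffAt_P (hq.trans_le hε₁), (hR q hq).2.2.2.2.1⟩
  have hu : ∀ q : ℂ, ‖q‖ < ε → (Bf q - Cf q) / 12 / ((4 * Cf q - Bf q) / 3) /
      Complex.exp (l0 q) = q := fun q hq => by
    refine eq_id (u := fun q => (Bf q - Cf q) / 12 / ((4 * Cf q - Bf q) / 3) /
      Complex.exp (l0 q)) hε (fun x hx => ?_) ?_ hq
    · obtain ⟨h0, -, hw⟩ := hev hx
      have h1 := h0.trans_le hε₁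
      obtain ⟨a, ha, e⟩ := hd_v (hB x h0) (hC x h0)
      have hE : HD x (fun x => Complex.exp (l0 x)) (Complex.exp (l0 x) * (eL x - 1)) :=
        ⟨(diffAt_l0 h1).cexp, by
          rw [(diffAt_l0 h1).hasDerivAt.cexp.deriv, ← deriv_l0 h1]
          ring⟩
      refine ((ha.div (hd_w (hB x h0) (hC x h0)) hw).div hE (Complex.exp_ne_zero _)).congr ?_
      rw [mul_comm a, e]
      have := Complex.exp_ne_zero (l0 x)
      generalize (4 * Cf x - Bf x) / 3 = w at hw ⊢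
      field_simp
      ring
    · have hw : (4 * Cf 0 - Bf 0) / 3 = 1 := by rw [Bf_zero, Cf_zero]; norm_num
      have h0 : ‖(0 : ℂ)‖ < ε₀ := by simpa using hε₀
      have h1 := (hasDerivAt_v.fun_div (hd_w (hB 0 h0) (hC 0 h0)).1.hasDerivAt
        (by rw [hw]; exact one_ne_zero)).fun_div (diffAt_l0 z1).hasDerivAt.cexp
        (Complex.exp_ne_zero _)
      rw [h1.deriv, hw, l0_zero, Bf_zero, Cf_zero]
      simp
  refine ⟨min ε ε₀, fun x => (4 * Cf x - Bf x) / 3,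
    fun x => N1 (P x) (eL x) (Bf x) (Cf x) / eL x,
    fun x => N2 (P x) (eL x) (Bf x) (Cf x) / eL x ^ 3,
    fun x => N3 (P x) (eL x) (Bf x) (Cf x) / eL x ^ 5, lt_min hε hε₀,
    (min_le_right _ _).trans hε₁, by simp only [Bf_zero, Cf_zero]; norm_num, fun q hq => ?_⟩
  have hq' := hq.trans_le (min_le_left _ _)
  obtain ⟨h0, he0, hw⟩ := hev hq'
  have hr := (hR q h0).1
  have d0 := hd_w (hB q h0) (hC q h0)
  have d1 := hd_w1 hr (hB q h0) (hC q h0) (he q h0) (hp q h0) he0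
  have d2 := hd_w2 hr (hB q h0) (hC q h0) (he q h0) (hp q h0) he0
  refine ⟨d0.1, d1.1, d2.1, (diffAt_N3 (hp q h0).1 (he q h0).1 (hB q h0).1 (hC q h0).1).div
    ((he q h0).1.pow 5) (pow_ne_zero 5 he0), (hR q h0).2.2.2.2.2, ?_, d1.2, d2.2, ?_⟩
  · rw [d0.2, mul_div_cancel₀ _ he0]
  · have hz : zf q = -((Bf q - Cf q) / 12 / ((4 * Cf q - Bf q) / 3)) := by
      rw [zf, ← (div_eq_iff (Complex.exp_ne_zero _)).1 (hu q hq')]
    have h1 := ode_poly (p := P q) hr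
    rw [hz]
    beta_reduce
    generalize (4 * Cf q - Bf q) / 3 = w at hw h1 ⊢
    generalize (Bf q - Cf q) / 12 = v at h1 ⊢
    field_simp
    linear_combination h1

end RV5
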