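import Pool.Agent.Lib.RV5.Blue

/-! Identification of the modular solution with the power series solution. -/

open Complex Filter Topology

namespace RV5.Ode2

/-- power series with coefficients `b` -/
noncomputable def G (b : ℕ → ℂ) (z : ℂ) : ℂ := ∑' n, b n * z ^ n

def PB16 (b : ℕ → ℂ) : Prop := PB fun n => b n / 16 ^ n

lemma term_eq (b : ℕ → ℂ) (z : ℂ) (n : ℕ) : b n / 16 ^ n * (16 * z) ^ n = b n * z ^ n := by
  rw [mul_pow]; field_simp

lemma G_eq (b : ℕ → ℂ) : G b = fun z => ∑' n, b n / 16 ^ n * (16 * z) ^ n := by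
  funext z; simp only [G, term_eq]

lemma norm16 {z : ℂ} (hz : ‖z‖ < 1 / 16) : ‖16 * z‖ < 1 := by
  rw [norm_mul]
  have : ‖(16 : ℂ)‖ = 16 := by simp
  rw [this]; linarith

lemma PB16.hasSum {b : ℕ → ℂ} (h : PB16 b) {z : ℂ} (hz : ‖z‖ < 1 / 16) :
    HasSum (fun n => b n * z ^ n) (G b z) := by
  have := PB.hasSum h (norm16 hz)
  simp only [term_eq] at this
  exact this

lemma PB16.hasDerivAt {b : ℕ → ℂ} (h : PB16 b) {z : ℂ} (hz : ‖z‖ < 1 / 16) :
    HasDerivAt (G b)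
      (deriv (fun q : ℂ => ∑' n, b n / 16 ^ n * q ^ n) (16 * z) * 16) z := by
  rw [G_eq]
  have h1 : HasDerivAt (fun z : ℂ => 16 * z) 16 z := by
    simpa using (hasDerivAt_id z).const_mul (16 : ℂ)
  exact (PB.diffAt h (norm16 hz)).hasDerivAt.comp z h1

lemma PB16.diffAt {b : ℕ → ℂ} (h : PB16 b) {z : ℂ} (hz : ‖z‖ < 1 / 16) :
    DifferentiableAt ℂ (G b) z := (h.hasDerivAt hz).differentiableAt

lemma PB16.hasSum_deriv {b : ℕ → ℂ} (h : PB16 b) {z : ℂ} (hz : ‖z‖ < 1 / 16) :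
    HasSum (fun n : ℕ => (n : ℂ) * b n * z ^ n) (z * deriv (G b) z) := by
  have h1 := PB.hasSum_deriv h (norm16 hz)
  rw [(h.hasDerivAt hz).deriv]
  have e1 : z * (deriv (fun q : ℂ => ∑' n, b n / 16 ^ n * q ^ n) (16 * z) * 16) =
      16 * z * deriv (fun q : ℂ => ∑' n, b n / 16 ^ n * q ^ n) (16 * z) := by ring
  rw [e1]
  refine h1.congr_fun fun n => ?_
  rw [mul_assoc, mul_assoc, term_eq]

lemma pb16_of {b : ℕ → ℂ} {r : ℕ} (h : ∀ n, ‖b n‖ ≤ ((n : ℝ) + 1) ^ r * 16 ^ n) : PB16 b := by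
  refine ⟨1, r, fun n => ?_⟩
  rw [norm_div, norm_pow, one_mul]
  have : ‖(16 : ℂ)‖ = 16 := by simp
  rw [this, div_le_iff₀ (by positivity)]
  exact h n

lemma pb16_mul {a : ℕ → ℂ} (h : ∀ n, ‖a n‖ ≤ 16 ^ n) (i : ℕ) :
    PB16 fun n => (n : ℂ) ^ i * a n := by
  refine pb16_of (r := i) fun n => ?_
  rw [norm_mul, norm_pow, Complex.norm_natCast]
  gcongr
  · linarith
  · exact h n

lemma pb16_div {a : ℕ → ℂ} (h : ∀ n, ‖a n‖ ≤ 16 ^ n) (i : ℕ) (hi : i ≠ 0) :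
    PB16 fun n => a n / (n : ℂ) ^ i := by
  refine pb16_of (r := 0) fun n => ?_
  rw [pow_zero, one_mul, norm_div, norm_pow, Complex.norm_natCast]
  rcases n.eq_zero_or_pos with rfl | hn
  · simp [hi]
  · exact (div_le_self (norm_nonneg _) (one_le_pow₀ (by exact_mod_cast hn))).trans (h n)

lemma G_zero (b : ℕ → ℂ) : G b 0 = b 0 := by
  rw [G, tsum_eq_single 0 fun n hn => by simp [hn]]; simp

/-- the differential equation of the power series -/
lemma ode_G {a : ℕ → ℂ} (hr : Rec a) (h : ∀ n, ‖a n‖ ≤ 16 ^ n) {z : ℂ} (hz : ‖z‖ < 1 / 16) :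
    (1 - 20 * z + 64 * z ^ 2) * G (fun n => (n : ℂ) ^ 3 * a n) z =
      (30 * z - 192 * z ^ 2) * G (fun n => (n : ℂ) ^ 2 * a n) z +
      (18 * z - 192 * z ^ 2) * G (fun n => (n : ℂ) ^ 1 * a n) z +
      (4 * z - 64 * z ^ 2) * G (fun n => (n : ℂ) ^ 0 * a n) z := by
  have h0 := (pb16_mul h 0).hasSum hz
  have h1 := (pb16_mul h 1).hasSum hz
  have h2 := (pb16_mul h 2).hasSum hz
  have h3 := (pb16_mul h 3).hasSum hz
  set g0 := G (fun n => (n : ℂ) ^ 0 * a n) z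
  set g1 := G (fun n => (n : ℂ) ^ 1 * a n) z
  set g2 := G (fun n => (n : ℂ) ^ 2 * a n) z
  set g3 := G (fun n => (n : ℂ) ^ 3 * a n) z
  have s1 : HasSum (fun n : ℕ => ((n + 1 : ℕ) : ℂ) ^ 3 * a (n + 1) * z ^ (n + 1)) g3 := by
    have := (hasSum_nat_add_iff' 1).mpr h3
    simpa using this
  have s2 : HasSum (fun n : ℕ => 2 * (2 * n + 1) * (5 * (n : ℂ) ^ 2 + 5 * n + 2) * a n * z ^ (n + 1))
      (z * (20 * g3 + 30 * g2 + 18 * g1 + 4 * g0)) := by
    refine ((((h3.mul_left 20).add (h2.mul_left 30)).add (h1.mul_left 18)).add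
      (h0.mul_left 4)).mul_left z |>.congr_fun fun n => ?_
    ring
  have s3 : HasSum (fun n : ℕ => 64 * (n : ℂ) ^ 3 * a (n - 1) * z ^ (n + 1))
      (64 * z ^ 2 * (g3 + 3 * g2 + 3 * g1 + g0)) := by
    have t : HasSum (fun m : ℕ => 64 * ((m + 1 : ℕ) : ℂ) ^ 3 * a (m + 1 - 1) * z ^ (m + 1 + 1))
        (64 * z ^ 2 * (g3 + 3 * g2 + 3 * g1 + g0)) := by
      refine (((h3.add (h2.mul_left 3)).add (h1.mul_left 3)).add h0).mul_left
        (64 * z ^ 2) |>.congr_fun fun n => ?_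
      rw [Nat.add_sub_cancel]; push_cast; ring
    have := (hasSum_nat_add_iff
      (f := fun n : ℕ => 64 * (n : ℂ) ^ 3 * a (n - 1) * z ^ (n + 1)) 1).mp t
    simpa using this
  have s4 : g3 = z * (20 * g3 + 30 * g2 + 18 * g1 + 4 * g0) -
      64 * z ^ 2 * (g3 + 3 * g2 + 3 * g1 + g0) := by
    refine s1.unique ((s2.sub s3).congr_fun fun n => ?_)
    have := hr.2 n
    push_cast
    linear_combination z ^ (n + 1) * this
  linear_combination s4

lemma ordD {f : ℂ → ℂ} (hf : AnalyticAt ℂ f 0) (h0 : f 0 = 0) :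
    analyticOrderAt (fun q => q * deriv f q) 0 = analyticOrderAt f 0 := by
  have h1 := analyticOrderAt_mul (f := id) (g := deriv f) (z₀ := (0 : ℂ)) analyticAt_id hf.deriv
  have h2 := hf.analyticOrderAt_deriv_add_one
  rw [analyticOrderAt_id] at h1
  simp only [h0, sub_zero] at h2
  rw [show (fun q => q * deriv f q) = id * deriv f from rfl, h1, add_comm, h2]

lemma an_eL : AnalyticAt ℂ eL 0 :=
  Complex.analyticAt_iff_eventually_differentiableAt.mpr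
    (Filter.eventually_of_mem (Metric.ball_mem_nhds 0 one_pos) fun _ hq =>
      diffAt_eL (mem_ball_zero_iff.mp hq))

lemma an_zf : AnalyticAt ℂ zf 0 :=
  Complex.analyticAt_iff_eventually_differentiableAt.mpr
    (Filter.eventually_of_mem (Metric.ball_mem_nhds 0 one_pos) fun _ hq =>
      diffAt_zf (mem_ball_zero_iff.mp hq))

lemma ord_step {f g : ℂ → ℂ} (hf : AnalyticAt ℂ f 0) (hg : AnalyticAt ℂ g 0) (h0 : f 0 = 0)
    (h : ∀ᶠ q in 𝓝 (0 : ℂ), q * deriv f q = eL q * g q) :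
    analyticOrderAt g 0 = analyticOrderAt f 0 ∧ g 0 = 0 := by
  constructor
  · rw [← ordD hf h0, analyticOrderAt_congr (g := eL * g) h, analyticOrderAt_mul an_eL hg,
      an_eL.analyticOrderAt_eq_zero.mpr (by rw [eL_zero]; exact one_ne_zero), zero_add]
  · have := h.self_of_nhds
    rw [zero_mul, eL_zero, one_mul] at this
    exact this.symm

lemma ord_ge {c g : ℂ → ℂ} (hc : AnalyticAt ℂ c 0) (hg : AnalyticAt ℂ g 0) (h0 : c 0 = 0) :
    analyticOrderAt g 0 + 1 ≤ analyticOrderAt (c * g) 0 := by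
  rw [analyticOrderAt_mul hc hg, add_comm]
  gcongr
  exact Order.one_le_iff_ne_zero.mpr (hc.analyticOrderAt_ne_zero.mpr h0)

/-- uniqueness for the homogeneous system -/
lemma uniq {u0 u1 u2 u3 : ℂ → ℂ} (a0 : AnalyticAt ℂ u0 0) (a1 : AnalyticAt ℂ u1 0)
    (a2 : AnalyticAt ℂ u2 0) (a3 : AnalyticAt ℂ u3 0) (h0 : u0 0 = 0)
    (d0 : ∀ᶠ q in 𝓝 (0 : ℂ), q * deriv u0 q = eL q * u1 q)
    (d1 : ∀ᶠ q in 𝓝 (0 : ℂ), q * deriv u1 q = eL q * u2 q)
    (d2 : ∀ᶠ q in 𝓝 (0 : ℂ), q * deriv u2 q = eL q * u3 q)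
    (ode : ∀ᶠ q in 𝓝 (0 : ℂ),
      (1 - 20 * zf q + 64 * zf q ^ 2) * u3 q = (30 * zf q - 192 * zf q ^ 2) * u2 q +
        (18 * zf q - 192 * zf q ^ 2) * u1 q + (4 * zf q - 64 * zf q ^ 2) * u0 q) :
    ∀ᶠ q in 𝓝 (0 : ℂ), u0 q = 0 := by
  obtain ⟨o1, h1⟩ := ord_step a0 a1 h0 d0
  obtain ⟨o2, h2⟩ := ord_step a1 a2 h1 d1
  obtain ⟨o3, -⟩ := ord_step a2 a3 h2 d2
  have hz := an_zf
  have c3 : AnalyticAt ℂ (fun q => 1 - 20 * zf q + 64 * zf q ^ 2) 0 := by fun_prop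
  have c2 : AnalyticAt ℂ (fun q => 30 * zf q - 192 * zf q ^ 2) 0 := by fun_prop
  have c1 : AnalyticAt ℂ (fun q => 18 * zf q - 192 * zf q ^ 2) 0 := by fun_prop
  have c0 : AnalyticAt ℂ (fun q => 4 * zf q - 64 * zf q ^ 2) 0 := by fun_prop
  have e3 : analyticOrderAt ((fun q => 1 - 20 * zf q + 64 * zf q ^ 2) * u3) 0 =
      analyticOrderAt u0 0 := by
    rw [analyticOrderAt_mul c3 a3, c3.analyticOrderAt_eq_zero.mpr (by simp [zf_zero]), zero_add,
      o3, o2, o1]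
  have e2 := ord_ge c2 a2 (by simp [zf_zero])
  have e1 := ord_ge c1 a1 (by simp [zf_zero])
  have e0 := ord_ge c0 a0 (by simp [zf_zero])
  rw [o2, o1] at e2
  rw [o1] at e1
  have e4 : analyticOrderAt u0 0 + 1 ≤ analyticOrderAt u0 0 := by
    have ode' : (fun q => 1 - 20 * zf q + 64 * zf q ^ 2) * u3 =ᶠ[𝓝 0]
        (fun q => 30 * zf q - 192 * zf q ^ 2) * u2 + (fun q => 18 * zf q - 192 * zf q ^ 2) * u1 +
          (fun q => 4 * zf q - 64 * zf q ^ 2) * u0 := ode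
    conv_rhs => rw [← e3]
    rw [analyticOrderAt_congr ode']
    exact (le_min ((le_min e2 e1).trans le_analyticOrderAt_add) e0).trans le_analyticOrderAt_add
  rw [← analyticOrderAt_eq_top]
  by_contra hne
  exact absurd e4 (not_le.mpr (ENat.lt_add_one_iff hne |>.mpr le_rfl))

lemma const_zero {f : ℂ → ℂ} (hf : AnalyticAt ℂ f 0) (h0 : f 0 = 0)
    (h : ∀ᶠ q in 𝓝 (0 : ℂ), q * deriv f q = 0) : ∀ᶠ q in 𝓝 (0 : ℂ), f q = 0 := by
  rw [← analyticOrderAt_eq_top, ← ordD hf h0, analyticOrderAt_eq_top]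
  exact h

lemma small : ∀ᶠ q in 𝓝 (0 : ℂ), ‖q‖ < 1 ∧ ‖zf q‖ < 1 / 16 := by
  have h1 : ∀ᶠ q in 𝓝 (0 : ℂ), ‖q‖ < 1 :=
    Filter.eventually_of_mem (Metric.ball_mem_nhds 0 one_pos) fun _ hq => mem_ball_zero_iff.mp hq
  have h2 : Tendsto (fun q => ‖zf q‖) (𝓝 0) (𝓝 ‖zf 0‖) := an_zf.continuousAt.norm
  rw [zf_zero, norm_zero] at h2
  exact h1.and (h2.eventually (gt_mem_nhds (by norm_num)))

/-- the series composed with the Hauptmodul -/
noncomputable def W (b : ℕ → ℂ) (q : ℂ) : ℂ := G b (zf q)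

lemma W_diff {b : ℕ → ℂ} (h : PB16 b) {q : ℂ} (hq : ‖q‖ < 1 ∧ ‖zf q‖ < 1 / 16) :
    DifferentiableAt ℂ (W b) q := (h.diffAt hq.2).comp q (diffAt_zf hq.1)

lemma W_sum {b : ℕ → ℂ} (h : PB16 b) {q : ℂ} (hq : ‖q‖ < 1 ∧ ‖zf q‖ < 1 / 16) {s : ℂ}
    (hs : HasSum (fun n : ℕ => (n : ℂ) * b n * zf q ^ n) s) : q * deriv (W b) q = eL q * s := by
  have h1 : HasDerivAt (W b) _ q :=
    (h.diffAt hq.2).hasDerivAt.comp q (diffAt_zf hq.1).hasDerivAt
  rw [h1.deriv, hs.unique (h.hasSum_deriv hq.2)]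
  linear_combination deriv (G b) (zf q) * deriv_zf hq.1

lemma W_an {b : ℕ → ℂ} (h : PB16 b) : AnalyticAt ℂ (W b) 0 :=
  Complex.analyticAt_iff_eventually_differentiableAt.mpr (small.mono fun _ hq => W_diff h hq)

lemma W_zero (b : ℕ → ℂ) : W b 0 = b 0 := by rw [W, zf_zero, G_zero]

lemma W_step {a : ℕ → ℂ} (h : ∀ n, ‖a n‖ ≤ 16 ^ n) (i : ℕ) {q : ℂ}
    (hq : ‖q‖ < 1 ∧ ‖zf q‖ < 1 / 16) :
    q * deriv (W fun n => (n : ℂ) ^ i * a n) q = eL q * W (fun n => (n : ℂ) ^ (i + 1) * a n) q := by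
  refine W_sum (pb16_mul h i) hq (((pb16_mul h (i + 1)).hasSum hq.2).congr_fun fun n => ?_)
  ring

lemma D_sub {f g : ℂ → ℂ} {q : ℂ} (hf : DifferentiableAt ℂ f q) (hg : DifferentiableAt ℂ g q) :
    q * deriv (f - g) q = q * deriv f q - q * deriv g q := by
  rw [deriv_sub hf hg]; ring

end RV5.Ode2

namespace RV5

open Ode2

theorem ode2_of : ODE1 → ODE2 := by
  rintro ⟨ε, w, w1, w2, w3, hε, -, hw0, hw⟩ Ψ a hΨ hr ha
  have hb : ∀ᶠ q in 𝓝 (0 : ℂ), ‖q‖ < ε :=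
    Filter.eventually_of_mem (Metric.ball_mem_nhds 0 hε) fun _ hq => mem_ball_zero_iff.mp hq
  have hs := hb.and small
  have aw : AnalyticAt ℂ w 0 :=
    Complex.analyticAt_iff_eventually_differentiableAt.mpr (hb.mono fun q hq => (hw q hq).1)
  have aw1 : AnalyticAt ℂ w1 0 :=
    Complex.analyticAt_iff_eventually_differentiableAt.mpr (hb.mono fun q hq => (hw q hq).2.1)
  have aw2 : AnalyticAt ℂ w2 0 :=
    Complex.analyticAt_iff_eventually_differentiableAt.mpr (hb.mono fun q hq => (hw q hq).2.2.1)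
  have aw3 : AnalyticAt ℂ w3 0 :=
    Complex.analyticAt_iff_eventually_differentiableAt.mpr
      (hb.mono fun q hq => (hw q hq).2.2.2.1)
  have u0 : ∀ᶠ q in 𝓝 (0 : ℂ), (w - W fun n => (n : ℂ) ^ 0 * a n) q = 0 := by
    refine uniq (u1 := w1 - W fun n => (n : ℂ) ^ 1 * a n) (u2 := w2 - W fun n => (n : ℂ) ^ 2 * a n)
      (u3 := w3 - W fun n => (n : ℂ) ^ 3 * a n) (aw.sub (W_an (pb16_mul ha 0)))
      (aw1.sub (W_an (pb16_mul ha 1))) (aw2.sub (W_an (pb16_mul ha 2)))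
      (aw3.sub (W_an (pb16_mul ha 3))) ?_ ?_ ?_ ?_ ?_
    · rw [Pi.sub_apply, W_zero, hw0, hr.1]; simp
    · refine hs.mono fun q hq => ?_
      rw [D_sub (hw q hq.1).1 (W_diff (pb16_mul ha 0) hq.2), W_step ha 0 hq.2,
        (hw q hq.1).2.2.2.2.2.1, Pi.sub_apply]
      ring
    · refine hs.mono fun q hq => ?_
      rw [D_sub (hw q hq.1).2.1 (W_diff (pb16_mul ha 1) hq.2), W_step ha 1 hq.2,
        (hw q hq.1).2.2.2.2.2.2.1, Pi.sub_apply]
      ring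
    · refine hs.mono fun q hq => ?_
      rw [D_sub (hw q hq.1).2.2.1 (W_diff (pb16_mul ha 2) hq.2), W_step ha 2 hq.2,
        (hw q hq.1).2.2.2.2.2.2.2.1, Pi.sub_apply]
      ring
    · refine hs.mono fun q hq => ?_
      have e1 := (hw q hq.1).2.2.2.2.2.2.2.2
      have e2 := ode_G hr ha hq.2.2
      simp only [Pi.sub_apply, W]
      linear_combination e1 - e2
  have aP : AnalyticAt ℂ Psi1 0 :=
    Complex.analyticAt_iff_eventually_differentiableAt.mpr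
      (small.mono fun _ hq => diffAt_Psi1 hq.1)
  have p1 := pb16_div ha 1 one_ne_zero
  have p2 := pb16_div ha 2 two_ne_zero
  have v1 : ∀ᶠ q in 𝓝 (0 : ℂ), (Psi1 - W fun n => a n / (n : ℂ) ^ 1) q = 0 := by
    refine const_zero (aP.sub (W_an p1)) ?_ ?_
    · rw [Pi.sub_apply, W_zero, Psi1_zero]; simp
    · refine (hs.and u0).mono fun q hq => ?_
      obtain ⟨⟨hq1, hq2⟩, hq3⟩ := hq
      have s0 : HasSum (fun n : ℕ => (n : ℂ) * (a n / (n : ℂ) ^ 1) * zf q ^ n)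
          (W (fun n => (n : ℂ) ^ 0 * a n) q - 1) := by
        refine (((pb16_mul ha 0).hasSum hq2.2).sub (hasSum_ite_eq 0 (1 : ℂ))).congr_fun fun n => ?_
        rcases n.eq_zero_or_pos with rfl | hn
        · simp [hr.1]
        · have : (n : ℂ) ≠ 0 := by exact_mod_cast hn.ne'
          rw [if_neg hn.ne']
          field_simp
          ring
      rw [D_sub (diffAt_Psi1 hq2.1) (W_diff p1 hq2), W_sum p1 hq2 s0, deriv_Psi1 hq2.1,
        (hw q hq1).2.2.2.2.1]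
      rw [Pi.sub_apply] at hq3
      linear_combination eL q * hq3
  have aΨ : AnalyticAt ℂ Ψ 0 := hΨ.1.analyticAt (Metric.ball_mem_nhds 0 one_pos)
  have v2 : ∀ᶠ q in 𝓝 (0 : ℂ), (Ψ - W fun n => a n / (n : ℂ) ^ 2) q = 0 := by
    refine const_zero (aΨ.sub (W_an p2)) ?_ ?_
    · rw [Pi.sub_apply, W_zero, hΨ.2.1]; simp
    · refine (small.and v1).mono fun q hq => ?_
      obtain ⟨hq2, hq3⟩ := hq
      have s0 : HasSum (fun n : ℕ => (n : ℂ) * (a n / (n : ℂ) ^ 2) * zf q ^ n)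
          (W (fun n => a n / (n : ℂ) ^ 1) q) := by
        refine (p1.hasSum hq2.2).congr_fun fun n => ?_
        rcases n.eq_zero_or_pos with rfl | hn
        · simp
        · have : (n : ℂ) ≠ 0 := by exact_mod_cast hn.ne'
          field_simp
      have dΨ : DifferentiableAt ℂ Ψ q :=
        hΨ.1.differentiableAt (Metric.isOpen_ball.mem_nhds (mem_ball_zero_iff.mpr hq2.1))
      rw [D_sub dΨ (W_diff p2 hq2), W_sum p2 hq2 s0, hΨ.2.2.1 q hq2.1]
      rw [Pi.sub_apply] at hq3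
      linear_combination eL q * hq3
  refine (small.and v2).mono fun q hq => ?_
  have := hq.2
  rw [Pi.sub_apply, sub_eq_zero] at this
  rw [this]
  exact p2.hasSum hq.1.2

end RV5
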