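import Pool.Agent.Lib.RV5.Blue

/-! Block RAM: Ramanujan's differential equation for `P` and two level 2, 3 identities. -/

open Complex MeasureTheory Filter Topology
open scoped Real ComplexConjugate

namespace RV5

namespace Ram

variable {y : ℝ}

lemma S_eq (k : ℕ) (hy : 0 < y) :
    S k (RV6.qc y) = (RV6.DS (fun _ => 1) (fun m => ((m : ℕ) : ℝ) ^ k) y : ℝ) := by
  have h := hasSum_S k (RV6.norm_qc_lt hy)
  have h3 := (hasSum_pnat_iff (f := fun n : ℕ => (ArithmeticFunction.sigma k n : ℂ) *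
    RV6.qc y ^ n)).mp (summable_pnat_iff_summable_nat.mpr h.summable).hasSum
  rw [RV6.sigma_DS k hy] at h3
  simpa using h.unique h3

lemma S1_eq (hy : 0 < y) : S 1 (RV6.qc y) = (RV6.S1 y : ℝ) := by
  rw [S_eq 1 hy, RV6.S1]; simp only [pow_one]

lemma S3_eq (hy : 0 < y) : S 3 (RV6.qc y) = (RV6.S3 y : ℝ) := S_eq 3 hy

lemma hasDerivAt_qc (y : ℝ) : HasDerivAt RV6.qc (-π * RV6.qc y) y := by
  rw [funext RV6.qc_eq]
  have h : HasDerivAt (fun y : ℝ => Real.exp (-(π * y))) (Real.exp (-(π * y)) * -(π * 1)) y :=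
    (((hasDerivAt_id y).const_mul π).neg).exp
  refine h.ofReal_comp.congr_deriv ?_
  push_cast; ring

lemma SD_eq (hy : 0 < y) : RV6.qc y * deriv (S 1) (RV6.qc y) = (RV6.SD y : ℝ) := by
  have h1 : HasDerivAt (fun y => S 1 (RV6.qc y)) (deriv (S 1) (RV6.qc y) * (-π * RV6.qc y)) y :=
    (diffAt_S 1 (RV6.norm_qc_lt hy)).hasDerivAt.comp y (hasDerivAt_qc y)
  have h2 := (RV6.hasDerivAt_DS (RV6.PB.const 1) RV6.PB.id hy).ofReal_comp
  have h3 := h1.unique (h2.congr_of_eventuallyEq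
    ((lt_mem_nhds hy).mono fun z hz => S1_eq hz))
  simp only [mul_one, ← pow_two] at h3
  have hp : (π : ℂ) ≠ 0 := by exact_mod_cast Real.pi_ne_zero
  rw [RV6.SD]
  push_cast at h3 ⊢
  apply mul_left_cancel₀ (neg_ne_zero.mpr hp)
  rw [← h3]; ring

lemma ident {F G : ℂ → ℂ} (hF : ∀ q, ‖q‖ < 1 → DifferentiableAt ℂ F q)
    (hG : ∀ q, ‖q‖ < 1 → DifferentiableAt ℂ G q)
    (h : ∀ y, 0 < y → F (RV6.qc y) = G (RV6.qc y)) {q : ℂ} (hq : ‖q‖ < 1) : F q = G q := by
  have d1 : DifferentiableOn ℂ F (Metric.ball 0 1) := fun z hz =>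
    (hF z (mem_ball_zero_iff.mp hz)).differentiableWithinAt
  have d2 : DifferentiableOn ℂ G (Metric.ball 0 1) := fun z hz =>
    (hG z (mem_ball_zero_iff.mp hz)).differentiableWithinAt
  have ht : Tendsto RV6.qc atTop (𝓝[≠] 0) := by
    refine tendsto_nhdsWithin_iff.mpr ⟨?_, .of_forall fun y => RV6.qc_ne y⟩
    rw [funext RV6.qc_eq]
    exact (Complex.continuous_ofReal.tendsto' 0 0 rfl).comp RV6.tendsto_exp_neg_pi
  exact (d1.analyticOnNhd Metric.isOpen_ball).eqOn_of_preconnected_of_frequently_eq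
    (d2.analyticOnNhd Metric.isOpen_ball) (convex_ball 0 1).isPreconnected
    (Metric.mem_ball_self one_pos)
    (ht.frequently ((eventually_gt_atTop 0).mono h).frequently) (mem_ball_zero_iff.mpr hq)

lemma deriv_P {q : ℂ} (hq : ‖q‖ < 1) : deriv P q = -24 * deriv (S 1) q := by
  have : HasDerivAt P _ q := ((diffAt_S 1 hq).hasDerivAt.const_mul 24).const_sub 1
  rw [this.deriv]; ring

lemma diffAt_deriv_P {q : ℂ} (hq : ‖q‖ < 1) : DifferentiableAt ℂ (deriv P) q := by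
  have d1 : DifferentiableOn ℂ P (Metric.ball 0 1) := fun z hz =>
    (diffAt_P (mem_ball_zero_iff.mp hz)).differentiableWithinAt
  exact (d1.deriv Metric.isOpen_ball).differentiableAt
    (Metric.isOpen_ball.mem_nhds (mem_ball_zero_iff.mpr hq))

lemma diffAt_Pp {q : ℂ} (hq : ‖q‖ < 1) {d : ℕ} (hd : d ≠ 0) :
    DifferentiableAt ℂ (fun q => P (q ^ d)) q := diffAt_pow (fun _ => diffAt_P) hq hd

lemma diffAt_Qp {q : ℂ} (hq : ‖q‖ < 1) {d : ℕ} (hd : d ≠ 0) :
    DifferentiableAt ℂ (fun q => Q (q ^ d)) q := diffAt_pow (fun _ => diffAt_Q) hq hd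

end Ram

open Ram in
theorem ram : RAM := by
  intro q hq
  refine ⟨?_, ?_, ?_⟩
  · refine ident (F := fun q => q * deriv P q) (G := fun q => (P q ^ 2 - Q q) / 12)
      (fun q hq => differentiableAt_id.mul (diffAt_deriv_P hq))
      (fun q hq => (((diffAt_P hq).pow 2).sub (diffAt_Q hq)).div_const _) (fun y hy => ?_) hq
    have h := congrArg (fun x : ℝ => (x : ℂ)) (RV6.conv11 hy)
    have h2 := SD_eq hy
    simp only [deriv_P (RV6.norm_qc_lt hy), P, Q, S1_eq hy, S3_eq hy]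
    push_cast at h
    linear_combination (-24) * h2 - 48 * h
  · refine ident (F := fun q => (2 * P (q ^ 2) - P q) ^ 2) (G := fun q => (Q q + 4 * Q (q ^ 2)) / 5)
      (fun q hq => (((diffAt_Pp hq two_ne_zero).const_mul _).sub (diffAt_P hq)).pow 2)
      (fun q hq => ((diffAt_Q hq).add ((diffAt_Qp hq two_ne_zero).const_mul _)).div_const _)
      (fun y hy => ?_) hq
    have hy2 : 0 < 2 * y := by linarith
    have h1 := congrArg (fun x : ℝ => (x : ℂ)) (RV6.conv11 hy)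
    have h2 := congrArg (fun x : ℝ => (x : ℂ)) (RV6.conv11 hy2)
    have h3 := congrArg (fun x : ℝ => (x : ℂ)) (RV6.conv12 hy)
    have e := RV6.qc_mul 2 y
    rw [Nat.cast_ofNat] at e
    simp only [← e, P, Q, S1_eq hy, S3_eq hy, S1_eq hy2, S3_eq hy2]
    push_cast at h1 h2 h3
    linear_combination 576 * h1 + 2304 * h2 - 2304 * h3
  · refine ident (F := fun q => (3 * P (q ^ 3) - P q) ^ 2)
      (G := fun q => 2 * (Q q + 9 * Q (q ^ 3)) / 5)
      (fun q hq => (((diffAt_Pp hq three_ne_zero).const_mul _).sub (diffAt_P hq)).pow 2)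
      (fun q hq => (((diffAt_Q hq).add
        ((diffAt_Qp hq three_ne_zero).const_mul _)).const_mul _).div_const _)
      (fun y hy => ?_) hq
    have hy3 : 0 < 3 * y := by linarith
    have h1 := congrArg (fun x : ℝ => (x : ℂ)) (RV6.conv11 hy)
    have h2 := congrArg (fun x : ℝ => (x : ℂ)) (RV6.conv11 hy3)
    have h3 := congrArg (fun x : ℝ => (x : ℂ)) (RV6.conv13 hy)
    have e := RV6.qc_mul 3 y
    rw [Nat.cast_ofNat] at e
    simp only [← e, P, Q, S1_eq hy, S3_eq hy, S1_eq hy3, S3_eq hy3]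
    push_cast at h1 h2 h3
    linear_combination 576 * h1 + 5184 * h2 - 3456 * h3

end RV5
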