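import Pool.Agent.Lib.RV5.Blue

/-! The reflection symmetry at the CM point kills the `om` part of the double sum. -/

open Complex
open scoped Real ComplexConjugate

namespace RV5

lemma ref_im_tau0 : 0 < tau0.im := by
  have : 0 < √15 := Real.sqrt_pos.2 (by norm_num)
  simp only [tau0]
  have h : ((-3 + I * ((√15 : ℝ) : ℂ)) / 24).im = √15 / 24 := by
    simp
  rw [h]
  positivity

/-- the reflection on indices -/
def refRho : ℤ × ℤ ≃ ℤ × ℤ :=
  Function.Involutive.toPerm (fun p => (p.1 - p.2, -p.2)) (fun p => by simp)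

lemma refRho_apply (p : ℤ × ℤ) : refRho p = (p.1 - p.2, -p.2) := rfl

lemma ref_sq : ((√15 : ℝ) : ℂ) * ((√15 : ℝ) : ℂ) = 15 := by
  rw [← Complex.ofReal_mul, Real.mul_self_sqrt (by norm_num)]
  norm_num

lemma ref_conj_tau0 : conj tau0 = (-3 - I * (√15 : ℝ)) / 24 := by
  simp only [tau0, map_div₀, map_add, map_neg, map_mul, conj_I, conj_ofReal, map_ofNat]
  ring

lemma ref_k_mul : (-6 * tau0 - 1) * conj (-6 * tau0 - 1) = 1 := by
  simp only [map_sub, map_mul, map_neg, map_ofNat, map_one, ref_conj_tau0]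
  rw [tau0]
  linear_combination (-(1 : ℂ) / 16 * ((√15 : ℝ) : ℂ) * ((√15 : ℝ) : ℂ)) * I_mul_I +
    (1 : ℂ) / 16 * ref_sq

lemma ref_k_s : (-6 * tau0 - 1) * (6 * conj tau0) = 6 * tau0 := by
  rw [ref_conj_tau0, tau0]
  linear_combination ((1 : ℂ) / 16 * ((√15 : ℝ) : ℂ) * ((√15 : ℝ) : ℂ)) * I_mul_I -
    (1 : ℂ) / 16 * ref_sq

lemma ref_pt (p : ℤ × ℤ) : pt tau0 (refRho p) = (-6 * tau0 - 1) * conj (pt tau0 p) := by
  simp only [refRho_apply, pt, map_add, map_mul, map_ofNat, map_intCast]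
  push_cast
  linear_combination (-(p.1 : ℂ)) * ref_k_s

lemma ref_om {k : ℂ} (hk : k * conj k = 1) (a b : ℂ) :
    om (k * conj a) (k * conj b) = conj (om a b) := by
  have hk0 : k ≠ 0 := left_ne_zero_of_mul_eq_one hk
  have hc : conj k = k⁻¹ := eq_inv_of_mul_eq_one_right hk
  have e1 : -(k⁻¹ * a) - k⁻¹ * b = k⁻¹ * (-a - b) := by ring
  simp only [om, map_mul, map_div₀, map_add, map_neg, map_sub, map_pow, map_one, conj_conj, hc]
  rw [e1]
  simp only [div_eq_mul_inv, mul_inv, mul_pow, inv_pow, inv_inv]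
  have : k⁻¹ * (k ^ 2)⁻¹ * k ^ 3 = 1 := by field_simp
  linear_combination (-((conj a)⁻¹ * ((conj b) ^ 2)⁻¹) *
    (-((b ^ 2)⁻¹ * (-a - b)⁻¹) + b⁻¹ * ((-a - b) ^ 2)⁻¹)) * this

lemma ref_phi0 (a b : ℤ) : phi0 (-a) (-b) = phi0 a b := by simp only [phi0, ind_neg]

lemma ref_om_zero : ∑' x : (ℤ × ℤ) × (ℤ × ℤ),
    phi0 x.1.2 x.2.2 * (om (pt tau0 x.1) (pt tau0 x.2)).im = 0 := by
  have h := (Equiv.prodCongr refRho refRho).tsum_eq fun x : (ℤ × ℤ) × (ℤ × ℤ) =>
    phi0 x.1.2 x.2.2 * (om (pt tau0 x.1) (pt tau0 x.2)).im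
  have h2 : ∀ x : (ℤ × ℤ) × (ℤ × ℤ),
      phi0 (refRho x.1).2 (refRho x.2).2 *
        (om (pt tau0 (refRho x.1)) (pt tau0 (refRho x.2))).im =
      -(phi0 x.1.2 x.2.2 * (om (pt tau0 x.1) (pt tau0 x.2)).im) := by
    intro x
    rw [ref_pt, ref_pt, ref_om ref_k_mul, conj_im, refRho_apply, refRho_apply, ref_phi0]
    ring
  simp only [Equiv.prodCongr_apply, Prod.map_fst, Prod.map_snd, h2, tsum_neg] at h
  linarith

theorem ref_of (hB : BOUND) : REF := by
  obtain ⟨⟨C, hC, hct, hom, -, -⟩, -, hb⟩ := hB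
  have hM := summable_MM ref_im_tau0
  have s1 : Summable fun x : (ℤ × ℤ) × (ℤ × ℤ) =>
      (phi0 x.1.2 x.2.2 : ℂ) * ct (0, 0, 1) (pt tau0 x.1) (pt tau0 x.2) := by
    refine Summable.of_norm_bounded (hM.mul_left (50 * C)) fun x => ?_
    have h1 := hct (0, 0, 1) (pt tau0 x.1) (pt tau0 x.2)
    simp only [norm_zero, norm_one, add_zero, zero_add, mul_one] at h1
    rw [norm_mul, Complex.norm_real, Real.norm_eq_abs, mul_assoc]
    exact mul_le_mul (abs_phi0_le _ _) h1 (norm_nonneg _) (by norm_num)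
  have s2 : Summable fun x : (ℤ × ℤ) × (ℤ × ℤ) =>
      phi0 x.1.2 x.2.2 * (om (pt tau0 x.1) (pt tau0 x.2)).im := by
    refine Summable.of_norm_bounded (hM.mul_left (50 * C)) fun x => ?_
    rw [norm_mul, Real.norm_eq_abs, Real.norm_eq_abs, mul_assoc]
    exact mul_le_mul (abs_phi0_le _ _) (hom _ _) (abs_nonneg _) (by norm_num)
  have s3 : Summable fun p : ℤ × ℤ => (phiE p.2 : ℂ) * chi (pt tau0 p) := by
    refine Summable.of_norm_bounded
      ((summable_pt ref_im_tau0 (k := 6) (by norm_num)).mul_left 20) fun p => ?_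
    rw [norm_mul, Complex.norm_real, Real.norm_eq_abs, (hb _).2.2.2.2.2.2.1]
    exact mul_le_mul_of_nonneg_right (abs_phiE_le _) (by positivity)
  have s4 : Summable fun x : (ℤ × ℤ) × (ℤ × ℤ) =>
      phi0 x.1.2 x.2.2 * (ct (0, 0, 1) (pt tau0 x.1) (pt tau0 x.2)).im :=
    ((Complex.hasSum_im s1.hasSum).summable).congr fun x => by simp
  constructor
  · have e1 : GG tau0 = ∑' x : (ℤ × ℤ) × (ℤ × ℤ),
        (phi0 x.1.2 x.2.2 * (ct (0, 0, 1) (pt tau0 x.1) (pt tau0 x.2)).im +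
          2 * (phi0 x.1.2 x.2.2 * (om (pt tau0 x.1) (pt tau0 x.2)).im)) := by
      unfold GG
      refine tsum_congr fun x => ?_
      unfold g
      ring
    rw [e1, s4.tsum_add (s2.mul_left 2), tsum_mul_left, ref_om_zero, mul_zero, add_zero, T0,
      Complex.im_tsum s1]
    exact tsum_congr fun x => by simp
  · rw [WW, ZE, Complex.im_tsum s3]
    exact tsum_congr fun x => by simp

end RV5
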