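import Pool.Agent.Lib.RV5.Blue

/-! Block RING: the differential ring of weight two Eisenstein series of level six. -/

open Complex Filter Topology

namespace RV5

namespace Ring

lemma alg1 {p p2 p3 p6 q1 q2 q3 k e B C : ℂ} (he : e = (2 * p2 + 6 * p6 - p - 3 * p3) / 4)
    (hB : B = (3 * p3 - p) / 2) (hC : C = (3 * p6 - p2) / 2)
    (h1 : (2 * p2 - p) ^ 2 = (q1 + 4 * q2) / 5) (h2 : (3 * p3 - p) ^ 2 = 2 * (q1 + 9 * q3) / 5)
    (h3 : (3 * p6 - p2) ^ 2 = 2 * (q2 + 9 * k) / 5) (h4 : (2 * p6 - p3) ^ 2 = (q3 + 4 * k) / 5) :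
    e ^ 2 = B * C := by
  subst he hB hC
  linear_combination (1 / 8) * h1 - (1 / 16) * h2 - (1 / 4) * h3 + (9 / 8) * h4

lemma alg2 {p p2 p3 p6 q1 q2 q3 k e B C DB DC De : ℂ}
    (he : e = (2 * p2 + 6 * p6 - p - 3 * p3) / 4)
    (hB : B = (3 * p3 - p) / 2) (hC : C = (3 * p6 - p2) / 2)
    (h1 : (2 * p2 - p) ^ 2 = (q1 + 4 * q2) / 5) (h2 : (3 * p3 - p) ^ 2 = 2 * (q1 + 9 * q3) / 5)
    (h3 : (3 * p6 - p2) ^ 2 = 2 * (q2 + 9 * k) / 5) (h4 : (2 * p6 - p3) ^ 2 = (q3 + 4 * k) / 5)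
    (hDB : DB = (3 * (3 * ((p3 ^ 2 - q3) / 12)) - (p ^ 2 - q1) / 12) / 2)
    (hDC : DC = (3 * (6 * ((p6 ^ 2 - k) / 12)) - 2 * ((p2 ^ 2 - q2) / 12)) / 2)
    (hDe : De = (2 * (2 * ((p2 ^ 2 - q2) / 12)) + 6 * (6 * ((p6 ^ 2 - k) / 12)) -
      (p ^ 2 - q1) / 12 - 3 * (3 * ((p3 ^ 2 - q3) / 12))) / 4)
    (hrel : 2 * e * De = C * DB + B * DC) (hne : B - 2 * C ≠ 0) :
    DB = B ^ 2 / 6 - 4 / 3 * e * C + e * B + p * B / 6 ∧
    DC = B * C / 6 - 2 / 3 * e * C + e * B / 3 + p * C / 6 ∧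
    De = -2 / 3 * C ^ 2 + B * C / 6 + B ^ 2 / 6 + e * B / 6 + p * e / 6 ∧
    (p ^ 2 - q1) / 12 = -5 / 12 * B ^ 2 + 4 / 3 * e * C - e * B + p ^ 2 / 12 ∧
    (q1 - 16 * q2 - 9 * q3 + 144 * k) / 120 = (4 * C - B) / 3 * e := by
  have hE := alg1 he hB hC h1 h2 h3 h4
  obtain rfl : p2 = (2 * e + B - 2 * C + p) / 2 := by rw [he, hB, hC]; ring
  obtain rfl : p3 = (2 * B + p) / 3 := by rw [hB]; ring
  obtain rfl : p6 = (2 * C + (2 * e + B - 2 * C + p) / 2) / 3 := by linear_combination (-2 / 3) * hC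
  obtain rfl : q2 = 10 * C ^ 2 - 9 * k := by linear_combination (-5 / 2) * h3
  obtain rfl : q3 = 5 * ((2 * e - B + 2 * C) / 3) ^ 2 - 4 * k := by linear_combination (-5) * h4
  obtain rfl : q1 = 10 * B ^ 2 - 45 * ((2 * e - B + 2 * C) / 3) ^ 2 + 36 * k := by
    linear_combination (-5 / 2) * h2
  subst hDB hDC hDe
  have hk : (B - 2 * C) * (k - (5 / 9 * C ^ 2 + 2 / 3 * e * C - 2 / 9 * e * B)) = 0 := by
    linear_combination (2 / 3) * hrel - (2 / 3) * (5 / 3 * C + B / 3 + e / 3 + p / 3) * hE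
  obtain rfl := sub_eq_zero.1 ((mul_eq_zero.1 hk).resolve_left hne)
  refine ⟨?_, ?_, ?_, ?_, ?_⟩
  · linear_combination (-5 / 3) * hE
  · ring
  · linear_combination (1 / 6) * hE
  · linear_combination (5 / 3) * hE
  · linear_combination (-1 / 3) * hE

lemma eL_eq (q : ℂ) : eL q = (2 * P (q ^ 2) + 6 * P (q ^ 6) - P q - 3 * P (q ^ 3)) / 4 := by
  simp only [eL, P]; ring

lemma eS_eq (q : ℂ) :
    eS q = (Q q - 16 * Q (q ^ 2) - 9 * Q (q ^ 3) + 144 * Q (q ^ 6)) / 120 := by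
  simp only [eS, Q]; ring

variable {q : ℂ}

lemma dP (hq : ‖q‖ < 1) {d : ℕ} (hd : d ≠ 0) :
    HasDerivAt (fun q => P (q ^ d)) (deriv (fun q => P (q ^ d)) q) q :=
  (diffAt_pow (fun _ => diffAt_P) hq hd).hasDerivAt

lemma hasB (hq : ‖q‖ < 1) :
    HasDerivAt Bf ((3 * deriv (fun q => P (q ^ 3)) q - deriv P q) / 2) q :=
  (((dP hq three_ne_zero).const_mul 3).sub (diffAt_P hq).hasDerivAt).div_const 2

lemma hasC (hq : ‖q‖ < 1) :
    HasDerivAt Cf ((3 * deriv (fun q => P (q ^ 6)) q - deriv (fun q => P (q ^ 2)) q) / 2) q :=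
  (((dP hq (d := 6) (by norm_num)).const_mul 3).sub (dP hq two_ne_zero)).div_const 2

lemma hasE (hq : ‖q‖ < 1) :
    HasDerivAt eL ((2 * deriv (fun q => P (q ^ 2)) q + 6 * deriv (fun q => P (q ^ 6)) q -
      deriv P q - 3 * deriv (fun q => P (q ^ 3)) q) / 4) q := by
  rw [funext eL_eq]
  exact (((((dP hq two_ne_zero).const_mul 2).add ((dP hq (d := 6) (by norm_num)).const_mul 6)).sub
    (diffAt_P hq).hasDerivAt).sub ((dP hq three_ne_zero).const_mul 3)).div_const 4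

lemma rels (h : RAM) (hq : ‖q‖ < 1) :
    (2 * P (q ^ 2) - P q) ^ 2 = (Q q + 4 * Q (q ^ 2)) / 5 ∧
    (3 * P (q ^ 3) - P q) ^ 2 = 2 * (Q q + 9 * Q (q ^ 3)) / 5 ∧
    (3 * P (q ^ 6) - P (q ^ 2)) ^ 2 = 2 * (Q (q ^ 2) + 9 * Q (q ^ 6)) / 5 ∧
    (2 * P (q ^ 6) - P (q ^ 3)) ^ 2 = (Q (q ^ 3) + 4 * Q (q ^ 6)) / 5 := by
  have h2 := (h _ (norm_pow_lt hq two_ne_zero)).2.2
  have h3 := (h _ (norm_pow_lt hq three_ne_zero)).2.1
  rw [← pow_mul] at h2 h3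
  exact ⟨(h q hq).2.1, (h q hq).2.2, h2, h3⟩

lemma sq_eq (h : RAM) (hq : ‖q‖ < 1) : eL q ^ 2 = Bf q * Cf q :=
  alg1 (eL_eq q) rfl rfl (rels h hq).1 (rels h hq).2.1 (rels h hq).2.2.1 (rels h hq).2.2.2

lemma DP (h : RAM) (hq : ‖q‖ < 1) {d : ℕ} (hd : d ≠ 0) :
    q * deriv (fun q => P (q ^ d)) q = d * ((P (q ^ d) ^ 2 - Q (q ^ d)) / 12) := by
  rw [deriv_pow_comp (fun _ => diffAt_P) hq hd, (h _ (norm_pow_lt hq hd)).1]

lemma drel (h : RAM) (hq : ‖q‖ < 1) :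
    2 * eL q * (q * deriv eL q) = Cf q * (q * deriv Bf q) + Bf q * (q * deriv Cf q) := by
  have e1 : (fun q => eL q ^ 2) =ᶠ[𝓝 q] fun q => Bf q * Cf q := by
    filter_upwards [Metric.isOpen_ball.mem_nhds (mem_ball_zero_iff.2 hq)] with z hz
    exact sq_eq h (mem_ball_zero_iff.1 hz)
  have d1 := (diffAt_eL hq).hasDerivAt.fun_pow 2
  have d2 := (hasB hq).differentiableAt.hasDerivAt.fun_mul (hasC hq).differentiableAt.hasDerivAt
  have := (d1.congr_of_eventuallyEq e1.symm).unique d2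
  simp only [Nat.cast_ofNat, Nat.add_one_sub_one, pow_one] at this
  linear_combination q * this

lemma ne_near : ∃ ε : ℝ, 0 < ε ∧ ε ≤ 1 ∧ ∀ q : ℂ, ‖q‖ < ε → Bf q - 2 * Cf q ≠ 0 := by
  have h0 : ‖(0 : ℂ)‖ < 1 := by simp
  have hc : ContinuousAt (fun q => Bf q - 2 * Cf q) 0 :=
    (hasB h0).continuousAt.sub (continuousAt_const.mul (hasC h0).continuousAt)
  have hv : Bf 0 - 2 * Cf 0 ≠ 0 := by
    simp only [Bf, Cf, P, zero_pow two_ne_zero, zero_pow three_ne_zero,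
      zero_pow (show (6 : ℕ) ≠ 0 by norm_num), S_zero]
    norm_num
  obtain ⟨ε, hε, hb⟩ := Metric.eventually_nhds_iff.1 (hc.eventually_ne hv)
  refine ⟨min ε 1, lt_min hε one_pos, min_le_right _ _, fun q hq => hb ?_⟩
  rw [dist_zero_right]
  exact hq.trans_le (min_le_left _ _)

end Ring

open _root_.RV5.Ring in
theorem ring_of (h : RAM) : RING := by
  obtain ⟨ε, h0, h1, hne⟩ := ne_near
  refine ⟨ε, h0, h1, fun q hq => ?_⟩
  have hq1 : ‖q‖ < 1 := hq.trans_le h1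
  obtain ⟨r1, r2, r3, r4⟩ := rels h hq1
  have d1 := (h q hq1).1
  have d2 := DP h hq1 two_ne_zero
  have d3 := DP h hq1 three_ne_zero
  have d6 := DP h hq1 (d := 6) (by norm_num)
  push_cast at d2 d3 d6
  have := alg2 (DB := q * deriv Bf q) (DC := q * deriv Cf q) (De := q * deriv eL q) (eL_eq q)
    (B := Bf q) (C := Cf q) rfl rfl r1 r2 r3 r4
    (by rw [(hasB hq1).deriv]; linear_combination (3 / 2) * d3 - (1 / 2) * d1)
    (by rw [(hasC hq1).deriv]; linear_combination (3 / 2) * d6 - (1 / 2) * d2)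
    (by
      rw [(hasE hq1).deriv]
      linear_combination (1 / 2) * d2 + (3 / 2) * d6 - (1 / 4) * d1 - (3 / 4) * d3)
    (drel h hq1) (hne q hq)
  rw [d1, eS_eq]
  exact ⟨sq_eq h hq1, this⟩

end RV5
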