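import Pool.Agent.Lib.RV5.Blue

/-! Block TH: the `q`-expansion of `f15` from Jacobi's identity. -/

open Complex Filter Topology
open scoped Real

namespace RV5

namespace Th

/-- the exponent `(u (4m+1)^2 + v (4n+1)^2) / 8` when `u + v = 8 w` -/
def Nz (u v w : ℕ) (p : ℤ × ℤ) : ℤ := w + u * (p.1 * (2 * p.1 + 1)) + v * (p.2 * (2 * p.2 + 1))

def Nf (u v w : ℕ) (p : ℤ × ℤ) : ℕ := (Nz u v w p).toNat

def cf (p : ℤ × ℤ) : ℤ := (4 * p.1 + 1) * (4 * p.2 + 1)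

noncomputable def fib (u v w N : ℕ) : Finset (ℤ × ℤ) :=
  (Finset.Icc (-(Nat.sqrt N : ℤ)) (Nat.sqrt N) ×ˢ Finset.Icc (-(Nat.sqrt N : ℤ)) (Nat.sqrt N)).filter
    fun p => Nf u v w p = N

noncomputable def co (u v w N : ℕ) : ℤ := ∑ p ∈ fib u v w N, cf p

variable {u v w : ℕ}

lemma sq_le (m : ℤ) : m ^ 2 ≤ m * (2 * m + 1) := by
  rcases le_or_gt 0 m with h | h
  · nlinarith
  · nlinarith

lemma Nz_ge (hu : 1 ≤ u) (hv : 1 ≤ v) (hw : 1 ≤ w) (p : ℤ × ℤ) :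
    1 + p.1 ^ 2 + p.2 ^ 2 ≤ Nz u v w p := by
  have h1 := sq_le p.1
  have h2 := sq_le p.2
  have h3 : (1 : ℤ) ≤ u := by exact_mod_cast hu
  have h4 : (1 : ℤ) ≤ v := by exact_mod_cast hv
  have h5 : (1 : ℤ) ≤ w := by exact_mod_cast hw
  have h6 := sq_nonneg p.1
  have h7 := sq_nonneg p.2
  unfold Nz
  nlinarith

lemma Nf_cast (hu : 1 ≤ u) (hv : 1 ≤ v) (hw : 1 ≤ w) (p : ℤ × ℤ) :
    (Nf u v w p : ℤ) = Nz u v w p := by
  have := Nz_ge hu hv hw p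
  have h6 := sq_nonneg p.1
  have h7 := sq_nonneg p.2
  exact Int.toNat_of_nonneg (by linarith)

lemma eight (hu : 1 ≤ u) (hv : 1 ≤ v) (hw : 1 ≤ w) (h : u + v = 8 * w) (p : ℤ × ℤ) :
    8 * (Nf u v w p : ℤ) = u * (4 * p.1 + 1) ^ 2 + v * (4 * p.2 + 1) ^ 2 := by
  have h' : (u : ℤ) + v = 8 * w := by exact_mod_cast h
  rw [Nf_cast hu hv hw, Nz]
  linear_combination -h'

lemma sum_sq_le (hu : 1 ≤ u) (hv : 1 ≤ v) (hw : 1 ≤ w) (h : u + v = 8 * w) (p : ℤ × ℤ) :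
    (4 * p.1 + 1) ^ 2 + (4 * p.2 + 1) ^ 2 ≤ 8 * (Nf u v w p : ℤ) := by
  rw [eight hu hv hw h]
  have h3 : (1 : ℤ) ≤ u := by exact_mod_cast hu
  have h4 : (1 : ℤ) ≤ v := by exact_mod_cast hv
  have h6 := sq_nonneg (4 * p.1 + 1)
  have h7 := sq_nonneg (4 * p.2 + 1)
  nlinarith

lemma abs_cf_le (hu : 1 ≤ u) (hv : 1 ≤ v) (hw : 1 ≤ w) (h : u + v = 8 * w) (p : ℤ × ℤ) :
    |cf p| ≤ 4 * (Nf u v w p : ℤ) := by
  have h1 := sum_sq_le hu hv hw h p
  have h2 := sq_nonneg ((4 * p.1 + 1) - (4 * p.2 + 1))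
  have h3 := sq_nonneg ((4 * p.1 + 1) + (4 * p.2 + 1))
  unfold cf
  rw [abs_le]
  constructor <;> nlinarith

lemma abs_le_sqrt {m : ℤ} {N : ℕ} (h : m ^ 2 ≤ N) : |m| ≤ (Nat.sqrt N : ℤ) := by
  have h1 : m.natAbs ≤ Nat.sqrt N := by
    rw [Nat.le_sqrt']
    have : ((m.natAbs ^ 2 : ℕ) : ℤ) ≤ N := by
      push_cast
      rwa [sq_abs]
    exact_mod_cast this
  rw [← Int.natCast_natAbs]
  exact_mod_cast h1

lemma mem_fib (hu : 1 ≤ u) (hv : 1 ≤ v) (hw : 1 ≤ w) (N : ℕ) (p : ℤ × ℤ) :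
    p ∈ fib u v w N ↔ Nf u v w p = N := by
  unfold fib
  rw [Finset.mem_filter]
  refine ⟨fun h => h.2, fun h => ⟨?_, h⟩⟩
  have h1 := Nz_ge hu hv hw p
  rw [← Nf_cast hu hv hw, h] at h1
  have h6 := sq_nonneg p.1
  have h7 := sq_nonneg p.2
  have h2 := abs_le.mp (abs_le_sqrt (m := p.1) (N := N) (by linarith))
  have h3 := abs_le.mp (abs_le_sqrt (m := p.2) (N := N) (by linarith))
  simp only [Finset.mem_product, Finset.mem_Icc]
  exact ⟨h2, h3⟩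

lemma card_fib (u v w N : ℕ) : (fib u v w N).card ≤ 8 * N + 1 := by
  refine (Finset.card_filter_le _ _).trans ?_
  rw [Finset.card_product, Int.card_Icc]
  have h1 : ((Nat.sqrt N : ℤ) + 1 - -(Nat.sqrt N : ℤ)).toNat = 2 * Nat.sqrt N + 1 := by omega
  rw [h1]
  have h2 := Nat.sqrt_le N
  have h3 : Nat.sqrt N ≤ Nat.sqrt N * Nat.sqrt N := Nat.le_mul_self _
  nlinarith

lemma abs_co_le (hu : 1 ≤ u) (hv : 1 ≤ v) (hw : 1 ≤ w) (h : u + v = 8 * w) (N : ℕ) :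
    |co u v w N| ≤ (8 * N + 1) * (4 * N) := by
  unfold co
  refine (Finset.abs_sum_le_sum_abs _ _).trans ?_
  have h1 : ∀ p ∈ fib u v w N, |cf p| ≤ 4 * (N : ℤ) := fun p hp => by
    have := abs_cf_le hu hv hw h p
    rwa [(mem_fib hu hv hw N p).1 hp] at this
  refine (Finset.sum_le_card_nsmul _ _ _ h1).trans ?_
  rw [nsmul_eq_mul]
  have h2 : ((fib u v w N).card : ℤ) ≤ 8 * N + 1 := by exact_mod_cast card_fib u v w N
  gcongr

lemma regroup {E : Type*} [NormedAddCommGroup E] [CompleteSpace E] (hu : 1 ≤ u) (hv : 1 ≤ v)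
    (hw : 1 ≤ w) {f : ℤ × ℤ → E} {s : E} (hf : HasSum f s) :
    HasSum (fun N : ℕ => ∑ p ∈ fib u v w N, f p) s := by
  refine (hf.tsum_fiberwise (Nf u v w)).congr_fun fun N => ?_
  have : Nf u v w ⁻¹' {N} = ↑(fib u v w N) := by
    ext p
    simp [mem_fib hu hv hw]
  rw [this, Finset.tsum_subtype']

lemma e_add (x y : ℂ) : e (x + y) = e x * e y := by
  rw [e, e, e, ← Complex.exp_add]; congr 1; ring

lemma hasSum_mul {f g : ℤ → ℂ} {a b : ℂ} (h1 : HasSum f a) (h2 : HasSum g b) :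
    HasSum (fun p : ℤ × ℤ => f p.1 * g p.2) (a * b) := by
  have n1 : Summable fun n => ‖f n‖ := summable_norm_iff.mpr h1.summable
  have n2 : Summable fun n => ‖g n‖ := summable_norm_iff.mpr h2.summable
  exact h1.mul h2 (summable_mul_of_summable_norm n1 n2)

lemma hasSum_q (hJ : JAC) (hu : 1 ≤ u) (hv : 1 ≤ v) (hw : 1 ≤ w) (h : u + v = 8 * w) {τ : ℂ}
    (hτ : 0 < τ.im) : HasSum (fun N : ℕ => (co u v w N : ℂ) * e τ ^ N)
      (ModularForm.eta (u * τ) ^ 3 * ModularForm.eta (v * τ) ^ 3) := by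
  have hu' : (0 : ℝ) < u := by exact_mod_cast hu
  have hv' : (0 : ℝ) < v := by exact_mod_cast hv
  have h1 := hJ (u * τ) (by simpa using mul_pos hu' hτ)
  have h2 := hJ (v * τ) (by simpa using mul_pos hv' hτ)
  have h3 := hasSum_mul h1 h2
  have h4 : HasSum (fun p : ℤ × ℤ => (cf p : ℂ) * e τ ^ Nf u v w p)
      (ModularForm.eta (u * τ) ^ 3 * ModularForm.eta (v * τ) ^ 3) := by
    refine h3.congr_fun fun p => ?_
    have h5 : (8 : ℂ) * (Nf u v w p : ℂ) =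
        u * (4 * (p.1 : ℂ) + 1) ^ 2 + v * (4 * (p.2 : ℂ) + 1) ^ 2 := by
      exact_mod_cast eight hu hv hw h p
    have h6 : (Nf u v w p : ℂ) * τ =
        u * τ * (4 * (p.1 : ℂ) + 1) ^ 2 / 8 + v * τ * (4 * (p.2 : ℂ) + 1) ^ 2 / 8 := by
      linear_combination τ / 8 * h5
    rw [← e_mul, h6, e_add, cf]
    push_cast
    ring
  refine (regroup hu hv hw h4).congr_fun fun N => ?_
  rw [co]
  push_cast
  rw [Finset.sum_mul]
  exact Finset.sum_congr rfl fun p hp => by rw [(mem_fib hu hv hw N p).1 hp]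

lemma thT_eq (hu : 1 ≤ u) (hv : 1 ≤ v) (hw : 1 ≤ w) (h : u + v = 8 * w) (p : ℤ × ℤ) :
    thT u v p = (cf p : ℝ) / (Nf u v w p : ℝ) ^ 4 := by
  have h5 : (8 : ℝ) * (Nf u v w p : ℝ) =
      u * (4 * (p.1 : ℝ) + 1) ^ 2 + v * (4 * (p.2 : ℝ) + 1) ^ 2 := by
    exact_mod_cast eight hu hv hw h p
  rw [thT, ← h5, cf]
  push_cast
  ring

lemma summable_thT (hu : 1 ≤ u) (hv : 1 ≤ v) (hw : 1 ≤ w) (h : u + v = 8 * w) :
    Summable (thT u v) := by
  have h0 := (summable_lat (z := I) (by simp) (k := 6) (by norm_num)).comp_injective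
    (i := fun p : ℤ × ℤ => (4 * p.1 + 1, 4 * p.2 + 1)) fun x y hxy => by
      obtain ⟨e1, e2⟩ := Prod.mk.inj hxy
      exact Prod.ext (by omega) (by omega)
  refine Summable.of_norm_bounded (h0.mul_left 2048) fun p => ?_
  have h1 : |(cf p : ℝ)| ≤ 4 * (Nf u v w p : ℝ) := by exact_mod_cast abs_cf_le hu hv hw h p
  have h2 : (4 * (p.1 : ℝ) + 1) ^ 2 + (4 * (p.2 : ℝ) + 1) ^ 2 ≤ 8 * (Nf u v w p : ℝ) := by
    exact_mod_cast sum_sq_le hu hv hw h p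
  have h3 : (1 : ℤ) ≤ (4 * p.1 + 1) ^ 2 := by
    rcases le_or_gt 0 p.1 with h | h <;> nlinarith
  have h4 : (1 : ℝ) ≤ (4 * (p.1 : ℝ) + 1) ^ 2 := by exact_mod_cast h3
  have h5 := sq_nonneg (4 * (p.2 : ℝ) + 1)
  have h6 : ‖(((4 * p.1 + 1 : ℤ) : ℂ)) * I + ((4 * p.2 + 1 : ℤ) : ℂ)‖ ^ 6 =
      ((4 * (p.1 : ℝ) + 1) ^ 2 + (4 * (p.2 : ℝ) + 1) ^ 2) ^ 3 := by
    rw [show 6 = 2 * 3 by norm_num, pow_mul, Complex.sq_norm, Complex.normSq_apply]
    congr 1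
    simp
    ring
  simp only [Function.comp]
  rw [h6, thT_eq hu hv hw h, Real.norm_eq_abs, abs_div, abs_pow, Nat.abs_cast]
  set A := (4 * (p.1 : ℝ) + 1) ^ 2 + (4 * (p.2 : ℝ) + 1) ^ 2 with hA
  set N := (Nf u v w p : ℝ)
  have hA0 : 0 < A := by linarith
  have hN : 0 < N := by linarith
  have h7 : A ^ 3 ≤ (8 * N) ^ 3 := by gcongr
  rw [mul_one_div, div_le_div_iff₀ (by positivity) (by positivity)]
  calc |(cf p : ℝ)| * A ^ 3 ≤ 4 * N * (8 * N) ^ 3 := by gcongr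
    _ = 2048 * N ^ 4 := by ring

lemma hasSum_L (hu : 1 ≤ u) (hv : 1 ≤ v) (hw : 1 ≤ w) (h : u + v = 8 * w) :
    HasSum (fun N : ℕ => (co u v w N : ℝ) / (N : ℝ) ^ 4) (∑' p, thT u v p) := by
  refine (regroup hu hv hw (summable_thT hu hv hw h).hasSum).congr_fun fun N => ?_
  rw [co]
  push_cast
  rw [Finset.sum_div]
  exact Finset.sum_congr rfl fun p hp => by
    rw [thT_eq hu hv hw h, (mem_fib hu hv hw N p).1 hp]

end Th

open Th in
theorem th_of : JAC → TH := by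
  intro hJ
  have b1 := abs_co_le (u := 3) (v := 5) (w := 1) (by norm_num) (by norm_num) le_rfl (by norm_num)
  have b2 := abs_co_le (u := 1) (v := 15) (w := 2) le_rfl (by norm_num) (by norm_num) (by norm_num)
  refine ⟨fun N => co 3 5 1 N + co 1 15 2 N, 72, ?_, fun n => ?_, fun τ hτ => ?_, ?_⟩
  · have h1 := b1 0
    have h2 := b2 0
    simp only [Nat.cast_zero, mul_zero, abs_nonpos_iff] at h1 h2
    simp [h1, h2]
  · have h1 : |(co 3 5 1 n : ℝ)| ≤ (8 * n + 1) * (4 * n) := by exact_mod_cast b1 n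
    have h2 : |(co 1 15 2 n : ℝ)| ≤ (8 * n + 1) * (4 * n) := by exact_mod_cast b2 n
    have h3 : (0 : ℝ) ≤ n := by positivity
    push_cast
    refine (abs_add_le _ _).trans ?_
    nlinarith
  · have h1 := hasSum_q hJ (u := 3) (v := 5) (w := 1) (by norm_num) (by norm_num) le_rfl
      (by norm_num) hτ
    have h2 := hasSum_q hJ (u := 1) (v := 15) (w := 2) le_rfl (by norm_num) (by norm_num)
      (by norm_num) hτ
    simp only [Nat.cast_ofNat, Nat.cast_one, one_mul] at h1 h2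
    refine (h1.add h2).congr_fun fun n => ?_
    push_cast
    ring
  · have h1 := hasSum_L (u := 3) (v := 5) (w := 1) (by norm_num) (by norm_num) le_rfl
      (by norm_num)
    have h2 := hasSum_L (u := 1) (v := 15) (w := 2) le_rfl (by norm_num) (by norm_num)
      (by norm_num)
    simp only [Nat.cast_ofNat, Nat.cast_one] at h1 h2
    refine (h1.add h2).congr_fun fun n => ?_
    push_cast
    ring

end RV5
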