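import Pool.Agent.Lib.RV5.Jen
import Pool.Agent.Lib.RV5.Mom
import Pool.Agent.Lib.RV5.Bnd2
import Pool.Agent.Lib.RV5.Ram
import Pool.Agent.Lib.RV5.Ring
import Pool.Agent.Lib.RV5.Ode1
import Pool.Agent.Lib.RV5.Ode2
import Pool.Agent.Lib.RV5.Cm
import Pool.Agent.Lib.RV5.Num
import Pool.Agent.Lib.RV5.AsmA
import Pool.Agent.Lib.RV5.Bound
import Pool.Agent.Lib.RV5.Der
import Pool.Agent.Lib.RV5.Split
import Pool.Agent.Lib.RV5.Four1
import Pool.Agent.Lib.RV5.Four2
import Pool.Agent.Lib.RV5.Bline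
import Pool.Agent.Lib.RV5.Ref
import Pool.Agent.Lib.RV5.Cz
import Pool.Agent.Lib.RV5.CtE
import Pool.Agent.Lib.RV5.Jac
import Pool.Agent.Lib.RV5.Th
import Pool.Agent.Lib.RV5.Hec
import Pool.Agent.Lib.RV5.Fe

/-! All blocks put together. -/

namespace RV5

theorem main : MAIN :=
  main_of (amain_of jen mom_rec bnd2 (ode2_of (ode1_of (ring_of ram))) cm num)
    (bline_of bound der (split_of bound) four1 (four2_of bound)) (ref_of bound) cz (ct_of bound)
    (th_of jac) hec fe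

end RV5
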