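import Pool.Agent.Lib.RV5.Defs

/-! Basic facts on the q-series of `Defs`. -/

open Complex MeasureTheory Filter Topology
open scoped Real ComplexConjugate

namespace RV5

/-- polynomially bounded coefficients -/
def PB (c : ℕ → ℂ) : Prop := ∃ (C : ℝ) (r : ℕ), ∀ n, ‖c n‖ ≤ C * ((n : ℝ) + 1) ^ r

lemma PB.maj {c : ℕ → ℂ} (h : PB c) {ρ : ℝ} (h0 : 0 < ρ) (h1 : ρ < 1) :
    ∃ u : ℕ → ℝ, Summable u ∧ ∀ (n : ℕ) (q : ℂ), ‖q‖ ≤ ρ → ‖c n * q ^ n‖ ≤ u n := by
  obtain ⟨C, r, h⟩ := h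
  have := ((summable_nat_add_iff 1).mpr (summable_pow_mul_geometric_of_norm_lt_one r (r := ρ)
    (by rwa [Real.norm_of_nonneg h0.le]))).mul_left (C / ρ)
  refine ⟨_, this, fun n q hq => ?_⟩
  rw [norm_mul, norm_pow]
  calc _ ≤ C * ((n : ℝ) + 1) ^ r * ρ ^ n := by
        gcongr
        exacts [(norm_nonneg _).trans (h n), h n]
    _ = _ := by push_cast; rw [pow_succ ρ]; field_simp

lemma PB.summable_norm {c : ℕ → ℂ} (h : PB c) {q : ℂ} (hq : ‖q‖ < 1) :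
    Summable fun n => ‖c n * q ^ n‖ := by
  obtain ⟨u, h1, h2⟩ := h.maj (ρ := (‖q‖ + 1) / 2) (by positivity) (by linarith)
  exact Summable.of_nonneg_of_le (fun _ => norm_nonneg _) (fun n => h2 n q (by linarith)) h1

lemma PB.hasSum {c : ℕ → ℂ} (h : PB c) {q : ℂ} (hq : ‖q‖ < 1) :
    HasSum (fun n => c n * q ^ n) (∑' n, c n * q ^ n) := (h.summable_norm hq).of_norm.hasSum

lemma PB.diffAt {c : ℕ → ℂ} (h : PB c) {q : ℂ} (hq : ‖q‖ < 1) :
    DifferentiableAt ℂ (fun q : ℂ => ∑' n, c n * q ^ n) q := by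
  obtain ⟨u, h1, h2⟩ := h.maj (ρ := (‖q‖ + 1) / 2) (by positivity) (by linarith)
  exact (Complex.differentiableOn_tsum_of_summable_norm h1 (fun _ => by fun_prop)
    Metric.isOpen_ball fun n w hw => h2 n w (mem_ball_zero_iff.mp hw).le).differentiableAt
    (Metric.isOpen_ball.mem_nhds (by rw [mem_ball_zero_iff]; linarith))

lemma PB.hasSum_deriv {c : ℕ → ℂ} (h : PB c) {q : ℂ} (hq : ‖q‖ < 1) :
    HasSum (fun n : ℕ => (n : ℂ) * c n * q ^ n) (q * deriv (fun q : ℂ => ∑' n, c n * q ^ n) q) := by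
  obtain ⟨u, h1, h2⟩ := h.maj (ρ := (‖q‖ + 1) / 2) (by positivity) (by linarith)
  have := (Complex.hasSum_deriv_of_summable_norm h1 (F := fun n q => c n * q ^ n)
    (fun _ => by fun_prop) Metric.isOpen_ball
    (fun n w hw => h2 n w (mem_ball_zero_iff.mp hw).le) (z := q)
    (by rw [mem_ball_zero_iff]; linarith)).mul_left q
  refine this.congr_fun fun n => ?_
  rw [((hasDerivAt_pow n q).const_mul (c n)).deriv]
  rcases n with _ | n
  · simp
  · simp only [Nat.add_sub_cancel]; ring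

lemma sigma_le (k n : ℕ) : (ArithmeticFunction.sigma k n : ℝ) ≤ (n : ℝ) ^ (k + 1) := by
  exact_mod_cast ArithmeticFunction.sigma_le_pow_succ k n

lemma pb_S (k : ℕ) : PB fun n => (ArithmeticFunction.sigma k n : ℂ) :=
  ⟨1, k + 1, fun n => by
    rw [Complex.norm_natCast, one_mul]
    exact (sigma_le k n).trans (by gcongr; linarith)⟩

lemma pb_R (k : ℕ) : PB fun n => (ArithmeticFunction.sigma k n : ℂ) / n :=
  ⟨1, k + 1, fun n => by
    rw [norm_div, Complex.norm_natCast, Complex.norm_natCast, one_mul]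
    rcases n.eq_zero_or_pos with rfl | hn
    · simp
    · exact (div_le_self (by positivity) (by exact_mod_cast hn)).trans
        ((sigma_le k n).trans (by gcongr; linarith))⟩

variable {q : ℂ}

lemma hasSum_S (k : ℕ) (hq : ‖q‖ < 1) :
    HasSum (fun n : ℕ => (ArithmeticFunction.sigma k n : ℂ) * q ^ n) (S k q) := (pb_S k).hasSum hq

lemma hasSum_R (k : ℕ) (hq : ‖q‖ < 1) :
    HasSum (fun n : ℕ => (ArithmeticFunction.sigma k n : ℂ) / n * q ^ n) (R k q) :=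
  (pb_R k).hasSum hq

lemma diffAt_S (k : ℕ) (hq : ‖q‖ < 1) : DifferentiableAt ℂ (S k) q := (pb_S k).diffAt hq

lemma diffAt_R (k : ℕ) (hq : ‖q‖ < 1) : DifferentiableAt ℂ (R k) q := (pb_R k).diffAt hq

lemma hasSum_deriv_S (k : ℕ) (hq : ‖q‖ < 1) :
    HasSum (fun n : ℕ => (n : ℂ) * (ArithmeticFunction.sigma k n : ℂ) * q ^ n)
      (q * deriv (S k) q) := (pb_S k).hasSum_deriv hq

lemma deriv_R (k : ℕ) (hq : ‖q‖ < 1) : q * deriv (R k) q = S k q := by
  refine ((pb_R k).hasSum_deriv hq).unique ((hasSum_S k hq).congr_fun fun n => ?_)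
  rcases n.eq_zero_or_pos with rfl | hn
  · simp
  · have : (n : ℂ) ≠ 0 := by exact_mod_cast hn.ne'
    field_simp

lemma S_zero (k : ℕ) : S k 0 = 0 := by
  rw [S, tsum_eq_single 0 fun n hn => by simp [hn]]; simp

lemma R_zero (k : ℕ) : R k 0 = 0 := by
  rw [R, tsum_eq_single 0 fun n hn => by simp [hn]]; simp

lemma S_conj (k : ℕ) (q : ℂ) : S k (conj q) = conj (S k q) := by
  simp [S, Complex.conj_tsum]

lemma R_conj (k : ℕ) (q : ℂ) : R k (conj q) = conj (R k q) := by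
  simp [R, Complex.conj_tsum]

lemma norm_pow_lt (hq : ‖q‖ < 1) {d : ℕ} (hd : d ≠ 0) : ‖q ^ d‖ < 1 := RV6.norm_pow_lt hq hd

lemma diffAt_pow {F : ℂ → ℂ} (hF : ∀ q, ‖q‖ < 1 → DifferentiableAt ℂ F q) (hq : ‖q‖ < 1)
    {d : ℕ} (hd : d ≠ 0) : DifferentiableAt ℂ (fun q => F (q ^ d)) q :=
  (hF _ (norm_pow_lt hq hd)).comp q (f := fun q => q ^ d) (by fun_prop)

/-- `D (F (q^d)) = d (D F)(q^d)` for `D = q d/dq` -/
lemma deriv_pow_comp {F : ℂ → ℂ} (hF : ∀ q, ‖q‖ < 1 → DifferentiableAt ℂ F q) (hq : ‖q‖ < 1)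
    {d : ℕ} (hd : d ≠ 0) :
    q * deriv (fun q => F (q ^ d)) q = d * (q ^ d * deriv F (q ^ d)) := by
  have : HasDerivAt (fun q => F (q ^ d)) _ q :=
    (hF _ (norm_pow_lt hq hd)).hasDerivAt.comp q (hasDerivAt_pow d q)
  rw [this.deriv]
  obtain ⟨d, rfl⟩ := Nat.exists_eq_succ_of_ne_zero hd
  simp only [Nat.succ_eq_add_one, Nat.add_sub_cancel]
  ring

lemma diffAt_Sp (k : ℕ) (hq : ‖q‖ < 1) {d : ℕ} (hd : d ≠ 0) :
    DifferentiableAt ℂ (fun q => S k (q ^ d)) q := diffAt_pow (fun _ => diffAt_S k) hq hd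

lemma diffAt_Rp (k : ℕ) (hq : ‖q‖ < 1) {d : ℕ} (hd : d ≠ 0) :
    DifferentiableAt ℂ (fun q => R k (q ^ d)) q := diffAt_pow (fun _ => diffAt_R k) hq hd

lemma deriv_Rp (k : ℕ) (hq : ‖q‖ < 1) {d : ℕ} (hd : d ≠ 0) :
    q * deriv (fun q => R k (q ^ d)) q = d * S k (q ^ d) := by
  rw [deriv_pow_comp (fun _ => diffAt_R k) hq hd, deriv_R k (norm_pow_lt hq hd)]

lemma diffAt_P (hq : ‖q‖ < 1) : DifferentiableAt ℂ P q :=
  (differentiableAt_const _).sub ((diffAt_S 1 hq).const_mul _)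

lemma diffAt_Q (hq : ‖q‖ < 1) : DifferentiableAt ℂ Q q :=
  (differentiableAt_const _).add ((diffAt_S 3 hq).const_mul _)

lemma diffAt_eL (hq : ‖q‖ < 1) : DifferentiableAt ℂ eL q := by
  have h1 := diffAt_S 1 hq
  have h2 := diffAt_Sp 1 hq two_ne_zero
  have h3 := diffAt_Sp 1 hq three_ne_zero
  have h6 := diffAt_Sp 1 hq (d := 6) (by norm_num)
  unfold eL
  fun_prop

lemma diffAt_eS (hq : ‖q‖ < 1) : DifferentiableAt ℂ eS q := by
  have h1 := diffAt_S 3 hq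
  have h2 := diffAt_Sp 3 hq two_ne_zero
  have h3 := diffAt_Sp 3 hq three_ne_zero
  have h6 := diffAt_Sp 3 hq (d := 6) (by norm_num)
  unfold eS
  fun_prop

lemma hasDerivAt_l0 (hq : ‖q‖ < 1) : HasDerivAt l0 (6 * (deriv (R 1) q -
    deriv (fun q => R 1 (q ^ 2)) q + deriv (fun q => R 1 (q ^ 3)) q -
      deriv (fun q => R 1 (q ^ 6)) q)) q :=
  ((((diffAt_R 1 hq).hasDerivAt.sub (diffAt_Rp 1 hq two_ne_zero).hasDerivAt).add
    (diffAt_Rp 1 hq three_ne_zero).hasDerivAt).sub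
      (diffAt_Rp 1 hq (d := 6) (by norm_num)).hasDerivAt).const_mul 6

lemma hasDerivAt_A0 (hq : ‖q‖ < 1) : HasDerivAt A0 (2 * (deriv (R 3) q -
    8 * deriv (fun q => R 3 (q ^ 2)) q - 3 * deriv (fun q => R 3 (q ^ 3)) q +
      24 * deriv (fun q => R 3 (q ^ 6)) q)) q :=
  ((((diffAt_R 3 hq).hasDerivAt.sub ((diffAt_Rp 3 hq two_ne_zero).hasDerivAt.const_mul 8)).sub
    ((diffAt_Rp 3 hq three_ne_zero).hasDerivAt.const_mul 3)).add
      ((diffAt_Rp 3 hq (d := 6) (by norm_num)).hasDerivAt.const_mul 24)).const_mul 2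

lemma diffAt_l0 (hq : ‖q‖ < 1) : DifferentiableAt ℂ l0 q := (hasDerivAt_l0 hq).differentiableAt

lemma diffAt_A0 (hq : ‖q‖ < 1) : DifferentiableAt ℂ A0 q := (hasDerivAt_A0 hq).differentiableAt

lemma diffAt_Psi1 (hq : ‖q‖ < 1) : DifferentiableAt ℂ Psi1 q := (diffAt_A0 hq).sub (diffAt_l0 hq)

lemma diffAt_zf (hq : ‖q‖ < 1) : DifferentiableAt ℂ zf q :=
  (differentiableAt_id.mul (diffAt_l0 hq).cexp).neg

lemma deriv_l0 (hq : ‖q‖ < 1) : q * deriv l0 q = eL q - 1 := by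
  have h1 := deriv_R 1 hq
  have h2 := deriv_Rp 1 hq two_ne_zero
  have h3 := deriv_Rp 1 hq three_ne_zero
  have h6 := deriv_Rp 1 hq (d := 6) (by norm_num)
  rw [(hasDerivAt_l0 hq).deriv, eL]
  push_cast at h2 h3 h6
  linear_combination 6 * (h1 - h2 + h3 - h6)

lemma deriv_A0 (hq : ‖q‖ < 1) : q * deriv A0 q = eS q - 1 := by
  have h1 := deriv_R 3 hq
  have h2 := deriv_Rp 3 hq two_ne_zero
  have h3 := deriv_Rp 3 hq three_ne_zero
  have h6 := deriv_Rp 3 hq (d := 6) (by norm_num)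
  rw [(hasDerivAt_A0 hq).deriv, eS]
  push_cast at h2 h3 h6
  linear_combination 2 * (h1 - 8 * h2 - 3 * h3 + 24 * h6)

lemma deriv_Psi1 (hq : ‖q‖ < 1) : q * deriv Psi1 q = eS q - eL q := by
  have := ((diffAt_A0 hq).hasDerivAt.sub (diffAt_l0 hq).hasDerivAt).deriv
  rw [show Psi1 = A0 - l0 from rfl, this]
  linear_combination deriv_A0 hq - deriv_l0 hq

lemma deriv_zf (hq : ‖q‖ < 1) : q * deriv zf q = eL q * zf q := by
  have := (((hasDerivAt_id q).mul (diffAt_l0 hq).hasDerivAt.cexp).neg).deriv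
  rw [show zf = -(id * fun x => Complex.exp (l0 x)) from rfl, this]
  simp only [Pi.neg_apply, Pi.mul_apply, id]
  linear_combination -q * Complex.exp (l0 q) * deriv_l0 hq

lemma eL_zero : eL 0 = 1 := by simp [eL, S_zero]
lemma eS_zero : eS 0 = 1 := by simp [eS, S_zero]
lemma l0_zero : l0 0 = 0 := by simp [l0, R_zero]
lemma A0_zero : A0 0 = 0 := by simp [A0, R_zero]
lemma Psi1_zero : Psi1 0 = 0 := by simp [Psi1, l0_zero, A0_zero]
lemma zf_zero : zf 0 = 0 := by simp [zf]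

lemma eL_conj (q : ℂ) : eL (conj q) = conj (eL q) := by
  simp only [eL, ← map_pow, S_conj, map_add, map_mul, map_sub, map_one, map_ofNat]

lemma eS_conj (q : ℂ) : eS (conj q) = conj (eS q) := by
  simp only [eS, ← map_pow, S_conj, map_add, map_mul, map_sub, map_one, map_ofNat]

lemma l0_conj (q : ℂ) : l0 (conj q) = conj (l0 q) := by
  simp only [l0, ← map_pow, R_conj, map_add, map_mul, map_sub, map_ofNat]

lemma A0_conj (q : ℂ) : A0 (conj q) = conj (A0 q) := by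
  simp only [A0, ← map_pow, R_conj, map_add, map_mul, map_sub, map_ofNat]

lemma Psi1_conj (q : ℂ) : Psi1 (conj q) = conj (Psi1 q) := by
  simp only [Psi1, A0_conj, l0_conj, map_sub]

lemma eL_im (r : ℝ) : (eL r).im = 0 := by
  rw [← Complex.conj_eq_iff_im, ← eL_conj, Complex.conj_ofReal]

lemma Psi1_im (r : ℝ) : (Psi1 r).im = 0 := by
  rw [← Complex.conj_eq_iff_im, ← Psi1_conj, Complex.conj_ofReal]

lemma norm_e (τ : ℂ) : ‖e τ‖ = Real.exp (-(2 * π * τ.im)) := by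
  rw [e, Complex.norm_exp]; congr 1; simp

lemma norm_e_lt {τ : ℂ} (h : 0 < τ.im) : ‖e τ‖ < 1 := by
  rw [norm_e, Real.exp_lt_one_iff]
  have := Real.pi_pos
  nlinarith [mul_pos this h]

lemma e_ne (τ : ℂ) : e τ ≠ 0 := Complex.exp_ne_zero _

lemma e_mul (d : ℕ) (τ : ℂ) : e (d * τ) = e τ ^ d := by
  rw [e, e, ← Complex.exp_nat_mul]; congr 1; ring

lemma hasDerivAt_e (τ : ℂ) : HasDerivAt e (2 * π * I * e τ) τ := by
  have := ((hasDerivAt_id τ).const_mul (2 * π * I : ℂ)).cexp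
  simp only [id, mul_one] at this
  rw [mul_comm]
  exact this

/-- `d/dτ F(e τ) = 2 π i (D F)(e τ)` -/
lemma hasDerivAt_comp_e {F : ℂ → ℂ} {τ : ℂ} (h : DifferentiableAt ℂ F (e τ)) :
    HasDerivAt (fun τ => F (e τ)) (2 * π * I * (e τ * deriv F (e τ))) τ := by
  have : HasDerivAt (fun τ => F (e τ)) _ τ := h.hasDerivAt.comp τ (hasDerivAt_e τ)
  exact this.congr_deriv (by ring)

lemma hasDerivAt_ell {τ : ℂ} (h : 0 < τ.im) : HasDerivAt ell (2 * π * I * eL (e τ)) τ := by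
  have : HasDerivAt ell _ τ := ((hasDerivAt_id τ).const_mul (2 * π * I : ℂ)).add
    (hasDerivAt_comp_e (diffAt_l0 (norm_e_lt h)))
  rw [deriv_l0 (norm_e_lt h)] at this
  exact this.congr_deriv (by ring)

lemma exp_ell (τ : ℂ) : Complex.exp (ell τ) = -zf (e τ) := by
  rw [ell, Complex.exp_add, zf, neg_neg, e]

lemma cA_eq (τ : ℂ) : cA τ = ell τ + Psi1 (e τ) := by rw [cA, ell, Psi1]; ring

lemma tau0_im : tau0.im = √15 / 24 := by simp [tau0]

lemma tau0_re : tau0.re = -1 / 8 := by simp [tau0]; norm_num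

lemma tau0_im_pos : 0 < tau0.im := by rw [tau0_im]; positivity

lemma th_im : th.im = √15 / 2 := by simp [th]

lemma th_re : th.re = 1 / 2 := by simp [th]

lemma sqrt15_sq : ((√15 : ℝ) : ℂ) ^ 2 = 15 := by
  rw [← Complex.ofReal_pow, Real.sq_sqrt (by norm_num)]; norm_num

lemma th_sq : th ^ 2 = th - 4 := by
  rw [th]
  linear_combination (I ^ 2 / 4) * sqrt15_sq + (15 / 4) * Complex.I_sq

lemma conj_th : conj th = 1 - th := by
  apply Complex.ext
  · simp [th_re]; norm_num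
  · simp

lemma six_tau0 : 6 * tau0 = (th - 2) / 2 := by rw [tau0, th]; ring

lemma exists_psi : ∃ Ψ, IsPsi Ψ := by
  have hd : DifferentiableOn ℂ (fun q => eL q * Psi1 q) (Metric.ball 0 1) := fun q hq =>
    ((diffAt_eL (mem_ball_zero_iff.mp hq)).mul
      (diffAt_Psi1 (mem_ball_zero_iff.mp hq))).differentiableWithinAt
  have h2 := (Complex.differentiableOn_dslope (c := 0) (Metric.ball_mem_nhds 0 one_pos)).mpr hd
  obtain ⟨Ψ, h0, hΨ⟩ := h2.isExactOn_ball.with_val_at 0 0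
  have key : ∀ q : ℂ, ‖q‖ < 1 → q * deriv Ψ q = eL q * Psi1 q := fun q hq => by
    rw [(hΨ q (mem_ball_zero_iff.mpr hq)).deriv]
    have := sub_smul_dslope (fun q => eL q * Psi1 q) 0 q
    simpa [Psi1_zero] using this
  refine ⟨Ψ, fun q hq => (hΨ q hq).differentiableAt.differentiableWithinAt, h0, key,
    fun r h0r h1r => ?_⟩
  have hn : ∀ t : ℝ, 0 ≤ t → t ≤ r → ‖(t : ℂ)‖ < 1 := fun t a b => by
    rw [Complex.norm_real, Real.norm_of_nonneg a]; linarith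
  have hder : ∀ t : ℝ, 0 ≤ t → t ≤ r →
      HasDerivAt (fun t : ℝ => (Ψ t).im) (deriv Ψ t).im t := fun t a b =>
    Complex.imCLM.hasFDerivAt.comp_hasDerivAt t
      (hΨ t (mem_ball_zero_iff.mpr (hn t a b))).differentiableAt.hasDerivAt.comp_ofReal
  rcases h0r.eq_or_lt with rfl | hr
  · simp [h0]
  obtain ⟨c, hc, e1⟩ := exists_hasDerivAt_eq_slope (fun t : ℝ => (Ψ t).im)
    (fun t : ℝ => (deriv Ψ t).im) hr
    (fun t ht => (hder t ht.1 ht.2).continuousAt.continuousWithinAt)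
    (fun t ht => hder t ht.1.le ht.2.le)
  have e2 := congrArg Complex.im (key c (hn c hc.1.le hc.2.le))
  simp only [Complex.mul_im, Complex.ofReal_re, Complex.ofReal_im, zero_mul, add_zero, eL_im,
    Psi1_im, mul_zero] at e2
  have e3 : (deriv Ψ c).im = 0 := (mul_eq_zero.mp e2).resolve_left hc.1.ne'
  rw [e3, eq_comm, div_eq_zero_iff] at e1
  rcases e1 with e1 | e1
  · simpa [h0] using e1
  · linarith

end RV5
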