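import Pool.Agent.Lib.RV5.Blue

/-! Block BLINE: integration of the lattice sum identity along horizontal lines. -/

open Complex Filter Topology
open scoped Real ComplexConjugate

namespace RV5

namespace Bline

lemma shift0 {Φ : ℂ → ℝ} {τ : ℂ} {u D : ℝ}
    (h : HasDerivAt (fun v : ℝ => Φ (τ + u + v)) D 0) :
    HasDerivAt (fun v : ℝ => Φ (τ + v)) D u := by
  have h1 : HasDerivAt (fun v : ℝ => Φ (τ + u + v)) D (u - u) := by rwa [sub_self]
  have h2 := h1.comp_sub_const u u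
  refine h2.congr_of_eventuallyEq (Eventually.of_forall fun v => ?_)
  simp only
  congr 1
  push_cast
  ring

lemma scale0 {G : ℝ → ℝ} {D : ℝ} (y : ℝ) (h : HasDerivAt G D 0) :
    HasDerivAt (fun u : ℝ => G (u / y)) (D / y) 0 := by
  have h1 : HasDerivAt G D ((0 : ℝ) / y) := by rwa [zero_div]
  have h2 := h1.comp (0 : ℝ) ((hasDerivAt_id (0 : ℝ)).div_const y)
  exact h2.congr_deriv (by ring)

lemma der_g (hD : DER) {τ : ℂ} (h : 0 < τ.im) (p p' : ℤ × ℤ) (u : ℝ) :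
    HasDerivAt (fun v : ℝ => g (pt (τ + v) p) (pt (τ + v) p'))
      (-dd (pt (τ + u) p) (pt (τ + u) p') / τ.im) u := by
  refine shift0 (Φ := fun t => g (pt t p) (pt t p')) ?_
  have h' : 0 < (τ + u).im := by simpa using h
  have := scale0 (τ + u).im (hD.1 (pt (τ + u) p) (pt (τ + u) p'))
  simp only [← pt_shift h'] at this
  simpa using this

lemma der_chi (hD : DER) {τ : ℂ} (h : 0 < τ.im) (p : ℤ × ℤ) (u : ℝ) :
    HasDerivAt (fun v : ℝ => (chi (pt (τ + v) p)).im)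
      (-ef (pt (τ + u) p) (pt (τ + u) p) / τ.im) u := by
  refine shift0 (Φ := fun t => (chi (pt t p)).im) ?_
  have h' : 0 < (τ + u).im := by simpa using h
  have := scale0 (τ + u).im (hD.2 (pt (τ + u) p))
  simp only [← pt_shift h'] at this
  simpa using this

lemma inv_cmp {τ : ℂ} (h : 0 < τ.im) : ∃ c : ℝ, 0 ≤ c ∧ ∀ u : ℝ, |u| ≤ 1 → ∀ p,
    1 / ‖pt (τ + u) p‖ ≤ c * (1 / ‖pt τ p‖) := by
  obtain ⟨c, hc, H⟩ := pt_compare h 1
  refine ⟨1 / c, by positivity, fun u hu p => ?_⟩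
  rcases eq_or_ne p 0 with rfl | hp
  · simp [pt_zero]
  have h1 : 0 < ‖pt τ p‖ := norm_pos_iff.2 fun e => hp ((pt_eq_zero h).1 e)
  rw [one_div_mul_one_div]
  exact one_div_le_one_div_of_le (by positivity) (H u hu p)

lemma MM_eq (a b : ℂ) : MM a b = (1 / ‖a‖ * (1 / ‖b‖)) ^ 3 + (1 / ‖b‖ * (1 / ‖a + b‖)) ^ 3 +
    (1 / ‖a + b‖ * (1 / ‖a‖)) ^ 3 := by
  simp only [MM, one_div_mul_one_div, div_pow, one_pow]

lemma MM_cmp {τ : ℂ} (h : 0 < τ.im) : ∃ c : ℝ, 0 ≤ c ∧ ∀ u : ℝ, |u| ≤ 1 → ∀ p p',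
    MM (pt (τ + u) p) (pt (τ + u) p') ≤ c * MM (pt τ p) (pt τ p') := by
  obtain ⟨c, hc, H⟩ := inv_cmp h
  refine ⟨c ^ 6, by positivity, fun u hu p p' => ?_⟩
  rw [MM_eq, MM_eq, ← pt_add, ← pt_add]
  have h1 := H u hu p
  have h2 := H u hu p'
  have h3 := H u hu (p + p')
  calc _ ≤ (c * (1 / ‖pt τ p‖) * (c * (1 / ‖pt τ p'‖))) ^ 3 +
        (c * (1 / ‖pt τ p'‖) * (c * (1 / ‖pt τ (p + p')‖))) ^ 3 +
        (c * (1 / ‖pt τ (p + p')‖) * (c * (1 / ‖pt τ p‖))) ^ 3 := by gcongr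
    _ = _ := by ring

lemma abs_le_of_mem {u : ℝ} (hu : u ∈ Set.Ioo (-1 : ℝ) 1) : |u| ≤ 1 :=
  abs_le.2 ⟨hu.1.le, hu.2.le⟩

lemma der_GG (hB : BOUND) (hD : DER) {τ : ℂ} (h : 0 < τ.im) :
    HasDerivAt (fun v : ℝ => GG (τ + v)) (-1 / τ.im *
      ∑' x : (ℤ × ℤ) × (ℤ × ℤ), phi0 x.1.2 x.2.2 * dd (pt τ x.1) (pt τ x.2)) 0 := by
  obtain ⟨⟨C, hC, b1, b2, b3, -⟩, -⟩ := hB
  obtain ⟨c, hc, H⟩ := MM_cmp h
  have key := hasDerivAt_tsum_of_isPreconnected
    (g := fun (x : (ℤ × ℤ) × (ℤ × ℤ)) (v : ℝ) =>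
      phi0 x.1.2 x.2.2 * g (pt (τ + v) x.1) (pt (τ + v) x.2))
    (g' := fun x v => phi0 x.1.2 x.2.2 * (-dd (pt (τ + v) x.1) (pt (τ + v) x.2) / τ.im))
    (y₀ := 0) (y := 0) ((summable_MM h).mul_left (50 * (C * c / τ.im))) isOpen_Ioo
    (isPreconnected_Ioo (a := -1) (b := 1))
    (fun x v _ => (der_g hD h x.1 x.2 v).const_mul _)
    (fun x v hv => by
      rw [Real.norm_eq_abs, abs_mul, abs_div, abs_neg, abs_of_pos h]
      have h1 := abs_phi0_le x.1.2 x.2.2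
      have h2 := (b3 (pt (τ + v) x.1) (pt (τ + v) x.2)).trans
        (mul_le_mul_of_nonneg_left (H v (abs_le_of_mem hv) x.1 x.2) hC)
      calc _ ≤ 50 * (C * (c * MM (pt τ x.1) (pt τ x.2)) / τ.im) := by gcongr
        _ = _ := by ring)
    (by norm_num)
    (by
      refine Summable.of_norm_bounded ((summable_MM h).mul_left (50 * (3 * C))) fun x => ?_
      simp only [ofReal_zero, add_zero]
      rw [Real.norm_eq_abs, abs_mul]
      have h1 := abs_phi0_le x.1.2 x.2.2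
      have h2 := (abs_im_le_norm _).trans (b1 (0, 0, 1) (pt τ x.1) (pt τ x.2))
      have h3 := b2 (pt τ x.1) (pt τ x.2)
      have h4 : |g (pt τ x.1) (pt τ x.2)| ≤ 3 * C * MM (pt τ x.1) (pt τ x.2) := by
        simp only [norm_zero, norm_one, zero_add, mul_one] at h2
        rw [g]
        refine (abs_add_le _ _).trans ?_
        rw [abs_mul, abs_two]
        linarith
      calc _ ≤ 50 * (3 * C * MM (pt τ x.1) (pt τ x.2)) := by gcongr
        _ = _ := by ring)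
    (by norm_num)
  refine key.congr_deriv ?_
  rw [← tsum_mul_left]
  refine tsum_congr fun x => ?_
  simp only [ofReal_zero, add_zero]
  ring

lemma der_WW (hB : BOUND) (hD : DER) {τ : ℂ} (h : 0 < τ.im) :
    HasDerivAt (fun v : ℝ => WW (τ + v)) (-1 / τ.im *
      ∑' p : ℤ × ℤ, phiE p.2 * ef (pt τ p) (pt τ p)) 0 := by
  obtain ⟨-, -, b⟩ := hB
  obtain ⟨c, hc, H⟩ := inv_cmp h
  have hs := summable_pt h (k := 6) (by norm_num)
  have key := hasDerivAt_tsum_of_isPreconnected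
    (g := fun (p : ℤ × ℤ) (v : ℝ) => phiE p.2 * (chi (pt (τ + v) p)).im)
    (g' := fun p v => phiE p.2 * (-ef (pt (τ + v) p) (pt (τ + v) p) / τ.im))
    (y₀ := 0) (y := 0) (hs.mul_left (20 * (6 * c ^ 6 / τ.im))) isOpen_Ioo
    (isPreconnected_Ioo (a := -1) (b := 1))
    (fun p v _ => (der_chi hD h p v).const_mul _)
    (fun p v hv => by
      rw [Real.norm_eq_abs, abs_mul, abs_div, abs_neg, abs_of_pos h]
      have h1 := abs_phiE_le p.2
      have h3 := H v (abs_le_of_mem hv) p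
      have h2 : |ef (pt (τ + v) p) (pt (τ + v) p)| ≤ 6 * (c * (1 / ‖pt τ p‖)) ^ 6 :=
        calc _ ≤ 6 / ‖pt (τ + v) p‖ ^ 6 := (b _).2.2.2.2.2.2.2
          _ = 6 * (1 / ‖pt (τ + v) p‖) ^ 6 := by ring
          _ ≤ _ := by gcongr
      calc _ ≤ 20 * (6 * (c * (1 / ‖pt τ p‖)) ^ 6 / τ.im) := by gcongr
        _ = _ := by ring)
    (by norm_num)
    (by
      refine Summable.of_norm_bounded (hs.mul_left 20) fun p => ?_
      simp only [ofReal_zero, add_zero]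
      rw [Real.norm_eq_abs, abs_mul]
      have h1 := abs_phiE_le p.2
      have h2 := (abs_im_le_norm _).trans (b (pt τ p)).2.2.2.2.2.2.1.le
      gcongr)
    (by norm_num)
  refine key.congr_deriv ?_
  rw [← tsum_mul_left]
  refine tsum_congr fun x => ?_
  simp only [ofReal_zero, add_zero]
  ring

lemma line_der {F : ℂ → ℂ} {τ D : ℂ} (h : HasDerivAt F D τ) :
    HasDerivAt (fun v : ℝ => F (τ + v)) D 0 := by
  have h1 : HasDerivAt F D (τ + ((0 : ℝ) : ℂ)) := by simpa using h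
  exact (h1.comp_const_add τ ((0 : ℝ) : ℂ)).comp_ofReal

lemma line_re {F : ℂ → ℂ} {τ D : ℂ} (h : HasDerivAt F D τ) :
    HasDerivAt (fun v : ℝ => (F (τ + v)).re) D.re 0 :=
  Complex.reCLM.hasFDerivAt.comp_hasDerivAt 0 (line_der h)

lemma line_im {F : ℂ → ℂ} {τ D : ℂ} (h : HasDerivAt F D τ) :
    HasDerivAt (fun v : ℝ => (F (τ + v)).im) D.im 0 :=
  Complex.imCLM.hasFDerivAt.comp_hasDerivAt 0 (line_der h)

/-- the difference of the two sides -/
noncomputable def Hd (Ψ : ℂ → ℂ) (y : ℝ) (τ : ℂ) : ℝ := y ^ 2 * (GG τ - 4 * WW τ) +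
  π ^ 4 / 324 * ((ell τ).re * (Psi1 (e τ)).im - (Ψ (e τ)).im)

lemma der_Hd (hB : BOUND) (hD : DER) (hS : SPLIT) (h1 : FOUR1) (h2 : FOUR2) {Ψ : ℂ → ℂ}
    (hΨ : IsPsi Ψ) {τ : ℂ} (h : 0 < τ.im) :
    HasDerivAt (fun v : ℝ => Hd Ψ τ.im (τ + v)) 0 0 := by
  have hq := norm_e_lt h
  have d1 := line_re (hasDerivAt_ell h)
  have d2 := line_im (hasDerivAt_comp_e (diffAt_Psi1 hq))
  have d3 := line_im (hasDerivAt_comp_e (hΨ.1.differentiableAt
    (Metric.isOpen_ball.mem_nhds (mem_ball_zero_iff.2 hq))))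
  rw [deriv_Psi1 hq] at d2
  rw [hΨ.2.2.1 _ hq] at d3
  have d := (((der_GG hB hD h).sub ((der_WW hB hD h).const_mul 4)).const_mul (τ.im ^ 2)).add
    (((d1.mul d2).sub d3).const_mul (π ^ 4 / 324))
  refine d.congr_deriv ?_
  obtain ⟨a1, a2⟩ := h1 τ h
  obtain ⟨a3, a4⟩ := h2 τ h
  rw [cA_eq, add_re] at a4
  rw [hS τ h, a2, a3]
  have hy := h.ne'
  have a5 : Va τ = π / 9 * (ell τ).re / τ.im := by rw [← a1]; field_simp
  have a6 : Kb τ = -(π ^ 3 / 36) * ((ell τ).re + (Psi1 (e τ)).re) / τ.im := by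
    rw [← a4]; field_simp
  rw [a5, a6]
  simp only [ofReal_zero, add_zero, mul_re, mul_im, re_ofNat, im_ofNat, ofReal_re, ofReal_im,
    I_re, I_im, sub_re, sub_im]
  field_simp
  ring

lemma ct_refl (a b : ℂ) : ct (0, 0, 1) (-conj a) (-conj b) = conj (ct (0, 0, 1) a b) := by
  have h : -(-conj a) - -conj b = -conj (-a - b) := by simp; ring
  simp only [ct]
  rw [h]
  generalize -a - b = c
  simp only [ww, map_sub, map_div₀, map_mul, map_add, map_pow, map_neg, conj_conj, map_ofNat,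
    map_one, map_zero]
  ring

lemma om_refl (a b : ℂ) : om (-conj a) (-conj b) = conj (om a b) := by
  have h : -(-conj a) - -conj b = -conj (-a - b) := by simp; ring
  simp only [om]
  rw [h]
  generalize -a - b = c
  simp only [map_div₀, map_mul, map_add, map_pow, map_neg, conj_conj, map_one]
  ring

lemma g_refl (a b : ℂ) : g (-conj a) (-conj b) = -g a b := by
  rw [g, g, ct_refl, om_refl, conj_im, conj_im]
  ring

lemma chi_refl (a : ℂ) : chi (-conj a) = conj (chi a) := by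
  simp only [chi, map_div₀, map_mul, map_pow, map_neg, conj_conj, map_one]
  ring

/-- the reflection of the index lattice -/
def rf : ℤ × ℤ ≃ ℤ × ℤ := Equiv.prodCongr (Equiv.refl ℤ) (Equiv.neg ℤ)

lemma pt_rf (y : ℝ) (p : ℤ × ℤ) : pt (I * y) (rf p) = -conj (pt (I * y) p) := by
  apply Complex.ext <;> simp [pt, rf]

lemma rf_snd (p : ℤ × ℤ) : (rf p).2 = -p.2 := rfl

lemma GG_zero (y : ℝ) : GG (I * y) = 0 := by
  have h := (Equiv.prodCongr rf rf).tsum_eq fun x : (ℤ × ℤ) × (ℤ × ℤ) =>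
    phi0 x.1.2 x.2.2 * g (pt (I * y) x.1) (pt (I * y) x.2)
  have h2 : GG (I * y) = -GG (I * y) := by
    conv_lhs => rw [GG, ← h]
    rw [GG, ← tsum_neg]
    refine tsum_congr fun x => ?_
    simp only [Equiv.prodCongr_apply, Prod.map_fst, Prod.map_snd, pt_rf, g_refl, rf_snd, phi0,
      ind_neg]
    ring
  linarith

lemma WW_zero (y : ℝ) : WW (I * y) = 0 := by
  have h := rf.tsum_eq fun p : ℤ × ℤ => phiE p.2 * (chi (pt (I * y) p)).im
  have h2 : WW (I * y) = -WW (I * y) := by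
    conv_lhs => rw [WW, ← h]
    rw [WW, ← tsum_neg]
    refine tsum_congr fun x => ?_
    simp only [pt_rf, chi_refl, conj_im, rf_snd, phiE, ind_neg]
    ring
  linarith

lemma e_imag (y : ℝ) : e (I * y) = (Real.exp (-(2 * π * y)) : ℂ) := by
  rw [e, ofReal_exp]
  congr 1
  push_cast
  linear_combination (2 * π * y : ℂ) * I_sq

lemma Hd_zero {Ψ : ℂ → ℂ} (hΨ : IsPsi Ψ) {y : ℝ} (hy : 0 < y) : Hd Ψ y (I * y) = 0 := by
  have h1 : Real.exp (-(2 * π * y)) < 1 := by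
    rw [Real.exp_lt_one_iff]
    have := Real.pi_pos
    nlinarith [mul_pos this hy]
  rw [Hd, GG_zero, WW_zero, e_imag, Psi1_im, hΨ.2.2.2 _ (Real.exp_pos _).le h1]
  ring

end Bline

open Bline in
theorem bline_of : BOUND → DER → SPLIT → FOUR1 → FOUR2 → BLINE := by
  intro hB hD hS h1 h2 Ψ hΨ τ h
  have d : ∀ u : ℝ, HasDerivAt (fun v : ℝ => Hd Ψ τ.im (I * τ.im + v)) 0 u := fun u => by
    refine shift0 ?_
    have hi : (I * τ.im + u : ℂ).im = τ.im := by simp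
    have := der_Hd hB hD hS h1 h2 hΨ (τ := I * τ.im + u) (by rwa [hi])
    rwa [hi] at this
  have hc := is_const_of_deriv_eq_zero (fun u => (d u).differentiableAt)
    (fun u => (d u).deriv) τ.re 0
  have ht : (I * τ.im + τ.re : ℂ) = τ := by apply Complex.ext <;> simp
  simp only [ht, ofReal_zero, add_zero, Hd_zero hΨ h] at hc
  rw [Hd] at hc
  linarith

end RV5
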