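import Pool.Agent.Lib.RV5.Lat

/-! Blueprint: block statements for the five-step Rodriguez-Villegas identity, and the final
assembly. Proof sketches are in the team store file rv5_PLAN.md. -/

open Complex MeasureTheory Filter Topology
open scoped Real ComplexConjugate

namespace RV5

/-! ### Part A: the Mahler measure as `Im Ψ(e τ₀) / 2π` -/

def JEN : Prop := m5 = mP / 2

def MOM : Prop := Rec (fun n => (mom n : ℂ)) ∧ ∀ n : ℕ, ‖(mom n : ℂ)‖ ≤ 16 ^ n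

def BND : Prop := ∃ F : ℂ → ℂ, DifferentiableOn ℂ F {z | 0 < z.im} ∧
  (∀ z : ℂ, 0 < z.im → ‖z‖ < 1 / 16 →
    HasSum (fun n : ℕ => (mom n : ℂ) / (n : ℂ) ^ 2 * z ^ n) (F z)) ∧
  Tendsto (fun z => (F z).im) (𝓝[{z : ℂ | 0 < z.im}] 1) (𝓝 (π * mP))

def RAM : Prop := ∀ q : ℂ, ‖q‖ < 1 →
  q * deriv P q = (P q ^ 2 - Q q) / 12 ∧
  (2 * P (q ^ 2) - P q) ^ 2 = (Q q + 4 * Q (q ^ 2)) / 5 ∧
  (3 * P (q ^ 3) - P q) ^ 2 = 2 * (Q q + 9 * Q (q ^ 3)) / 5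

def RING : Prop := ∃ ε : ℝ, 0 < ε ∧ ε ≤ 1 ∧ ∀ q : ℂ, ‖q‖ < ε →
  eL q ^ 2 = Bf q * Cf q ∧
  q * deriv Bf q = Bf q ^ 2 / 6 - 4 / 3 * eL q * Cf q + eL q * Bf q + P q * Bf q / 6 ∧
  q * deriv Cf q = Bf q * Cf q / 6 - 2 / 3 * eL q * Cf q + eL q * Bf q / 3 + P q * Cf q / 6 ∧
  q * deriv eL q =
    -2 / 3 * Cf q ^ 2 + Bf q * Cf q / 6 + Bf q ^ 2 / 6 + eL q * Bf q / 6 + P q * eL q / 6 ∧
  q * deriv P q = -5 / 12 * Bf q ^ 2 + 4 / 3 * eL q * Cf q - eL q * Bf q + P q ^ 2 / 12 ∧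
  eS q = (4 * Cf q - Bf q) / 3 * eL q

def ODE1 : Prop := ∃ (ε : ℝ) (w w1 w2 w3 : ℂ → ℂ), 0 < ε ∧ ε ≤ 1 ∧ w 0 = 1 ∧
  ∀ q : ℂ, ‖q‖ < ε →
    DifferentiableAt ℂ w q ∧ DifferentiableAt ℂ w1 q ∧ DifferentiableAt ℂ w2 q ∧
    DifferentiableAt ℂ w3 q ∧ eS q = w q * eL q ∧ q * deriv w q = eL q * w1 q ∧
    q * deriv w1 q = eL q * w2 q ∧ q * deriv w2 q = eL q * w3 q ∧
    (1 - 20 * zf q + 64 * zf q ^ 2) * w3 q = (30 * zf q - 192 * zf q ^ 2) * w2 q +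
      (18 * zf q - 192 * zf q ^ 2) * w1 q + (4 * zf q - 64 * zf q ^ 2) * w q

def ODE2 : Prop := ∀ (Ψ : ℂ → ℂ) (a : ℕ → ℂ), IsPsi Ψ → Rec a → (∀ n, ‖a n‖ ≤ 16 ^ n) →
  ∀ᶠ q in 𝓝 (0 : ℂ), HasSum (fun n : ℕ => a n / (n : ℂ) ^ 2 * zf q ^ n) (Ψ q)

def CM : Prop := Complex.exp (4 * ell tau0) = 1

def NUM : Prop := (-(3 * π / 2) < (ell tau0).im ∧ (ell tau0).im < -(π / 2)) ∧
  ∀ v : ℝ, √15 / 24 < v →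
    (ell tau0).im < (ell (-1 / 8 + v * I)).im ∧ (ell (-1 / 8 + v * I)).im < 0

def AMAIN : Prop := ∀ Ψ, IsPsi Ψ → (ell tau0).re = 0 ∧ (Ψ (e tau0)).im = 2 * π * m5

/-! ### Part B: the double Eisenstein-Kronecker sum -/

def BOUND : Prop :=
  (∃ C : ℝ, 0 ≤ C ∧
    (∀ (q : ℂ × ℂ × ℂ) (a b : ℂ), ‖ct q a b‖ ≤ C * (‖q.1‖ + ‖q.2.1‖ + ‖q.2.2‖) * MM a b) ∧
    (∀ a b : ℂ, |(om a b).im| ≤ C * MM a b) ∧ (∀ a b : ℂ, |dd a b| ≤ C * MM a b) ∧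
    (∀ a b : ℂ, |ef a b - ef (a + b) b| ≤ C * MM a b)) ∧
  (∀ a b : ℂ, a ≠ 0 → a + b ≠ 0 →
    |hA a - hA (a + b)| ≤ ‖b‖ * (1 / ‖a‖ ^ 3 + 1 / ‖a + b‖ ^ 3) ∧
    |hR a - hR (a + b)| ≤ ‖b‖ * (1 / ‖a‖ ^ 3 + 1 / ‖a + b‖ ^ 3)) ∧
  ∀ b : ℂ, |hA b| ≤ 1 / ‖b‖ ^ 2 ∧ |hR b| ≤ 1 / ‖b‖ ^ 2 ∧ |k3 b| ≤ 1 / ‖b‖ ^ 3 ∧
    |k4 b| ≤ 1 / ‖b‖ ^ 4 ∧ |bb b| ≤ 3 / ‖b‖ ^ 4 ∧ |cc b| ≤ 2 / ‖b‖ ^ 3 ∧
    ‖chi b‖ = 1 / ‖b‖ ^ 6 ∧ |ef b b| ≤ 6 / ‖b‖ ^ 6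

def DER : Prop :=
  (∀ a b : ℂ, HasDerivAt
    (fun t : ℝ => g (a + (t : ℂ) * (a.im : ℂ)) (b + (t : ℂ) * (b.im : ℂ))) (-dd a b) 0) ∧
  ∀ a : ℂ, HasDerivAt (fun t : ℝ => (chi (a + (t : ℂ) * (a.im : ℂ))).im) (-ef a a) 0

def SPLIT : Prop := ∀ τ : ℂ, 0 < τ.im →
  ∑' x : (ℤ × ℤ) × (ℤ × ℤ), phi0 x.1.2 x.2.2 * dd (pt τ x.1) (pt τ x.2) =
    3 * (Va τ * K4 τ) - Vr τ * Kb τ + 4 * ∑' p : ℤ × ℤ, phiE p.2 * ef (pt τ p) (pt τ p)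

def FOUR1 : Prop := ∀ τ : ℂ, 0 < τ.im →
  τ.im * Va τ = π / 9 * (ell τ).re ∧ Vr τ = -(2 * π ^ 2 / 9) * (eL (e τ)).re

def FOUR2 : Prop := ∀ τ : ℂ, 0 < τ.im →
  K4 τ = π ^ 4 / 54 * (eS (e τ)).re ∧ τ.im * Kb τ = -(π ^ 3 / 36) * (cA τ).re

def BLINE : Prop := ∀ Ψ, IsPsi Ψ → ∀ τ : ℂ, 0 < τ.im →
  τ.im ^ 2 * (GG τ - 4 * WW τ) =
    -(π ^ 4 / 324) * ((ell τ).re * (Psi1 (e τ)).im - (Ψ (e τ)).im)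

def REF : Prop := GG tau0 = T0.im ∧ WW tau0 = ZE.im

/-! ### Part C: evaluation at the CM point -/

def CZ : Prop := 4 * ZE = conj th * (5 / 6 * Z0 + 9 / 2 * Z1)

def CT : Prop := T0 = conj th * (-55 / 6 * Z0 + 549 / 2 * Z1)

/-! ### Part D: the L-function -/

def JAC : Prop := ∀ τ : ℂ, 0 < τ.im →
  HasSum (fun n : ℤ => (4 * n + 1 : ℂ) * e (τ * (4 * n + 1) ^ 2 / 8)) (ModularForm.eta τ ^ 3)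

def TH : Prop := ∃ (a : ℕ → ℤ) (C : ℝ), a 0 = 0 ∧ (∀ n, |(a n : ℝ)| ≤ C * ((n : ℝ) + 1) ^ 2) ∧
  (∀ τ : ℂ, 0 < τ.im → HasSum (fun n : ℕ => (a n : ℂ) * e τ ^ n) (f15 τ)) ∧
  HasSum (fun n : ℕ => (a n : ℝ) / (n : ℝ) ^ 4) ThL

def HEC : Prop := Z0 - 27 * Z1 = 2 * (ThL : ℂ)

def FE : Prop := ∀ (a : ℕ → ℤ) (C : ℝ), a 0 = 0 → (∀ n, |(a n : ℝ)| ≤ C * ((n : ℝ) + 1) ^ 2) →
  (∀ τ : ℂ, 0 < τ.im → HasSum (fun n : ℕ => (a n : ℂ) * e τ ^ n) (f15 τ)) →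
  ∃ L : ℂ → ℂ, Differentiable ℂ L ∧
    (∀ s : ℂ, 3 < s.re → LSeriesHasSum (fun n : ℕ => (a n : ℂ)) s (L s)) ∧
    L (-1) = 0 ∧ L 4 ≠ 0 ∧ deriv L (-1) = -((675 * √15 / (16 * π ^ 5) : ℝ) : ℂ) * L 4

/-! ### Final assembly -/

def MAIN : Prop := ∃ a : ℕ → ℤ,
  (∀ τ : ℂ, 0 < τ.im → HasSum (fun n : ℕ => (a n : ℂ) * e τ ^ n) (f15 τ)) ∧
  ∃ L : ℂ → ℂ, Differentiable ℂ L ∧
    (∀ s : ℂ, 3 < s.re → LSeriesHasSum (fun n : ℕ => (a n : ℂ)) s (L s)) ∧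
    L (-1) = 0 ∧ deriv L (-1) ≠ 0 ∧ (m5 : ℂ) = -deriv L (-1)

theorem main_of (hA : AMAIN) (hB : BLINE) (hR : REF) (hZ : CZ) (hT : CT) (hTH : TH) (hH : HEC)
    (hF : FE) : MAIN := by
  obtain ⟨a, C, h0, hb, hq, hL⟩ := hTH
  obtain ⟨L, d1, d2, d3, d4, d5⟩ := hF a C h0 hb hq
  obtain ⟨Ψ, hΨ⟩ := exists_psi
  obtain ⟨a1, a2⟩ := hA Ψ hΨ
  have hp := Real.pi_pos
  have b1 := hB Ψ hΨ tau0 tau0_im_pos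
  have c1 : T0 - 4 * ZE = -20 * conj th * (ThL : ℂ) := by
    unfold HEC at hH
    rw [hT, hZ]; linear_combination -10 * conj th * hH
  have c2 : T0.im - 4 * ZE.im = 10 * √15 * ThL := by
    have := congrArg Complex.im c1
    simp [th_im] at this
    linarith
  have l4 : L 4 = ThL := by
    refine (d2 4 (by norm_num)).unique ((Complex.hasSum_ofReal.mpr hL).congr_fun fun n => ?_)
    rw [LSeries.term_of_ne_zero' (by norm_num), show (4 : ℂ) = ((4 : ℕ) : ℂ) by norm_num,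
      Complex.cpow_natCast]
    push_cast
    rfl
  rw [hR.1, hR.2, c2, a1, a2, tau0_im, div_pow, Real.sq_sqrt (by norm_num)] at b1
  have m : m5 = 675 * √15 / (16 * π ^ 5) * ThL := by
    field_simp
    linear_combination (-2592 : ℝ) * b1
  refine ⟨a, hq, L, d1, d2, d3, ?_, ?_⟩
  · rw [d5]
    refine mul_ne_zero (neg_ne_zero.mpr ?_) d4
    exact Complex.ofReal_ne_zero.mpr (by positivity)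
  · rw [d5, l4, m]
    push_cast
    ring

end RV5
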