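import Pool.Agent.Lib.RV5.Blue

/-! Block BND: the dilogarithm average, its power series and its boundary value at `1`. -/

open Complex MeasureTheory Filter Topology Set
open scoped Real

namespace RV5

namespace Bnd

lemma sN_nonneg (t : Fin 3 → ℝ) : 0 ≤ sN t := by unfold sN; positivity

lemma sN_le (t : Fin 3 → ℝ) : sN t ≤ 16 := by
  have h1 : ‖1 + ∑ j, RV6.ee (t j)‖ ≤ 4 := by
    refine (norm_add_le _ _).trans ?_
    have := norm_sum_le Finset.univ fun j => RV6.ee (t j)
    simp only [RV6.norm_ee] at this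
    simp only [Finset.sum_const, Finset.card_univ, Fintype.card_fin, nsmul_eq_mul, mul_one,
      Nat.cast_ofNat] at this
    rw [norm_one]; linarith
  unfold sN
  nlinarith [norm_nonneg (1 + ∑ j, RV6.ee (t j))]

lemma cont_sN : Continuous sN := by
  have := RV6.continuous_ee
  unfold sN
  fun_prop

lemma meas_sN : Measurable sN := cont_sN.measurable

/-- the product measure -/
noncomputable def mu : Measure ((Fin 3 → ℝ) × ℝ) :=
  (volume.restrict (Icc (0 : Fin 3 → ℝ) 1)).prod (volume.restrict (Ioc (0 : ℝ) 1))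

instance fin1 : IsFiniteMeasure (volume.restrict (Icc (0 : Fin 3 → ℝ) 1)) :=
  isFiniteMeasure_restrict.mpr isCompact_Icc.measure_lt_top.ne

instance : IsFiniteMeasure mu := by unfold mu; infer_instance

lemma ae_mem : ∀ᵐ x ∂mu, x.2 ∈ Ioc (0 : ℝ) 1 := by
  unfold mu
  rw [Measure.ae_prod_iff_ae_ae (measurableSet_Ioc.preimage measurable_snd)]
  exact .of_forall fun _ => ae_restrict_mem measurableSet_Ioc

lemma ae_ne : ∀ᵐ x ∂mu, x.2 * sN x.1 ≠ 1 := by
  unfold mu
  have := meas_sN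
  have hm : MeasurableSet {x : (Fin 3 → ℝ) × ℝ | x.2 * sN x.1 = 1} :=
    measurableSet_eq_fun (by fun_prop) measurable_const
  refine (Measure.ae_prod_iff_ae_ae hm.compl).mpr (.of_forall fun t => ae_restrict_of_ae ?_)
  filter_upwards [Measure.ae_ne volume (sN t)⁻¹] with r hr h
  exact hr (eq_inv_of_mul_eq_one_left h)

/-- the kernel -/
noncomputable def K (z : ℂ) (x : (Fin 3 → ℝ) × ℝ) : ℂ :=
  -log (1 - ((x.2 * sN x.1 : ℝ) : ℂ) * z) / (x.2 : ℂ)

lemma meas_K (z : ℂ) : Measurable (K z) := by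
  have := meas_sN
  unfold K
  fun_prop

lemma slit {z : ℂ} (hz : 0 < z.im) (a : ℝ) : 1 - (a : ℂ) * z ∈ slitPlane := by
  rcases eq_or_ne a 0 with rfl | h
  · simp
  · right
    simp [h, hz.ne']

lemma low {z : ℂ} (a : ℝ) : z.im ≤ ‖1 - (a : ℂ) * z‖ * ‖z‖ := by
  have h1 : ((1 - (a : ℂ) * z) * (starRingEnd ℂ) z).im = -z.im := by
    simp; ring
  have h2 := Complex.abs_im_le_norm ((1 - (a : ℂ) * z) * (starRingEnd ℂ) z)
  rw [h1, abs_neg, norm_mul, Complex.norm_conj] at h2
  exact (le_abs_self _).trans h2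

lemma inv_le {z : ℂ} (hz : 0 < z.im) (a : ℝ) : ‖(1 - (a : ℂ) * z)⁻¹‖ ≤ ‖z‖ / z.im := by
  have h0 : 0 < ‖1 - (a : ℂ) * z‖ := norm_pos_iff.mpr (slitPlane_ne_zero (slit hz a))
  rw [norm_inv, inv_eq_one_div, div_le_div_iff₀ h0 hz, one_mul, mul_comm]
  exact low a

lemma log_le {z : ℂ} (hz : 0 < z.im) {a : ℝ} (ha : 0 ≤ a) :
    ‖log (1 - (a : ℂ) * z)‖ ≤ ‖z‖ / z.im * ‖z‖ * a := by
  have hd : ∀ b : ℝ, HasDerivAt (fun b : ℝ => log (1 - (b : ℂ) * z))
      (-z / (1 - (b : ℂ) * z)) b := fun b => by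
    have h1 : HasDerivAt (fun w : ℂ => 1 - w * z) (-z) b := by
      simpa using ((hasDerivAt_id (b : ℂ)).mul_const z).const_sub 1
    exact (h1.clog (slit hz b)).comp_ofReal
  have := norm_image_sub_le_of_norm_deriv_le_segment' (a := 0) (b := a) (C := ‖z‖ / z.im * ‖z‖)
    (fun b _ => (hd b).hasDerivWithinAt) (fun b _ => by
      rw [div_eq_mul_inv, norm_mul, norm_neg, mul_comm]
      exact mul_le_mul_of_nonneg_right (inv_le hz b) (norm_nonneg _)) a ⟨ha, le_rfl⟩
  simpa using this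

lemma int_K {z : ℂ} (hz : 0 < z.im) : Integrable (K z) mu := by
  refine Integrable.of_bound (meas_K z).aestronglyMeasurable (‖z‖ / z.im * ‖z‖ * 16) ?_
  filter_upwards [ae_mem] with x hx
  have h1 := log_le hz (mul_nonneg hx.1.le (sN_nonneg x.1))
  have h2 := sN_le x.1
  have h3 := hx.1
  rw [K, norm_div, norm_neg, Complex.norm_real, Real.norm_of_nonneg hx.1.le, div_le_iff₀ hx.1]
  refine h1.trans ?_
  rw [mul_assoc _ 16, mul_comm 16]
  gcongr

lemma diff {z : ℂ} (hz : 0 < z.im) : DifferentiableAt ℂ (fun z => ∫ x, K z x ∂mu) z := by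
  have hb : ∀ w ∈ Metric.ball z (z.im / 2), z.im / 2 < w.im ∧ ‖w‖ ≤ ‖z‖ + z.im / 2 := by
    intro w hw
    rw [mem_ball_iff_norm] at hw
    have h1 := Complex.abs_im_le_norm (w - z)
    rw [Complex.sub_im] at h1
    have h2 := neg_abs_le (w.im - z.im)
    have h3 := norm_le_norm_add_norm_sub' w z
    constructor <;> linarith
  have := meas_sN
  refine (hasDerivAt_integral_of_dominated_loc_of_deriv_le (μ := mu) (F := K)
    (F' := fun w x => (sN x.1 : ℂ) * (1 - ((x.2 * sN x.1 : ℝ) : ℂ) * w)⁻¹)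
    (bound := fun _ => 16 * ((‖z‖ + z.im / 2) / (z.im / 2)))
    (Metric.ball_mem_nhds z (half_pos hz)) (.of_forall fun w => (meas_K w).aestronglyMeasurable)
    (int_K hz) (Measurable.aestronglyMeasurable (by fun_prop)) (.of_forall fun x w hw => ?_)
    (integrable_const _) ?_).2.differentiableAt
  · obtain ⟨h1, h2⟩ := hb w hw
    have h3 : 0 < w.im := (half_pos hz).trans h1
    rw [norm_mul, Complex.norm_real, Real.norm_of_nonneg (sN_nonneg _)]
    refine mul_le_mul (sN_le _) ((inv_le h3 _).trans ?_) (norm_nonneg _) (by norm_num)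
    have := half_pos hz
    gcongr
  · filter_upwards [ae_mem] with x hx w hw
    have h3 : 0 < w.im := (half_pos hz).trans (hb w hw).1
    have h1 : HasDerivAt (fun w : ℂ => 1 - ((x.2 * sN x.1 : ℝ) : ℂ) * w)
        (-((x.2 * sN x.1 : ℝ) : ℂ)) w := by
      simpa using ((hasDerivAt_id w).const_mul ((x.2 * sN x.1 : ℝ) : ℂ)).const_sub 1
    refine ((h1.clog (slit h3 _)).neg.div_const (x.2 : ℂ)).congr_deriv ?_
    have h4 : (x.2 : ℂ) ≠ 0 := by exact_mod_cast hx.1.ne'
    rw [div_eq_mul_inv (-((x.2 * sN x.1 : ℝ) : ℂ))]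
    generalize (1 - ((x.2 * sN x.1 : ℝ) : ℂ) * w)⁻¹ = y
    push_cast
    field_simp

lemma int_pow (n : ℕ) : ∫ r in Ioc (0 : ℝ) 1, ((r : ℂ) ^ (n + 1) / r) = 1 / (n + 1 : ℂ) := by
  rw [setIntegral_congr_fun measurableSet_Ioc (g := fun r : ℝ => ((r ^ n : ℝ) : ℂ)) fun r hr => by
    have h4 : (r : ℂ) ≠ 0 := by exact_mod_cast hr.1.ne'
    push_cast
    rw [pow_succ, mul_div_cancel_right₀ _ h4]]
  rw [integral_complex_ofReal, ← intervalIntegral.integral_of_le zero_le_one, integral_pow]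
  simp

lemma series {z : ℂ} (hz : ‖z‖ < 1 / 16) :
    HasSum (fun n : ℕ => (mom n : ℂ) / (n : ℂ) ^ 2 * z ^ n) (∫ x, K z x ∂mu) := by
  have := meas_sN
  have hq : 16 * ‖z‖ < 1 := by linarith
  have hq0 : 0 ≤ 16 * ‖z‖ := by positivity
  have hle : ∀ x : (Fin 3 → ℝ) × ℝ, x.2 ∈ Ioc (0 : ℝ) 1 →
      ‖((x.2 * sN x.1 : ℝ) : ℂ) * z‖ ≤ x.2 * (16 * ‖z‖) := fun x hx => by
    rw [norm_mul, Complex.norm_real, Real.norm_of_nonneg (mul_nonneg hx.1.le (sN_nonneg _)),
      mul_assoc]
    have := sN_le x.1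
    have := hx.1
    gcongr
  have key := hasSum_integral_of_dominated_convergence (μ := mu)
    (F := fun (n : ℕ) x => (((x.2 * sN x.1 : ℝ) : ℂ) * z) ^ n / n / (x.2 : ℂ)) (f := K z)
    (fun n _ => (16 * ‖z‖) ^ n) (fun n => Measurable.aestronglyMeasurable (by fun_prop))
    (fun n => ?_) (.of_forall fun _ => summable_geometric_of_lt_one hq0 hq) (integrable_const _) ?_
  · refine key.congr_fun fun n => ?_
    rcases n with _ | n
    · simp
    · have e : ∀ x : (Fin 3 → ℝ) × ℝ,
          (((x.2 * sN x.1 : ℝ) : ℂ) * z) ^ (n + 1) / ((n + 1 : ℕ) : ℂ) / (x.2 : ℂ) =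
          (z ^ (n + 1) / (n + 1)) *
            (((sN x.1 ^ (n + 1) : ℝ) : ℂ) * ((x.2 : ℂ) ^ (n + 1) / x.2)) := fun x => by
        push_cast; ring
      simp only [e]
      rw [integral_const_mul, mu, integral_prod_mul (fun t => ((sN t ^ (n + 1) : ℝ) : ℂ))
        (fun r : ℝ => (r : ℂ) ^ (n + 1) / r), int_pow, integral_complex_ofReal, ← mom]
      push_cast
      generalize (n : ℂ) + 1 = m
      ring
  · filter_upwards [ae_mem] with x hx
    rcases n with _ | n
    · simp
    · rw [norm_div, norm_div, norm_pow, Complex.norm_real, Real.norm_of_nonneg hx.1.le,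
        Complex.norm_natCast, div_le_iff₀ hx.1]
      refine (div_le_self (by positivity) (by simp)).trans ?_
      refine (pow_le_pow_left₀ (norm_nonneg _) (hle x hx) _).trans ?_
      rw [mul_pow, mul_comm, pow_succ x.2]
      have := pow_le_one₀ (n := n) hx.1.le hx.2
      have h1 := hx.1
      gcongr
      exact mul_le_of_le_one_left h1.le this
  · filter_upwards [ae_mem] with x hx
    refine (hasSum_taylorSeries_neg_log ((hle x hx).trans_lt ?_)).div_const _
    exact (mul_le_of_le_one_left hq0 hx.2).trans_lt hq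

lemma im_K (z : ℂ) (x : (Fin 3 → ℝ) × ℝ) :
    (K z x).im = -arg (1 - ((x.2 * sN x.1 : ℝ) : ℂ) * z) / x.2 := by
  rw [K, Complex.div_ofReal_im, Complex.neg_im, Complex.log_im]

lemma im_le {z : ℂ} (hz : ‖z‖ ≤ 2) {x : (Fin 3 → ℝ) × ℝ} (hx : x.2 ∈ Ioc (0 : ℝ) 1) :
    ‖(K z x).im‖ ≤ 64 * π := by
  have hp := Real.pi_gt_three
  have h0 := hx.1
  rcases le_or_gt (1 / 64) x.2 with h | h
  · rw [im_K, norm_div, norm_neg, Real.norm_of_nonneg h0.le, div_le_iff₀ h0, Real.norm_eq_abs]
    refine (Complex.abs_arg_le_pi _).trans ?_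
    nlinarith
  · refine (Complex.abs_im_le_norm _).trans ?_
    have h1 : ‖-(((x.2 * sN x.1 : ℝ) : ℂ) * z)‖ ≤ x.2 * 32 := by
      rw [norm_neg, norm_mul, Complex.norm_real,
        Real.norm_of_nonneg (mul_nonneg h0.le (sN_nonneg _)), mul_assoc]
      have h2 := sN_le x.1
      have h3 := sN_nonneg x.1
      have h4 := norm_nonneg z
      gcongr
      nlinarith
    have h2 := norm_log_one_add_half_le_self (h1.trans (by linarith))
    rw [K, norm_div, norm_neg, Complex.norm_real, Real.norm_of_nonneg h0.le, div_le_iff₀ h0,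
      sub_eq_add_neg]
    nlinarith

/-- the boundary value of the imaginary part of the kernel -/
noncomputable def L (x : (Fin 3 → ℝ) × ℝ) : ℝ := (if 1 < x.2 * sN x.1 then π else 0) / x.2

lemma lim_arg {a : ℝ} (h : a ≠ 1) :
    Tendsto (fun z : ℂ => -arg (1 - (a : ℂ) * z)) (𝓝[{z : ℂ | 0 < z.im}] 1)
      (𝓝 (if 1 < a then π else 0)) := by
  have hc : Tendsto (fun z : ℂ => 1 - (a : ℂ) * z) (𝓝[{z : ℂ | 0 < z.im}] 1)
      (𝓝 ((1 - a : ℝ) : ℂ)) := by
    have : Continuous fun z : ℂ => 1 - (a : ℂ) * z := by fun_prop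
    have h2 := (this.tendsto 1).mono_left (nhdsWithin_le_nhds (s := {z : ℂ | 0 < z.im}))
    simpa using h2
  split_ifs with h1
  · have h2 := tendsto_arg_nhdsWithin_im_neg_of_re_neg_of_im_zero (z := ((1 - a : ℝ) : ℂ))
      (by rw [Complex.ofReal_re]; linarith) (Complex.ofReal_im _)
    have h3 := h2.comp (tendsto_nhdsWithin_iff.mpr ⟨hc, by
      filter_upwards [self_mem_nhdsWithin] with z hz
      have : 0 < a * z.im := mul_pos (by linarith) hz
      simpa using this⟩)
    simpa using h3.neg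
  · have h2 : 0 < 1 - a := sub_pos.mpr (lt_of_le_of_ne (not_lt.mp h1) h)
    have h3 := (continuousAt_arg (x := ((1 - a : ℝ) : ℂ))
      (Complex.ofReal_mem_slitPlane.mpr h2)).tendsto.comp hc
    rw [Complex.arg_ofReal_of_nonneg h2.le] at h3
    simpa using h3.neg

lemma int_L (s : ℝ) (hs : 0 ≤ s) :
    ∫ r in Ioc (0 : ℝ) 1, (if 1 < r * s then π else 0) / r = π * Real.posLog s := by
  rcases le_or_gt s 1 with h | h
  · rw [setIntegral_congr_fun measurableSet_Ioc (g := fun _ => 0) fun r hr => by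
      have : ¬ 1 < r * s := not_lt.mpr (mul_le_one₀ hr.2 hs h)
      simp [this]]
    rw [(Real.posLog_eq_zero_iff s).mpr (by rwa [abs_of_nonneg hs])]
    simp
  · have h0 : 0 < s := by linarith
    have h1 : s⁻¹ < 1 := inv_lt_one_of_one_lt₀ h
    have h2 : 0 < s⁻¹ := inv_pos.mpr h0
    have e : (fun r : ℝ => (if 1 < r * s then π else 0) / r) =
        (Ioi s⁻¹).indicator fun r => π * r⁻¹ := by
      funext r
      have : 1 < r * s ↔ r ∈ Ioi s⁻¹ := by
        rw [mem_Ioi, inv_eq_one_div, div_lt_iff₀ h0]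
      by_cases hr : r ∈ Ioi s⁻¹
      · rw [indicator_of_mem hr, if_pos (this.mpr hr), div_eq_mul_inv]
      · rw [indicator_of_notMem hr, if_neg (this.not.mpr hr), zero_div]
    rw [e, integral_indicator measurableSet_Ioi, Measure.restrict_restrict measurableSet_Ioi,
      inter_comm, Ioc_inter_Ioi, max_eq_right h2.le, ← intervalIntegral.integral_of_le h1.le,
      intervalIntegral.integral_const_mul, integral_inv_of_pos h2 one_pos,
      Real.posLog_eq_log (by rw [abs_of_pos h0]; exact h.le)]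
    simp

lemma int_mu_L : ∫ x, L x ∂mu = π * mP := by
  have := meas_sN
  have hm : Measurable L := by
    unfold L
    exact (Measurable.ite (measurableSet_lt measurable_const (by fun_prop)) measurable_const
      measurable_const).div measurable_snd
  have hi : Integrable L mu := by
    refine Integrable.of_bound hm.aestronglyMeasurable (16 * π) ?_
    filter_upwards [ae_mem] with x hx
    have hp := Real.pi_pos
    unfold L
    split_ifs with h
    · rw [norm_div, Real.norm_of_nonneg hp.le, Real.norm_of_nonneg hx.1.le, div_le_iff₀ hx.1]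
      have h2 := mul_le_mul_of_nonneg_left (sN_le x.1) hx.1.le
      nlinarith
    · rw [zero_div, norm_zero]; positivity
  rw [mu, integral_prod _ hi, mP, ← integral_const_mul]
  exact integral_congr_ae (.of_forall fun t => int_L (sN t) (sN_nonneg t))

lemma limit : Tendsto (fun z => (∫ x, K z x ∂mu).im) (𝓝[{z : ℂ | 0 < z.im}] 1) (𝓝 (π * mP)) := by
  rw [← int_mu_L]
  have h1 : ∀ᶠ z in 𝓝[{z : ℂ | 0 < z.im}] (1 : ℂ), ‖z‖ ≤ 2 := by
    refine mem_nhdsWithin_of_mem_nhds ?_
    filter_upwards [Metric.ball_mem_nhds (1 : ℂ) one_pos] with z hz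
    rw [mem_ball_iff_norm] at hz
    have h3 := norm_le_norm_add_norm_sub' z 1
    rw [norm_one] at h3
    linarith
  refine (tendsto_integral_filter_of_dominated_convergence (μ := mu)
    (F := fun z x => (K z x).im) (f := L) (fun _ => 64 * π)
    (.of_forall fun z => (Complex.measurable_im.comp (meas_K z)).aestronglyMeasurable) ?_
    (integrable_const _) ?_).congr' ?_
  · filter_upwards [h1] with z hz
    filter_upwards [ae_mem] with x hx using im_le hz hx
  · filter_upwards [ae_ne] with x hx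
    simp only [im_K]
    exact (lim_arg hx).div_const _
  · filter_upwards [self_mem_nhdsWithin] with z hz
    exact integral_im (int_K hz)

end Bnd

open Bnd in
theorem bnd : BND :=
  ⟨fun z => ∫ x, K z x ∂mu, fun _ hz => (diff hz).differentiableWithinAt,
    fun _ _ hz => series hz, limit⟩

end RV5
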