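import Pool.Agent.Lib.RV5.Blue

/-! Pointwise identities for the area cocycle. -/

open Complex
open scoped ComplexConjugate

namespace RV5.Ct

variable {A : Type} [CommRing A]

def qf (q : A × A × A) (u v : A × A) : A :=
  u.1 * v.1 * q.1 + (u.1 * v.2 + u.2 * v.1) * q.2.1 + u.2 * v.2 * q.2.2

def pq (q : A × A × A) (u v : A × A) : A × A × A := (qf q u u, qf q u v, qf q v v)

def dot (u p : A × A) : A := u.1 * p.1 + u.2 * p.2

def dt (u v : A × A) : A := u.1 * v.2 - u.2 * v.1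

lemma ct_zero (q : ℂ × ℂ × ℂ) {a b : ℂ} (h : a = 0 ∨ b = 0 ∨ a + b = 0) : ct q a b = 0 := by
  rcases h with h | h | h
  · simp [ct, ww, h]
  · simp [ct, ww, h]
  · have : -a - b = 0 := by linear_combination -h
    simp [ct, ww, this]

lemma ct_hom (q : ℂ × ℂ × ℂ) (t a b : ℂ) : ct q (t * a) (t * b) = chi t * ct q a b := by
  have e : -(t * a) - t * b = t * (-a - b) := by ring
  simp only [ct, ww, chi, e, map_mul, div_eq_mul_inv, mul_inv, mul_pow]
  ring

lemma ct_lin (k : ℂ) (q q' : ℂ × ℂ × ℂ) (a b : ℂ) :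
    ct (k * q.1 + q'.1, k * q.2.1 + q'.2.1, k * q.2.2 + q'.2.2) a b = k * ct q a b + ct q' a b := by
  simp only [ct, ww]
  ring

lemma ww_cyc (x y z : ℂ) {a b : ℂ} (ha : a ≠ 0) (hb : b ≠ 0) (hc : a + b ≠ 0) :
    ww (x + 2 * y + z) (-x - y) x (-a - b) a =
      -ww x y z a b - ww z (-y - z) (x + 2 * y + z) b (-a - b) := by
  have e : -a - b = -(a + b) := by ring
  simp only [ww, e]
  field_simp
  ring

lemma ww_swap (x y z a b : ℂ) : ww z y x b a = ww x y z a b := by
  simp only [ww]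
  ring

lemma conj_ne {a : ℂ} (h : a ≠ 0) : conj a ≠ 0 := (map_ne_zero _).mpr h

lemma ct_rot (q : ℂ × ℂ × ℂ) (a b : ℂ) :
    ct (q.2.2, -q.2.1 - q.2.2, q.1 + 2 * q.2.1 + q.2.2) b (-a - b) = ct q a b := by
  by_cases h : a = 0 ∨ b = 0 ∨ a + b = 0
  · rw [ct_zero q h, ct_zero]
    rcases h with h | h | h
    · right; right; linear_combination -h
    · left; exact h
    · right; left; linear_combination -h
  push Not at h
  obtain ⟨ha, hb, hc⟩ := h
  have e1 : -b - (-a - b) = a := by ring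
  have e2 : -(-q.2.1 - q.2.2) - (q.1 + 2 * q.2.1 + q.2.2) = -q.1 - q.2.1 := by ring
  have e3 : q.2.2 + 2 * (-q.2.1 - q.2.2) + (q.1 + 2 * q.2.1 + q.2.2) = q.1 := by ring
  simp only [ct, e1, e2, e3, ww_cyc _ _ _ ha hb hc]
  have hA := conj_ne ha
  have hB := conj_ne hb
  have hC := conj_ne hc
  have e : -a - b = -(a + b) := by ring
  generalize ww q.1 q.2.1 q.2.2 a b = X
  generalize ww q.2.2 (-q.2.1 - q.2.2) (q.1 + 2 * q.2.1 + q.2.2) b (-a - b) = Y
  simp only [e, map_mul, map_neg] at *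
  rw [map_add] at *
  field_simp
  ring

lemma ct_swap (q : ℂ × ℂ × ℂ) (a b : ℂ) : ct (q.2.2, q.2.1, q.1) b a = -ct q a b := by
  by_cases h : a = 0 ∨ b = 0 ∨ a + b = 0
  · rw [ct_zero q h, ct_zero, neg_zero]
    rcases h with h | h | h
    · right; left; exact h
    · left; exact h
    · right; right; linear_combination h
  push Not at h
  obtain ⟨ha, hb, hc⟩ := h
  have e1 : -b - a = -a - b := by ring
  have e2 : -q.2.1 - q.1 = -q.1 - q.2.1 := by ring
  have e3 : q.2.2 + 2 * q.2.1 + q.1 = q.1 + 2 * q.2.1 + q.2.2 := by ring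
  simp only [ct, e1, e2, e3]
  rw [ww_swap q.1 q.2.1 q.2.2 a b, ← ww_swap q.1 (-q.1 - q.2.1), ww_cyc _ _ _ ha hb hc]
  have hA := conj_ne ha
  have hB := conj_ne hb
  have hC := conj_ne hc
  have e : -a - b = -(a + b) := by ring
  generalize ww q.1 q.2.1 q.2.2 a b = X
  generalize ww q.2.2 (-q.2.1 - q.2.2) (q.1 + 2 * q.2.1 + q.2.2) b (-a - b) = Y
  simp only [e, map_mul, map_neg] at *
  rw [map_add] at *
  field_simp
  ring

/-- the six symmetries of the standard triangle -/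
def pU : ℕ → A × A
  | 0 => (1, 0)
  | 1 => (0, 1)
  | 2 => (-1, -1)
  | 3 => (0, 1)
  | 4 => (-1, -1)
  | _ => (1, 0)

def pV : ℕ → A × A
  | 0 => (0, 1)
  | 1 => (-1, -1)
  | 2 => (1, 0)
  | 3 => (1, 0)
  | 4 => (0, 1)
  | _ => (-1, -1)

def pS (i : ℕ) : A := if i < 3 then 1 else -1

lemma ct_congr {q q' : ℂ × ℂ × ℂ} {a b a' b' : ℂ} (h1 : q.1 = q'.1) (h2 : q.2.1 = q'.2.1)
    (h3 : q.2.2 = q'.2.2) (ha : a = a') (hb : b = b') : ct q a b = ct q' a' b' := by
  rw [show q = q' from Prod.ext h1 (Prod.ext h2 h3), ha, hb]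

lemma ct_perm (i : ℕ) (q : ℂ × ℂ × ℂ) (p : ℂ × ℂ) :
    ct q p.1 p.2 = pS i * ct (pq q (pU i) (pV i)) (dot (pU i) p) (dot (pV i) p) := by
  obtain ⟨a, b⟩ := p
  match i with
  | 0 =>
    rw [pS, if_pos (by norm_num), one_mul]
    apply ct_congr <;> simp [pq, qf, pU, pV, dot]
  | 1 =>
    rw [pS, if_pos (by norm_num), one_mul, ← ct_rot]
    apply ct_congr <;> simp only [pq, qf, pU, pV, dot] <;> ring
  | 2 =>
    rw [pS, if_pos (by norm_num), one_mul, ← ct_rot, ← ct_rot]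
    apply ct_congr <;> simp only [pq, qf, pU, pV, dot] <;> ring
  | 3 =>
    rw [pS, if_neg (by norm_num), neg_one_mul, ← ct_swap]
    apply ct_congr <;> simp only [pq, qf, pU, pV, dot] <;> ring
  | 4 =>
    rw [pS, if_neg (by norm_num), neg_one_mul, ← ct_swap, ← ct_rot]
    apply ct_congr <;> simp only [pq, qf, pU, pV, dot] <;> ring
  | (n + 5) =>
    rw [pS, if_neg (by omega), neg_one_mul, ← ct_swap, ← ct_rot, ← ct_rot]
    apply ct_congr <;> simp only [pq, qf, pU, pV, dot] <;> ring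

lemma dt_perm (i : ℕ) : dt (pU i : A × A) (pV i) = pS i := by
  match i with
  | 0 | 1 | 2 | 3 | 4 => simp [dt, pU, pV, pS]
  | (n + 5) => rw [pS, if_neg (by omega)]; simp [dt, pU, pV]

/-- the four faces of the ideal tetrahedron with cross ratio `z` -/
def fU (z : A) : ℕ → A × A
  | 0 => (0, 1 - z)
  | 1 => (z - 1, 0)
  | 2 => (z, 0)
  | _ => (1, 0)

def fV (z : A) : ℕ → A × A
  | 0 => (z, z)
  | 1 => (1, 1)
  | _ => (0, 1)

/-- the omitted vertex -/
def fL (z : A) : ℕ → A × A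
  | 0 => (1, 0)
  | 1 => (0, 1)
  | 2 => (-1, -1)
  | _ => (z, 1)

def fS : ℕ → A
  | 0 => 1
  | 1 => -1
  | 2 => 1
  | _ => -1

noncomputable def face (z : ℂ) (q : ℂ × ℂ × ℂ) (p : ℂ × ℂ) (i : ℕ) : ℂ :=
  fS i * (dt (fU z i) (fV z i) * conj (dt (fU z i) (fV z i))) *
    ct (pq q (fU z i) (fV z i)) (dot (fU z i) p) (dot (fV z i) p)

lemma tet_gen {z : ℂ} (h0 : z ≠ 0) (h1 : 1 - z ≠ 0) (q : ℂ × ℂ × ℂ) {a b : ℂ} (ha : a ≠ 0)
    (hb : b ≠ 0) (hc : a + b ≠ 0) (hd : z * a + b ≠ 0) :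
    face z q (a, b) 0 + face z q (a, b) 1 + face z q (a, b) 2 + face z q (a, b) 3 = 0 := by
  obtain ⟨x, y, w⟩ := q
  have h1' : z - 1 ≠ 0 := fun h => h1 (by linear_combination -h)
  obtain ⟨Xb, eb⟩ : ∃ X, X = ww x y w a b := ⟨_, rfl⟩
  obtain ⟨Xc, ec⟩ : ∃ X, X = ww x (x + y) (x + 2 * y + w) a (a + b) := ⟨_, rfl⟩
  obtain ⟨Xd, ed⟩ : ∃ X, X = ww x (z * x + y) (z ^ 2 * x + 2 * z * y + w) a (z * a + b) := ⟨_, rfl⟩
  have k : ∀ (D s x' y' w' a' b' W1 W2 : ℂ), D * ww x' y' w' a' b' = W1 →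
      D * ww w' (-y' - w') (x' + 2 * y' + w') b' (-a' - b') = W2 →
      s * (D * conj D) * ct (x', y', w') a' b' =
        s * (W1 * conj (D / (b' * (-a' - b'))) - W2 * conj (D / (a' * b'))) := by
    intro D s x' y' w' a' b' W1 W2 e1 e2
    simp only [ct, ← e1, ← e2, map_div₀]
    ring
  have n1 : -(0 * a + (1 - z) * b) - (z * a + z * b) = -(z * a + b) := by ring
  have n2 : -((z - 1) * a + 0 * b) - (1 * a + 1 * b) = -(z * a + b) := by ring
  have n3 : -(z * a + 0 * b) - (0 * a + 1 * b) = -(z * a + b) := by ring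
  have n4 : -(1 * a + 0 * b) - (0 * a + 1 * b) = -(a + b) := by ring
  have m1 : z * a + z * b = z * (a + b) := by ring
  simp only [face, fS, fU, fV, dt, pq, qf, dot]
  rw [k _ _ _ _ _ _ _ (Xc - Xb) (Xd - Xc), k _ _ _ _ _ _ _ Xc (Xd - Xc),
    k _ _ _ _ _ _ _ Xb (Xd - Xb), k _ _ _ _ _ _ _ Xb (Xc - Xb)]
  · simp only [n1, n2, n3, n4]
    simp only [m1, zero_mul, mul_zero, one_mul, mul_one, zero_add, add_zero, sub_zero, zero_sub]
    have c1 : -((1 - z) * z) / (z * (a + b) * -(z * a + b)) = 1 / (a * (z * a + b)) -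
      1 / (a * (a + b)) := by field_simp; ring
    have c2 : -((1 - z) * z) / ((1 - z) * b * (z * (a + b))) = 1 / (a * (a + b)) - 1 / (a * b) := by
      field_simp; ring
    have c3 : (z - 1) / ((a + b) * -(z * a + b)) = 1 / (a * (z * a + b)) - 1 / (a * (a + b)) := by
      field_simp; ring
    have c4 : (z - 1) / ((z - 1) * a * (a + b)) = 1 / (a * (a + b)) := by field_simp
    have c5 : z / (b * -(z * a + b)) = 1 / (a * (z * a + b)) - 1 / (a * b) := by field_simp; ring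
    have c6 : z / (z * a * b) = 1 / (a * b) := by field_simp
    have c7 : 1 / (b * -(a + b)) = 1 / (a * (a + b)) - 1 / (a * b) := by field_simp; ring
    rw [c1, c2, c3, c4, c5, c6, c7]
    simp only [map_sub]
    ring
  all_goals
    try simp only [n1, n2, n3, n4]
    simp only [m1, eb, ec, ed, ww, zero_mul, mul_zero, one_mul, mul_one, zero_add, add_zero,
      sub_zero, zero_sub]
    try field_simp
    try ring

open Classical in
lemma tet_pt {z : ℂ} (h0 : z ≠ 0) (h1 : 1 - z ≠ 0) (q : ℂ × ℂ × ℂ) (p : ℂ × ℂ) :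
    ∑ i ∈ Finset.range 4, (if dot (fL z i) p = 0 then 0 else face z q p i) = 0 := by
  obtain ⟨a, b⟩ := p
  have z0 : b = 0 ∨ a + b = 0 ∨ z * a + b = 0 → face z q (a, b) 0 = 0 := fun h => by
    rw [face, ct_zero, mul_zero]
    simp only [fU, fV, dot]
    rcases h with h | h | h
    · left; simp [h]
    · right; left; linear_combination z * h
    · right; right; linear_combination h
  have z1 : a = 0 ∨ a + b = 0 ∨ z * a + b = 0 → face z q (a, b) 1 = 0 := fun h => by
    rw [face, ct_zero, mul_zero]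
    simp only [fU, fV, dot]
    rcases h with h | h | h
    · left; simp [h]
    · right; left; linear_combination h
    · right; right; linear_combination h
  have z2 : a = 0 ∨ b = 0 ∨ z * a + b = 0 → face z q (a, b) 2 = 0 := fun h => by
    rw [face, ct_zero, mul_zero]
    simp only [fU, fV, dot]
    rcases h with h | h | h
    · left; simp [h]
    · right; left; linear_combination h
    · right; right; linear_combination h
  have z3 : a = 0 ∨ b = 0 ∨ a + b = 0 → face z q (a, b) 3 = 0 := fun h => by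
    rw [face, ct_zero, mul_zero]
    simp only [fU, fV, dot]
    rcases h with h | h | h
    · left; simp [h]
    · right; left; linear_combination h
    · right; right; linear_combination h
  have e2 : (-1 * a + -1 * b = 0) ↔ a + b = 0 :=
    ⟨fun h => by linear_combination -h, fun h => by linear_combination -h⟩
  simp only [Finset.sum_range_succ, Finset.sum_range_zero, fL, dot, one_mul, zero_mul, add_zero,
    zero_add, e2]
  by_cases ha : a = 0
  · simp [z1 (.inl ha), z2 (.inl ha), z3 (.inl ha), if_pos ha]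
  by_cases hb : b = 0
  · simp [z0 (.inl hb), z2 (.inr (.inl hb)), z3 (.inr (.inl hb)), if_pos hb]
  by_cases hc : a + b = 0
  · simp [z0 (.inr (.inl hc)), z1 (.inr (.inl hc)), z3 (.inr (.inr hc)), if_pos hc]
  by_cases hd : z * a + b = 0
  · simp [z0 (.inr (.inr hd)), z1 (.inr (.inr hd)), z2 (.inr (.inr hd)), if_pos hd]
  rw [if_neg ha, if_neg hb, if_neg hc, if_neg hd]
  exact tet_gen h0 h1 q ha hb hc hd

end RV5.Ct
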