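import Pool.Agent.Lib.RV5.CtA

/-! Lattices in `K²`, `K = ℚ(√-15)`, and the lattice sums of the area cocycle. -/

open Complex
open scoped ComplexConjugate

namespace RV5.Ct

abbrev KK : Type := QuadraticAlgebra ℚ (-4) 1

instance factKK : Fact (∀ r : ℚ, r ^ 2 ≠ -4 + 1 * r) := ⟨fun r h => by nlinarith [sq_nonneg (2 * r - 1)]⟩

noncomputable def io : KK →+* ℂ :=
  (QuadraticAlgebra.lift (R := ℚ) (a := -4) (b := 1) (A := ℂ)
    ⟨th, by simp only [neg_smul, one_smul]; norm_num; linear_combination th_sq⟩).toRingHom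

lemma io_apply (z : KK) : io z = z.re + z.im * th := by
  simp [io, Rat.smul_def]

lemma io_star (z : KK) : io (star z) = conj (io z) := by
  simp only [io_apply, QuadraticAlgebra.re_star, QuadraticAlgebra.im_star, map_add, map_mul,
    conj_th, map_ratCast]
  push_cast
  ring

lemma io_inj : Function.Injective io := io.injective

lemma io_eq_zero {z : KK} : io z = 0 ↔ z = 0 := map_eq_zero io

abbrev V : Type := KK × KK
abbrev Q3 : Type := KK × KK × KK
abbrev Z4 : Type := ℤ × ℤ × ℤ × ℤ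

noncomputable def iq (q : Q3) : ℂ × ℂ × ℂ := (io q.1, io q.2.1, io q.2.2)
noncomputable def iv (p : V) : ℂ × ℂ := (io p.1, io p.2)

lemma iq_pq (q : Q3) (u v : V) : iq (pq q u v) = pq (iq q) (iv u) (iv v) := by
  simp [iq, iv, pq, qf]

lemma io_dot (u p : V) : io (dot u p) = dot (iv u) (iv p) := by simp [iv, dot]

lemma io_dt (u v : V) : io (dt u v) = dt (iv u) (iv v) := by simp [iv, dt]

def sm (n : ℤ) (z : KK) : KK := ⟨n * z.re, n * z.im⟩

lemma sm_eq (n : ℤ) (z : KK) : sm n z = n * z := by ext <;> simp [sm]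

structure L4 where
  a : V
  b : V
  c : V
  d : V
deriving DecidableEq

structure M4 where
  r1 : Z4
  r2 : Z4
  r3 : Z4
  r4 : Z4

def L4.ev (L : L4) (x : Z4) : V :=
  (sm x.1 L.a.1 + sm x.2.1 L.b.1 + sm x.2.2.1 L.c.1 + sm x.2.2.2 L.d.1,
    sm x.1 L.a.2 + sm x.2.1 L.b.2 + sm x.2.2.1 L.c.2 + sm x.2.2.2 L.d.2)

lemma L4.ev_eq (L : L4) (x : Z4) :
    L.ev x = x.1 • L.a + x.2.1 • L.b + x.2.2.1 • L.c + x.2.2.2 • L.d := by
  ext <;> simp [L4.ev, sm_eq]

def L4.sp (L : L4) : Set V := Set.range L.ev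

def L4.comb (L : L4) (U : M4) : L4 := ⟨L.ev U.r1, L.ev U.r2, L.ev U.r3, L.ev U.r4⟩

lemma L4.comb_sub (L : L4) (U : M4) : (L.comb U).sp ⊆ L.sp := by
  rintro _ ⟨x, rfl⟩
  refine ⟨x.1 • U.r1 + x.2.1 • U.r2 + x.2.2.1 • U.r3 + x.2.2.2 • U.r4, ?_⟩
  simp only [L4.ev_eq, L4.comb, Prod.fst_add, Prod.snd_add, Prod.smul_fst, Prod.smul_snd,
    smul_eq_mul]
  module

lemma sp_eq {L L' : L4} {U U' : M4} (h : L = L'.comb U) (h' : L' = L.comb U') : L.sp = L'.sp :=
  Set.Subset.antisymm (h ▸ L'.comb_sub U) (h' ▸ L.comb_sub U')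

def app (u v p : V) : V := (dot u p, dot v p)

def L4.map (L : L4) (u v : V) : L4 := ⟨app u v L.a, app u v L.b, app u v L.c, app u v L.d⟩

lemma app_ev (L : L4) (u v : V) (x : Z4) : app u v (L.ev x) = (L.map u v).ev x := by
  simp only [L4.ev, L4.map, app, dot, sm_eq]
  ext : 1 <;> simp only <;> ring

lemma map_sp (L : L4) (u v : V) : (L.map u v).sp = app u v '' L.sp := by
  rw [L4.sp, L4.sp, ← Set.range_comp]
  congr 1
  funext x
  exact (app_ev L u v x).symm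

lemma app_inj {u v : V} (h : dt u v ≠ 0) : Function.Injective (app u v) := by
  intro p p' e
  obtain ⟨e1, e2⟩ := Prod.mk.inj e
  simp only [dot, dt] at e1 e2 h
  ext : 1
  · exact mul_left_cancel₀ h (by linear_combination v.2 * e1 - u.2 * e2)
  · exact mul_left_cancel₀ h (by linear_combination u.1 * e2 - v.1 * e1)

noncomputable def F (q : Q3) (p : V) : ℂ := ct (iq q) (io p.1) (io p.2)

noncomputable def T (H : Set V) (q : Q3) : ℂ := ∑' p : H, F q p

lemma T_image {u v : V} (h : dt u v ≠ 0) (H : Set V) (q : Q3) :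
    T (app u v '' H) q = ∑' p : H, F q (app u v p) :=
  tsum_image _ (app_inj h).injOn

lemma den (z : KK) : ∃ N : ℕ, N ≠ 0 ∧ ∃ x : ℤ × ℤ, (N : ℂ) * io z = pt tau0 x := by
  refine ⟨z.re.den * z.im.den, mul_ne_zero z.re.den_nz z.im.den_nz,
    (2 * z.im.num * z.re.den, z.re.num * z.im.den + 2 * z.im.num * z.re.den), ?_⟩
  have h1 : (z.re.num : ℂ) = z.re * z.re.den := by exact_mod_cast (Rat.mul_den_eq_num z.re).symm
  have h2 : (z.im.num : ℂ) = z.im * z.im.den := by exact_mod_cast (Rat.mul_den_eq_num z.im).symm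
  rw [pt_eq, six_tau0, io_apply]
  push_cast
  rw [h1, h2]
  ring

lemma pt_smul (n : ℤ) (x : ℤ × ℤ) : pt tau0 (n • x) = n * pt tau0 x := by
  simp only [pt, Prod.smul_fst, Prod.smul_snd, smul_eq_mul]; push_cast; ring

lemma den4 (a b c d : KK) : ∃ N : ℕ, N ≠ 0 ∧ ∀ i j k l : ℤ, ∃ x : ℤ × ℤ,
    (N : ℂ) * io (sm i a + sm j b + sm k c + sm l d) = pt tau0 x := by
  obtain ⟨N1, h1, x1, e1⟩ := den a
  obtain ⟨N2, h2, x2, e2⟩ := den b
  obtain ⟨N3, h3, x3, e3⟩ := den c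
  obtain ⟨N4, h4, x4, e4⟩ := den d
  refine ⟨N1 * N2 * N3 * N4, by positivity, fun i j k l =>
    ⟨(i * N2 * N3 * N4 : ℤ) • x1 + (j * N1 * N3 * N4 : ℤ) • x2 + (k * N1 * N2 * N4 : ℤ) • x3 +
      (l * N1 * N2 * N3 : ℤ) • x4, ?_⟩⟩
  simp only [pt_add, pt_smul, ← e1, ← e2, ← e3, ← e4, sm_eq, map_add, map_mul, map_intCast]
  push_cast
  ring

lemma MM_scale {N : ℝ} (h : 0 < N) (a b : ℂ) : MM a b = N ^ 6 * MM (N * a) (N * b) := by
  simp only [MM, ← mul_add, norm_mul, Complex.norm_real, Real.norm_of_nonneg h.le, one_div,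
    mul_pow, mul_inv]
  field_simp

lemma summable_MM_sp (L : L4) : Summable fun p : L.sp => MM (io p.1.1) (io p.1.2) := by
  obtain ⟨N1, h1, e1⟩ := den4 L.a.1 L.b.1 L.c.1 L.d.1
  obtain ⟨N2, h2, e2⟩ := den4 L.a.2 L.b.2 L.c.2 L.d.2
  have key : ∀ p : L.sp, ∃ x : (ℤ × ℤ) × (ℤ × ℤ), ((N1 * N2 : ℝ) : ℂ) * io p.1.1 = pt tau0 x.1 ∧
      ((N1 * N2 : ℝ) : ℂ) * io p.1.2 = pt tau0 x.2 := by
    rintro ⟨_, y, rfl⟩
    obtain ⟨x1, f1⟩ := e1 y.1 y.2.1 y.2.2.1 y.2.2.2
    obtain ⟨x2, f2⟩ := e2 y.1 y.2.1 y.2.2.1 y.2.2.2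
    refine ⟨((N2 : ℤ) • x1, (N1 : ℤ) • x2), ?_, ?_⟩
    · simp only [pt_smul, ← f1, L4.ev]; push_cast; ring
    · simp only [pt_smul, ← f2, L4.ev]; push_cast; ring
  choose j hj using key
  have hN : (0 : ℝ) < N1 * N2 := by positivity
  have hN' : ((N1 * N2 : ℝ) : ℂ) ≠ 0 := Complex.ofReal_ne_zero.mpr hN.ne'
  have hi : Function.Injective j := fun p p' e => by
    have a1 := (hj p).1
    have a2 := (hj p).2
    rw [e, ← (hj p').1] at a1
    rw [e, ← (hj p').2] at a2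
    exact Subtype.ext (Prod.ext (io_inj (mul_left_cancel₀ hN' a1))
      (io_inj (mul_left_cancel₀ hN' a2)))
  refine (((summable_MM tau0_im_pos).comp_injective hi).mul_left ((N1 * N2 : ℝ) ^ 6)).congr fun p => ?_
  rw [MM_scale hN (io p.1.1), (hj p).1, (hj p).2]
  rfl

lemma summable_F (hB : BOUND) (L : L4) (q : Q3) : Summable fun p : L.sp => F q p := by
  obtain ⟨⟨C, -, h, -⟩, -⟩ := hB
  exact Summable.of_norm_bounded ((summable_MM_sp L).mul_left _) fun p => h _ _ _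

lemma summable_F_app (hB : BOUND) (L : L4) (q : Q3) {u v : V} (h : dt u v ≠ 0) :
    Summable fun p : L.sp => F q (app u v p) := by
  have := summable_F hB (L.map u v) q
  rw [map_sp] at this
  exact (Equiv.Set.imageOfInjOn _ _ (app_inj h).injOn).summable_iff.mpr this

def qs (k : KK) (q : Q3) : Q3 := (k * q.1, k * q.2.1, k * q.2.2)

lemma F_zero (p : V) : F 0 p = 0 := by simp [F, iq, ct, ww]

lemma F_qs (k : KK) (q : Q3) (p : V) : F (qs k q) p = io k * F q p := by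
  have := ct_lin (io k) (iq q) 0 (io p.1) (io p.2)
  simpa [F, qs, iq, ct, ww] using this

lemma F_add (q q' : Q3) (p : V) : F (q + q') p = F q p + F q' p := by
  have := ct_lin 1 (iq q) (iq q') (io p.1) (io p.2)
  simpa [F, iq] using this

lemma T_zero (H : Set V) : T H 0 = 0 := by simp [T, F_zero]

lemma T_qs (H : Set V) (k : KK) (q : Q3) : T H (qs k q) = io k * T H q := by
  simp only [T, F_qs, tsum_mul_left]

lemma T_add (hB : BOUND) (L : L4) (q q' : Q3) : T L.sp (q + q') = T L.sp q + T L.sp q' := by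
  simp only [T, F_add]
  exact (summable_F hB L q).tsum_add (summable_F hB L q')

/-- certificate identifying a lattice with an atom up to similarity and symmetry -/
structure TC where
  j : ℕ
  i : ℕ
  t : KK
  U : M4
  U' : M4

def sv (t : KK) (u : V) : V := (t * u.1, t * u.2)

def TC.ok (c : TC) (at' : L4) (L : L4) : Prop :=
  c.t ≠ 0 ∧ L.map (sv c.t (pU c.i)) (sv c.t (pV c.i)) = at'.comb c.U ∧
    at' = (L.map (sv c.t (pU c.i)) (sv c.t (pV c.i))).comb c.U'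

instance (c : TC) (at' L : L4) : Decidable (c.ok at' L) := by unfold TC.ok; infer_instance

def TC.val (c : TC) (q : Q3) : Q3 :=
  qs (pS c.i * (c.t ^ 4 * star c.t ^ 2)) (pq q (pU c.i) (pV c.i))

lemma iv_pU (i : ℕ) : iv (pU i) = pU i := by
  unfold pU; split <;> simp [iv]

lemma iv_pV (i : ℕ) : iv (pV i) = pV i := by
  unfold pV; split <;> simp [iv]

lemma io_pS (i : ℕ) : io (pS i) = pS i := by
  unfold pS; split <;> simp

lemma TC.sound {c : TC} {at' L : L4} (h : c.ok at' L) (q : Q3) : T L.sp q = T at'.sp (c.val q) := by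
  obtain ⟨h0, h1, h2⟩ := h
  have hd : dt (sv c.t (pU c.i)) (sv c.t (pV c.i)) ≠ 0 := by
    have : dt (sv c.t (pU c.i)) (sv c.t (pV c.i)) = c.t ^ 2 * dt (pU c.i) (pV c.i) := by
      simp only [dt, sv]; ring
    rw [this, dt_perm]
    refine mul_ne_zero (pow_ne_zero _ h0) ?_
    unfold pS; split <;> simp
  rw [← sp_eq h1 h2, map_sp, T_image hd, T]
  refine tsum_congr fun p => ?_
  have e1 : ∀ u : V, io (dot (sv c.t u) p) = io c.t * dot (iv u) (iv p) := fun u => by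
    simp only [dot, sv, iv, map_add, map_mul]; ring
  have ht : io c.t ≠ 0 := io_eq_zero.not.mpr h0
  have ht' := conj_ne ht
  rw [TC.val, F_qs, F, F, app, e1, e1, ct_hom, iq_pq, iv_pU, iv_pV,
    ct_perm c.i (iq q) (io p.1.1, io p.1.2)]
  simp only [map_mul, map_pow, io_star, io_pS, chi, iv]
  field_simp

end RV5.Ct
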