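import Pool.Agent.Lib.MP_15b3df_nt.RV17

/-! Definitions for the proof of the five-step Rodriguez-Villegas identity. -/

open Complex MeasureTheory
open scoped Real ComplexConjugate

namespace RV5

noncomputable section

/-- `e τ = exp (2 π i τ)` -/
def e (τ : ℂ) : ℂ := Complex.exp (2 * π * I * τ)

/-- `∑ σ_k(n) q^n` -/
def S (k : ℕ) (q : ℂ) : ℂ := ∑' n : ℕ, (ArithmeticFunction.sigma k n : ℂ) * q ^ n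

/-- `∑ σ_k(n)/n q^n` -/
def R (k : ℕ) (q : ℂ) : ℂ := ∑' n : ℕ, (ArithmeticFunction.sigma k n : ℂ) / n * q ^ n

def P (q : ℂ) : ℂ := 1 - 24 * S 1 q

def Q (q : ℂ) : ℂ := 1 + 240 * S 3 q

def Bf (q : ℂ) : ℂ := (3 * P (q ^ 3) - P q) / 2

def Cf (q : ℂ) : ℂ := (3 * P (q ^ 6) - P (q ^ 2)) / 2

def eL (q : ℂ) : ℂ := 1 + 6 * (S 1 q - 2 * S 1 (q ^ 2) + 3 * S 1 (q ^ 3) - 6 * S 1 (q ^ 6))

def eS (q : ℂ) : ℂ := 1 + 2 * (S 3 q - 16 * S 3 (q ^ 2) - 9 * S 3 (q ^ 3) + 144 * S 3 (q ^ 6))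

def l0 (q : ℂ) : ℂ := 6 * (R 1 q - R 1 (q ^ 2) + R 1 (q ^ 3) - R 1 (q ^ 6))

def A0 (q : ℂ) : ℂ := 2 * (R 3 q - 8 * R 3 (q ^ 2) - 3 * R 3 (q ^ 3) + 24 * R 3 (q ^ 6))

def Psi1 (q : ℂ) : ℂ := A0 q - l0 q

/-- the Hauptmodul `z = -(η₂η₆/η₁η₃)^6` as a function of `q` -/
def zf (q : ℂ) : ℂ := -(q * Complex.exp (l0 q))

def ell (τ : ℂ) : ℂ := 2 * π * I * τ + l0 (e τ)

def cA (τ : ℂ) : ℂ := 2 * π * I * τ + A0 (e τ)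

def IsPsi (Ψ : ℂ → ℂ) : Prop :=
  DifferentiableOn ℂ Ψ (Metric.ball 0 1) ∧ Ψ 0 = 0 ∧
    (∀ q : ℂ, ‖q‖ < 1 → q * deriv Ψ q = eL q * Psi1 q) ∧
    ∀ r : ℝ, 0 ≤ r → r < 1 → (Ψ r).im = 0

/-- the CM point `(-3 + i √15)/24` -/
def tau0 : ℂ := (-3 + I * (√15 : ℝ)) / 24

/-- `θ = (1 + i √15)/2`, `θ² = θ - 4` -/
def th : ℂ := (1 + I * (√15 : ℝ)) / 2

def sN (t : Fin 3 → ℝ) : ℝ := ‖1 + ∑ j, RV6.ee (t j)‖ ^ 2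

def mom (n : ℕ) : ℝ := ∫ t in Set.Icc (0 : Fin 3 → ℝ) 1, sN t ^ n

def mP : ℝ := ∫ t in Set.Icc (0 : Fin 3 → ℝ) 1, Real.posLog (sN t)

def m5 : ℝ := ∫ t in Set.Icc (0 : Fin 4 → ℝ) 1, Real.log ‖1 + ∑ j, RV6.ee (t j)‖

/-- the recurrence of the Domb numbers `1, 4, 28, 256, ...` -/
def Rec (a : ℕ → ℂ) : Prop :=
  a 0 = 1 ∧ ∀ n : ℕ, ((n : ℂ) + 1) ^ 3 * a (n + 1) =
    2 * (2 * n + 1) * (5 * (n : ℂ) ^ 2 + 5 * n + 2) * a n - 64 * (n : ℂ) ^ 3 * a (n - 1)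

/-- lattice points `6 m τ + n` -/
def pt (τ : ℂ) (p : ℤ × ℤ) : ℂ := 6 * p.1 * τ + p.2

def chi (t : ℂ) : ℂ := 1 / (t ^ 4 * conj t ^ 2)

/-- twice the second derivative of `1/(a b)` along the quadratic form `(x, y, z)` -/
def ww (x y z a b : ℂ) : ℂ := 2 * (x / (a ^ 3 * b) + y / (a ^ 2 * b ^ 2) + z / (a * b ^ 3))

/-- the area cocycle -/
def ct (q : ℂ × ℂ × ℂ) (a b : ℂ) : ℂ :=
  ww q.1 q.2.1 q.2.2 a b / conj (b * (-a - b)) -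
    ww q.2.2 (-q.2.1 - q.2.2) (q.1 + 2 * q.2.1 + q.2.2) b (-a - b) / conj (a * b)

def om (a b : ℂ) : ℂ :=
  -1 / (a * b ^ 2) * conj (-1 / (b ^ 2 * (-a - b)) + 1 / (b * (-a - b) ^ 2))

def g (a b : ℂ) : ℝ := (ct (0, 0, 1) a b).im + 2 * (om a b).im

def ind (d n : ℤ) : ℝ := if d ∣ n then 1 else 0

def phi0 (n₁ n₂ : ℤ) : ℝ :=
  -2 * ind 2 n₂ + 6 * ind 6 n₂ - 6 * (ind 2 n₁ * ind 3 n₂) - 36 * (ind 3 n₁ * ind 6 n₂)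

def phiL (n : ℤ) : ℝ := -1 + 2 * ind 2 n - 3 * ind 3 n + 6 * ind 6 n

def phiE (n : ℤ) : ℝ := 1 - ind 2 n - 9 * ind 3 n + 9 * ind 6 n

def hA (a : ℂ) : ℝ := 1 / normSq a

def hR (a : ℂ) : ℝ := (1 / a ^ 2).re

def k3 (b : ℂ) : ℝ := (1 / b ^ 3).re

def k4 (b : ℂ) : ℝ := (1 / b ^ 4).re

def bb (b : ℂ) : ℝ := (2 * (1 / b ^ 2).re + 1 / normSq b) / normSq b

def cc (b : ℂ) : ℝ := 2 * (1 / b).re / normSq b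

def ef (a b : ℂ) : ℝ := 3 * (hA a * k4 b) - hR a * bb b

def mf (b c : ℂ) : ℝ := 2 * (cc b * k3 c) - 2 * (cc c * k3 b)

open Classical in
def dd (a b : ℂ) : ℝ :=
  if a ≠ 0 ∧ b ≠ 0 ∧ a + b ≠ 0 then
    ef a b - ef (a + b) b + ef b (a + b) - ef a (a + b) + mf b (a + b)
  else 0

/-- the summable majorant -/
def MM (a b : ℂ) : ℝ :=
  1 / (‖a‖ * ‖b‖) ^ 3 + 1 / (‖b‖ * ‖a + b‖) ^ 3 + 1 / (‖a + b‖ * ‖a‖) ^ 3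

def GG (τ : ℂ) : ℝ := ∑' x : (ℤ × ℤ) × (ℤ × ℤ), phi0 x.1.2 x.2.2 * g (pt τ x.1) (pt τ x.2)

def WW (τ : ℂ) : ℝ := ∑' p : ℤ × ℤ, phiE p.2 * (chi (pt τ p)).im

def Va (τ : ℂ) : ℝ := ∑' m : ℤ, ∑' n : ℤ, phiL n * hA (pt τ (m, n))

def Vr (τ : ℂ) : ℝ := ∑' m : ℤ, ∑' n : ℤ, phiL n * hR (pt τ (m, n))

def K4 (τ : ℂ) : ℝ := ∑' p : ℤ × ℤ, phiE p.2 * k4 (pt τ p)

def Kb (τ : ℂ) : ℝ := ∑' p : ℤ × ℤ, phiE p.2 * bb (pt τ p)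

def T0 : ℂ :=
  ∑' x : (ℤ × ℤ) × (ℤ × ℤ), (phi0 x.1.2 x.2.2 : ℂ) * ct (0, 0, 1) (pt tau0 x.1) (pt tau0 x.2)

def ZE : ℂ := ∑' p : ℤ × ℤ, (phiE p.2 : ℂ) * chi (pt tau0 p)

def Z0 : ℂ := ∑' p : ℤ × ℤ, chi (p.1 + p.2 * th)

def Z1 : ℂ := ∑' p : ℤ × ℤ, chi (3 * p.1 + p.2 * (th + 1))

/-- the weight 3 level 15 cusp form -/
def f15 (τ : ℂ) : ℂ :=
  ModularForm.eta (3 * τ) ^ 3 * ModularForm.eta (5 * τ) ^ 3 +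
    ModularForm.eta τ ^ 3 * ModularForm.eta (15 * τ) ^ 3

def thT (u v : ℝ) (p : ℤ × ℤ) : ℝ :=
  (4 * p.1 + 1) * (4 * p.2 + 1) / ((u * (4 * p.1 + 1) ^ 2 + v * (4 * p.2 + 1) ^ 2) / 8) ^ 4

/-- `L(f,4)` as a sum of two binary theta series -/
def ThL : ℝ := (∑' p : ℤ × ℤ, thT 3 5 p) + ∑' p : ℤ × ℤ, thT 1 15 p

end

end RV5
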