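import Pool.Agent.Lib.RV5.Blue

/-! Jensen's formula in the last variable: `m5 = mP / 2`. -/

open Real Filter Topology Set MeasureTheory
open scoped ENNReal

namespace RV5

namespace Jen

open RV6

lemma log_le_six {z : ℂ} (h : ‖z‖ ≤ 6) : 0 ≤ log 6 - log ‖z‖ := by
  rw [sub_nonneg]
  rcases (norm_nonneg z).eq_or_lt with h0 | h0
  · rw [← h0, log_zero]; exact log_nonneg (by norm_num)
  · exact log_le_log h0 h

lemma jensen1 {A : ℂ} (hA : ‖A‖ ≤ 5) :
    ∫⁻ c, ENNReal.ofReal (log 6 - log ‖A + ee c‖) ∂nu = ENNReal.ofReal (log 6 - log⁺ ‖A‖) := by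
  have e : ∀ c, A + ee c = circleMap 0 1 (2 * π * c) - -A := fun c => by
    simp only [circleMap, ee]; push_cast; ring
  have h2 : IntervalIntegrable (fun c => log ‖A + ee c‖) volume 0 1 := by
    have := (circleIntegrable_log_norm_sub_const (a := -A) (c := 0) 1).comp_mul_left (c := 2 * π)
    simp_rw [e]
    simpa [pi_pos.ne'] using this
  have h3 : ∫ c in (0 : ℝ)..1, log ‖A + ee c‖ = log⁺ ‖A‖ := by
    have := circleAverage_log_norm_sub_const_eq_log_radius_add_posLog (a := -A) (c := 0)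
      (one_ne_zero (α := ℝ))
    simp_rw [e]
    rw [intervalIntegral.integral_comp_mul_left
      (fun θ => log ‖circleMap 0 1 θ - -A‖) two_pi_pos.ne', mul_zero, mul_one,
      ← circleAverage_def (f := fun z => log ‖z - -A‖), this]
    simp
  rw [nu, ← restrict_Ioc_eq_restrict_Icc, ← ofReal_integral_eq_lintegral_ofReal
    (intervalIntegrable_const.sub h2).1 (.of_forall fun c => ?_),
    ← intervalIntegral.integral_of_le zero_le_one,
    intervalIntegral.integral_sub intervalIntegrable_const h2, h3]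
  · simp
  · refine log_le_six ((norm_add_le _ _).trans ?_)
    rw [norm_ee]; linarith

lemma norm_sum_le (n : ℕ) (x : Fin n → ℝ) : ‖1 + ∑ j, ee (x j)‖ ≤ 1 + n := by
  refine (norm_add_le _ _).trans ?_
  have := _root_.norm_sum_le Finset.univ fun j => ee (x j)
  simp only [norm_ee] at this
  simpa using this

lemma vol_restr (n : ℕ) :
    (volume : Measure (Fin n → ℝ)).restrict (Icc 0 1) = Measure.pi fun _ => nu := by
  rw [← pi_univ_Icc, volume_pi, Measure.restrict_pi_pi]; rfl

lemma lint4 : ∫⁻ x : Fin 4 → ℝ, ENNReal.ofReal (log 6 - log ‖1 + ∑ j, ee (x j)‖)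
    ∂Measure.pi (fun _ => nu) =
    ∫⁻ x : Fin 3 → ℝ, ENNReal.ofReal (log 6 - log⁺ ‖1 + ∑ j, ee (x j)‖)
      ∂Measure.pi (fun _ => nu) := by
  have hee := measurable_ee
  have hg : Measurable fun z : ℂ => ENNReal.ofReal (log 6 - log ‖z‖) := by fun_prop
  rw [lint_fin_succ 3 hg 1, lintegral_lintegral_swap
    (f := fun (a : ℝ) (x : Fin 3 → ℝ) => ENNReal.ofReal (log 6 - log ‖1 + ee a + ∑ j, ee (x j)‖))
    (Measurable.aemeasurable
    (hg.comp (f := fun z : ℝ × (Fin 3 → ℝ) => 1 + ee z.1 + ∑ j, ee (z.2 j)) (by fun_prop)))]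
  refine lintegral_congr fun x => ?_
  rw [← jensen1 ((norm_sum_le 3 x).trans (by norm_num))]
  refine lintegral_congr fun a => ?_
  rw [add_right_comm]

lemma posLog_le {r : ℝ} (h0 : 0 ≤ r) (h : r ≤ 6) : 0 ≤ log 6 - log⁺ r := by
  rw [sub_nonneg, posLog_eq_log_max_one h0]
  exact log_le_log (by positivity) (max_le (by norm_num) h)

end Jen

open RV6 Jen in
theorem jen : JEN := by
  have hee := measurable_ee
  have hcp : Continuous fun x : Fin 3 → ℝ => log⁺ ‖1 + ∑ j, ee (x j)‖ := by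
    have := continuous_ee
    exact continuous_posLog.comp (by fun_prop)
  have hn3 : ∀ x : Fin 3 → ℝ, 0 ≤ log 6 - log⁺ ‖1 + ∑ j, ee (x j)‖ := fun x =>
    posLog_le (norm_nonneg _) ((Jen.norm_sum_le 3 x).trans (by norm_num))
  have hn4 : ∀ x : Fin 4 → ℝ, 0 ≤ log 6 - log ‖1 + ∑ j, ee (x j)‖ := fun x =>
    log_le_six ((Jen.norm_sum_le 4 x).trans (by norm_num))
  have hi3 : Integrable (fun x : Fin 3 → ℝ => log⁺ ‖1 + ∑ j, ee (x j)‖)
      (Measure.pi fun _ => nu) := by
    refine (integrable_const (log 6)).mono' hcp.aestronglyMeasurable (.of_forall fun x => ?_)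
    rw [Real.norm_of_nonneg posLog_nonneg]
    linarith [hn3 x]
  have hi3' : Integrable (fun x : Fin 3 → ℝ => log 6 - log⁺ ‖1 + ∑ j, ee (x j)‖)
      (Measure.pi fun _ => nu) := (integrable_const _).sub hi3
  have hl := lint4
  rw [← ofReal_integral_eq_lintegral_ofReal hi3' (.of_forall hn3)] at hl
  have hm : Measurable fun x : Fin 4 → ℝ => log 6 - log ‖1 + ∑ j, ee (x j)‖ := by fun_prop
  have hi : Integrable (fun x : Fin 4 → ℝ => log 6 - log ‖1 + ∑ j, ee (x j)‖)
      (Measure.pi fun _ => nu) := by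
    refine ⟨hm.aestronglyMeasurable, ?_⟩
    rw [hasFiniteIntegral_iff_ofReal (.of_forall hn4), hl]
    exact ENNReal.ofReal_lt_top
  have h1 := integral_eq_lintegral_of_nonneg_ae (μ := Measure.pi fun _ => nu) (.of_forall hn4)
    hm.aestronglyMeasurable
  rw [hl, ENNReal.toReal_ofReal (integral_nonneg hn3),
    integral_sub (integrable_const _) hi3] at h1
  have h2 := integral_sub (integrable_const (log 6)) hi
  simp only [sub_sub_cancel, integral_const, probReal_univ, smul_eq_mul, one_mul] at h1 h2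
  have h3 : mP = 2 * ∫ x : Fin 3 → ℝ, log⁺ ‖1 + ∑ j, ee (x j)‖ ∂Measure.pi fun _ => nu := by
    rw [mP, vol_restr, ← integral_const_mul]
    refine integral_congr_ae (.of_forall fun x => ?_)
    simp only [sN, posLog_pow]
    norm_num
  rw [JEN, m5, vol_restr, h2, h1, h3]
  ring

end RV5
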