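import Pool.Agent.Lib.RV5.Basic

/-! Summability over the lattices `6 m τ + n`. -/

open Complex Filter Topology
open scoped Real ComplexConjugate

namespace RV5

lemma summable_lat {z : ℂ} (hz : 0 < z.im) {k : ℕ} (hk : 3 ≤ k) :
    Summable fun p : ℤ × ℤ => 1 / ‖(p.1 : ℂ) * z + p.2‖ ^ k := by
  have h := (EisensteinSeries.summable_one_div_norm_rpow (k := k)
    (by exact_mod_cast hk)).mul_left (EisensteinSeries.r ⟨z, hz⟩ ^ (-(k : ℝ)))
  rw [← (piFinTwoEquiv fun _ => ℤ).summable_iff]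
  refine Summable.of_nonneg_of_le (fun _ => by simp only [Function.comp]; positivity)
    (fun x => ?_) h
  have := EisensteinSeries.summand_bound ⟨z, hz⟩ (k := k) (by positivity) x
  rw [Real.rpow_neg (norm_nonneg _), Real.rpow_natCast] at this
  simpa using this

lemma pt_eq (τ : ℂ) (p : ℤ × ℤ) : pt τ p = (p.1 : ℂ) * (6 * τ) + p.2 := by rw [pt]; ring

lemma pt_add (τ : ℂ) (p p' : ℤ × ℤ) : pt τ (p + p') = pt τ p + pt τ p' := by
  simp only [pt, Prod.fst_add, Prod.snd_add]; push_cast; ring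

lemma pt_neg (τ : ℂ) (p : ℤ × ℤ) : pt τ (-p) = -pt τ p := by
  simp only [pt, Prod.fst_neg, Prod.snd_neg]; push_cast; ring

lemma pt_zero (τ : ℂ) : pt τ 0 = 0 := by simp [pt]

lemma pt_im (τ : ℂ) (p : ℤ × ℤ) : (pt τ p).im = 6 * p.1 * τ.im := by simp [pt]

lemma pt_re (τ : ℂ) (p : ℤ × ℤ) : (pt τ p).re = 6 * p.1 * τ.re + p.2 := by simp [pt]

lemma pt_eq_zero {τ : ℂ} (h : 0 < τ.im) {p : ℤ × ℤ} : pt τ p = 0 ↔ p = 0 := by
  refine ⟨fun h0 => ?_, fun h0 => h0 ▸ pt_zero τ⟩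
  have h1 := pt_im τ p
  have h2 := pt_re τ p
  rw [h0, Complex.zero_im] at h1
  rw [h0, Complex.zero_re] at h2
  have h3 : (p.1 : ℝ) = 0 := by
    rcases mul_eq_zero.mp h1.symm with h4 | h4
    · linarith
    · linarith
  rw [h3] at h2
  ext
  · exact_mod_cast h3
  · have : (p.2 : ℝ) = 0 := by linarith
    exact_mod_cast this

/-- moving along a horizontal line -/
lemma pt_shift {τ : ℂ} (h : 0 < τ.im) (u : ℝ) (p : ℤ × ℤ) :
    pt (τ + u) p = pt τ p + ((u / τ.im : ℝ) : ℂ) * ((pt τ p).im : ℂ) := by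
  have : (τ.im : ℂ) ≠ 0 := by exact_mod_cast h.ne'
  rw [pt_im, pt, pt]
  push_cast
  field_simp
  ring

lemma summable_pt {τ : ℂ} (h : 0 < τ.im) {k : ℕ} (hk : 3 ≤ k) :
    Summable fun p : ℤ × ℤ => 1 / ‖pt τ p‖ ^ k := by
  simp only [pt_eq]
  exact summable_lat (by simpa using h) hk

lemma MM_nonneg (a b : ℂ) : 0 ≤ MM a b := by unfold MM; positivity

lemma summable_pt_pair {τ : ℂ} (h : 0 < τ.im) :
    Summable fun x : (ℤ × ℤ) × (ℤ × ℤ) => 1 / (‖pt τ x.1‖ * ‖pt τ x.2‖) ^ 3 := by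
  have h3 := summable_pt h (le_refl 3)
  refine (h3.mul_of_nonneg h3 (fun _ => by positivity) fun _ => by positivity).congr fun x => ?_
  rw [mul_pow, one_div_mul_one_div]

lemma summable_MM {τ : ℂ} (h : 0 < τ.im) :
    Summable fun x : (ℤ × ℤ) × (ℤ × ℤ) => MM (pt τ x.1) (pt τ x.2) := by
  have h0 := summable_pt_pair h
  have h1 := h0.comp_injective (i := fun x : (ℤ × ℤ) × (ℤ × ℤ) => (x.2, x.1 + x.2))
    fun x y hxy => by
      obtain ⟨e1, e2⟩ := Prod.mk.inj hxy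
      rw [e1, add_left_inj] at e2
      exact Prod.ext e2 e1
  have h2 := h0.comp_injective (i := fun x : (ℤ × ℤ) × (ℤ × ℤ) => (x.1 + x.2, x.1))
    fun x y hxy => by
      obtain ⟨e1, e2⟩ := Prod.mk.inj hxy
      rw [e2, add_right_inj] at e1
      exact Prod.ext e2 e1
  refine ((h0.add h1).add h2).congr fun x => ?_
  simp only [MM, Function.comp, pt_add]

/-- locally uniform comparison along a horizontal line -/
lemma pt_compare {τ : ℂ} (h : 0 < τ.im) (U : ℝ) :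
    ∃ c : ℝ, 0 < c ∧ ∀ u : ℝ, |u| ≤ U → ∀ p, c * ‖pt τ p‖ ≤ ‖pt (τ + u) p‖ := by
  refine ⟨1 / (1 + |U| / τ.im), by positivity, fun u hu p => ?_⟩
  have h1 : pt τ p = pt (τ + u) p + ((-u / τ.im : ℝ) : ℂ) * ((pt (τ + u) p).im : ℂ) := by
    have := pt_shift (τ := τ + u) (by simpa using h) (-u) p
    simpa using this
  rw [div_mul_eq_mul_div, one_mul, div_le_iff₀ (by positivity)]
  calc ‖pt τ p‖ ≤ ‖pt (τ + u) p‖ + ‖((-u / τ.im : ℝ) : ℂ) * ((pt (τ + u) p).im : ℂ)‖ := by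
        conv_lhs => rw [h1]
        exact norm_add_le _ _
    _ ≤ ‖pt (τ + u) p‖ + |U| / τ.im * ‖pt (τ + u) p‖ := by
        rw [norm_mul, Complex.norm_real, Complex.norm_real, Real.norm_eq_abs, Real.norm_eq_abs,
          abs_div, abs_neg, abs_of_pos h]
        have h2 := hu.trans (le_abs_self U)
        have h3 := Complex.abs_im_le_norm (pt (τ + u) p)
        gcongr
    _ = _ := by ring

lemma abs_ind_le (d n : ℤ) : |ind d n| ≤ 1 := by unfold ind; split_ifs <;> simp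

lemma ind_neg (d n : ℤ) : ind d (-n) = ind d n := by simp [ind]

lemma abs_phi0_le (a b : ℤ) : |phi0 a b| ≤ 50 := by
  unfold phi0 ind; split_ifs <;> norm_num

lemma abs_phiL_le (a : ℤ) : |phiL a| ≤ 12 := by
  unfold phiL ind; split_ifs <;> norm_num

lemma abs_phiE_le (a : ℤ) : |phiE a| ≤ 20 := by
  unfold phiE ind; split_ifs <;> norm_num

end RV5
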